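import Pool.Agent.H509.MO.Stm
import Pool.Graph.R_seed8.W206.MS.Res

/-!
# Project MO (helper509), ABR: the square root inside the real numbers (by helper720)
-/

set_option autoImplicit false
set_option linter.unusedSectionVars false

open NumberField IsDedekindDomain

noncomputable section

namespace Pool.Agent.H720.MO

open Pool.Agent.MO
open Pool.Agent.W206.MS (CondIV extend_hom isAbelianGalois_iSup)
open Pool.Agent.N598.ST (AbRoot)

/-- A real element which is the value of an element of an abelian extension at an embedding generates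
an abelian extension. -/
theorem abelian_adjoin {K M : Type} [Field K] [Algebra K ℝ] [Field M] [Algebra K M]
    [IsAbelianGalois K M] (φ : M →+* ℂ)
    (hφ : φ.comp (algebraMap K M) = Complex.ofRealHom.comp (algebraMap K ℝ)) (y : M) (x : ℝ)
    (hy : φ y = (x : ℂ)) : IsAbelianGalois K (IntermediateField.adjoin K {x}) := by
  have key : ∀ p : Polynomial K, φ (Polynomial.aeval y p) = ((Polynomial.aeval x p : ℝ) : ℂ) := by
    intro p
    have h1 : φ (Polynomial.aeval y p) = Polynomial.eval₂ (φ.comp (algebraMap K M)) (φ y) p := by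
      rw [Polynomial.aeval_def, Polynomial.hom_eval₂]
    have h2 : ((Polynomial.aeval x p : ℝ) : ℂ) =
        Polynomial.eval₂ (Complex.ofRealHom.comp (algebraMap K ℝ)) (Complex.ofRealHom x) p := by
      rw [← Polynomial.hom_eval₂]
      rfl
    rw [h1, h2, hφ, hy]
    rfl
  have hint : IsIntegral K y := Algebra.IsIntegral.isIntegral y
  have hx : IsIntegral K x := by
    refine ⟨minpoly K y, minpoly.monic hint, ?_⟩
    have h1 := key (minpoly K y)
    rw [minpoly.aeval, map_zero] at h1
    exact Complex.ofReal_eq_zero.1 h1.symm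
  have hroot : Polynomial.aeval y (minpoly K x) = 0 := by
    apply φ.injective
    rw [key, minpoly.aeval, map_zero, Complex.ofReal_zero]
  have hmem : y ∈ (minpoly K x).aroots M :=
    Polynomial.mem_aroots.2 ⟨minpoly.ne_zero hx, hroot⟩
  exact IsAbelianGalois.of_algHom
    ((IntermediateField.algHomAdjoinIntegralEquiv K hx).symm ⟨y, hmem⟩)

/-- **ABR.** -/
theorem abr : S_ABR := by
  intro K _ _ _ H _ _ F e ⟨M, _, _, _, _, hab, z, hz, _⟩ hpos
  let j : F →+* ℂ := Complex.ofRealHom.comp ((algebraMap H ℝ).comp (algebraMap F H))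
  obtain ⟨φ, hφ⟩ := extend_hom (k := K) (IsScalarTower.toAlgHom K F M) j
  have hφK : φ.comp (algebraMap K M) = Complex.ofRealHom.comp (algebraMap K ℝ) := by
    apply RingHom.ext
    intro x
    have h1 := hφ (algebraMap K F x)
    rw [AlgHom.commutes] at h1
    rw [RingHom.comp_apply, h1]
    rfl
  have hz2 : φ z ^ 2 = ((Real.sqrt ((e : H) : ℝ) : ℝ) : ℂ) ^ 2 := by
    rw [← map_pow, hz]
    have h1 := hφ e
    have h2 : (IsScalarTower.toAlgHom K F M) e = algebraMap F M e := rfl
    rw [h2] at h1
    rw [h1, ← Complex.ofReal_pow, Real.sq_sqrt hpos.le]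
    rfl
  obtain ⟨y, hy⟩ : ∃ y : M, φ y = ((Real.sqrt ((e : H) : ℝ) : ℝ) : ℂ) := by
    rcases sq_eq_sq_iff_eq_or_eq_neg.1 hz2 with h | h
    · exact ⟨z, h⟩
    · exact ⟨-z, by rw [map_neg, h, neg_neg]⟩
  have hadj := abelian_adjoin φ hφK y _ hy
  unfold CondIV
  rw [sup_eq_iSup]
  refine isAbelianGalois_iSup _ fun b => ?_
  cases b
  · exact hadj
  · show IsAbelianGalois K H
    infer_instance

end Pool.Agent.H720.MO
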