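import Pool.Agent.H509.MO.Stm

/-!
# Project MO: APX, approximation by a positive element congruent to one
-/

set_option autoImplicit false

open NumberField IsDedekindDomain

namespace Pool.Agent.H161.MO

theorem apx0 (K : Type) [Field K] [NumberField K] (σ : K →+* ℝ) (𝔟 𝔫 I : Ideal (𝓞 K)) (hb : 𝔟 ≠ ⊥)
    (hbn : 𝔟 ≤ 𝔫) (hI : I ≠ ⊥) (hIn : I ⊔ 𝔫 = ⊤) : ∃ (x : 𝓞 K) (B : Ideal (𝓞 K)), x ≠ 0 ∧
  Ideal.span {x} = I * B ∧ B ⊔ 𝔟 = ⊤ ∧ x - 1 ∈ 𝔫 ∧ 0 < σ (x : K) := by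
  classical
  -- the primes dividing `𝔟` and not dividing `𝔫`
  have hfin : {v : HeightOneSpectrum (𝓞 K) | v.asIdeal ∣ 𝔟}.Finite := Ideal.finite_factors hb
  obtain ⟨s, hs⟩ : ∃ s : Finset (HeightOneSpectrum (𝓞 K)),
      s = hfin.toFinset.filter (fun v => ¬ 𝔫 ≤ v.asIdeal) := ⟨_, rfl⟩
  obtain ⟨𝔠, h𝔠⟩ : ∃ 𝔠 : Ideal (𝓞 K), 𝔠 = ∏ v ∈ s, v.asIdeal := ⟨_, rfl⟩
  have h1 : 𝔫 ⊔ 𝔠 = ⊤ := by
    rw [h𝔠]
    apply Ideal.sup_prod_eq_top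
    intro v hv
    rw [hs, Finset.mem_filter] at hv
    exact v.isMaximal.1.2 _ (lt_of_le_of_ne le_sup_right fun h => hv.2 (by rw [h]; exact le_sup_left))
  have hIb : I * 𝔟 ≠ ⊥ := mul_ne_zero hI hb
  obtain ⟨a, ha⟩ := IsDedekindDomain.exists_sup_span_eq (Ideal.mul_le_left : I * 𝔟 ≤ I) hIb
  have haI : a ∈ I := by
    rw [← ha]
    exact Ideal.mem_sup_right (Ideal.mem_span_singleton_self a)
  obtain ⟨x₁, hx₁, y₁, hy₁, hxy⟩ := Submodule.mem_sup.mp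
    (show (1 : 𝓞 K) ∈ I ⊔ 𝔫 by rw [hIn]; exact Submodule.mem_top)
  obtain ⟨u, hu, w, hw, huw⟩ := Submodule.mem_sup.mp
    (show (1 : 𝓞 K) ∈ 𝔫 ⊔ 𝔠 by rw [h1]; exact Submodule.mem_top)
  -- a large positive integer in `I * 𝔟`
  have hN : (Ideal.absNorm (I * 𝔟) : 𝓞 K) ∈ I * 𝔟 := Ideal.absNorm_mem _
  have hN0 : 0 < Ideal.absNorm (I * 𝔟) := Nat.pos_of_ne_zero (by
    rw [Ne, Ideal.absNorm_eq_zero_iff]
    exact hIb)
  obtain ⟨k, hk⟩ := exists_nat_gt (-(σ ((u * a + w * x₁ : 𝓞 K) : K)))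
  obtain ⟨x, hx⟩ : ∃ x : 𝓞 K, x = u * a + w * x₁ + (k : 𝓞 K) * (Ideal.absNorm (I * 𝔟) : 𝓞 K) :=
    ⟨_, rfl⟩
  have hkN : (k : 𝓞 K) * (Ideal.absNorm (I * 𝔟) : 𝓞 K) ∈ I * 𝔟 := Ideal.mul_mem_left _ _ hN
  have hσ : 0 < σ (x : K) := by
    have h2 : σ (x : K) = σ ((u * a + w * x₁ : 𝓞 K) : K) + (k : ℝ) * (Ideal.absNorm (I * 𝔟) : ℝ) := by
      rw [hx]
      push_cast
      simp only [map_add, map_mul, map_natCast]
    have h3 : (k : ℝ) * 1 ≤ (k : ℝ) * (Ideal.absNorm (I * 𝔟) : ℝ) :=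
      mul_le_mul_of_nonneg_left (by exact_mod_cast hN0) (Nat.cast_nonneg _)
    rw [h2]
    linarith
  have hx0 : x ≠ 0 := by
    rintro h
    rw [h] at hσ
    simp at hσ
  have hxI : x ∈ I := by
    rw [hx]
    exact I.add_mem (I.add_mem (I.mul_mem_left _ haI) (I.mul_mem_left _ hx₁))
      (Ideal.mul_le_left hkN)
  have hxn : x - 1 ∈ 𝔫 := by
    have h2 : x - 1 = u * a - w * y₁ - u + (k : 𝓞 K) * (Ideal.absNorm (I * 𝔟) : 𝓞 K) := by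
      rw [hx]
      linear_combination w * hxy + huw
    rw [h2]
    exact 𝔫.add_mem (𝔫.sub_mem (𝔫.sub_mem (𝔫.mul_mem_right _ hu) (𝔫.mul_mem_left _ hy₁)) hu)
      (hbn (Ideal.mul_le_right hkN))
  have hxa : x - a ∈ 𝔠 * I ⊔ I * 𝔟 := by
    have h2 : x - a = w * (x₁ - a) + (k : 𝓞 K) * (Ideal.absNorm (I * 𝔟) : 𝓞 K) := by
      rw [hx]
      linear_combination a * huw
    rw [h2]
    exact Submodule.add_mem_sup (Ideal.mul_mem_mul hw (I.sub_mem hx₁ haI)) hkN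
  obtain ⟨B, hB⟩ : I ∣ Ideal.span {x} := Ideal.dvd_span_singleton.mpr hxI
  refine ⟨x, B, hx0, hB, ?_, hxn, hσ⟩
  by_contra hne
  obtain ⟨M, hM, hBM⟩ := Ideal.exists_le_maximal _ hne
  have hbM : 𝔟 ≤ M := le_sup_right.trans hBM
  have hM0 : M ≠ ⊥ := by
    rintro rfl
    exact hb (le_bot_iff.mp hbM)
  have hxB : x ∈ I * B := by
    rw [← hB]
    exact Ideal.mem_span_singleton_self x
  by_cases hnM : 𝔫 ≤ M
  · apply hM.ne_top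
    rw [Ideal.eq_top_iff_one]
    have h2 : x ∈ M := (le_sup_left.trans hBM) (Ideal.mul_le_right hxB)
    have h3 := M.sub_mem h2 (hnM hxn)
    rwa [sub_sub_cancel] at h3
  · obtain ⟨v, hv⟩ : ∃ v : HeightOneSpectrum (𝓞 K), v.asIdeal = M := ⟨⟨M, hM.isPrime, hM0⟩, rfl⟩
    have hvs : v ∈ s := by
      rw [hs, Finset.mem_filter, Set.Finite.mem_toFinset, Set.mem_ofPred_eq, hv]
      exact ⟨Ideal.dvd_iff_le.mpr hbM, hnM⟩
    have hcM : 𝔠 ≤ M := by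
      rw [h𝔠, ← hv]
      exact Ideal.le_of_dvd (Finset.dvd_prod_of_mem _ hvs)
    have hbM' : I * 𝔟 ≤ I * M := Ideal.mul_mono_right hbM
    have h2 : x - a ∈ I * M := by
      refine (sup_le ?_ hbM') hxa
      rw [mul_comm]
      exact Ideal.mul_mono_right hcM
    have h3 : x ∈ I * M := Ideal.mul_mono_right (le_sup_left.trans hBM) hxB
    have h4 : a ∈ I * M := by
      have := (I * M).sub_mem h3 h2
      rwa [sub_sub_cancel] at this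
    have h5 : I ≤ I * M := by
      conv_lhs => rw [← ha]
      exact sup_le hbM' ((Ideal.span_singleton_le_iff_mem _).mpr h4)
    have h6 : I * M = I * ⊤ := by
      rw [Ideal.mul_top]
      exact le_antisymm Ideal.mul_le_left h5
    exact hM.ne_top (mul_left_cancel₀ hI h6)

theorem apx : Pool.Agent.MO.S_APX := fun K _ _ σ 𝔟 𝔫 I hb hbn hI hIn =>
  apx0 K σ 𝔟 𝔫 I hb hbn hI hIn

end Pool.Agent.H161.MO
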