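import Pool.Agent.H509.MO.EStm

/-!
# Project MO: `S_ART`, a Galois extension whose group maps onto `G` by the Artin map
-/

set_option autoImplicit false
set_option linter.unusedSectionVars false

open NumberField IsDedekindDomain

noncomputable section

namespace Pool.Agent.H79.MO

open Pool.Agent.MO
open Pool.Agent.Q92.AR (Dv prin Pr Ray RayD art art_single Pos Cong frob frob_spec Unramified Ram
  IsFrobenius isFrobenius_conj mem_Pr)

/-- characters separate the elements of a finite commutative group -/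
theorem char_sep {G : Type} [CommGroup G] [Finite G] {h h' : G}
    (H : ∀ χ : G →* ℂˣ, χ h = χ h') : h = h' := by
  by_contra hne
  have h1 : h * h'⁻¹ ≠ 1 := fun e => hne (mul_inv_eq_one.1 e)
  obtain ⟨χ, hχ⟩ := CommGroup.exists_apply_ne_one_of_hasEnoughRootsOfUnity G ℂ h1
  apply hχ
  rw [map_mul, map_inv, H χ, mul_inv_cancel]

/-- the primes dividing `N` -/
theorem finite_dvd (K : Type) [Field K] [NumberField K] {N : ℕ} (hN : N ≠ 0) :
    {v : HeightOneSpectrum (𝓞 K) | (N : 𝓞 K) ∈ v.asIdeal}.Finite := by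
  have h0 : Ideal.span {(N : 𝓞 K)} ≠ 0 := by
    rw [Ne, Ideal.zero_eq_bot, Ideal.span_singleton_eq_bot]
    exact_mod_cast hN
  refine (Ideal.finite_factors h0).subset ?_
  intro v hv
  show v.asIdeal ∣ Ideal.span {(N : 𝓞 K)}
  rw [Ideal.dvd_span_singleton]
  exact hv

theorem art' : S_ART := by
  classical
  intro hAPX hDVH K _ _ σ 𝔟 h𝔟 G _ A hA
  obtain ⟨A', d1, d2, d3⟩ := hDVH hAPX K σ 𝔟 h𝔟 G A hA
  set N₀ : ℕ := Ideal.absNorm 𝔟 with hN₀
  have hN₀0 : N₀ ≠ 0 := by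
    rw [hN₀, Ne, Ideal.absNorm_eq_zero_iff]
    exact h𝔟
  have hN₀m : (N₀ : 𝓞 K) ∈ 𝔟 := Ideal.absNorm_mem 𝔟
  -- `G` is finite
  have hfin : Finite G := by
    let H : AddSubgroup (Pr K N₀) := (RayD K N₀).addSubgroupOf (Pr K N₀)
    have hidx : H.index ≠ 0 := Pool.Agent.Q92.AR.all_Fin K N₀ hN₀0
    have hfi : H.FiniteIndex := ⟨hidx⟩
    have hf1 : Finite (Pr K N₀ ⧸ H) := inferInstance
    have hker : RayD K N₀ ≤ A'.ker := by
      unfold RayD
      rw [AddSubgroup.closure_le]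
      rintro _ ⟨x, hx, rfl⟩
      exact d2 x hx
    let f : (Pr K N₀ ⧸ H) →+ Additive G := QuotientAddGroup.lift H (A'.comp (Pr K N₀).subtype)
      (fun D hD => hker (AddSubgroup.mem_addSubgroupOf.1 hD))
    have hf : Function.Surjective f := by
      intro g
      obtain ⟨D, hD, hD'⟩ := d3 N₀ hN₀0 g.toMul
      exact ⟨QuotientAddGroup.mk ⟨D, hD⟩, hD'⟩
    have : Finite (Additive G) := Finite.of_surjective f hf
    exact this
  obtain ⟨M, i1, i2, i3, i4, -, -, N, hN, hdvd, hRam, hχ⟩ := Pool.Agent.Q176.SG.xf K K N₀ hN₀0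
  -- the characters
  have hψ : ∀ χ : G →* ℂˣ, ∃ ψ : (M ≃ₐ[K] M) →* ℂˣ, ∀ D ∈ Pr K N,
      art ψ D = (MonoidHom.toAdditive χ) (A' D) := by
    intro χ
    obtain ⟨ψ, h⟩ := hχ ((MonoidHom.toAdditive χ).comp A') (fun x hx => by
      rw [AddMonoidHom.comp_apply, d2 x hx, map_zero])
    exact ⟨ψ, h⟩
  choose Ψ hΨ using hψ
  have hb : ∀ v : HeightOneSpectrum (𝓞 K), (N : 𝓞 K) ∉ v.asIdeal → ¬ 𝔟 ≤ v.asIdeal := by
    intro v hv hle
    apply hv
    obtain ⟨c, hc⟩ := hdvd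
    rw [hc]
    push_cast
    exact v.asIdeal.mul_mem_right _ (hle hN₀m)
  have hsingle : ∀ v : HeightOneSpectrum (𝓞 K), (N : 𝓞 K) ∉ v.asIdeal →
      (Finsupp.single v 1 : Dv K) ∈ Pr K N := by
    intro v hv
    rw [mem_Pr]
    intro v' hv'
    rw [Finsupp.single_apply, if_neg]
    rintro rfl
    exact hv hv'
  have hfrobv : ∀ v : HeightOneSpectrum (𝓞 K), (N : 𝓞 K) ∉ v.asIdeal → ∀ χ : G →* ℂˣ,
      Ψ χ (frob M v) = χ (A v.asIdeal) := by
    intro v hv χ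
    have h1 := hΨ χ _ (hsingle v hv)
    rw [art_single, one_smul, d1 v (hb v hv)] at h1
    exact h1
  have hFr : ∀ v : HeightOneSpectrum (𝓞 K), (N : 𝓞 K) ∉ v.asIdeal → ∀ g : M ≃ₐ[K] M,
      IsFrobenius v g → ∀ χ : G →* ℂˣ, χ (A v.asIdeal) = Ψ χ g := by
    intro v hv g hg χ
    have hu : Unramified M v := by
      by_contra h
      exact hv (hRam v h)
    obtain ⟨h, hh⟩ := isFrobenius_conj hu (frob_spec (M := M) v) hg
    rw [← hfrobv v hv χ, hh, map_mul, map_mul, map_inv, mul_comm, ← mul_assoc, mul_inv_cancel,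
      one_mul]
  have hex : ∀ g : M ≃ₐ[K] M, ∃ h : G, ∀ χ : G →* ℂˣ, χ h = Ψ χ g := by
    intro g
    obtain ⟨v, hv, -, hvg⟩ := Pool.Agent.Q14.AR.cheb K M g _ (finite_dvd K hN)
    exact ⟨A v.asIdeal, hFr v hv g hvg⟩
  choose Φ₀ hΦ₀ using hex
  let Φ : (M ≃ₐ[K] M) →* G :=
    { toFun := Φ₀
      map_one' := char_sep fun χ => by rw [hΦ₀, map_one, map_one]
      map_mul' := fun a b => char_sep fun χ => by
        rw [hΦ₀, map_mul, map_mul, hΦ₀, hΦ₀] }
  have hΦ : ∀ (g : M ≃ₐ[K] M) (χ : G →* ℂˣ), χ (Φ g) = Ψ χ g := hΦ₀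
  have hFrΦ : ∀ v : HeightOneSpectrum (𝓞 K), (N : 𝓞 K) ∉ v.asIdeal → ∀ g : M ≃ₐ[K] M,
      IsFrobenius v g → Φ g = A v.asIdeal := by
    intro v hv g hg
    refine char_sep fun χ => ?_
    rw [hΦ, hFr v hv g hg]
  refine ⟨M, i1, i2, i3, i4, Φ, N, hN, ?_, hRam, ?_, hFrΦ⟩
  · obtain ⟨c, hc⟩ := hdvd
    rw [hc]
    push_cast
    exact 𝔟.mul_mem_right _ hN₀m
  · intro g
    obtain ⟨D, hD, hDg⟩ := d3 N hN g
    have hmem : A' D ∈ Subgroup.toAddSubgroup Φ.range := by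
      rw [← Finsupp.sum_single D, Finsupp.sum, map_sum]
      refine AddSubgroup.sum_mem _ fun v hv => ?_
      have hv0 : D v ≠ 0 := Finsupp.mem_support_iff.1 hv
      have hvN : (N : 𝓞 K) ∉ v.asIdeal := fun h => hv0 (mem_Pr.1 hD v h)
      have e1 : (Finsupp.single v (D v) : Dv K) = D v • Finsupp.single v 1 := by
        rw [Finsupp.smul_single, smul_eq_mul, mul_one]
      rw [e1, map_zsmul]
      refine AddSubgroup.zsmul_mem _ ?_ _
      rw [d1 v (hb v hvN)]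
      exact ⟨frob M v, hFrΦ v hvN _ (frob_spec (M := M) v)⟩
    rw [hDg] at hmem
    obtain ⟨x, hx⟩ := hmem
    exact ⟨x, hx⟩

end Pool.Agent.H79.MO
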