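import Pool.Agent.H509.MO.Core

/-!
# Project MO: assembly
-/

set_option autoImplicit false
set_option linter.unusedSectionVars false

open NumberField IsDedekindDomain

noncomputable section

namespace Pool.Agent.MO

open Pool.Agent.W206.MS (OL IsOrder IsInv InMonoid InJ InP Loc nn Pair sm Good REq Rel cnt IsZ idx contr
  IsRealPrime IsFrobenius IsRayClassField InducesIso CondI CondII CondIII CondIV mkPair
  isOrder_maxOrder mem_maxOrder_of_fg rel_iff isAbelianGalois_iSup isAbelianGalois_le stable_iff)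

/-- All the parts of the project. -/
structure All : Prop where
  dic : S_DIC
  gd : S_GD
  cnt : S_CNT
  nn : S_NN
  apx : S_APX
  rcx : S_RCX
  unt : S_UNT
  cond : S_COND
  conj : S_CONJ
  exa : S_EXA
  prin : S_PRIN
  zex : S_ZEX
  zval : S_ZVAL
  lev : S_LEV
  abr : S_ABR
  lvl : S_LVL
  cls : S_CLS
  fina : S_FINA

/-- **The monoid Stark conjecture, ray class fields of exponent two.** -/
theorem main_of (A : All) (K : Type) [Field K] [NumberField K] [Algebra K ℝ]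
    (hK : Module.finrank ℚ K = 2) (σ : K →+* ℝ) (hσ : σ ≠ algebraMap K ℝ) (O : Subalgebra ℤ K)
    (m : Submodule ℤ K) (hO : IsOrder O) (hm : Pool.Agent.W206.MS.IsModulus O m)
    (H : IntermediateField K ℝ) (Art : Submodule ℤ K → Gal(H/K))
    (hH : IsRayClassField σ O m H Art) (h2 : ∀ g : Gal(H/K), g * g = 1) :
    ∃ ε : Submodule ℤ K → H, ∀ a, InMonoid O m a →
      (∀ b, InMonoid O m b → Rel O m σ b a → ε b = ε a) ∧
      (IsIntegral ℤ (ε a : ℝ) ∧ IsIntegral ℤ (ε a : ℝ)⁻¹) ∧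
      CondI σ O m a (ε a) ∧ CondII O m H Art ε a ∧ CondIII σ H (ε a) ∧ CondIV H (ε a) := by
  classical
  have hfd : FiniteDimensional K H := hH.1.1
  have hab : IsAbelianGalois K H := hH.1.2
  have hNF : NumberField H := NumberField.of_module_finite K H
  have P : Pair O (OK K) m (m / OL (OK K)) :=
    mkPair hO (isOrder_maxOrder K) (mem_maxOrder_of_fg hO.1) hm
  obtain ⟨d1, d2, d3, d4, d5, d6, d7, d8, d9⟩ := A.dic K
  obtain ⟨𝔟, h𝔟⟩ := d8 (m / OL (OK K)) (stable_iff.2 P.mB.mul) (fun x hx => P.mB.le x hx)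
  have hRC : RC (algebraMap K ℝ) σ 𝔟 (aO O Art) :=
    A.rcx A.dic A.gd K σ hK hσ O m hO hm H Art hH 𝔟 h𝔟
  obtain ⟨ρ, hρ1, hρ2, hρ3⟩ := P.exists_rho σ
  have hρO : ρ ∈ OK K := P.le hρ3
  have hρb : (⟨ρ, hρO⟩ : 𝓞 K) + 1 ∈ 𝔟 := by
    have h1 : ρ + 1 ∈ sub 𝔟 := by
      rw [h𝔟]
      exact hρ1
    obtain ⟨y, hy, hy2⟩ := (d1 𝔟 _).1 h1
    have h2 : (⟨ρ, hρO⟩ : 𝓞 K) + 1 = y := by
      apply RingOfIntegers.ext
      rw [hy2]
      rfl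
    rw [h2]
    exact hy
  have hfin : Finite {𝔫 : Ideal (𝓞 K) // 𝔟 ≤ 𝔫} := finite_div hRC.ne_bot
  have hfin2 : Fintype {𝔫 : Ideal (𝓞 K) // 𝔟 ≤ 𝔫} := Fintype.ofFinite _
  let L : ∀ 𝔫 : {𝔫 : Ideal (𝓞 K) // 𝔟 ≤ 𝔫},
      Level σ H 𝔟 (aO O Art) (aO O Art (Ideal.span {(⟨ρ, hρO⟩ : 𝓞 K)})) 𝔫.1 := fun 𝔫 =>
    (A.lvl A.unt A.cond A.conj A.exa A.prin A.zex A.zval A.lev A.abr K σ hK H h2 𝔟 (aO O Art) hRC
      ⟨ρ, hρO⟩ hρb hρ2 𝔫.1 𝔫.2).some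
  have hcls : ∀ 𝔫, ClsP O m Art (L 𝔫) := fun 𝔫 =>
    A.cls A.dic A.gd A.nn A.apx K σ O m _ P 𝔟 h𝔟 H h2 Art hH.2.1 hRC _ 𝔫.1 𝔫.2 (L 𝔫)
  refine core_units L hcls hH.1 (fun x y hy => rel_iff P.mM P.fin_m hy) (fun x hx => ?_) fun 𝔫 => ?_
  · exact A.fina A.dic A.gd A.cnt K σ O m _ P 𝔟 h𝔟 H h2 Art hH.2.1 hRC ⟨ρ, hρO⟩ hρb hρ2 L hcls x hx
  · have h1 : 𝔟 = 𝔫.1 * cof 𝔟 𝔫.1 := by
      have h2 : 𝔫.1 ∣ 𝔟 := Ideal.dvd_iff_le.2 𝔫.2
      unfold cof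
      rw [dif_pos h2]
      exact h2.choose_spec
    intro h3
    rw [Ideal.absNorm_eq_zero_iff] at h3
    rw [h3, Ideal.mul_bot] at h1
    exact hRC.ne_bot h1

end Pool.Agent.MO
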