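import Pool.Agent.H509.MO.Stm

/-!
# Project MO: CLS, the numbers `Cn`
-/

set_option autoImplicit false
set_option linter.unusedSectionVars false

open NumberField IsDedekindDomain

noncomputable section

namespace Pool.Agent.H376.MO

open Pool.Agent.MO
open Pool.Agent.W206.MS

section aux

variable {K : Type} [Field K] [NumberField K]

/-- the cofactor is a cofactor -/
theorem cof_mul {𝔟 𝔫 : Ideal (𝓞 K)} (h : 𝔟 ≤ 𝔫) : cof 𝔟 𝔫 * 𝔫 = 𝔟 := by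
  have h' : 𝔫 ∣ 𝔟 := Ideal.dvd_iff_le.2 h
  have e : cof 𝔟 𝔫 = h'.choose := by
    unfold cof
    exact dif_pos h'
  rw [e, mul_comm]
  exact h'.choose_spec.symm

theorem sup_mul_top {I J 𝔟 : Ideal (𝓞 K)} (hI : I ⊔ 𝔟 = ⊤) (hJ : J ⊔ 𝔟 = ⊤) :
    (I * J) ⊔ 𝔟 = ⊤ := by
  have h1 := Ideal.isCoprime_iff_sup_eq.2 hI
  have h2 := Ideal.isCoprime_iff_sup_eq.2 hJ
  exact Ideal.isCoprime_iff_sup_eq.1 (h1.mul_left h2)

theorem sup_top_mono {I 𝔟 𝔫 : Ideal (𝓞 K)} (h : 𝔟 ≤ 𝔫) (hI : I ⊔ 𝔟 = ⊤) : I ⊔ 𝔫 = ⊤ :=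
  top_le_iff.1 (hI ▸ sup_le_sup_left h I)

theorem ne_bot_of_sup {I 𝔟 : Ideal (𝓞 K)} (h𝔟 : 𝔟 ≠ ⊤) (hI : I ⊔ 𝔟 = ⊤) : I ≠ ⊥ := by
  rintro rfl
  exact h𝔟 (by rwa [bot_sup_eq] at hI)

end aux

section dgrp

variable {K H : Type} [Field K] [NumberField K] [Field H] [NumberField H] [Algebra K H]

/-- Every element of `D σ 𝔟 a 𝔫` is one of the generators. -/
theorem mem_D {s₁ σ : K →+* ℝ} {𝔟 : Ideal (𝓞 K)} {a : Ideal (𝓞 K) → Gal(H/K)}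
    (hR : RC s₁ σ 𝔟 a) (hexp : ∀ g : Gal(H/K), g * g = 1) {𝔫 : Ideal (𝓞 K)} {g : Gal(H/K)}
    (hg : g ∈ D σ 𝔟 a 𝔫) : ∃ x : 𝓞 K, x ≠ 0 ∧ Ideal.span {x} ⊔ 𝔟 = ⊤ ∧ x - 1 ∈ 𝔫 ∧
      0 < σ (x : K) ∧ g = a (Ideal.span {x}) := by
  unfold D at hg
  induction hg using Subgroup.closure_induction with
  | mem x hx => exact hx
  | one =>
    refine ⟨1, one_ne_zero, ?_, ?_, ?_, ?_⟩
    · rw [Ideal.span_singleton_one, top_sup_eq]
    · rw [sub_self]; exact 𝔫.zero_mem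
    · have e : ((1 : 𝓞 K) : K) = 1 := map_one (algebraMap (𝓞 K) K)
      rw [e, map_one]; exact one_pos
    · rw [Ideal.span_singleton_one, hR.one]
  | mul g h _ _ ihg ihh =>
    obtain ⟨x, hx0, hx1, hx2, hx3, rfl⟩ := ihg
    obtain ⟨y, hy0, hy1, hy2, hy3, rfl⟩ := ihh
    refine ⟨x * y, mul_ne_zero hx0 hy0, ?_, ?_, ?_, ?_⟩
    · rw [← Ideal.span_singleton_mul_span_singleton]
      exact sup_mul_top hx1 hy1
    · have e : x * y - 1 = x * (y - 1) + (x - 1) := by ring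
      rw [e]
      exact 𝔫.add_mem (𝔫.mul_mem_left _ hy2) hx2
    · have e : ((x * y : 𝓞 K) : K) = (x : K) * (y : K) := map_mul (algebraMap (𝓞 K) K) x y
      rw [e, map_mul]
      exact mul_pos hx3 hy3
    · rw [← Ideal.span_singleton_mul_span_singleton, hR.mul _ _ hx1 hy1]
  | inv g _ ih =>
    rw [inv_eq_of_mul_eq_one_left (hexp g)]
    exact ih

end dgrp

/-- the properties of the numbers `Cn` -/
theorem cls : S_CLS := by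
  intro hDIC hGD hNN hAPX K _ _ _ σ O m b P 𝔟 h𝔟 H _ _ hexp Art hArt hR r 𝔫 h𝔫 L
  classical
  obtain ⟨hd_mem, hd_mul, hd_top, hd_le, hd_sup, hd_span, hd_inv, hd_ex, hd_idx⟩ := hDIC K
  obtain ⟨hG1, hG2, hG3, hG4⟩ := hGD hDIC K O m b P 𝔟 h𝔟
  have hcof : cof 𝔟 𝔫 * 𝔫 = 𝔟 := cof_mul h𝔫
  have hcof0 : cof 𝔟 𝔫 ≠ ⊥ := by
    intro h
    rw [h, Ideal.bot_mul] at hcof
    exact hR.ne_bot hcof.symm
  -- the ideals `Jr L ρ`
  have hJr : ∀ ρ : L.G', Jr L ρ ⊔ 𝔟 = ⊤ ∧ L.a' (Jr L ρ) = ρ := by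
    intro ρ
    have h : ∃ J : Ideal (𝓞 K), J ⊔ 𝔟 = ⊤ ∧ L.a' J = ρ := by
      obtain ⟨g, hg⟩ := L.surj ρ
      obtain ⟨I, hI, hI'⟩ := hR.surj g
      exact ⟨I, hI, by rw [L.a'_eq I hI, hI', hg]⟩
    have e : Jr L ρ = h.choose := by
      unfold Jr
      exact dif_pos h
    rw [e]
    exact h.choose_spec
  have hcls : ∀ I : Ideal (𝓞 K), I ≠ ⊥ → I ⊔ 𝔫 = ⊤ → ∀ x : Submodule ℤ K, InMonoid O m x →
      nn O (OK K) m σ (sub (cof 𝔟 𝔫 * I)) x = Cn O m L x (L.a' I) := by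
    intro I hI0 hI z hz
    obtain ⟨hJ, hJ'⟩ := hJr (L.a' I)
    set J := Jr L (L.a' I) with hJdef
    have hJ0 : J ≠ ⊥ := ne_bot_of_sup hR.ne_top hJ
    have hJn : J ⊔ 𝔫 = ⊤ := sup_top_mono h𝔫 hJ
    obtain ⟨x, B₁, hx0, hxB, hB₁, hx1, hx2⟩ := hAPX K σ 𝔟 𝔫 I hR.ne_bot h𝔫 hI0 hI
    obtain ⟨y, B₂, hy0, hyB, hB₂, hy1, hy2⟩ := hAPX K σ 𝔟 𝔫 J hR.ne_bot h𝔫 hJ0 hJn
    have e1 : L.a' I * L.a' B₁ = 1 := by
      rw [← L.a'_mul I B₁ hI0 (ne_bot_of_sup hR.ne_top hB₁) hI (sup_top_mono h𝔫 hB₁), ← hxB]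
      exact L.a'_ray x hx0 hx1 hx2
    have e2 : L.a' J * L.a' B₂ = 1 := by
      rw [← L.a'_mul J B₂ hJ0 (ne_bot_of_sup hR.ne_top hB₂) hJn (sup_top_mono h𝔫 hB₂), ← hyB]
      exact L.a'_ray y hy0 hy1 hy2
    have e3 : L.a' B₁ = L.a' B₂ := by
      rw [hJ'] at e2
      exact mul_left_cancel (e1.trans e2.symm)
    have e4 : aO O Art B₁ * (aO O Art B₂)⁻¹ ∈ D σ 𝔟 (aO O Art) 𝔫 := by
      rw [← L.ker, map_mul, map_inv, ← L.a'_eq B₁ hB₁, ← L.a'_eq B₂ hB₂, e3, mul_inv_cancel]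
    obtain ⟨α, hα0, hα1, hα2, hα3, hα4⟩ := mem_D hR hexp e4
    have e5 : aO O Art B₁ = aO O Art (Ideal.span {α} * B₂) := by
      rw [hR.mul _ _ hα1 hB₂, ← hα4, inv_mul_cancel_right]
    exact hNN hDIC hGD K σ O m b P 𝔟 h𝔟 Gal(H/K) Art hArt hexp (cof 𝔟 𝔫) 𝔫 hcof I J B₁ B₂
      x y α hI0 hJ0 hxB hyB hx1 hy1 hx2 hy2 hB₁ hB₂ hα2 hα3 hα1 e5 z hz
  have hcong : ∀ x y : Submodule ℤ K, REq O m σ x y → ∀ ρ : L.G', Cn O m L x ρ = Cn O m L y ρ :=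
    fun x y h ρ => nn_congr_right P.mM _ h
  refine ⟨hcls, ?_, hcong⟩
  intro c hc x hx ρ
  obtain ⟨hJ, hJ'⟩ := hJr ρ
  obtain ⟨α, hα, hασ, hle, e, he, he'⟩ := P.exists_rep σ hc
  have hα0 : α ≠ 0 := ne_zero_of_pos hασ
  set g := sm α c with hgdef
  have hgood : Good O b g := ⟨hc.1.sm hα0, hle, e, he, he'⟩
  -- `Art g = Art c`
  have hArtg : Art g = Art c := by
    obtain ⟨hinv, c₁, c₂, h1, h2, h3, h4, h5, h6⟩ := id hc
    obtain ⟨hst, c', hc', hcc⟩ := id hinv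
    have hc'J : InJ O m c' := by
      refine ⟨⟨hc', c, hst, by rw [mul_comm]; exact hcc⟩, c₂, c₁, h2, h1, ?_, h5, h4, ?_⟩
      · rw [← h6]; exact hinv.mul h3
      · rw [← h6, ← mul_assoc, mul_comm c' c, hcc, h3.stable]
    have hg1 : InJ O m g := (hgood.mono P.bm).inJ P.mM
    have e1 : Art (g * c') = 1 := by
      refine (hArt.2.2 _ (hg1.mul P.mM hc'J)).2 ⟨α, hα, hασ, ?_⟩
      rw [hgdef, sm_mul, hcc]
    have e2 : Art (c * c') = 1 := by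
      refine (hArt.2.2 _ (hc.mul P.mM hc'J)).2 ⟨1, ?_, ?_, ?_⟩
      · rw [sub_self]; exact loc_of_mem P.mM m.zero_mem
      · rw [map_one]; exact one_pos
      · rw [hcc]; exact (one_sm (OL O)).symm
    rw [hArt.1 _ _ hg1 hc'J] at e1
    rw [hArt.1 _ _ hc hc'J] at e2
    exact mul_right_cancel (e1.trans e2.symm)
  obtain ⟨G, hG, hGs, hGi⟩ := hG4 g hgood
  have haG : aO O Art G = Art c := by
    unfold aO
    rw [hGi, hArtg]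
  have hJ0 : Jr L ρ ≠ ⊥ := ne_bot_of_sup hR.ne_top hJ
  have hG0 : G ≠ ⊥ := ne_bot_of_sup hR.ne_top hG
  have hGJ0 : G * Jr L ρ ≠ ⊥ := mul_ne_zero hG0 hJ0
  have hGJ : G * Jr L ρ ⊔ 𝔫 = ⊤ := sup_top_mono h𝔫 (sup_mul_top hG hJ)
  have ha' : L.a' (G * Jr L ρ) = L.res (Art c) * ρ := by
    rw [L.a'_mul G (Jr L ρ) hG0 hJ0 (sup_top_mono h𝔫 hG) (sup_top_mono h𝔫 hJ), hJ',
      L.a'_eq G hG, haG]
  have hgx : InMonoid O m (g * x) := by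
    refine ⟨hgood.inv.mul hx.1, ?_⟩
    intro z hz
    induction hz using Submodule.mul_induction_on' with
    | mem_mul_mem u hu w hw =>
      exact loc_mul P.mM OL_stable (loc_of_mem P.mM (hle hu)) (hx.2 hw)
    | add p hp q hq ihp ihq => exact loc_add P.mM OL_stable ihp ihq
  have hcx : ((c * x : Submodule ℤ K) : Set K) ⊆ Loc O m (OL O) := by
    intro z hz
    have h1 : α * z ∈ Loc O m (OL O) := by
      apply hgx.2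
      rw [hgdef, sm_mul]
      exact mul_mem_sm hz
    obtain ⟨-, h2⟩ := one_mod_inv P.mM hα
    have h3 := loc_mul P.mM OL_stable (one_mod_mem P.mM h2) h1
    rwa [← mul_assoc, inv_mul_cancel₀ hα0, one_mul] at h3
  have key1 : Cn O m L x ρ = Cn O m L (g * x) (L.res (Art c) * ρ) := by
    have h1 : Cn O m L x ρ = nn O (OK K) m σ (sub (cof 𝔟 𝔫 * Jr L ρ)) x := rfl
    rw [h1, P.nn_mul hgood (hd_inv _ (mul_ne_zero hcof0 hJ0)) ?_ hx.1.stable, ← hGs, ← hd_mul,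
      mul_left_comm, hcls _ hGJ0 hGJ _ hgx, ha']
    rw [← hd_top, hd_le]
    exact le_top
  have key2 : Cn O m L (g * x) (L.res (Art c) * ρ) = Cn O m L (c * x) (L.res (Art c) * ρ) := by
    apply hcong
    rw [hgdef, sm_mul]
    exact REq.sm_left P.mM hα hασ hcx
  rw [key1, key2]

end Pool.Agent.H376.MO
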