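import Pool.Agent.H509.MO.GStm
import Pool.Agent.H509.MO.CLS

/-!
# Project MO: CLSN, the numbers `CnN`
-/

set_option autoImplicit false
set_option linter.unusedSectionVars false

open NumberField IsDedekindDomain

noncomputable section

namespace Pool.Agent.H120.MO

open Pool.Agent.MO Pool.Agent.H376.MO
open Pool.Agent.W206.MS

/-- the properties of the numbers `CnN` -/
theorem clsn : S_CLSN := by
  intro hDIC hGD hEQN hNN hAPX K _ _ _ σ O m b P 𝔟 h𝔟 H _ _ hexp Art hArt hR r 𝔫 h𝔫 L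
  classical
  obtain ⟨hd_mem, hd_mul, hd_top, hd_le, hd_sup, hd_span, hd_inv, hd_ex, hd_idx⟩ := hDIC K
  obtain ⟨hG1, hG2, hG3, hG4⟩ := hGD hDIC K O m b P 𝔟 h𝔟
  obtain ⟨hE1, hE2, hE3, hE4, hE5, hE6, hE7, hE8, hE9, hE10⟩ :=
    hEQN K σ O (OK K) m b P Gal(H/K) Art hArt
  have hcof : cof 𝔟 𝔫 * 𝔫 = 𝔟 := cof_mul h𝔫
  have hcof0 : cof 𝔟 𝔫 ≠ ⊥ := by
    intro h
    rw [h, Ideal.bot_mul] at hcof
    exact hR.ne_bot hcof.symm
  -- the ideals `Jr L ρ`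
  have hJr : ∀ ρ : L.G', Jr L ρ ⊔ 𝔟 = ⊤ ∧ L.a' (Jr L ρ) = ρ := by
    intro ρ
    have h : ∃ J : Ideal (𝓞 K), J ⊔ 𝔟 = ⊤ ∧ L.a' J = ρ := by
      obtain ⟨g, hg⟩ := L.surj ρ
      obtain ⟨I, hI, hI'⟩ := hR.surj g
      exact ⟨I, hI, by rw [L.a'_eq I hI, hI', hg]⟩
    have e : Jr L ρ = h.choose := by
      unfold Jr
      exact dif_pos h
    rw [e]
    exact h.choose_spec
  have hcls : ∀ I : Ideal (𝓞 K), I ≠ ⊥ → I ⊔ 𝔫 = ⊤ → ∀ x : Submodule ℤ K, InMonoid O m x →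
      nnN O (OK K) m σ Art (sub (cof 𝔟 𝔫 * I)) x = CnN O m Art L x (L.a' I) := by
    intro I hI0 hI z hz
    obtain ⟨hJ, hJ'⟩ := hJr (L.a' I)
    set J := Jr L (L.a' I) with hJdef
    have hJ0 : J ≠ ⊥ := ne_bot_of_sup hR.ne_top hJ
    have hJn : J ⊔ 𝔫 = ⊤ := sup_top_mono h𝔫 hJ
    obtain ⟨x, B₁, hx0, hxB, hB₁, hx1, hx2⟩ := hAPX K σ 𝔟 𝔫 I hR.ne_bot h𝔫 hI0 hI
    obtain ⟨y, B₂, hy0, hyB, hB₂, hy1, hy2⟩ := hAPX K σ 𝔟 𝔫 J hR.ne_bot h𝔫 hJ0 hJn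
    have e1 : L.a' I * L.a' B₁ = 1 := by
      rw [← L.a'_mul I B₁ hI0 (ne_bot_of_sup hR.ne_top hB₁) hI (sup_top_mono h𝔫 hB₁), ← hxB]
      exact L.a'_ray x hx0 hx1 hx2
    have e2 : L.a' J * L.a' B₂ = 1 := by
      rw [← L.a'_mul J B₂ hJ0 (ne_bot_of_sup hR.ne_top hB₂) hJn (sup_top_mono h𝔫 hB₂), ← hyB]
      exact L.a'_ray y hy0 hy1 hy2
    have e3 : L.a' B₁ = L.a' B₂ := by
      rw [hJ'] at e2
      exact mul_left_cancel (e1.trans e2.symm)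
    have e4 : aO O Art B₁ * (aO O Art B₂)⁻¹ ∈ D σ 𝔟 (aO O Art) 𝔫 := by
      rw [← L.ker, map_mul, map_inv, ← L.a'_eq B₁ hB₁, ← L.a'_eq B₂ hB₂, e3, mul_inv_cancel]
    obtain ⟨α, hα0, hα1, hα2, hα3, hα4⟩ := mem_D hR hexp e4
    have e5 : aO O Art B₁ = aO O Art (Ideal.span {α} * B₂) := by
      rw [hR.mul _ _ hα1 hB₂, ← hα4, inv_mul_cancel_right]
    exact hNN hDIC hGD hEQN K σ O m b P 𝔟 h𝔟 Gal(H/K) Art hArt (cof 𝔟 𝔫) 𝔫 hcof I J B₁ B₂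
      x y α hI0 hJ0 hxB hyB hx1 hy1 hx2 hy2 hB₁ hB₂ hα2 hα3 hα1 e5 z hz
  have hcong : ∀ x y : Submodule ℤ K, InMonoid O m x → InMonoid O m y → REqN O m σ Art x y →
      ∀ ρ : L.G', CnN O m Art L x ρ = CnN O m Art L y ρ :=
    fun x y hx hy h ρ => hE7 _ x y hx hy h
  refine ⟨hcls, ?_, hcong⟩
  intro c hc x hx ρ
  obtain ⟨hJ, hJ'⟩ := hJr ρ
  obtain ⟨α, hα, hασ, hle, e, he, he'⟩ := P.exists_rep σ hc
  have hα0 : α ≠ 0 := ne_zero_of_pos hασ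
  set g := sm α c with hgdef
  have hgood : Good O b g := ⟨hc.1.sm hα0, hle, e, he, he'⟩
  -- `Art g = Art c`
  have hArtg : Art g = Art c := by
    obtain ⟨hinv, c₁, c₂, h1, h2, h3, h4, h5, h6⟩ := id hc
    obtain ⟨hst, c', hc', hcc⟩ := id hinv
    have hc'J : InJ O m c' := by
      refine ⟨⟨hc', c, hst, by rw [mul_comm]; exact hcc⟩, c₂, c₁, h2, h1, ?_, h5, h4, ?_⟩
      · rw [← h6]; exact hinv.mul h3
      · rw [← h6, ← mul_assoc, mul_comm c' c, hcc, h3.stable]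
    have hg1 : InJ O m g := (hgood.mono P.bm).inJ P.mM
    have e1 : Art (g * c') = 1 := by
      refine hArt.ray _ (hg1.mul P.mM hc'J) ⟨α, hα, hασ, ?_⟩
      rw [hgdef, sm_mul, hcc]
    have e2 : Art (c * c') = 1 := by
      refine hArt.ray _ (hc.mul P.mM hc'J) ⟨1, ?_, ?_, ?_⟩
      · rw [sub_self]; exact loc_of_mem P.mM m.zero_mem
      · rw [map_one]; exact one_pos
      · rw [hcc]; exact (one_sm (OL O)).symm
    rw [hArt.mul _ _ hg1 hc'J] at e1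
    rw [hArt.mul _ _ hc hc'J] at e2
    exact mul_right_cancel (e1.trans e2.symm)
  obtain ⟨G, hG, hGs, hGi⟩ := hG4 g hgood
  have haG : aO O Art G = Art c := by
    unfold aO
    rw [hGi, hArtg]
  have hJ0 : Jr L ρ ≠ ⊥ := ne_bot_of_sup hR.ne_top hJ
  have hG0 : G ≠ ⊥ := ne_bot_of_sup hR.ne_top hG
  have hGJ0 : G * Jr L ρ ≠ ⊥ := mul_ne_zero hG0 hJ0
  have hGJ : G * Jr L ρ ⊔ 𝔫 = ⊤ := sup_top_mono h𝔫 (sup_mul_top hG hJ)
  have ha' : L.a' (G * Jr L ρ) = L.res (Art c) * ρ := by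
    rw [L.a'_mul G (Jr L ρ) hG0 hJ0 (sup_top_mono h𝔫 hG) (sup_top_mono h𝔫 hJ), hJ',
      L.a'_eq G hG, haG]
  have hgx : InMonoid O m (g * x) := by
    refine ⟨hgood.inv.mul hx.1, ?_⟩
    intro z hz
    induction hz using Submodule.mul_induction_on' with
    | mem_mul_mem u hu w hw =>
      exact loc_mul P.mM OL_stable (loc_of_mem P.mM (hle hu)) (hx.2 hw)
    | add p hp q hq ihp ihq => exact loc_add P.mM OL_stable ihp ihq
  have hcx : ((c * x : Submodule ℤ K) : Set K) ⊆ Loc O m (OL O) := by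
    intro z hz
    have h1 : α * z ∈ Loc O m (OL O) := by
      apply hgx.2
      rw [hgdef, sm_mul]
      exact mul_mem_sm hz
    obtain ⟨-, h2⟩ := one_mod_inv P.mM hα
    have h3 := loc_mul P.mM OL_stable (one_mod_mem P.mM h2) h1
    rwa [← mul_assoc, inv_mul_cancel₀ hα0, one_mul] at h3
  have hcxM : InMonoid O m (c * x) := ⟨hc.1.mul hx.1, hcx⟩
  have hg1 : InJ O m g := (hgood.mono P.bm).inJ P.mM
  have key1 : CnN O m Art L x ρ = CnN O m Art L (g * x) (L.res (Art c) * ρ) := by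
    have h1 : CnN O m Art L x ρ = nnN O (OK K) m σ Art (sub (cof 𝔟 𝔫 * Jr L ρ)) x := rfl
    have h2 : sub (cof 𝔟 𝔫 * Jr L ρ) ≤ OL (OK K) := by
      rw [← hd_top, hd_le]
      exact le_top
    rw [h1, hE8 _ _ _ hgood (hd_inv _ (mul_ne_zero hcof0 hJ0)) h2 hx, ← hGs, ← hd_mul,
      mul_left_comm, hcls _ hGJ0 hGJ _ hgx, ha']
  have key2 : CnN O m Art L (g * x) (L.res (Art c) * ρ) =
      CnN O m Art L (c * x) (L.res (Art c) * ρ) :=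
    hcong _ _ hgx hcxM (hE10 g c x hg1 hc hArtg hx) _
  rw [key1, key2]

end Pool.Agent.H120.MO
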