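import Pool.Agent.H509.MO.Stm

/-!
# Task CNT of the project MO: the zeta function of a class of `O` as a sum over the ideals of `𝓞 K`
-/

set_option autoImplicit false
set_option linter.unusedSectionVars false

open NumberField

noncomputable section

namespace Pool.Agent.H345.MO

open Pool.Agent.MO (S_DIC S_CNT OK)
open Pool.Agent.W206.MS (OL IsInv InMonoid nn Pair cnt idx CS XS Md cnt_eq)

theorem sub_inj (hD : S_DIC) {K : Type} [Field K] [NumberField K] {I J : Ideal (𝓞 K)}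
    (h : Pool.Agent.MO.sub I = Pool.Agent.MO.sub J) : I = J := by
  obtain ⟨-, -, -, h4, -⟩ := hD K
  exact le_antisymm ((h4 I J).1 h.le) ((h4 J I).1 h.ge)

theorem hfin {K : Type} [Field K] [NumberField K] {O : Subalgebra ℤ K} {m b : Submodule ℤ K}
    (P : Pair O (OK K) m b) : ∀ x ∈ O, ∃ k, 0 < k ∧ x ^ (2 * k) - x ^ k ∈ m := by
  intro x hx
  obtain ⟨k, hk, h⟩ := P.fin' x (P.le hx)
  exact ⟨k, hk, P.bm h⟩

theorem count_sum (hD : S_DIC) {K : Type} [Field K] [NumberField K] (σ : K →+* ℝ)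
    {O : Subalgebra ℤ K} {m b : Submodule ℤ K} (P : Pair O (OK K) m b) {a : Submodule ℤ K}
    (ha : InMonoid O m a) {n : ℕ} (hn : n ≠ 0) (S : Finset (Ideal (𝓞 K)))
    (hS : ∀ I, I ∈ S ↔ Ideal.absNorm I = n) :
    cnt O m σ a n = ∑ I ∈ S, nn O (OK K) m σ (Pool.Agent.MO.sub I) a := by
  classical
  obtain ⟨-, -, -, -, -, -, h7, h8, h9⟩ := hD K
  rw [cnt_eq P.mM (hfin P) ha]
  have hC := P.CS_finite (σ := σ) a hn
  rw [Set.ncard_eq_toFinset_card _ hC]
  rw [Finset.card_eq_sum_card_fiberwise (f := fun x => OL (OK K) * x)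
    (t := S.image (Pool.Agent.MO.sub (K := K)))]
  swap
  · intro x hx
    simp only [Set.Finite.coe_toFinset] at hx
    obtain ⟨h1, h2, h3, h4⟩ := hx
    have hle : OL (OK K) * x ≤ OL (OK K) := by
      rw [Submodule.mul_le]
      exact fun y hy z hz => (OK K).mul_mem hy (P.le (h2 hz))
    obtain ⟨I, hI⟩ := h8 (OL (OK K) * x) (h1.ext P.le).stable hle
    rw [Finset.mem_coe, Finset.mem_image]
    refine ⟨I, ?_, hI⟩
    rw [hS, ← h9, hI, ← P.idx_ext h1 h2, h4]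
  rw [Finset.sum_image (fun I _ J _ h => sub_inj hD h)]
  refine Finset.sum_congr rfl fun I hI => ?_
  have hIn : Ideal.absNorm I = n := (hS I).1 hI
  have hI0 : I ≠ ⊥ := by
    rintro rfl
    apply hn
    rw [← hIn, Ideal.absNorm_bot]
  have hinv := h7 I hI0
  unfold nn
  rw [Set.ncard_eq_toFinset_card _ (P.XS_finite hinv)]
  congr 1
  ext x
  simp only [Finset.mem_filter, Set.Finite.mem_toFinset]
  constructor
  · rintro ⟨⟨h1, h2, h3, h4⟩, h5⟩
    exact ⟨h1, h2, h3, h5⟩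
  · rintro ⟨h1, h2, h3, h5⟩
    refine ⟨⟨h1, h2, h3, ?_⟩, h5⟩
    rw [P.idx_ext h1 h2, h5, h9, hIn]

theorem cnt' : S_CNT := by
  intro hD K _ _ σ O m b P x y hx hy s F hF
  have h1 := (Equiv.sigmaFiberEquiv (Ideal.absNorm : Ideal (𝓞 K) → ℕ)).hasSum_iff.2 hF
  refine h1.sigma fun n => ?_
  by_cases hn : n = 0
  · subst hn
    rw [LSeries.term_zero]
    have h0 : (fun c : {I : Ideal (𝓞 K) // Ideal.absNorm I = 0} =>
        ((fun I : Ideal (𝓞 K) => if I = ⊥ then (0 : ℂ) else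
          ((nn O (OK K) m σ (Pool.Agent.MO.sub I) x : ℂ) -
            (nn O (OK K) m σ (Pool.Agent.MO.sub I) y : ℂ)) * (Ideal.absNorm I : ℂ) ^ (-s)) ∘
          (Equiv.sigmaFiberEquiv (Ideal.absNorm : Ideal (𝓞 K) → ℕ))) ⟨0, c⟩) = fun _ => 0 := by
      funext c
      exact if_pos (Ideal.absNorm_eq_zero_iff.1 c.2)
    rw [h0]
    exact hasSum_zero
  · obtain ⟨S, hS⟩ : ∃ S : Finset (Ideal (𝓞 K)), ∀ I, I ∈ S ↔ Ideal.absNorm I = n :=
      ⟨(Ideal.finite_setOfPred_absNorm_eq n).toFinset, fun I => Set.Finite.mem_toFinset _⟩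
    have hfin : Fintype {I : Ideal (𝓞 K) // Ideal.absNorm I = n} :=
      Fintype.ofFinset S hS
    have h2 : LSeries.term (fun n => (cnt O m σ x n : ℂ) - (cnt O m σ y n : ℂ)) s n =
        ∑ c : {I : Ideal (𝓞 K) // Ideal.absNorm I = n},
        ((fun I : Ideal (𝓞 K) => if I = ⊥ then (0 : ℂ) else
          ((nn O (OK K) m σ (Pool.Agent.MO.sub I) x : ℂ) -
            (nn O (OK K) m σ (Pool.Agent.MO.sub I) y : ℂ)) * (Ideal.absNorm I : ℂ) ^ (-s)) ∘
          (Equiv.sigmaFiberEquiv (Ideal.absNorm : Ideal (𝓞 K) → ℕ))) ⟨n, c⟩ := by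
      have h3 : ∀ c : {I : Ideal (𝓞 K) // Ideal.absNorm I = n},
        ((fun I : Ideal (𝓞 K) => if I = ⊥ then (0 : ℂ) else
          ((nn O (OK K) m σ (Pool.Agent.MO.sub I) x : ℂ) -
            (nn O (OK K) m σ (Pool.Agent.MO.sub I) y : ℂ)) * (Ideal.absNorm I : ℂ) ^ (-s)) ∘
          (Equiv.sigmaFiberEquiv (Ideal.absNorm : Ideal (𝓞 K) → ℕ))) ⟨n, c⟩ =
          (fun I : Ideal (𝓞 K) => ((nn O (OK K) m σ (Pool.Agent.MO.sub I) x : ℂ) -
            (nn O (OK K) m σ (Pool.Agent.MO.sub I) y : ℂ)) * (n : ℂ) ^ (-s)) c.1 := by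
        intro c
        have hc : c.1 ≠ ⊥ := by
          intro h
          apply hn
          rw [← c.2, h, Ideal.absNorm_bot]
        have h4 : ((fun I : Ideal (𝓞 K) => if I = ⊥ then (0 : ℂ) else
          ((nn O (OK K) m σ (Pool.Agent.MO.sub I) x : ℂ) -
            (nn O (OK K) m σ (Pool.Agent.MO.sub I) y : ℂ)) * (Ideal.absNorm I : ℂ) ^ (-s)) ∘
          (Equiv.sigmaFiberEquiv (Ideal.absNorm : Ideal (𝓞 K) → ℕ))) ⟨n, c⟩ =
            if c.1 = ⊥ then (0 : ℂ) else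
          ((nn O (OK K) m σ (Pool.Agent.MO.sub c.1) x : ℂ) -
            (nn O (OK K) m σ (Pool.Agent.MO.sub c.1) y : ℂ)) * (Ideal.absNorm c.1 : ℂ) ^ (-s) := rfl
        rw [h4, if_neg hc, c.2]
      have h5 := Finset.sum_subtype (F := hfin) S hS
        (fun I : Ideal (𝓞 K) => ((nn O (OK K) m σ (Pool.Agent.MO.sub I) x : ℂ) -
            (nn O (OK K) m σ (Pool.Agent.MO.sub I) y : ℂ)) * (n : ℂ) ^ (-s))
      rw [Finset.sum_congr rfl fun c _ => h3 c]
      refine Eq.trans ?_ h5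
      rw [← Finset.sum_mul, Finset.sum_sub_distrib, LSeries.term_of_ne_zero hn,
        count_sum hD σ P hx hn S hS, count_sum hD σ P hy hn S hS, Complex.cpow_neg, div_eq_mul_inv]
      push_cast
      rfl
    rw [h2]
    exact hasSum_fintype _

end Pool.Agent.H345.MO
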