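import Pool.Agent.H509.MO.Stm
import Pool.Agent.H509.ST.UNR

/-!
# Project MO, COND: the fixed field of `D 𝔫` is unramified outside `𝔫`
-/

set_option autoImplicit false
set_option linter.unusedSectionVars false
set_option linter.deprecated false

open NumberField IsDedekindDomain

noncomputable section

namespace Pool.Agent.H236.MO

open Pool.Agent.Q92.AR (Dv prin Pr Ray art Pos Cong frob IsFrobenius Unramified Ram frob_spec
  prin_mul)
open Pool.Agent.Q20.EX (Inert CongAt)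
open Pool.Agent.BT9 (RamAt)
open Pool.Agent.MO
open Pool.Agent.N598.ST (Unram)
open Pool.Agent.Q125.AR (art_eq_sum chi_frob Ram_mono Ray_mono)

/-- characters which separate a subgroup from an element -/
theorem exists_psi {G : Type} [Group G] [Finite G] (hexp : ∀ g : G, g * g = 1) (D : Subgroup G)
    (g : G) (hg : g ∉ D) : ∃ ψ : G →* ℂˣ, (∀ d ∈ D, ψ d = 1) ∧ ψ g ≠ 1 := by
  have hcomm : ∀ x y : G, x * y = y * x := by
    intro x y
    have hinv : ∀ z : G, z⁻¹ = z := fun z => inv_eq_of_mul_eq_one_left (hexp z)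
    have h1 := hinv (x * y)
    rw [mul_inv_rev, hinv, hinv] at h1
    exact h1.symm
  let _ : CommGroup G := { (inferInstance : Group G) with mul_comm := hcomm }
  have hne : (QuotientGroup.mk g : G ⧸ D) ≠ 1 := by
    rw [Ne, QuotientGroup.eq_one_iff]
    exact hg
  obtain ⟨κ, hκ⟩ := CommGroup.exists_apply_ne_one_of_hasEnoughRootsOfUnity (G ⧸ D) ℂ hne
  refine ⟨κ.comp (QuotientGroup.mk' D), fun d hd => ?_, ?_⟩
  · have h1 : (QuotientGroup.mk' D) d = 1 := (QuotientGroup.eq_one_iff _).2 hd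
    rw [MonoidHom.comp_apply, h1, map_one]
  · exact hκ

section
variable {F : Type} [Field F] [NumberField F]

theorem val_nat_mem {N : ℕ} {u : HeightOneSpectrum (𝓞 F)} :
    u.valuation F (N : F) < 1 ↔ (N : 𝓞 F) ∈ u.asIdeal := by
  have h := u.valuation_lt_one_iff_mem (K := F) (N : 𝓞 F)
  rw [← h]
  simp

theorem val_nat_one {N : ℕ} {u : HeightOneSpectrum (𝓞 F)} (h : (N : 𝓞 F) ∉ u.asIdeal) :
    u.valuation F (N : F) = 1 := by
  have h1 : ¬ u.valuation F (N : F) < 1 := fun h2 => h (val_nat_mem.1 h2)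
  have h2 : u.valuation F (N : F) ≤ 1 := by
    have h4 := u.valuation_le_one (K := F) (N : 𝓞 F)
    simpa using h4
  exact le_antisymm h2 (not_lt.1 h1)

theorem val_nat_le {N : ℕ} {u : HeightOneSpectrum (𝓞 F)} : u.valuation F (N : F) ≤ 1 := by
  have h4 := u.valuation_le_one (K := F) (N : 𝓞 F)
  simpa using h4

/-- denominators prime to the primes where `x` is a unit -/
theorem exists_den (N : ℕ) (x : F) (hx : ∀ u : HeightOneSpectrum (𝓞 F),
    (N : 𝓞 F) ∈ u.asIdeal → u.valuation F x = 1) (hN : N ≠ 0) :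
    ∃ (t : ℕ) (α : 𝓞 F), t ≠ 0 ∧ t ≡ 1 [MOD N] ∧ (α : F) = t * x := by
  classical
  obtain ⟨M, hM, w, hw⟩ := Pool.Agent.Q84.AR.exists_nat_den x
  have hw' : (w : F) = x * (M : F) := by
    have h := hw
    rw [map_natCast] at h
    exact h.symm
  have hex : ∃ n : ℕ, n ≠ 0 ∧ ∀ u : HeightOneSpectrum (𝓞 F), u.valuation F ((n : F) * x) ≤ 1 := by
    refine ⟨M, hM, fun u => ?_⟩
    rw [mul_comm, ← hw']
    exact u.valuation_le_one (K := F) w
  obtain ⟨hn0, hn⟩ := Nat.find_spec hex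
  have hmin : ∀ m : ℕ, m ≠ 0 → (∀ u : HeightOneSpectrum (𝓞 F), u.valuation F ((m : F) * x) ≤ 1) →
      Nat.find hex ≤ m := fun m h1 h2 => Nat.find_min' hex ⟨h1, h2⟩
  generalize Nat.find hex = n at hn0 hn hmin
  have hcop : Nat.Coprime n N := by
    by_contra hcon
    obtain ⟨p, hp, ⟨m, hm⟩, hpN⟩ := Nat.Prime.not_coprime_iff_dvd.1 hcon
    have hm0 : m ≠ 0 := by
      rintro rfl
      exact hn0 (by rw [hm, mul_zero])
    have h1 := hmin m hm0 (by
      intro u
      by_cases hpu : (p : 𝓞 F) ∈ u.asIdeal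
      · have hNu : (N : 𝓞 F) ∈ u.asIdeal := by
          obtain ⟨k, hk⟩ := hpN
          rw [hk, Nat.cast_mul]
          exact u.asIdeal.mul_mem_right _ hpu
        rw [map_mul, hx u hNu, mul_one]
        exact val_nat_le
      · have h2 := hn u
        rw [hm, Nat.cast_mul, mul_assoc, map_mul, val_nat_one hpu, one_mul] at h2
        exact h2)
    have h2 := hp.two_le
    have h3 : 0 < m := Nat.pos_of_ne_zero hm0
    nlinarith
  obtain ⟨β, hβ⟩ := HeightOneSpectrum.mem_integers_of_valuation_le_one F ((n : F) * x) hn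
  have hφ : 0 < N.totient := Nat.totient_pos.2 (Nat.pos_of_ne_zero hN)
  refine ⟨n ^ N.totient, (n : 𝓞 F) ^ (N.totient - 1) * β, pow_ne_zero _ hn0,
    Nat.ModEq.pow_totient hcop, ?_⟩
  change algebraMap (𝓞 F) F ((n : 𝓞 F) ^ (N.totient - 1) * β) = _
  rw [map_mul, map_pow, map_natCast, hβ, ← mul_assoc, ← pow_succ, Nat.sub_add_cancel hφ,
    Nat.cast_pow]

/-- divisibility by an ideal prime to `v` -/
theorem mem_of_val {𝔫 : Ideal (𝓞 F)} {v : HeightOneSpectrum (𝓞 F)} (hv : ¬ 𝔫 ≤ v.asIdeal) {N : ℕ}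
    (hN : N ≠ 0) (hN𝔫 : (N : 𝓞 F) ∈ 𝔫) {β : 𝓞 F} (h : ∀ u : HeightOneSpectrum (𝓞 F), u ≠ v →
      (N : 𝓞 F) ∈ u.asIdeal → u.valuation F (β : F) ≤ u.valuation F (N : F)) : β ∈ 𝔫 := by
  have hN0 : (N : 𝓞 F) ≠ 0 := by exact_mod_cast hN
  have hNF : (N : F) ≠ 0 := by exact_mod_cast hN
  have hcop : v.asIdeal ⊔ 𝔫 = ⊤ := by
    have h1 := v.isMaximal
    by_contra h2
    have h3 := h1.eq_of_le h2 (le_sup_left)
    exact hv (h3 ▸ le_sup_right)
  obtain ⟨s0, hs0, r, hr, hsr⟩ := Submodule.mem_sup.1 ((Ideal.eq_top_iff_one _).1 hcop)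
  have hk := v.intValuation_if_neg hN0
  set e := (Associates.mk v.asIdeal).count (Associates.mk (Ideal.span {(N : 𝓞 F)} : Ideal (𝓞 F))).factors
    with he
  have hsv : v.valuation F ((s0 ^ e : 𝓞 F) : F) ≤ v.valuation F (N : F) := by
    have h1 : v.intValuation (s0 ^ e) ≤ v.intValuation (N : 𝓞 F) := by
      rw [hk, v.intValuation_le_pow_iff_mem]
      exact Ideal.pow_mem_pow hs0 e
    have h2 : v.valuation F (algebraMap (𝓞 F) F (s0 ^ e)) = v.intValuation (s0 ^ e) :=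
      v.valuation_of_algebraMap (K := F) (s0 ^ e)
    have h3 : v.valuation F (algebraMap (𝓞 F) F (N : 𝓞 F)) = v.intValuation (N : 𝓞 F) :=
      v.valuation_of_algebraMap (K := F) (N : 𝓞 F)
    rw [map_natCast (algebraMap (𝓞 F) F)] at h3
    rw [h3]
    exact h2.le.trans h1
  have hint : ∀ u : HeightOneSpectrum (𝓞 F),
      u.valuation F (((s0 ^ e : 𝓞 F) : F) * (β : F) / (N : F)) ≤ 1 := by
    intro u
    rw [map_div₀, map_mul]
    have hN1 : 0 < u.valuation F (N : F) := zero_lt_iff.2 ((Valuation.ne_zero_iff _).2 hNF)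
    rw [div_le_one₀ hN1]
    by_cases huv : u = v
    · subst huv
      exact (mul_le_of_le_one_right' (u.valuation_le_one (K := F) β)).trans hsv
    · by_cases hNu : (N : 𝓞 F) ∈ u.asIdeal
      · exact (mul_le_of_le_one_left' (u.valuation_le_one (K := F) (s0 ^ e))).trans (h u huv hNu)
      · rw [val_nat_one hNu]
        exact (mul_le_of_le_one_left' (u.valuation_le_one (K := F) (s0 ^ e))).trans
          (u.valuation_le_one (K := F) β)
  obtain ⟨c, hc⟩ := HeightOneSpectrum.mem_integers_of_valuation_le_one F _ hint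
  have hc' : s0 ^ e * β = N * c := by
    apply RingOfIntegers.ext
    change algebraMap (𝓞 F) F (s0 ^ e * β) = algebraMap (𝓞 F) F (N * c)
    have h1 : algebraMap (𝓞 F) F c = algebraMap (𝓞 F) F (s0 ^ e) * algebraMap (𝓞 F) F β / (N : F) := hc
    rw [map_mul, map_mul, h1, map_natCast]
    field_simp
  have h1 : s0 ^ e * β ∈ 𝔫 := by
    rw [hc']
    exact 𝔫.mul_mem_right _ hN𝔫
  have h2 : s0 ^ e - 1 ∈ 𝔫 := by
    have h3 : s0 - 1 ∣ s0 ^ e - 1 := by simpa using sub_dvd_pow_sub_pow s0 1 e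
    refine 𝔫.mem_of_dvd h3 ?_
    have h4 : s0 - 1 = - r := by rw [← hsr]; ring
    rw [h4]
    exact 𝔫.neg_mem hr
  have h3 : β = s0 ^ e * β - (s0 ^ e - 1) * β := by ring
  rw [h3]
  exact 𝔫.sub_mem h1 (𝔫.mul_mem_right _ h2)

end

section
variable {K H : Type} [Field K] [NumberField K] [Field H] [NumberField H] [Algebra K H]
  [IsGalois K H]

/-- the values of the Artin map at the primes -/
theorem isFrob {s₁ σ : K →+* ℝ} {𝔟 : Ideal (𝓞 K)} {a : Ideal (𝓞 K) → Gal(H/K)}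
    (hRC : RC s₁ σ 𝔟 a) {v : HeightOneSpectrum (𝓞 K)} (hv : ¬ 𝔟 ≤ v.asIdeal) :
    IsFrobenius v (a v.asIdeal) := by
  obtain ⟨w, hwm, hwv, -⟩ := frob_spec (M := H) v
  have hw0 : w ≠ ⊥ := by
    rintro rfl
    apply v.ne_bot
    rw [← hwv, ← RingHom.ker_eq_comap_bot]
    exact (RingHom.injective_iff_ker_eq_bot _).1 (FaithfulSMul.algebraMap_injective (𝓞 K) (𝓞 H))
  refine ⟨w, hwm, hwv, fun x => ?_⟩
  have hgx : IsIntegral ℤ (a v.asIdeal (x : H)) := x.2.map (a v.asIdeal)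
  refine ⟨⟨a v.asIdeal (x : H), hgx⟩ - x ^ Ideal.absNorm v.asIdeal, ?_, rfl⟩
  exact hRC.frob v hv ⟨w, hwm.isPrime, hw0⟩ ⟨hwv.symm⟩ x _ rfl

/-- the Artin symbol of a principal ideal -/
theorem art_eq {s₁ σ : K →+* ℝ} {𝔟 : Ideal (𝓞 K)} {a : Ideal (𝓞 K) → Gal(H/K)}
    (hRC : RC s₁ σ 𝔟 a) (ψ : Gal(H/K) →* ℂˣ) {N : ℕ} (hR : Ram K H N) (hNb : (N : 𝓞 K) ∈ 𝔟)
    (α : 𝓞 K) (hα : α ≠ 0) (u : Kˣ) (hu : (u : K) = α)
    (hcop : ∀ v : HeightOneSpectrum (𝓞 K), (N : 𝓞 K) ∈ v.asIdeal → α ∉ v.asIdeal) :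
    art ψ (prin u) = Additive.ofMul (ψ (a (Ideal.span {α}))) := by
  classical
  have hmem : ∀ v ∈ (prin u).support, (N : 𝓞 K) ∉ v.asIdeal := by
    intro v hv hN
    rw [Finsupp.mem_support_iff, Pool.Agent.Q257.AR.prin_eq α hα u hu v] at hv
    have hv' : (Associates.mk v.asIdeal).count (Associates.mk (Ideal.span {α})).factors ≠ 0 := by
      exact_mod_cast hv
    have h1 : v.asIdeal ∣ Ideal.span {α} :=
      (Associates.count_ne_zero_iff_dvd (Pool.Agent.Q257.AR.span_ne α hα) v.irreducible).1 hv'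
    have h2 : α ∈ v.asIdeal := by
      rw [Ideal.dvd_span_singleton] at h1
      exact h1
    exact hcop v hN h2
  have hfac : Ideal.span {α} = ∏ v ∈ (prin u).support, v.asIdeal ^ (prin u v).toNat := by
    have h1 := Ideal.finprod_heightOneSpectrum_factorization (Pool.Agent.Q257.AR.span_ne α hα)
    have h2 : ∀ v : HeightOneSpectrum (𝓞 K), v.maxPowDividing (Ideal.span {α}) =
        v.asIdeal ^ (prin u v).toNat := by
      intro v
      rw [Pool.Agent.Q257.AR.prin_eq α hα u hu v, Int.toNat_natCast]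
      rfl
    conv_lhs => rw [← h1]
    rw [finprod_congr h2, finprod_eq_prod_of_mulSupport_subset (s := (prin u).support)]
    intro v hv
    rw [Function.mem_mulSupport] at hv
    rw [Finset.mem_coe, Finsupp.mem_support_iff]
    intro h
    apply hv
    rw [h, Int.toNat_zero, pow_zero]
  have hcop' : ∀ v : HeightOneSpectrum (𝓞 K), (N : 𝓞 K) ∉ v.asIdeal →
      ¬ 𝔟 ≤ v.asIdeal ∧ v.asIdeal ⊔ 𝔟 = ⊤ := by
    intro v hv
    have h0 : ¬ 𝔟 ≤ v.asIdeal := fun h => hv (h hNb)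
    refine ⟨h0, ?_⟩
    have h1 := v.isMaximal
    by_contra h2
    have h3 := h1.eq_of_le h2 (le_sup_left)
    exact h0 (h3 ▸ le_sup_right)
  -- powers of primes
  have hpow : ∀ v : HeightOneSpectrum (𝓞 K), (N : 𝓞 K) ∉ v.asIdeal → ∀ k : ℕ,
      v.asIdeal ^ k ⊔ 𝔟 = ⊤ ∧ ψ (a (v.asIdeal ^ k)) = ψ (a v.asIdeal) ^ k := by
    intro v hv k
    induction k with
    | zero =>
      refine ⟨by rw [pow_zero, Ideal.one_eq_top, top_sup_eq], ?_⟩
      rw [pow_zero, pow_zero, Ideal.one_eq_top, hRC.one, map_one]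
    | succ k ih =>
      have h1 := (hcop' v hv).2
      refine ⟨?_, ?_⟩
      · rw [← Ideal.isCoprime_iff_sup_eq] at h1 ⊢
        exact h1.pow_left
      · rw [pow_succ, hRC.mul _ _ ih.1 h1, map_mul, ih.2, pow_succ]
  have hprod : ∀ s : Finset (HeightOneSpectrum (𝓞 K)), (∀ v ∈ s, (N : 𝓞 K) ∉ v.asIdeal) →
      (∏ v ∈ s, v.asIdeal ^ (prin u v).toNat) ⊔ 𝔟 = ⊤ ∧
      ψ (a (∏ v ∈ s, v.asIdeal ^ (prin u v).toNat)) =
        ∏ v ∈ s, ψ (a v.asIdeal) ^ (prin u v).toNat := by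
    intro s
    induction s using Finset.induction_on with
    | empty =>
      intro _
      rw [Finset.prod_empty, Finset.prod_empty]
      refine ⟨by rw [Ideal.one_eq_top, top_sup_eq], ?_⟩
      rw [Ideal.one_eq_top, hRC.one, map_one]
    | insert v s hvs ih =>
      intro hs
      obtain ⟨h1, h2⟩ := ih fun w hw => hs w (Finset.mem_insert_of_mem hw)
      obtain ⟨h3, h4⟩ := hpow v (hs v (Finset.mem_insert_self _ _)) (prin u v).toNat
      rw [Finset.prod_insert hvs, Finset.prod_insert hvs]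
      refine ⟨?_, ?_⟩
      · rw [← Ideal.isCoprime_iff_sup_eq] at h1 h3 ⊢
        exact h3.mul_left h1
      · rw [hRC.mul _ _ h3 h1, map_mul, h4, h2]
  rw [hfac, (hprod _ hmem).2, art_eq_sum, ofMul_prod]
  refine Finset.sum_congr rfl fun v hv => ?_
  have hun : Unramified H v := by
    by_contra h
    exact hmem v hv (hR v h)
  have h1 := chi_frob hun (frob_spec (M := H) v) (isFrob hRC (hcop' v (hmem v hv)).1) ψ
  rw [h1, ofMul_pow]
  have h2 : (prin u v) = (((prin u v).toNat : ℕ) : ℤ) := by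
    rw [Pool.Agent.Q257.AR.prin_eq α hα u hu v, Int.toNat_natCast]
  conv_lhs => rw [h2]
  rw [natCast_zsmul]

end

theorem cond : S_COND := by
  intro hunt K H _ _ _ _ _ _ hexp s₁ σ 𝔟 a hRC 𝔫 h𝔟𝔫 v hv
  have hgal : IsGalois K H := inferInstance
  -- inertia
  have hin : ∀ w : HeightOneSpectrum (𝓞 H), w.under (𝓞 K) = v → ∀ g : Gal(H/K), Inert w g →
      g ∈ D σ 𝔟 a 𝔫 := by
    intro w hw g hg
    by_contra hgD
    obtain ⟨ψ, hψD, hψg⟩ := exists_psi hexp _ g hgD
    obtain ⟨N0, hN0, hR0⟩ := Pool.Agent.Q280.AR.rF K H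
    obtain ⟨N1, hN1, -, hrec⟩ := Pool.Agent.Q92.AR.recip K H ψ
    have hb0 : Ideal.absNorm 𝔟 ≠ 0 := by
      rw [Ne, Ideal.absNorm_eq_zero_iff]
      exact hRC.ne_bot
    have hN : Ideal.absNorm 𝔟 * N0 * N1 ≠ 0 := mul_ne_zero (mul_ne_zero hb0 hN0) hN1
    have hNb : ((Ideal.absNorm 𝔟 * N0 * N1 : ℕ) : 𝓞 K) ∈ 𝔟 := by
      rw [mul_assoc, Nat.cast_mul]
      exact 𝔟.mul_mem_right _ (Ideal.absNorm_mem 𝔟)
    have hR : Ram K H (Ideal.absNorm 𝔟 * N0 * N1) :=
      Ram_mono ((dvd_mul_left N0 _).trans (dvd_mul_right _ N1)) hR0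
    have hd1 : N1 ∣ Ideal.absNorm 𝔟 * N0 * N1 := dvd_mul_left _ _
    generalize Ideal.absNorm 𝔟 * N0 * N1 = N at hN hNb hR hd1
    obtain ⟨x, hxpos, hxcong, hxv, hxart⟩ := hunt K H ψ (fun g => by
      rw [← map_mul, hexp, map_one]) v ⟨w, g, hw, hg, hψg⟩ N hN
    -- `x` is a unit at `N`
    have hxu : ∀ u : HeightOneSpectrum (𝓞 K), (N : 𝓞 K) ∈ u.asIdeal → u.valuation K (x : K) = 1 := by
      intro u hu
      by_cases huv : u = v
      · rw [huv]
        exact hxv
      · exact Pool.Agent.Q92.AR.val_eq_one hu (hxcong u huv hu)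
    obtain ⟨t, α, ht0, ht1, hα⟩ := exists_den N (x : K) hxu hN
    have htK : (t : K) ≠ 0 := by exact_mod_cast ht0
    have hα0 : α ≠ 0 := by
      rintro rfl
      have h1 : (t : K) * x = 0 := by
        rw [← hα]
        simp
      exact mul_ne_zero htK x.ne_zero h1
    -- the integer `t`
    have htN : ∀ u : HeightOneSpectrum (𝓞 K), (N : 𝓞 K) ∈ u.asIdeal →
        u.valuation K ((t : K) - 1) ≤ u.valuation K (N : K) := by
      intro u _
      have h1 : (N : ℤ) ∣ (t : ℤ) - 1 := by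
        have h2 := (Nat.modEq_iff_dvd.1 ht1.symm)
        simpa using h2
      obtain ⟨c, hc⟩ := h1
      have h2 : (t : K) - 1 = (N : K) * (c : K) := by
        have h3 := congrArg (Int.cast : ℤ → K) hc
        push_cast at h3
        exact h3
      rw [h2, map_mul]
      refine mul_le_of_le_one_right' ?_
      have h4 := u.valuation_le_one (K := K) (c : 𝓞 K)
      simpa using h4
    have htray : Units.mk0 (t : K) htK ∈ Ray K N1 := by
      refine ⟨fun u hu => ?_, fun φ => ?_⟩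
      · have hNu : (N : 𝓞 K) ∈ u.asIdeal := by
          obtain ⟨k, hk⟩ := hd1
          rw [hk, Nat.cast_mul]
          exact u.asIdeal.mul_mem_right _ hu
        refine (htN u hNu).trans ?_
        obtain ⟨k, hk⟩ := hd1
        rw [hk, Nat.cast_mul, map_mul]
        exact mul_le_of_le_one_right' val_nat_le
      · rw [Units.val_mk0, map_natCast]
        exact_mod_cast Nat.pos_of_ne_zero ht0
    have hart : art ψ (prin (Units.mk0 (t : K) htK * x)) ≠ 0 := by
      rw [prin_mul, map_add, hrec _ htray, zero_add]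
      exact hxart
    -- `α` is prime to `N`
    have hαu : ∀ u : HeightOneSpectrum (𝓞 K), (N : 𝓞 K) ∈ u.asIdeal → α ∉ u.asIdeal := by
      intro u hu hmem
      have h1 : u.valuation K (α : K) < 1 := (u.valuation_lt_one_iff_mem (K := K) α).2 hmem
      rw [hα, map_mul, hxu u hu, mul_one, Pool.Agent.Q92.AR.val_eq_one hu (htN u hu)] at h1
      exact lt_irrefl _ h1
    have hαval : ((Units.mk0 (t : K) htK * x : Kˣ) : K) = α := by
      rw [Units.val_mul, Units.val_mk0, hα]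
    rw [art_eq hRC ψ hR hNb α hα0 _ hαval hαu] at hart
    apply hart
    rw [hψD, ofMul_one]
    -- membership in `D`
    refine Subgroup.subset_closure ⟨α, hα0, ?_, ?_, ?_, rfl⟩
    · by_contra hne
      obtain ⟨P, hPm, hP⟩ := Ideal.exists_le_maximal _ hne
      have hP0 : P ≠ ⊥ := by
        rintro rfl
        exact hRC.ne_bot (le_bot_iff.1 (le_sup_right.trans hP))
      exact hαu ⟨P, hPm.isPrime, hP0⟩ (hP (Ideal.mem_sup_right hNb))
        (hP (Ideal.mem_sup_left (Ideal.mem_span_singleton_self α)))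
    · refine mem_of_val hv hN (h𝔟𝔫 hNb) fun u huv hu => ?_
      have h1 : ((α - 1 : 𝓞 K) : K) = (t : K) * ((x : K) - 1) + ((t : K) - 1) := by
        have hα' : algebraMap (𝓞 K) K α = (t : K) * x := hα
        change algebraMap (𝓞 K) K (α - 1) = _
        rw [map_sub, map_one, hα']
        ring
      rw [h1]
      refine (Valuation.map_add _ _ _).trans (max_le ?_ (htN u hu))
      rw [map_mul]
      exact (mul_le_of_le_one_left' val_nat_le).trans (hxcong u huv hu)
    · rw [hα, map_mul, map_natCast]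
      exact mul_pos (by exact_mod_cast Nat.pos_of_ne_zero ht0) (hxpos σ)
  have hun : Unramified (FF σ 𝔟 a 𝔫) v :=
    Pool.Agent.Q111.EX.unram_of_inert (M := H) v fun w hw g hg x => x.2 ⟨g, hin w hw g hg⟩
  intro P hP
  rw [Pool.Agent.H588.ST.ram_iff K _ v P hP]
  intro hdvd
  exact hun P (HeightOneSpectrum.ext hP.over.symm) (Ideal.dvd_iff_le.1 hdvd)

end Pool.Agent.H236.MO
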