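import Pool.Agent.H509.MO.Stm

/-!
# Project MO, CONJ: the Artin symbol of `(ρ)`, `ρ ≡ -1 mod 𝔟`, is the complex conjugation
-/

set_option autoImplicit false
set_option linter.unusedSectionVars false
set_option linter.deprecated false

open NumberField IsDedekindDomain

noncomputable section

namespace Pool.Agent.H788.MO

open Pool.Agent.MO
open Pool.Agent.Q92.AR (Dv prin Ram art frob IsFrobenius Unramified Cong frob_spec prin_div)
open Pool.Agent.BT9 (RamAt RamR)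

section

variable {K H : Type} [Field K] [NumberField K] [Field H] [NumberField H] [Algebra K H]

/-- the Artin symbols of the ray class data are Frobenius elements -/
theorem isFrob {s₁ σ : K →+* ℝ} {𝔟 : Ideal (𝓞 K)} {a : Ideal (𝓞 K) → Gal(H/K)}
    (h : RC s₁ σ 𝔟 a) [IsGalois K H] (v : HeightOneSpectrum (𝓞 K)) (hv : ¬ 𝔟 ≤ v.asIdeal) :
    IsFrobenius v (a v.asIdeal) := by
  obtain ⟨w, hwm, hwv, -⟩ := frob_spec (M := H) v
  have hw0 : w ≠ ⊥ := by
    rintro rfl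
    apply v.ne_bot
    rw [← hwv, ← RingHom.ker_eq_comap_bot]
    exact (RingHom.injective_iff_ker_eq_bot _).1 (FaithfulSMul.algebraMap_injective (𝓞 K) (𝓞 H))
  refine ⟨w, hwm, hwv, fun x => ?_⟩
  have hgx : IsIntegral ℤ (a v.asIdeal (x : H)) := x.2.map (a v.asIdeal)
  refine ⟨⟨a v.asIdeal (x : H), hgx⟩ - x ^ Ideal.absNorm v.asIdeal, ?_, rfl⟩
  exact h.frob v hv ⟨w, hwm.isPrime, hw0⟩ ⟨hwv.symm⟩ x _ rfl

/-- the ray class data is multiplicative -/
theorem map_prod {s₁ σ : K →+* ℝ} {𝔟 : Ideal (𝓞 K)} {a : Ideal (𝓞 K) → Gal(H/K)}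
    (h : RC s₁ σ 𝔟 a) (ψ : Gal(H/K) →* ℂˣ) (S : Finset (HeightOneSpectrum (𝓞 K)))
    (n : HeightOneSpectrum (𝓞 K) → ℕ) (hS : ∀ v ∈ S, ¬ 𝔟 ≤ v.asIdeal) :
    IsCoprime (∏ v ∈ S, v.asIdeal ^ n v) 𝔟 ∧
      ψ (a (∏ v ∈ S, v.asIdeal ^ n v)) = ∏ v ∈ S, ψ (a v.asIdeal) ^ n v := by
  classical
  have hcop : ∀ v : HeightOneSpectrum (𝓞 K), ¬ 𝔟 ≤ v.asIdeal → IsCoprime v.asIdeal 𝔟 := by
    intro v hv
    rw [Ideal.isCoprime_iff_sup_eq]
    refine (Ideal.isMaximal_def.1 v.isMaximal).2 _ (lt_of_le_of_ne le_sup_left ?_)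
    intro h1
    apply hv
    rw [h1]
    exact le_sup_right
  have hpow : ∀ v : HeightOneSpectrum (𝓞 K), ¬ 𝔟 ≤ v.asIdeal → ∀ k : ℕ,
      ψ (a (v.asIdeal ^ k)) = ψ (a v.asIdeal) ^ k := by
    intro v hv k
    induction k with
    | zero =>
      rw [pow_zero, pow_zero, Ideal.one_eq_top, h.one, map_one]
    | succ k ih =>
      rw [pow_succ, h.mul _ _ (Ideal.isCoprime_iff_sup_eq.1 ((hcop v hv).pow_left))
        (Ideal.isCoprime_iff_sup_eq.1 (hcop v hv)), map_mul, ih, pow_succ]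
  induction S using Finset.induction_on with
  | empty =>
    rw [Finset.prod_empty, Finset.prod_empty]
    exact ⟨isCoprime_one_left, by rw [Ideal.one_eq_top, h.one, map_one]⟩
  | insert v S hvS ih =>
    rw [Finset.prod_insert hvS, Finset.prod_insert hvS]
    obtain ⟨h1, h2⟩ := ih fun w hw => hS w (Finset.mem_insert_of_mem hw)
    have hv := hS v (Finset.mem_insert_self v S)
    refine ⟨((hcop v hv).pow_left).mul_left h1, ?_⟩
    rw [h.mul _ _ (Ideal.isCoprime_iff_sup_eq.1 ((hcop v hv).pow_left))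
      (Ideal.isCoprime_iff_sup_eq.1 h1), map_mul, hpow v hv, h2]

/-- the ideal of an integer as a product -/
theorem span_eq (α : 𝓞 K) (hα : α ≠ 0) (u : Kˣ) (hu : (u : K) = α) :
    Ideal.span {α} = ∏ v ∈ (prin u).support, v.asIdeal ^ (prin u v).toNat := by
  have h1 := Ideal.finprod_heightOneSpectrum_factorization (Pool.Agent.Q257.AR.span_ne α hα)
  have h2 : ∀ v : HeightOneSpectrum (𝓞 K), v.maxPowDividing (Ideal.span {α}) =
      v.asIdeal ^ (prin u v).toNat := by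
    intro v
    rw [Pool.Agent.Q257.AR.prin_eq α hα u hu v, Int.toNat_natCast]
    rfl
  conv_lhs => rw [← h1]
  rw [finprod_congr h2, finprod_eq_prod_of_mulSupport_subset (s := (prin u).support)]
  intro v hv
  rw [Function.mem_mulSupport] at hv
  rw [Finset.mem_coe, Finsupp.mem_support_iff]
  intro h3
  apply hv
  rw [h3, Int.toNat_zero, pow_zero]

/-- the Artin map of characters and the ray class data -/
theorem art_eq {s₁ σ : K →+* ℝ} {𝔟 : Ideal (𝓞 K)} {a : Ideal (𝓞 K) → Gal(H/K)}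
    (h : RC s₁ σ 𝔟 a) [IsGalois K H] (ψ : Gal(H/K) →* ℂˣ) (α : 𝓞 K) (hα : α ≠ 0) (u : Kˣ)
    (hu : (u : K) = α)
    (hs : ∀ v : HeightOneSpectrum (𝓞 K), prin u v ≠ 0 → Unramified H v ∧ ¬ 𝔟 ≤ v.asIdeal) :
    art ψ (prin u) = Additive.ofMul (ψ (a (Ideal.span {α}))) := by
  have h1 := (map_prod h ψ (prin u).support (fun v => (prin u v).toNat)
    (fun v hv => (hs v (Finsupp.mem_support_iff.1 hv)).2)).2
  rw [span_eq α hα u hu, h1, Pool.Agent.Q125.AR.art_eq_sum, ofMul_prod]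
  refine Finset.sum_congr rfl fun v hv => ?_
  obtain ⟨h2, h3⟩ := hs v (Finsupp.mem_support_iff.1 hv)
  rw [Pool.Agent.Q125.AR.chi_frob h2 (frob_spec (M := H) v) (isFrob h v h3) ψ, ofMul_pow,
    ← natCast_zsmul, Int.toNat_of_nonneg]
  rw [Pool.Agent.Q257.AR.prin_eq α hα u hu v]
  exact Int.natCast_nonneg _

end

/-- **CONJ.** -/
theorem conj : S_CONJ := by
  intro K H _ _ _ _ _ _ hexp s₁ σ 𝔟 a h ρ hρ hρσ τ hτ
  have hcomm : ∀ g g' : Gal(H/K), g * g' = g' * g := by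
    intro g g'
    have h1 := hexp (g * g')
    have h2 := hexp g
    have h3 := hexp g'
    calc g * g' = (g * g) * g' * g * (g' * g') := by
          rw [h2, h3, mul_one, one_mul]
          have h4 : (g' * g) * (g' * g) = 1 := hexp _
          have h5 : g * g' = (g * g') * ((g' * g) * (g' * g)) := by rw [h4, mul_one]
          calc g * g' = (g * g') * ((g' * g) * (g' * g)) := h5
            _ = g * (g' * g') * g * (g' * g) := by simp only [mul_assoc]
            _ = g' * g := by rw [h3, mul_one, h2, one_mul]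
      _ = g' * g := by rw [h2, h3, mul_one, one_mul]
  -- the complex conjugation
  obtain ⟨c, hc⟩ : ∃ c : Gal(H/K), ∀ x : H, τ (c x) = (starRingEnd ℂ) (τ x) := by
    obtain ⟨ι, g, hι, hg⟩ := Pool.Agent.H509.Rec.exists_conj (M := H) σ
    obtain ⟨s, hs⟩ := ComplexEmbedding.exists_comp_symm_eq_of_comp_eq (k := K) ι τ (by
      ext x
      exact (hι x).trans (hτ x).symm)
    have h2 : ∀ y : H, τ y = ι (s.symm y) := fun y => by
      rw [← hs]
      rfl
    refine ⟨s * g * s.symm, fun x => ?_⟩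
    rw [h2, h2]
    show ι (s.symm (s (g (s.symm x)))) = _
    rw [AlgEquiv.symm_apply_apply, hg]
  -- it is enough to compare the values of the characters
  suffices hψ : ∀ ψ : Gal(H/K) →* ℂˣ, ψ (a (Ideal.span {ρ})) = ψ c by
    have h1 : a (Ideal.span {ρ}) = c := by
      let _ : CommGroup Gal(H/K) := { (inferInstance : Group Gal(H/K)) with mul_comm := hcomm }
      by_contra hne
      have h2 : a (Ideal.span {ρ}) * c⁻¹ ≠ 1 := fun h3 => hne (mul_inv_eq_one.1 h3)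
      obtain ⟨ψ, h3⟩ := CommGroup.exists_apply_ne_one_of_hasEnoughRootsOfUnity Gal(H/K) ℂ h2
      apply h3
      rw [map_mul, hψ ψ, map_inv, mul_inv_cancel]
    rw [h1]
    exact hc
  intro ψ
  have hψ2 : ∀ g, ψ g * ψ g = 1 := fun g => by rw [← map_mul, hexp, map_one]
  obtain ⟨N1, hN1, hR1, hrec⟩ := Pool.Agent.H389.BT.recd K H ψ
  have hb0 : Ideal.absNorm 𝔟 ≠ 0 := by
    rw [Ne, Ideal.absNorm_eq_zero_iff]
    exact h.ne_bot
  have hN0 : N1 * Ideal.absNorm 𝔟 ≠ 0 := mul_ne_zero hN1 hb0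
  obtain ⟨α, hα0, hαN, hαs⟩ := Pool.Agent.H996.BT.sgn_int (F := K) (N1 * Ideal.absNorm 𝔟) hN0
    (fun χ => χ ≠ σ)
  have hd1 : N1 ∣ N1 * Ideal.absNorm 𝔟 := dvd_mul_right _ _
  have hb1 : ((N1 * Ideal.absNorm 𝔟 : ℕ) : 𝓞 K) ∈ 𝔟 := by
    rw [Nat.cast_mul]
    exact 𝔟.mul_mem_left _ (Ideal.absNorm_mem 𝔟)
  generalize N1 * Ideal.absNorm 𝔟 = N at hN0 hαN hd1 hb1
  have hα1 : α - 1 ∈ 𝔟 := Ideal.mem_of_dvd _ hαN hb1
  have hαK : (α : K) ≠ 0 := by exact_mod_cast fun h => hα0 (RingOfIntegers.ext h)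
  have hneg : σ (α : K) < 0 := by
    have h2 : ¬ 0 < σ (α : K) := fun h => (hαs σ).1 h rfl
    have h3 : σ (α : K) ≠ 0 := (map_ne_zero σ).2 hαK
    exact lt_of_le_of_ne (not_lt.1 h2) h3
  have hpos : ∀ χ : K →+* ℝ, χ ≠ σ → 0 < χ (α : K) := fun χ hχ => (hαs χ).2 hχ
  have hval : ∀ v : HeightOneSpectrum (𝓞 K),
      v.valuation K ((α : K) - 1) ≤ v.valuation K (N : K) := by
    intro v
    obtain ⟨y, hy⟩ := hαN
    have h2 : (α : K) - 1 = (N : K) * (y : K) := by
      have h3 := congrArg (fun t : 𝓞 K => (t : K)) hy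
      push_cast at h3
      exact h3
    rw [h2, map_mul]
    exact mul_le_of_le_one_right' (v.valuation_le_one y)
  have hNN : ∀ v : HeightOneSpectrum (𝓞 K), v.valuation K (N : K) ≤ v.valuation K (N1 : K) := by
    intro v
    obtain ⟨k, hk⟩ := hd1
    rw [hk, Nat.cast_mul, map_mul]
    have h3 : v.valuation K (k : K) ≤ 1 := by
      have h4 := v.valuation_le_one (K := K) (k : 𝓞 K)
      simpa using h4
    exact mul_le_of_le_one_right' h3
  obtain ⟨u, hu⟩ : ∃ u : Kˣ, (u : K) = α := ⟨Units.mk0 (α : K) hαK, rfl⟩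
  have hNv : ∀ v : HeightOneSpectrum (𝓞 K), (N1 : 𝓞 K) ∈ v.asIdeal → (N : 𝓞 K) ∈ v.asIdeal := by
    intro v hv
    obtain ⟨k, hk⟩ := hd1
    rw [hk, Nat.cast_mul]
    exact v.asIdeal.mul_mem_right _ hv
  have hsupp : ∀ v : HeightOneSpectrum (𝓞 K), prin u v ≠ 0 → (N : 𝓞 K) ∉ v.asIdeal := by
    intro v hv hN
    apply hv
    apply Pool.Agent.Q125.AR.prin_eq_zero_of_valuation
    refine Pool.Agent.Q92.AR.val_eq_one hN ?_
    rw [hu]
    exact hval v
  have hart : art ψ (prin u) = Additive.ofMul (ψ (a (Ideal.span {α}))) := by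
    refine art_eq h ψ α hα0 u hu fun v hv => ⟨?_, fun hb => hsupp v hv (hb hb1)⟩
    by_contra h2
    exact hsupp v hv (hNv v (hR1 v h2))
  -- the symbols of `α` and `ρ` agree
  have hαρ : a (Ideal.span {ρ}) = a (Ideal.span {α}) := by
    have h1 : Ideal.span {α} ⊔ 𝔟 = ⊤ := by
      rw [Ideal.eq_top_iff_one]
      have h2 : (1 : 𝓞 K) = α - (α - 1) := by ring
      rw [h2]
      exact Ideal.sub_mem _ (Ideal.mem_sup_left (Ideal.mem_span_singleton_self α))
        (Ideal.mem_sup_right hα1)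
    have h1' : Ideal.span {ρ} ⊔ 𝔟 = ⊤ := by
      rw [Ideal.eq_top_iff_one]
      have h2 : (1 : 𝓞 K) = (ρ + 1) - ρ := by ring
      rw [h2]
      exact Ideal.sub_mem _ (Ideal.mem_sup_right hρ)
        (Ideal.mem_sup_left (Ideal.mem_span_singleton_self ρ))
    have h3 : a (Ideal.span {-(α * ρ)}) = 1 := by
      refine h.ray _ ?_ ?_
      · have h4 : -(α * ρ) - 1 = -(α * (ρ + 1)) + (α - 1) := by ring
        rw [h4]
        exact 𝔟.add_mem (𝔟.neg_mem (𝔟.mul_mem_left _ hρ)) hα1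
      · have h4 : ((-(α * ρ) : 𝓞 K) : K) = -((α : K) * (ρ : K)) := by push_cast; rfl
        rw [h4, map_neg, map_mul]
        have h5 := mul_neg_of_neg_of_pos hneg hρσ
        linarith
    rw [Ideal.span_singleton_neg, ← Ideal.span_singleton_mul_span_singleton, h.mul _ _ h1 h1'] at h3
    have h6 := hexp (a (Ideal.span {α}))
    exact mul_left_cancel (h3.trans h6.symm)
  rw [hαρ]
  -- the ramification at the real places
  have hs1 : ¬ RamR ψ s₁ := by
    rintro ⟨ι, g, hι, hg, hne⟩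
    apply hne
    obtain ⟨σ', hσ'⟩ := h.emb
    rw [← map_one ψ]
    refine Pool.Agent.H996.BT.psi_conj ψ s₁ ι ((algebraMap ℝ ℂ).comp σ') g 1 hι (fun x => ?_) hg
      (fun x => ?_)
    · rw [← hσ']
      rfl
    · show ((σ' x : ℝ) : ℂ) = (starRingEnd ℂ) ((σ' x : ℝ) : ℂ)
      rw [Complex.conj_ofReal]
  by_cases hc1 : ψ c = 1
  · -- `ψ` is not ramified at `σ`
    have hs2 : ¬ RamR ψ σ := by
      rintro ⟨ι, g, hι, hg, hne⟩
      apply hne
      rw [← hc1]
      exact Pool.Agent.H996.BT.psi_conj ψ σ ι τ g c hι hτ hg hc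
    have h1 : art ψ (prin u) = 0 := by
      refine hrec u (fun v _ => by rw [hu]; exact (hval v).trans (hNN v)) fun φ hφ => ?_
      rcases h.real φ with rfl | rfl
      · exact absurd hφ hs1
      · exact absurd hφ hs2
    rw [hart] at h1
    rw [hc1]
    exact h1
  · have hr : RamR ψ σ := ⟨τ, c, hτ, hc, hc1⟩
    obtain ⟨x, hx1, hx2, hx3, hx4⟩ := Pool.Agent.H996.BT.lsr Pool.Agent.H389.BT.recd K H ψ hψ2 σ hr
      N hN0
    have h1 : art ψ (prin (u / x)) = 0 := by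
      refine hrec (u / x) (fun v hv => ?_) fun φ hφ => ?_
      · have hv2 : (N : 𝓞 K) ∈ v.asIdeal := hNv v (hR1 v (Pool.Agent.H389.BT.ramAt_ram hv))
        refine le_trans ?_ (hNN v)
        rw [Units.val_div_eq_div_val]
        exact Pool.Agent.Q38.EX.near_div _ (Pool.Agent.Q38.EX.val_nat_lt_one hv2)
          (by rw [hu]; exact hval v) (hx1 v hv2)
      · rw [Units.val_div_eq_div_val, map_div₀, hu]
        rcases h.real φ with rfl | rfl
        · exact absurd hφ hs1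
        · exact div_pos_of_neg_of_neg hneg hx2
    rw [prin_div, map_sub, sub_eq_zero, hart] at h1
    have h2 : ψ (a (Ideal.span {α})) ≠ 1 := by
      intro h3
      apply hx4
      rw [← h1, h3]
      rfl
    have hm : ∀ z : ℂˣ, z * z = 1 → z ≠ 1 → z = -1 := by
      intro z hz hz1
      have h5 : (z : ℂ) * z = 1 := by rw [← Units.val_mul, hz, Units.val_one]
      rcases mul_self_eq_one_iff.1 h5 with h6 | h6
      · exact absurd (Units.ext h6) hz1
      · apply Units.ext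
        rw [h6]
        rfl
    rw [hm _ (hψ2 _) h2, hm _ (hψ2 _) hc1]

end Pool.Agent.H788.MO
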