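import Pool.Agent.H509.MO.Stm

/-!
# Project MO: the units of the monoid Stark conjecture from the levels
-/

set_option autoImplicit false
set_option linter.unusedSectionVars false

open NumberField IsDedekindDomain

noncomputable section

namespace Pool.Agent.MO

open Pool.Agent.W206.MS (OL IsOrder IsInv InMonoid InJ InP Loc nn Pair sm Good REq Rel cnt IsZ idx contr
  IsRealPrime IsFrobenius IsRayClassField InducesIso CondI CondII CondIII CondIV mkPair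
  isOrder_maxOrder mem_maxOrder_of_fg rel_iff isAbelianGalois_iSup isAbelianGalois_le stable_iff)

variable {K : Type} [Field K] [NumberField K] [Algebra K ℝ]

theorem finite_div {𝔟 : Ideal (𝓞 K)} (h : 𝔟 ≠ ⊥) : Finite {𝔫 : Ideal (𝓞 K) // 𝔟 ≤ 𝔫} := by
  have : Fintype {x : Ideal (𝓞 K) // x ∣ 𝔟} := UniqueFactorizationMonoid.fintypeSubtypeDvd 𝔟 h
  exact Finite.of_injective (fun x : {𝔫 : Ideal (𝓞 K) // 𝔟 ≤ 𝔫} =>
    (⟨x.1, Ideal.dvd_iff_le.2 x.2⟩ : {x : Ideal (𝓞 K) // x ∣ 𝔟}))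
    fun x y hxy => Subtype.ext (congrArg (fun z : {x : Ideal (𝓞 K) // x ∣ 𝔟} => z.1) hxy)

/-- the square root of a finite product -/
theorem sqrt_prod {ι : Type*} (s : Finset ι) (M : IntermediateField K ℝ) (x : ι → ℝ) (n : ι → ℕ)
    (hx : ∀ i, 0 < x i) (hM : ∀ i, Real.sqrt (x i) ∈ M) :
    Real.sqrt (∏ i ∈ s, x i ^ n i) ∈ M := by
  have : Real.sqrt (∏ i ∈ s, x i ^ n i) = ∏ i ∈ s, Real.sqrt (x i) ^ n i := by
    rw [Real.sqrt_eq_iff_mul_self_eq (Finset.prod_nonneg fun i _ => pow_nonneg (hx i).le _)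
      (Finset.prod_nonneg fun i _ => pow_nonneg (Real.sqrt_nonneg _) _),
      ← Finset.prod_mul_distrib]
    refine Finset.prod_congr rfl fun i _ => ?_
    rw [← mul_pow, Real.mul_self_sqrt (hx i).le]
  rw [this]
  exact M.prod_mem fun i _ => pow_mem (hM i) (n i)

section

variable {σ : K →+* ℝ} {O : Subalgebra ℤ K} {m : Submodule ℤ K} {H : IntermediateField K ℝ}
  [NumberField H] {𝔟 : Ideal (𝓞 K)} {Art : Submodule ℤ K → Gal(H/K)} {r : Gal(H/K)}

variable [Fintype {𝔫 : Ideal (𝓞 K) // 𝔟 ≤ 𝔫}]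
  (L : ∀ 𝔫 : {𝔫 : Ideal (𝓞 K) // 𝔟 ≤ 𝔫}, Level σ H 𝔟 (aO O Art) r 𝔫.1)

/-- the index set of the product -/
abbrev Ix : Type := Σ 𝔫 : {𝔫 : Ideal (𝓞 K) // 𝔟 ≤ 𝔫}, (L 𝔫).G'

/-- the factors -/
def uu (i : Ix L) : H := (L i.1).u i.2

/-- the exponents -/
def cc (m : Submodule ℤ K) (x : Submodule ℤ K) (i : Ix L) : ℕ := Cn O m (L i.1) x i.2

/-- the unit -/
def eps (m : Submodule ℤ K) (x : Submodule ℤ K) : H := ∏ i : Ix L, uu L i ^ cc L m x i

theorem eps_val (x : Submodule ℤ K) :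
    ((eps L m x : H) : ℝ) = ∏ i : Ix L, ((uu L i : H) : ℝ) ^ cc L m x i := by
  unfold eps
  push_cast
  rfl

theorem core_units (hcls : ∀ 𝔫, ClsP O m Art (L 𝔫)) (hfd : Pool.Agent.W206.MS.IsFiniteAbelian H)
    (hrel : ∀ x y, InMonoid O m y → (Rel O m σ x y ↔ REq O m σ x y))
    (hZ : ∀ x, InMonoid O m x → IsZ O m σ x (fun s => ∑ 𝔫, ∑ ρ, (Cn O m (L 𝔫) x ρ : ℂ) *
      ((Ideal.absNorm (cof 𝔟 𝔫.1) : ℂ) ^ (-s) * (L 𝔫).Zd ρ s)))
    (hcof : ∀ 𝔫 : {𝔫 : Ideal (𝓞 K) // 𝔟 ≤ 𝔫}, Ideal.absNorm (cof 𝔟 𝔫.1) ≠ 0) :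
    ∃ ε : Submodule ℤ K → H, ∀ a, InMonoid O m a →
      (∀ b, InMonoid O m b → Rel O m σ b a → ε b = ε a) ∧
      (IsIntegral ℤ (ε a : ℝ) ∧ IsIntegral ℤ (ε a : ℝ)⁻¹) ∧
      CondI σ O m a (ε a) ∧ CondII O m H Art ε a ∧ CondIII σ H (ε a) ∧ CondIV H (ε a) := by
  classical
  obtain ⟨hfd1, hab⟩ := hfd
  refine ⟨eps L m, fun a ha => ⟨fun b hb hba => ?_, ⟨?_, ?_⟩, ?_, ?_, ?_, ?_⟩⟩
  · have h1 := (hrel b a ha).1 hba
    unfold eps
    refine Finset.prod_congr rfl fun i _ => ?_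
    congr 1
    exact (hcls i.1).cong b a h1 i.2
  · rw [eps_val]
    exact IsIntegral.prod _ fun i _ => ((L i.1).int i.2).pow _
  · rw [eps_val, ← Finset.prod_inv_distrib]
    refine IsIntegral.prod _ fun i _ => ?_
    rw [← inv_pow]
    exact ((L i.1).intinv i.2).pow _
  · refine ⟨_, hZ a ha, ?_⟩
    have hd : ∀ (𝔫 : {𝔫 : Ideal (𝓞 K) // 𝔟 ≤ 𝔫}) (ρ : (L 𝔫).G'),
        HasDerivAt (fun s : ℂ => (Cn O m (L 𝔫) a ρ : ℂ) *
          ((Ideal.absNorm (cof 𝔟 𝔫.1) : ℂ) ^ (-s) * (L 𝔫).Zd ρ s))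
          ((Cn O m (L 𝔫) a ρ : ℂ) * deriv ((L 𝔫).Zd ρ) 0) 0 := by
      intro 𝔫 ρ
      have h1 : DifferentiableAt ℂ ((L 𝔫).Zd ρ) 0 :=
        ((L 𝔫).hol ρ).differentiableAt (isOpen_compl_singleton.mem_nhds (by norm_num))
      have hN : (Ideal.absNorm (cof 𝔟 𝔫.1) : ℂ) ≠ 0 := by exact_mod_cast hcof 𝔫
      have h2 : DifferentiableAt ℂ (fun s : ℂ => (Ideal.absNorm (cof 𝔟 𝔫.1) : ℂ) ^ (-s)) 0 :=
        (differentiableAt_id.neg).const_cpow (Or.inl hN)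
      have h3 := (h2.hasDerivAt.mul h1.hasDerivAt).const_mul (Cn O m (L 𝔫) a ρ : ℂ)
      have h4 := (L 𝔫).zero ρ
      simp only [h4, mul_zero, neg_zero, Complex.cpow_zero, one_mul, zero_add] at h3
      exact h3
    have h1 : HasDerivAt (fun s : ℂ => ∑ 𝔫, ∑ ρ, (Cn O m (L 𝔫) a ρ : ℂ) *
        ((Ideal.absNorm (cof 𝔟 𝔫.1) : ℂ) ^ (-s) * (L 𝔫).Zd ρ s))
        (∑ 𝔫, ∑ ρ, (Cn O m (L 𝔫) a ρ : ℂ) * deriv ((L 𝔫).Zd ρ) 0) 0 :=
      HasDerivAt.fun_sum fun 𝔫 _ => HasDerivAt.fun_sum fun ρ _ => hd 𝔫 ρ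
    rw [h1.deriv, ← Fintype.sum_sigma' (f := fun 𝔫 ρ => (Cn O m (L 𝔫) a ρ : ℂ) *
      deriv ((L 𝔫).Zd ρ) 0), ← Finset.sum_neg_distrib, Complex.exp_sum, eps_val]
    push_cast
    refine Finset.prod_congr rfl fun i _ => ?_
    have h5 := (L i.1).exp i.2
    change (((uu L i : H) : ℝ) : ℂ) ^ cc L m a i = _
    have h6 : (((uu L i : H) : ℝ) : ℂ) = Complex.exp (-deriv ((L i.1).Zd i.2) 0) := h5
    rw [h6, ← Complex.exp_nat_mul]
    congr 1
    change (Cn O m (L i.1) a i.2 : ℂ) * _ = _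
    ring
  · intro b hb
    unfold eps
    rw [map_prod]
    have he : Function.Bijective (fun i : Ix L => (⟨i.1, (L i.1).res (Art b) * i.2⟩ : Ix L)) := by
      constructor
      · rintro ⟨𝔫, ρ⟩ ⟨𝔫', ρ'⟩ h
        simp only [Sigma.mk.injEq] at h
        obtain ⟨rfl, h⟩ := h
        have h := eq_of_heq h
        rw [mul_right_inj] at h
        rw [h]
      · rintro ⟨𝔫, ρ⟩
        exact ⟨⟨𝔫, ((L 𝔫).res (Art b))⁻¹ * ρ⟩, by simp⟩
    rw [← Function.Bijective.prod_comp he (fun i : Ix L => uu L i ^ cc L m (b * a) i)]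
    refine Finset.prod_congr rfl fun i _ => ?_
    rw [map_pow]
    have h1 : Art b (uu L i) = uu L ⟨i.1, (L i.1).res (Art b) * i.2⟩ := (L i.1).gal _ _
    have h2 : cc L m (b * a) ⟨i.1, (L i.1).res (Art b) * i.2⟩ = cc L m a i :=
      (hcls i.1).eqv b hb a ha i.2
    rw [h1, h2]
  · intro τ hτ
    unfold eps
    rw [map_prod, norm_prod]
    refine Finset.prod_eq_one fun i _ => ?_
    rw [map_pow, norm_pow]
    have h1 : ‖τ (uu L i)‖ = 1 := (L i.1).nrm i.2 τ hτ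
    rw [h1, one_pow]
  · have hq : ∀ i : Option (Ix L), IsAbelianGalois K (H ⊔ IntermediateField.adjoin K
        {Real.sqrt (i.elim 1 fun j => ((uu L j : H) : ℝ))} : IntermediateField K ℝ) := by
      rintro (_ | i)
      · have h1 : (H ⊔ IntermediateField.adjoin K {Real.sqrt 1} : IntermediateField K ℝ) = H := by
          rw [sup_eq_left, IntermediateField.adjoin_le_iff, Set.singleton_subset_iff, Real.sqrt_one]
          exact one_mem H
        change IsAbelianGalois K (H ⊔ IntermediateField.adjoin K {Real.sqrt 1} :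
          IntermediateField K ℝ)
        rw [h1]
        exact hab
      · exact (L i.1).ab i.2
    let M : IntermediateField K ℝ := ⨆ i : Option (Ix L), (H ⊔ IntermediateField.adjoin K
        {Real.sqrt (i.elim 1 fun j => ((uu L j : H) : ℝ))} : IntermediateField K ℝ)
    have hM : IsAbelianGalois K M := isAbelianGalois_iSup _ hq
    have hqM : ∀ i : Option (Ix L), (H ⊔ IntermediateField.adjoin K
        {Real.sqrt (i.elim 1 fun j => ((uu L j : H) : ℝ))} : IntermediateField K ℝ) ≤ M := fun i =>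
      le_iSup (fun i : Option (Ix L) => (H ⊔ IntermediateField.adjoin K
        {Real.sqrt (i.elim 1 fun j => ((uu L j : H) : ℝ))} : IntermediateField K ℝ)) i
    have hle2 : (H ⊔ IntermediateField.adjoin K {Real.sqrt (eps L m a : ℝ)} :
        IntermediateField K ℝ) ≤ M := by
      refine sup_le (le_sup_left.trans (hqM none)) ?_
      rw [IntermediateField.adjoin_le_iff, Set.singleton_subset_iff, eps_val]
      refine sqrt_prod _ M _ _ (fun i => (L i.1).pos i.2) fun i => hqM (some i) ?_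
      exact (le_sup_right : _ ≤ (H ⊔ IntermediateField.adjoin K
        {Real.sqrt ((uu L i : H) : ℝ)} : IntermediateField K ℝ))
        (IntermediateField.mem_adjoin_simple_self K _)
    exact isAbelianGalois_le hle2

end

end Pool.Agent.MO
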