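import Pool.Agent.H509.MO.Stm

/-!
# MO-DIC: the dictionary between the ideals of the ring of integers and the lattices
-/

set_option autoImplicit false
set_option linter.unusedSectionVars false

open NumberField IsDedekindDomain

noncomputable section

namespace Pool.Agent.H685.MO

open Pool.Agent.MO
open Pool.Agent.W206.MS (OL IsInv sm idx mem_sm sm_sm sm_mul mul_sm one_sm sm_inv_sm stable_iff
  OL_mul_OL)

variable {K : Type} [Field K] [NumberField K]

theorem coe_inj {x y : 𝓞 K} (h : (x : K) = y) : x = y :=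
  RingOfIntegers.coe_injective h

theorem mem_sub (I : Ideal (𝓞 K)) (x : K) : x ∈ sub I ↔ ∃ y ∈ I, (y : K) = x := by
  unfold sub
  rw [Submodule.mem_map]
  rfl

theorem sub_mul (I J : Ideal (𝓞 K)) : sub (I * J) = sub I * sub J := by
  apply le_antisymm
  · intro x hx
    obtain ⟨y, hy, rfl⟩ := (mem_sub _ _).1 hx
    refine Submodule.mul_induction_on hy (fun a ha b hb => ?_) (fun a b ha hb => ?_)
    · have : ((a * b : 𝓞 K) : K) = (a : K) * (b : K) := map_mul _ _ _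
      rw [this]
      exact Submodule.mul_mem_mul ((mem_sub _ _).2 ⟨a, ha, rfl⟩) ((mem_sub _ _).2 ⟨b, hb, rfl⟩)
    · have : ((a + b : 𝓞 K) : K) = (a : K) + (b : K) := map_add _ _ _
      rw [this]
      exact add_mem ha hb
  · rw [Submodule.mul_le]
    intro a ha b hb
    obtain ⟨a', ha', rfl⟩ := (mem_sub _ _).1 ha
    obtain ⟨b', hb', rfl⟩ := (mem_sub _ _).1 hb
    exact (mem_sub _ _).2 ⟨a' * b', Ideal.mul_mem_mul ha' hb', map_mul _ _ _⟩

theorem sub_top : sub (⊤ : Ideal (𝓞 K)) = OL (OK K) := by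
  ext x
  rw [mem_sub]
  constructor
  · rintro ⟨y, -, rfl⟩
    exact y.2
  · intro hx
    exact ⟨⟨x, hx⟩, Submodule.mem_top, rfl⟩

theorem sub_le (I J : Ideal (𝓞 K)) : sub I ≤ sub J ↔ I ≤ J := by
  constructor
  · intro h x hx
    obtain ⟨y, hy, h1⟩ := (mem_sub _ _).1 (h ((mem_sub _ _).2 ⟨x, hx, rfl⟩))
    rw [← coe_inj h1]
    exact hy
  · intro h x hx
    obtain ⟨y, hy, rfl⟩ := (mem_sub _ _).1 hx
    exact (mem_sub _ _).2 ⟨y, h hy, rfl⟩

theorem sub_sup (I J : Ideal (𝓞 K)) : sub (I ⊔ J) = sub I ⊔ sub J := by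
  apply le_antisymm
  · intro x hx
    obtain ⟨y, hy, rfl⟩ := (mem_sub _ _).1 hx
    obtain ⟨a, ha, b, hb, rfl⟩ := Submodule.mem_sup.1 hy
    have : ((a + b : 𝓞 K) : K) = (a : K) + (b : K) := map_add _ _ _
    rw [this]
    exact Submodule.add_mem_sup ((mem_sub _ _).2 ⟨a, ha, rfl⟩) ((mem_sub _ _).2 ⟨b, hb, rfl⟩)
  · exact sup_le ((sub_le _ _).2 le_sup_left) ((sub_le _ _).2 le_sup_right)

theorem sub_span (x : 𝓞 K) : sub (Ideal.span {x}) = sm (x : K) (OL (OK K)) := by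
  ext z
  rw [mem_sub, mem_sm]
  constructor
  · rintro ⟨y, hy, rfl⟩
    obtain ⟨a, rfl⟩ := Ideal.mem_span_singleton'.1 hy
    refine ⟨(a : K), a.2, ?_⟩
    have : ((a * x : 𝓞 K) : K) = (a : K) * (x : K) := map_mul _ _ _
    rw [this, mul_comm]
  · rintro ⟨a, ha, rfl⟩
    obtain ⟨a', ha'⟩ : ∃ a' : 𝓞 K, (a' : K) = a := ⟨⟨a, ha⟩, rfl⟩
    refine ⟨a' * x, Ideal.mul_mem_left _ _ (Ideal.mem_span_singleton_self x), ?_⟩
    have : ((a' * x : 𝓞 K) : K) = (a' : K) * (x : K) := map_mul _ _ _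
    rw [this, mul_comm, ha']

theorem sub_stable (I : Ideal (𝓞 K)) : OL (OK K) * sub I = sub I := by
  rw [← sub_top, ← sub_mul, Ideal.top_mul]

theorem sub_inv (I : Ideal (𝓞 K)) (hI : I ≠ ⊥) : IsInv (OK K) (sub I) := by
  refine ⟨sub_stable I, ?_⟩
  obtain ⟨x, hx, hx0⟩ := Submodule.exists_mem_ne_zero_of_ne_bot hI
  obtain ⟨J, hJ⟩ := Ideal.dvd_iff_le.2 ((Ideal.span_singleton_le_iff_mem I).2 hx)
  have hx0' : (x : K) ≠ 0 := fun h => hx0 (coe_inj (h.trans (map_zero _).symm))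
  refine ⟨sm ((x : K)⁻¹) (sub J), ?_, ?_⟩
  · rw [mul_sm, sub_stable]
  · rw [mul_sm, ← sub_mul, ← hJ, sub_span, sm_inv_sm hx0']

theorem exists_sub (A : Submodule ℤ K) (hA : OL (OK K) * A = A) (hle : A ≤ OL (OK K)) :
    ∃ I : Ideal (𝓞 K), sub I = A := by
  have hs := stable_iff.1 hA
  let I : Ideal (𝓞 K) :=
    { carrier := {y | (y : K) ∈ A}
      add_mem' := by
        intro a b ha hb
        have : ((a + b : 𝓞 K) : K) = (a : K) + (b : K) := map_add _ _ _
        show ((a + b : 𝓞 K) : K) ∈ A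
        rw [this]
        exact A.add_mem ha hb
      zero_mem' := by
        show ((0 : 𝓞 K) : K) ∈ A
        rw [show ((0 : 𝓞 K) : K) = 0 from map_zero _]
        exact A.zero_mem
      smul_mem' := by
        intro c y hy
        show ((c * y : 𝓞 K) : K) ∈ A
        rw [show ((c * y : 𝓞 K) : K) = (c : K) * (y : K) from map_mul _ _ _]
        exact hs _ c.2 _ hy }
  refine ⟨I, ?_⟩
  ext x
  rw [mem_sub]
  constructor
  · rintro ⟨y, hy, rfl⟩
    exact hy
  · intro hx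
    exact ⟨⟨x, hle hx⟩, hx, rfl⟩

theorem idx_sub (I : Ideal (𝓞 K)) : idx (OK K) (sub I) = Ideal.absNorm I := by
  have hf : Function.Injective (algebraMap (𝓞 K) K).toAddMonoidHom := fun x y h => coe_inj h
  have h1 : (sub I).toAddSubgroup =
      (Submodule.toAddSubgroup I).map (algebraMap (𝓞 K) K).toAddMonoidHom := by
    ext x
    rw [AddSubgroup.mem_map]
    exact mem_sub I x
  have h2 : (OL (OK K)).toAddSubgroup =
      (⊤ : AddSubgroup (𝓞 K)).map (algebraMap (𝓞 K) K).toAddMonoidHom := by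
    rw [← sub_top]
    ext x
    rw [AddSubgroup.mem_map]
    exact mem_sub ⊤ x
  unfold idx
  rw [h1, h2, AddSubgroup.relIndex_map_map_of_injective _ _ hf, AddSubgroup.relIndex_top_right,
    Ideal.absNorm_apply]
  rfl

theorem dic : S_DIC := by
  intro K _ _
  exact ⟨mem_sub, sub_mul, sub_top, sub_le, sub_sup, sub_span, sub_inv, exists_sub, idx_sub⟩

end Pool.Agent.H685.MO
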