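import Pool.Agent.H509.MO.Stm
import Pool.Agent.H509.ST.UNR

/-!
Project MO (helper509), part PRIN: the Artin map of the fixed field (helper588).
-/

set_option autoImplicit false
set_option linter.unusedSectionVars false
set_option linter.deprecated false

open NumberField IsDedekindDomain

noncomputable section

namespace Pool.Agent.H588.MO

open Pool.Agent.MO
open Pool.Agent.N598.ST (Place Unram IsArtin PrimeTo)
open Pool.Agent.N820.RS (IsModulus)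
open Pool.Agent.Q92.AR (Dv prin Pr Ray art Pos Cong frob IsFrobenius Unramified Ram isFrobenius_conj
  frob_spec prin_apply prin_div art_single)
open Pool.Agent.Q20.EX (Inert CongAt)
open Pool.Agent.Q125.AR (mem_under prin_eq_zero_of_valuation chi_frob art_eq_sum finite_dvd)
open Pool.Agent.BT9 (RamAt RamR S_RECD)

section basic

variable {K F : Type} [Field K] [NumberField K] [Field F] [NumberField F] [Algebra K F]

theorem unramified_of_unram [IsGalois K F] {v : HeightOneSpectrum (𝓞 K)} (h : Unram K F v) :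
    Unramified F v :=
  Pool.Agent.H509.Rec.unr_of_squarefree ((Pool.Agent.H588.ST.unr K F v).1 h)

theorem exists_over (v : HeightOneSpectrum (𝓞 K)) :
    ∃ w : HeightOneSpectrum (𝓞 F), w.asIdeal.LiesOver v.asIdeal := by
  have hvm := v.isMaximal
  obtain ⟨Q, hQ, hQv⟩ := Ideal.exists_ideal_over_maximal_of_isIntegral (S := 𝓞 F) v.asIdeal (by
    rw [(RingHom.injective_iff_ker_eq_bot _).1 (FaithfulSMul.algebraMap_injective (𝓞 K) (𝓞 F))]
    exact bot_le)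
  have hQ0 : Q ≠ ⊥ := by
    rintro rfl
    apply v.ne_bot
    rw [← hQv]
    exact Ideal.comap_bot_of_injective _ (FaithfulSMul.algebraMap_injective (𝓞 K) (𝓞 F))
  exact ⟨⟨Q, hQ.isPrime, hQ0⟩, ⟨hQv.symm⟩⟩

/-- an element which is a Frobenius element at all primes above `v` -/
theorem isFrobenius_of {v : HeightOneSpectrum (𝓞 K)} {g : F ≃ₐ[K] F}
    (h : ∀ w : HeightOneSpectrum (𝓞 F), w.asIdeal.LiesOver v.asIdeal → ∀ x y : 𝓞 F,
      (y : F) = g (x : F) - (x : F) ^ Ideal.absNorm v.asIdeal → y ∈ w.asIdeal) :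
    IsFrobenius v g := by
  obtain ⟨w, hw⟩ := exists_over (F := F) v
  refine ⟨w.asIdeal, w.isMaximal, hw.over.symm, fun x => ?_⟩
  have hgx : IsIntegral ℤ (g (x : F)) := x.2.map g
  exact ⟨⟨g (x : F), hgx⟩ - x ^ Ideal.absNorm v.asIdeal, h w hw x _ rfl, rfl⟩

theorem comm_of_abelian [IsAbelianGalois K F] (g h : F ≃ₐ[K] F) : g * h = h * g :=
  Std.Commutative.comm (op := (· * · : (F ≃ₐ[K] F) → (F ≃ₐ[K] F) → (F ≃ₐ[K] F))) g h

/-- Frobenius elements at unramified primes of abelian extensions are unique -/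
theorem frob_unique [IsAbelianGalois K F] {v : HeightOneSpectrum (𝓞 K)} (hv : Unramified F v)
    {g g' : F ≃ₐ[K] F} (hg : IsFrobenius v g) (hg' : IsFrobenius v g') : g = g' := by
  obtain ⟨h, rfl⟩ := isFrobenius_conj hv hg hg'
  rw [comm_of_abelian h⁻¹ g, mul_assoc, inv_mul_cancel, mul_one]

end basic

section ideals

variable {K : Type} [Field K] [NumberField K]

theorem ideal_ind {P : Ideal (𝓞 K) → Prop} (h1 : P ⊤)
    (h2 : ∀ (v : HeightOneSpectrum (𝓞 K)) (I : Ideal (𝓞 K)), I ≠ ⊥ → P I → P (v.asIdeal * I)) :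
    ∀ I : Ideal (𝓞 K), I ≠ ⊥ → P I := by
  intro I
  induction I using UniqueFactorizationMonoid.induction_on_prime with
  | h₁ => intro h; exact absurd rfl h
  | h₂ x hx =>
    intro _
    rw [Ideal.isUnit_iff.1 hx]
    exact h1
  | h₃ a p ha hp ih =>
    intro _
    exact h2 ⟨p, Ideal.isPrime_of_prime hp, hp.ne_zero⟩ a ha (ih ha)

theorem sup_of_mul {I J 𝔟 : Ideal (𝓞 K)} (h : I * J ⊔ 𝔟 = ⊤) : I ⊔ 𝔟 = ⊤ ∧ J ⊔ 𝔟 = ⊤ :=
  ⟨top_le_iff.1 (h ▸ sup_le_sup_right (Ideal.mul_le_inf.trans inf_le_left) 𝔟),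
    top_le_iff.1 (h ▸ sup_le_sup_right (Ideal.mul_le_inf.trans inf_le_right) 𝔟)⟩

theorem not_le_of_sup {I 𝔟 : Ideal (𝓞 K)} (h : I ⊔ 𝔟 = ⊤) (v : HeightOneSpectrum (𝓞 K))
    (hb : 𝔟 ≤ v.asIdeal) : ¬ I ≤ v.asIdeal := fun h1 =>
  v.isPrime.ne_top (top_le_iff.1 (h ▸ sup_le h1 hb))

theorem sup_of_not_le {𝔟 : Ideal (𝓞 K)} (v : HeightOneSpectrum (𝓞 K))
    (hb : ¬ 𝔟 ≤ v.asIdeal) : v.asIdeal ⊔ 𝔟 = ⊤ := by
  by_contra h
  exact hb ((v.isMaximal.eq_of_le h le_sup_left).symm ▸ le_sup_right)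

theorem sup_of_forall {I 𝔟 : Ideal (𝓞 K)} (hb : 𝔟 ≠ ⊥)
    (h : ∀ v : HeightOneSpectrum (𝓞 K), 𝔟 ≤ v.asIdeal → ¬ I ≤ v.asIdeal) : I ⊔ 𝔟 = ⊤ := by
  by_contra hne
  obtain ⟨M, hM, hIM⟩ := Ideal.exists_le_maximal _ hne
  have h0 : M ≠ ⊥ := by
    rintro rfl
    exact hb (le_bot_iff.1 (le_sup_right.trans hIM))
  exact h ⟨M, hM.isPrime, h0⟩ (le_sup_right.trans hIM) (le_sup_left.trans hIM)

/-- the part of an ideal which is prime to `𝔫` -/
theorem exists_split (𝔫 : Ideal (𝓞 K)) : ∀ J : Ideal (𝓞 K), J ≠ ⊥ →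
    ∃ (J₁ J₂ : Ideal (𝓞 K)) (k : ℕ), J = J₁ * J₂ ∧ J₂ ⊔ 𝔫 = ⊤ ∧ 𝔫 ^ k ≤ J₁ := by
  refine ideal_ind ⟨⊤, ⊤, 0, by rw [Ideal.top_mul], top_sup_eq _, le_top⟩ fun v I hI ih => ?_
  obtain ⟨J₁, J₂, k, hJ, h2, h1⟩ := ih
  by_cases hv : 𝔫 ≤ v.asIdeal
  · refine ⟨v.asIdeal * J₁, J₂, k + 1, by rw [hJ, mul_assoc], h2, ?_⟩
    rw [pow_succ']
    exact Ideal.mul_mono hv h1
  · refine ⟨J₁, v.asIdeal * J₂, k, by rw [hJ]; ring, ?_, h1⟩
    have h3 := sup_of_not_le v hv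
    rw [← Ideal.isCoprime_iff_sup_eq] at h2 h3 ⊢
    exact IsCoprime.mul_left h3 h2

/-- Chinese remainder theorem, with a positivity condition -/
theorem exists_crt (σ : K →+* ℝ) {A B : Ideal (𝓞 K)} (hA : A ≠ ⊥) (hB : B ≠ ⊥) (h : A ⊔ B = ⊤)
    (x y : 𝓞 K) : ∃ α : 𝓞 K, α - x ∈ A ∧ α - y ∈ B ∧ 0 < σ (α : K) := by
  obtain ⟨a, ha, b, hb, hab⟩ := Submodule.mem_sup.1 (h ▸ Submodule.mem_top : (1 : 𝓞 K) ∈ A ⊔ B)
  have hAB : A * B ≠ ⊥ := mul_ne_zero hA hB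
  obtain ⟨m, hm⟩ := exists_nat_gt (- σ ((x * b + y * a : 𝓞 K) : K))
  have ht : (Ideal.absNorm (A * B) : 𝓞 K) ∈ A * B := Ideal.absNorm_mem _
  have hn : (1 : ℝ) ≤ (Ideal.absNorm (A * B) : ℝ) := by
    exact_mod_cast Nat.one_le_iff_ne_zero.2 (Ideal.absNorm_eq_zero_iff.not.2 hAB)
  refine ⟨x * b + y * a + (m : 𝓞 K) * (Ideal.absNorm (A * B) : 𝓞 K), ?_, ?_, ?_⟩
  · have h1 : x * b + y * a + (m : 𝓞 K) * (Ideal.absNorm (A * B) : 𝓞 K) - x =
        (y - x) * a + (m : 𝓞 K) * (Ideal.absNorm (A * B) : 𝓞 K) := by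
      linear_combination x * hab
    rw [h1]
    exact A.add_mem (A.mul_mem_left _ ha) (A.mul_mem_left _ ((Ideal.mul_le_inf.trans inf_le_left) ht))
  · have h1 : x * b + y * a + (m : 𝓞 K) * (Ideal.absNorm (A * B) : 𝓞 K) - y =
        (x - y) * b + (m : 𝓞 K) * (Ideal.absNorm (A * B) : 𝓞 K) := by
      linear_combination y * hab
    rw [h1]
    exact B.add_mem (B.mul_mem_left _ hb)
      (B.mul_mem_left _ ((Ideal.mul_le_inf.trans inf_le_right) ht))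
  · have h2 : σ ((x * b + y * a + (m : 𝓞 K) * (Ideal.absNorm (A * B) : 𝓞 K) : 𝓞 K) : K) =
        σ ((x * b + y * a : 𝓞 K) : K) + (m : ℝ) * (Ideal.absNorm (A * B) : ℝ) := by
      rw [RingOfIntegers.coe_eq_algebraMap, RingOfIntegers.coe_eq_algebraMap, map_add
        (algebraMap (𝓞 K) K) (x * b + y * a), map_mul (algebraMap (𝓞 K) K) (m : 𝓞 K), map_natCast,
        map_natCast, map_add σ, map_mul σ, map_natCast, map_natCast]
    rw [h2]
    nlinarith [Nat.cast_nonneg (α := ℝ) m]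

end ideals

section main

variable {K F : Type} [Field K] [NumberField K] [Field F] [NumberField F] [Algebra K F]
  [IsAbelianGalois K F]

theorem chars_sep {g : F ≃ₐ[K] F} (h : ∀ ψ : (F ≃ₐ[K] F) →* ℂˣ, ψ g = 1) : g = 1 := by
  let _ : CommGroup (F ≃ₐ[K] F) :=
    { (inferInstance : Group (F ≃ₐ[K] F)) with mul_comm := comm_of_abelian }
  by_contra hne
  obtain ⟨ψ, hψ⟩ := CommGroup.exists_apply_ne_one_of_hasEnoughRootsOfUnity (F ≃ₐ[K] F) ℂ hne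
  exact hψ (h ψ)

/-- the Artin map and `art` -/
theorem art_eq {S : Finset (Place K)}
    (hS : ∀ q : HeightOneSpectrum (𝓞 K), Sum.inr q ∉ S → Unramified F q)
    {a' : Ideal (𝓞 K) → Gal(F/K)} (ha : IsArtin S a') (ψ : (F ≃ₐ[K] F) →* ℂˣ) :
    ∀ I : Ideal (𝓞 K), I ≠ ⊥ → (PrimeTo S I → ∀ d : Dv K,
      (∀ v, d v = FractionalIdeal.count K v (I : FractionalIdeal (nonZeroDivisors (𝓞 K)) K)) →
      art ψ d = Additive.ofMul (ψ (a' I))) := by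
  classical
  refine ideal_ind ?_ ?_
  · intro _ d hd
    have h0 : d = 0 := by
      ext v
      rw [hd, FractionalIdeal.coeIdeal_top, FractionalIdeal.count_one]
      rfl
    rw [h0, map_zero, ha.one, map_one]
    rfl
  · intro v I hI ih hP d hd
    have hv : PrimeTo S v.asIdeal :=
      ⟨v.ne_bot, fun q hq h => hP.2 q hq ((Ideal.mul_le_inf.trans inf_le_left).trans h)⟩
    have hI' : PrimeTo S I :=
      ⟨hI, fun q hq h => hP.2 q hq ((Ideal.mul_le_inf.trans inf_le_right).trans h)⟩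
    have hvS : Sum.inr v ∉ S := fun h => hv.2 v h le_rfl
    have h1 := ih hI' (d - Finsupp.single v 1) (fun u => by
      rw [Finsupp.sub_apply, hd, FractionalIdeal.coeIdeal_mul, FractionalIdeal.count_mul K u
        (FractionalIdeal.coeIdeal_ne_zero.2 v.ne_bot) (FractionalIdeal.coeIdeal_ne_zero.2 hI),
        FractionalIdeal.count_maximal, Finsupp.single_apply]
      ring)
    have h2 : ψ (a' v.asIdeal) = ψ (frob F v) :=
      chi_frob (hS v hvS) (isFrobenius_of (ha.frob v hvS)) (frob_spec v) ψ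
    have h3 : art ψ d = art ψ (d - Finsupp.single v 1) + art ψ (Finsupp.single v 1) := by
      rw [← map_add, sub_add_cancel]
    rw [h3, h1, art_single, one_smul, ha.mul _ _ hv hI', map_mul, h2, mul_comm]
    rfl

theorem art_prin {S : Finset (Place K)}
    (hS : ∀ q : HeightOneSpectrum (𝓞 K), Sum.inr q ∉ S → Unramified F q)
    {a' : Ideal (𝓞 K) → Gal(F/K)} (ha : IsArtin S a') (ψ : (F ≃ₐ[K] F) →* ℂˣ) {x : 𝓞 K}
    (X : Kˣ) (hX : (X : K) = x) (h : PrimeTo S (Ideal.span {x})) :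
    art ψ (prin X) = Additive.ofMul (ψ (a' (Ideal.span {x}))) := by
  refine art_eq hS ha ψ _ h.1 h _ fun v => ?_
  rw [prin_apply, hX, FractionalIdeal.coeIdeal_span_singleton]

/-- no ramification above `s₁` -/
theorem not_ramR (ψ : (F ≃ₐ[K] F) →* ℂˣ) (s₁ : K →+* ℝ) (τ : F →+* ℝ)
    (hτ : τ.comp (algebraMap K F) = s₁) : ¬ RamR ψ s₁ := by
  rintro ⟨ι, g, hι, hg, h⟩
  obtain ⟨h', hh'⟩ := NumberField.ComplexEmbedding.exists_comp_symm_eq_of_comp_eq (k := K)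
    (Complex.ofRealHom.comp τ) ι (by
      ext x
      rw [RingHom.comp_apply, RingHom.comp_apply, RingHom.comp_apply, hι, ← hτ]
      rfl)
  apply h
  have h1 : g = 1 := by
    ext x
    apply ι.injective
    rw [hg, ← hh']
    exact Complex.conj_ofReal _
  rw [h1, map_one]

end main

section final

variable {K H : Type} [Field K] [NumberField K] [Field H] [NumberField H] [Algebra K H]
  [IsAbelianGalois K H]

theorem part_one {s₁ σ : K →+* ℝ} {𝔟 : Ideal (𝓞 K)} {a : Ideal (𝓞 K) → Gal(H/K)}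
    (hRC : RC s₁ σ 𝔟 a) {𝔫 : Ideal (𝓞 K)} (hn : 𝔟 ≤ 𝔫) (L : IntermediateField K H)
    [NumberField L] [IsAbelianGalois K L]
    (hU : ∀ v : HeightOneSpectrum (𝓞 K), ¬ 𝔫 ≤ v.asIdeal → Unramified L v)
    {S : Finset (Place K)} (hS : IsModulus 𝔫 S) {a' : Ideal (𝓞 K) → Gal(L/K)}
    (ha : IsArtin S a') :
    ∀ I : Ideal (𝓞 K), I ≠ ⊥ → (I ⊔ 𝔟 = ⊤ → a' I = AlgEquiv.restrictNormalHom L (a I)) := by
  have hP : ∀ I : Ideal (𝓞 K), I ≠ ⊥ → I ⊔ 𝔟 = ⊤ → PrimeTo S I := fun I h0 hI =>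
    ⟨h0, fun q hq => not_le_of_sup hI q (hn.trans ((hS.fin q).1 hq))⟩
  refine ideal_ind ?_ ?_
  · intro _
    rw [ha.one, hRC.one, map_one]
  · intro v I hI ih h
    obtain ⟨h1, h2⟩ := sup_of_mul h
    have hvb : ¬ 𝔟 ≤ v.asIdeal := fun hb => not_le_of_sup h1 v hb le_rfl
    have hvn : ¬ 𝔫 ≤ v.asIdeal := fun h3 => hvb (hn.trans h3)
    have hvS : Sum.inr v ∉ S := fun h3 => hvn ((hS.fin v).1 h3)
    have h4 : IsFrobenius v (a v.asIdeal) := isFrobenius_of (hRC.frob v hvb)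
    have h5 : a' v.asIdeal = AlgEquiv.restrictNormalHom L (a v.asIdeal) :=
      frob_unique (hU v hvn) (isFrobenius_of (ha.frob v hvS))
        (Pool.Agent.Q225.AR.fr.1 K L H v _ h4)
    rw [ha.mul _ _ (hP _ v.ne_bot h1) (hP _ hI h2), hRC.mul _ _ h1 h2, map_mul, h5, ih h2]

/-- the reduction to an element prime to `𝔟` -/
theorem exists_alpha (σ : K →+* ℝ) {𝔟 𝔫 : Ideal (𝓞 K)} (hb : 𝔟 ≠ ⊥) (hn : 𝔟 ≤ 𝔫) {N : ℕ}
    (hN : N ≠ 0) {x : 𝓞 K} (hx : x - 1 ∈ 𝔫) :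
    ∃ α : 𝓞 K, α - 1 ∈ 𝔫 ∧ 0 < σ (α : K) ∧ Ideal.span {α} ⊔ 𝔟 = ⊤ ∧
      ∀ v : HeightOneSpectrum (𝓞 K), 𝔫 ≤ v.asIdeal →
        v.valuation K ((x : K) - α) ≤ v.valuation K (N : K) := by
  have hn0 : 𝔫 ≠ ⊥ := fun h => hb (le_bot_iff.1 (h ▸ hn))
  have hM : N * Ideal.absNorm 𝔟 ≠ 0 := mul_ne_zero hN (Ideal.absNorm_eq_zero_iff.not.2 hb)
  have hJ0 : Ideal.span {((N * Ideal.absNorm 𝔟 : ℕ) : 𝓞 K)} ≠ ⊥ := by
    rw [Ne, Ideal.span_singleton_eq_bot]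
    exact Nat.cast_ne_zero.2 hM
  obtain ⟨J₁, J₂, k, hJ, h2, h1⟩ := exists_split 𝔫 _ hJ0
  have hJ2 : J₂ ≠ ⊥ := by
    rintro rfl
    rw [Ideal.mul_bot] at hJ
    exact hJ0 hJ
  have hcop : 𝔫 ^ (k + 1) ⊔ J₂ = ⊤ := by
    rw [← Ideal.isCoprime_iff_sup_eq] at h2 ⊢
    exact (IsCoprime.pow_right h2).symm
  obtain ⟨α, hα1, hα2, hα3⟩ := exists_crt σ (pow_ne_zero _ hn0) hJ2 hcop x 1
  have hαn : α - 1 ∈ 𝔫 := by
    have h3 : α - 1 = (α - x) + (x - 1) := by ring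
    rw [h3]
    exact 𝔫.add_mem (Ideal.pow_le_self (Nat.succ_ne_zero k) hα1) hx
  have hone : ∀ v : HeightOneSpectrum (𝓞 K), ∀ I : Ideal (𝓞 K), I ≤ v.asIdeal → α - 1 ∈ I →
      α ∉ v.asIdeal := fun v I hI h3 h4 => v.isPrime.ne_top ((Ideal.eq_top_iff_one _).2 (by
    have h5 := v.asIdeal.sub_mem h4 (hI h3)
    rwa [sub_sub_cancel] at h5))
  refine ⟨α, hαn, hα3, sup_of_forall hb fun v hv h3 => ?_, fun v hv => ?_⟩
  · have hαv : α ∈ v.asIdeal := h3 (Ideal.mem_span_singleton_self α)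
    have h4 : J₁ * J₂ ≤ v.asIdeal := by
      rw [← hJ, Ideal.span_singleton_le_iff_mem, Nat.cast_mul]
      exact v.asIdeal.mul_mem_left _ (hv (Ideal.absNorm_mem 𝔟))
    rcases v.isPrime.mul_le.1 h4 with h5 | h5
    · exact hone v 𝔫 (v.isPrime.le_of_pow_le (h1.trans h5)) hαn hαv
    · exact hone v J₂ h5 hα2 hαv
  · have h3 : ¬ J₂ ≤ v.asIdeal := not_le_of_sup h2 v hv
    obtain ⟨c, hc, hcv⟩ := Set.not_subset.1 h3
    have h4 : (x - α) * c ∈ Ideal.span {((N * Ideal.absNorm 𝔟 : ℕ) : 𝓞 K)} := by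
      rw [hJ]
      refine Ideal.mul_mem_mul (h1 (Ideal.pow_le_pow_right (Nat.le_succ k) ?_)) hc
      rw [← neg_sub]
      exact (𝔫 ^ (k + 1)).neg_mem hα1
    obtain ⟨y, hy⟩ := Ideal.mem_span_singleton.1 h4
    have h5 : ((x : K) - α) * (c : K) = (N : K) * ((Ideal.absNorm 𝔟 : 𝓞 K) * y : 𝓞 K) := by
      have h6 := congrArg (algebraMap (𝓞 K) K) hy
      rw [map_mul, map_sub, Nat.cast_mul, mul_assoc, map_mul, map_natCast] at h6
      exact h6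
    have hc1 : v.valuation K (c : K) = 1 :=
      (v.valuation_eq_one_iff_notMem (K := K)).2 hcv
    have h7 := congrArg (v.valuation K) h5
    rw [map_mul, map_mul, hc1, mul_one] at h7
    rw [h7]
    exact mul_le_of_le_one_right' (v.valuation_le_one _)

theorem prin_aux {s₁ σ : K →+* ℝ} {𝔟 : Ideal (𝓞 K)} {a : Ideal (𝓞 K) → Gal(H/K)}
    (hRC : RC s₁ σ 𝔟 a) {𝔫 : Ideal (𝓞 K)} (hn : 𝔟 ≤ 𝔫)
    (hU : ∀ v : HeightOneSpectrum (𝓞 K), ¬ 𝔫 ≤ v.asIdeal → Unramified (FF σ 𝔟 a 𝔫) v)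
    {S : Finset (Place K)} (hS : IsModulus 𝔫 S) {a' : Ideal (𝓞 K) → Gal(FF σ 𝔟 a 𝔫/K)}
    (ha : IsArtin S a') {x : 𝓞 K} (hx0 : x ≠ 0) (hx : x - 1 ∈ 𝔫) (hx1 : 0 < σ (x : K)) :
    a' (Ideal.span {x}) = 1 := by
  refine chars_sep fun ψ => ?_
  obtain ⟨N, hN, -, hrec⟩ := Pool.Agent.H389.BT.recd K (FF σ 𝔟 a 𝔫) ψ
  obtain ⟨α, h1, h2, h3, h4⟩ := exists_alpha σ hRC.ne_bot hn hN hx
  have hUS : ∀ q : HeightOneSpectrum (𝓞 K), Sum.inr q ∉ S → Unramified (FF σ 𝔟 a 𝔫) q :=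
    fun q hq => hU q fun h => hq ((hS.fin q).2 h)
  have hα0 : α ≠ 0 := by
    rintro rfl
    rw [RingOfIntegers.coe_eq_algebraMap, map_zero, map_zero] at h2
    exact lt_irrefl _ h2
  have hone : ∀ y : 𝓞 K, y - 1 ∈ 𝔫 → ∀ v : HeightOneSpectrum (𝓞 K), 𝔫 ≤ v.asIdeal →
      y ∉ v.asIdeal := fun y hy v hv h5 => v.isPrime.ne_top ((Ideal.eq_top_iff_one _).2 (by
    have h6 := v.asIdeal.sub_mem h5 (hv hy)
    rwa [sub_sub_cancel] at h6))
  have hPx : ∀ y : 𝓞 K, y ≠ 0 → y - 1 ∈ 𝔫 → PrimeTo S (Ideal.span {y}) := fun y hy0 hy =>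
    ⟨by rwa [Ne, Ideal.span_singleton_eq_bot], fun q hq h5 => hone y hy q ((hS.fin q).1 hq)
      (h5 (Ideal.mem_span_singleton_self y))⟩
  have hcoe : ∀ y : 𝓞 K, y ≠ 0 → (y : K) ≠ 0 := fun y hy h5 =>
    hy (RingOfIntegers.coe_eq_zero_iff.1 h5)
  let X : Kˣ := Units.mk0 (x : K) (hcoe x hx0)
  let A : Kˣ := Units.mk0 (α : K) (hcoe α hα0)
  have h5 : art ψ (prin (X / A)) = 0 := by
    refine hrec (X / A) (fun v hv => ?_) fun φ hφ => ?_
    · have h6 : 𝔫 ≤ v.asIdeal := by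
        by_contra h7
        exact Pool.Agent.H389.BT.ramAt_ram hv (hU v h7)
      have h7 : v.valuation K (α : K) = 1 :=
        (v.valuation_eq_one_iff_notMem (K := K)).2 (hone α h1 v h6)
      have h8 : ((X / A : Kˣ) : K) - 1 = ((x : K) - α) / (α : K) := by
        rw [Units.val_div_eq_div_val, Units.val_mk0, Units.val_mk0, sub_div,
          div_self (hcoe α hα0)]
      rw [h8, map_div₀, h7, div_one]
      exact h4 v h6
    · rcases hRC.real φ with h6 | h6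
      · subst h6
        obtain ⟨σ', hσ'⟩ := hRC.emb
        exact absurd hφ (not_ramR ψ φ (σ'.comp (algebraMap (FF σ 𝔟 a 𝔫) H)) (by
          rw [← hσ']
          rfl))
      · subst h6
        rw [Units.val_div_eq_div_val, Units.val_mk0, Units.val_mk0, map_div₀]
        exact div_pos hx1 h2
  have h6 : a' (Ideal.span {α}) = 1 := by
    rw [part_one hRC hn (FF σ 𝔟 a 𝔫) hU hS ha _ (hPx α hα0 h1).1 h3]
    ext y
    rw [AlgEquiv.restrictNormalHom_apply]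
    have h7 : a (Ideal.span {α}) ∈ D σ 𝔟 a 𝔫 := Subgroup.subset_closure ⟨α, hα0, h3, h1, h2, rfl⟩
    exact y.2 ⟨_, h7⟩
  rw [prin_div, map_sub, art_prin hUS ha ψ X rfl (hPx x hx0 hx),
    art_prin hUS ha ψ A rfl (hPx α hα0 h1), h6, map_one] at h5
  exact ofMul_eq_zero.1 (by simpa using h5)

/-- **PRIN.** -/
theorem prin' : Pool.Agent.MO.S_PRIN := by
  intro K H _ _ _ _ _ _ hexp s₁ σ 𝔟 a hRC 𝔫 hn hU S hS a' ha
  have hU' : ∀ v : HeightOneSpectrum (𝓞 K), ¬ 𝔫 ≤ v.asIdeal → Unramified (FF σ 𝔟 a 𝔫) v :=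
    fun v hv => unramified_of_unram (hU v hv)
  refine ⟨fun I hI x => ?_, fun x hx0 hx hx1 => prin_aux hRC hn hU' hS ha hx0 hx hx1⟩
  have hI0 : I ≠ ⊥ := by
    rintro rfl
    rw [bot_sup_eq] at hI
    exact hRC.ne_top hI
  rw [part_one hRC hn (FF σ 𝔟 a 𝔫) hU' hS ha I hI0 hI]
  exact AlgEquiv.restrictNormal_commutes (a I) (FF σ 𝔟 a 𝔫) x

end final

end Pool.Agent.H588.MO
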