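import Pool.Agent.H509.MO.EStm
import Pool.Agent.H509.MO.PRIN

/-!
Project MO (helper509), part DVH: the homomorphism on divisors (helper399).
-/

set_option autoImplicit false
set_option linter.unusedSectionVars false

open NumberField IsDedekindDomain

noncomputable section

namespace Pool.Agent.H399.MO

open Pool.Agent.MO
open Pool.Agent.Q92.AR (Dv prin Pr Ray Pos Cong prin_apply prin_div mem_Pr val_eq_one)
open Pool.Agent.H588.MO (ideal_ind sup_of_mul not_le_of_sup)

section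

variable {K : Type} [Field K] [NumberField K]

/-- the multiplicity of a prime in an ideal which it does not contain -/
theorem count_of_not_le (v : HeightOneSpectrum (𝓞 K)) : ∀ I : Ideal (𝓞 K), I ≠ ⊥ →
    (¬ I ≤ v.asIdeal →
      FractionalIdeal.count K v (I : FractionalIdeal (nonZeroDivisors (𝓞 K)) K) = 0) := by
  classical
  refine ideal_ind ?_ ?_
  · intro _
    rw [FractionalIdeal.coeIdeal_top, FractionalIdeal.count_one]
  · intro w I hI ih h
    rw [FractionalIdeal.coeIdeal_mul, FractionalIdeal.count_mul K v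
      (FractionalIdeal.coeIdeal_ne_zero.2 w.ne_bot) (FractionalIdeal.coeIdeal_ne_zero.2 hI),
      FractionalIdeal.count_maximal, ih fun h1 => h (Ideal.mul_le_right.trans h1), if_neg, add_zero]
    rintro rfl
    exact h Ideal.mul_le_left

/-- the divisor of an ideal -/
theorem exists_dv (I : Ideal (𝓞 K)) : ∃ d : Dv K, ∀ v, d v =
    FractionalIdeal.count K v (I : FractionalIdeal (nonZeroDivisors (𝓞 K)) K) := by
  have h := FractionalIdeal.finite_factors (K := K)
    (I : FractionalIdeal (nonZeroDivisors (𝓞 K)) K)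
  rw [Filter.eventually_cofinite] at h
  exact ⟨Finsupp.ofSupportFinite _ h, fun v => rfl⟩

variable {G : Type} [CommGroup G]

open scoped Classical in
/-- the homomorphism on divisors -/
def AD (𝔟 : Ideal (𝓞 K)) (A : Ideal (𝓞 K) → G) : Dv K →+ Additive G :=
  Finsupp.liftAddHom fun v : HeightOneSpectrum (𝓞 K) => (zmultiplesHom (Additive G))
    (if 𝔟 ≤ v.asIdeal then 0 else Additive.ofMul (A v.asIdeal))

theorem AD_single {𝔟 : Ideal (𝓞 K)} {A : Ideal (𝓞 K) → G} {v : HeightOneSpectrum (𝓞 K)}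
    (hv : ¬ 𝔟 ≤ v.asIdeal) : AD 𝔟 A (Finsupp.single v 1) = Additive.ofMul (A v.asIdeal) := by
  unfold AD
  rw [Finsupp.liftAddHom_apply_single, zmultiplesHom_apply, one_smul, if_neg hv]

/-- the value at the divisor of an ideal -/
theorem AD_ideal {σ : K →+* ℝ} {𝔟 : Ideal (𝓞 K)} {A : Ideal (𝓞 K) → G} (hA : RG σ 𝔟 A) :
    ∀ I : Ideal (𝓞 K), I ≠ ⊥ → (I ⊔ 𝔟 = ⊤ → ∀ d : Dv K,
      (∀ v, d v = FractionalIdeal.count K v (I : FractionalIdeal (nonZeroDivisors (𝓞 K)) K)) →
      AD 𝔟 A d = Additive.ofMul (A I)) := by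
  classical
  refine ideal_ind ?_ ?_
  · intro _ d hd
    have h0 : d = 0 := by
      ext v
      rw [hd, FractionalIdeal.coeIdeal_top, FractionalIdeal.count_one]
      rfl
    rw [h0, map_zero, hA.one]
    rfl
  · intro v I hI ih hP d hd
    obtain ⟨hv, hI'⟩ := sup_of_mul hP
    have hvb : ¬ 𝔟 ≤ v.asIdeal := fun h => not_le_of_sup hv v h le_rfl
    have h1 := ih hI' (d - Finsupp.single v 1) (fun u => by
      rw [Finsupp.sub_apply, hd, FractionalIdeal.coeIdeal_mul, FractionalIdeal.count_mul K u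
        (FractionalIdeal.coeIdeal_ne_zero.2 v.ne_bot) (FractionalIdeal.coeIdeal_ne_zero.2 hI),
        FractionalIdeal.count_maximal, Finsupp.single_apply]
      ring)
    have h3 : AD 𝔟 A d = AD 𝔟 A (d - Finsupp.single v 1) + AD 𝔟 A (Finsupp.single v 1) := by
      rw [← map_add, sub_add_cancel]
    rw [h3, h1, AD_single hvb, hA.mul _ _ hv hI', mul_comm]
    rfl

/-- the value at a principal divisor -/
theorem AD_prin {σ : K →+* ℝ} {𝔟 : Ideal (𝓞 K)} {A : Ideal (𝓞 K) → G} (hA : RG σ 𝔟 A) {y : 𝓞 K}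
    (hy : y - 1 ∈ 𝔟) (hσ : 0 < σ (y : K)) (Y : Kˣ) (hY : (Y : K) = y) : AD 𝔟 A (prin Y) = 0 := by
  have hy0 : y ≠ 0 := by
    rintro rfl
    rw [RingOfIntegers.coe_eq_algebraMap, map_zero, map_zero] at hσ
    exact lt_irrefl _ hσ
  have hI : Ideal.span {y} ⊔ 𝔟 = ⊤ := by
    rw [Ideal.eq_top_iff_one]
    have h1 : (1 : 𝓞 K) = y - (y - 1) := by ring
    rw [h1]
    exact Submodule.sub_mem _ (Ideal.mem_sup_left (Ideal.mem_span_singleton_self y))
      (Ideal.mem_sup_right hy)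
  rw [AD_ideal hA (Ideal.span {y}) (by rwa [Ne, Ideal.span_singleton_eq_bot]) hI (prin Y)
    (fun v => by rw [prin_apply, hY, FractionalIdeal.coeIdeal_span_singleton]), hA.ray y hy hσ]
  rfl

/-- an element of the ray is a quotient of integers congruent to `1` -/
theorem exists_den {N : ℕ} (hN : N ≠ 0) {x : K} (hx : Cong N x) : ∃ (z : 𝓞 K) (w : 𝓞 K),
    z ≠ 0 ∧ z - 1 ∈ Ideal.span {(N : 𝓞 K)} ∧ x * z = w := by
  let J : Ideal (𝓞 K) :=
    { carrier := {z | ∃ w : 𝓞 K, x * z = w}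
      add_mem' := by
        rintro a b ⟨w, hw⟩ ⟨w', hw'⟩
        refine ⟨w + w', ?_⟩
        rw [RingOfIntegers.coe_eq_algebraMap, RingOfIntegers.coe_eq_algebraMap, map_add, map_add,
          mul_add]
        exact congrArg₂ (· + ·) hw hw'
      zero_mem' := ⟨0, by
        rw [RingOfIntegers.coe_eq_algebraMap, map_zero, mul_zero]⟩
      smul_mem' := by
        rintro c a ⟨w, hw⟩
        refine ⟨c * w, ?_⟩
        rw [smul_eq_mul, RingOfIntegers.coe_eq_algebraMap, RingOfIntegers.coe_eq_algebraMap, map_mul,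
          map_mul]
        rw [RingOfIntegers.coe_eq_algebraMap, RingOfIntegers.coe_eq_algebraMap] at hw
        rw [← hw]
        ring }
  have hJ : J ⊔ Ideal.span {(N : 𝓞 K)} = ⊤ := by
    by_contra hne
    obtain ⟨M, hM, hIM⟩ := Ideal.exists_le_maximal _ hne
    have hNM : (N : 𝓞 K) ∈ M := hIM (Ideal.mem_sup_right (Ideal.mem_span_singleton_self _))
    have h0 : M ≠ ⊥ := by
      rintro rfl
      exact hN (Nat.cast_eq_zero.1 ((Submodule.mem_bot _).1 hNM))
    obtain ⟨n, d, hnd⟩ := HeightOneSpectrum.exists_primeCompl_mul_eq_of_integer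
      (⟨M, hM.isPrime, h0⟩ : HeightOneSpectrum (𝓞 K)) x
      (val_eq_one (v := ⟨M, hM.isPrime, h0⟩) hNM (hx ⟨M, hM.isPrime, h0⟩ hNM)).le
    exact d.2 (hIM (Ideal.mem_sup_left ⟨n, hnd⟩))
  obtain ⟨a, ⟨w, hw⟩, b, hb, hab⟩ := Submodule.mem_sup.1 (hJ ▸ Submodule.mem_top :
    (1 : 𝓞 K) ∈ J ⊔ Ideal.span {(N : 𝓞 K)})
  by_cases ha : a = 0
  · -- then `N` is a unit
    obtain ⟨s, c, hc, hsc⟩ := IsFractionRing.div_surjective (A := 𝓞 K) x
    have hc0 : c ≠ 0 := nonZeroDivisors.ne_zero hc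
    refine ⟨c, s, hc0, ?_, ?_⟩
    · have h1 : (1 : 𝓞 K) ∈ Ideal.span {(N : 𝓞 K)} := by
        rw [← hab, ha, zero_add]
        exact hb
      rw [(Ideal.eq_top_iff_one _).2 h1]
      exact Submodule.mem_top
    · rw [← hsc, RingOfIntegers.coe_eq_algebraMap, RingOfIntegers.coe_eq_algebraMap]
      refine div_mul_cancel₀ _ ?_
      rw [Ne, FaithfulSMul.algebraMap_eq_zero_iff]
      exact hc0
  · refine ⟨a, w, ha, ?_, hw⟩
    have h1 : a - 1 = -b := by rw [← hab]; ring
    rw [h1]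
    exact Submodule.neg_mem _ hb

end

/-- **DVH.** -/
theorem dvh : S_DVH := by
  intro hAPX K _ _ σ 𝔟 hb G _ A hA
  have hN : Ideal.absNorm 𝔟 ≠ 0 := Ideal.absNorm_eq_zero_iff.not.2 hb
  refine ⟨AD 𝔟 A, fun v hv => AD_single hv, ?_, ?_⟩
  · rintro x ⟨hx, hpos⟩
    obtain ⟨z, w, hz0, hz1, hzw⟩ := exists_den hN hx
    have hNb : ((Ideal.absNorm 𝔟 : ℕ) : 𝓞 K) ∈ 𝔟 := Ideal.absNorm_mem 𝔟
    have hNK : ((Ideal.absNorm 𝔟 : ℕ) : K) ≠ 0 := Nat.cast_ne_zero.2 hN
    have hzK : (z : K) ≠ 0 := fun h => hz0 (RingOfIntegers.coe_eq_zero_iff.1 h)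
    have hσz : σ (z : K) ≠ 0 := (map_ne_zero σ).2 hzK
    have hz1b : z - 1 ∈ 𝔟 := (Ideal.span_singleton_le_iff_mem _).2 hNb hz1
    obtain ⟨u, hu⟩ := Ideal.mem_span_singleton'.1 hz1
    -- `z ^ 2`
    have hzz : z * z - 1 ∈ 𝔟 := by
      have h1 : z * z - 1 = (z + 1) * (z - 1) := by ring
      rw [h1]
      exact 𝔟.mul_mem_left _ hz1b
    have hσzz : 0 < σ ((z * z : 𝓞 K) : K) := by
      rw [RingOfIntegers.coe_eq_algebraMap, map_mul, map_mul]
      exact mul_self_pos.2 hσz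
    have hzzK : ((z * z : 𝓞 K) : K) = (z : K) * z := by
      rw [RingOfIntegers.coe_eq_algebraMap, map_mul]
    -- `y = x z ^ 2`
    have hyK : ((w * z : 𝓞 K) : K) = (x : K) * ((z : K) * z) := by
      rw [RingOfIntegers.coe_eq_algebraMap, map_mul, ← mul_assoc, hzw]
    have hσy : 0 < σ ((w * z : 𝓞 K) : K) := by
      rw [hyK, map_mul, map_mul]
      exact mul_pos (hpos σ) (mul_self_pos.2 hσz)
    have hu2 : (z : K) - 1 = (u : K) * (Ideal.absNorm 𝔟 : ℕ) := by
      have h1 := congrArg (algebraMap (𝓞 K) K) hu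
      rw [map_mul, map_sub, map_one, map_natCast] at h1
      exact h1.symm
    have hy1 : w * z - 1 ∈ 𝔟 := by
      have h2 : ∀ v : HeightOneSpectrum (𝓞 K),
          v.valuation K ((((w * z : 𝓞 K) : K) - 1) / ((Ideal.absNorm 𝔟 : ℕ) : K)) ≤ 1 := by
        intro v
        have hv0 : v.valuation K ((Ideal.absNorm 𝔟 : ℕ) : K) ≠ 0 :=
          (Valuation.ne_zero_iff _).2 hNK
        rw [map_div₀]
        refine div_le_one_of_le₀ ?_ zero_le
        by_cases hv : ((Ideal.absNorm 𝔟 : ℕ) : 𝓞 K) ∈ v.asIdeal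
        · have h3 : ((w * z : 𝓞 K) : K) - 1 = ((x : K) - 1) * ((z * z : 𝓞 K) : K) +
              ((u * (z + 1) : 𝓞 K) : K) * ((Ideal.absNorm 𝔟 : ℕ) : K) := by
            rw [hyK, hzzK, RingOfIntegers.coe_eq_algebraMap (u * (z + 1)), map_mul, map_add,
              map_one]
            linear_combination ((z : K) + 1) * hu2
          rw [h3]
          refine (Valuation.map_add _ _ _).trans (max_le ?_ ?_)
          · rw [map_mul]
            exact (mul_le_of_le_one_right' (v.valuation_le_one _)).trans (hx v hv)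
          · rw [map_mul]
            exact mul_le_of_le_one_left' (v.valuation_le_one _)
        · have h3 : v.valuation K ((Ideal.absNorm 𝔟 : ℕ) : K) = 1 := by
            have h4 := (v.valuation_eq_one_iff_notMem (K := K)).2 hv
            rwa [map_natCast] at h4
          rw [h3]
          have h4 : ((w * z : 𝓞 K) : K) - 1 = ((w * z - 1 : 𝓞 K) : K) := by
            rw [RingOfIntegers.coe_eq_algebraMap, RingOfIntegers.coe_eq_algebraMap, map_sub,
              map_one]
          rw [h4]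
          exact v.valuation_le_one _
      obtain ⟨t, ht⟩ := HeightOneSpectrum.mem_integers_of_valuation_le_one (R := 𝓞 K) K _ h2
      have h5 : w * z - 1 = t * (Ideal.absNorm 𝔟 : ℕ) := by
        apply FaithfulSMul.algebraMap_injective (𝓞 K) K
        rw [map_mul, ht, map_natCast, div_mul_cancel₀ _ hNK, map_sub, map_one,
          RingOfIntegers.coe_eq_algebraMap]
      rw [h5]
      exact 𝔟.mul_mem_left _ hNb
    let Z : Kˣ := Units.mk0 ((z * z : 𝓞 K) : K) (by rw [hzzK]; exact mul_ne_zero hzK hzK)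
    have hxY : x = (x * Z) / Z := by rw [mul_div_cancel_right]
    rw [hxY, prin_div, map_sub, AD_prin hA hzz hσzz Z rfl, sub_zero]
    exact AD_prin hA hy1 hσy (x * Z) (by rw [hyK, Units.val_mul, Units.val_mk0, hzzK])
  · intro N hN0 g
    obtain ⟨I, hI, hIg⟩ := hA.surj g⁻¹
    by_cases hI0 : I = ⊥
    · subst hI0
      have h1 := hA.mul ⊥ ⊥ hI hI
      rw [Ideal.mul_bot] at h1
      have h2 : A ⊥ = 1 := by
        have h3 : A ⊥ * 1 = A ⊥ * A ⊥ := by rw [mul_one]; exact h1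
        exact (mul_left_cancel h3).symm
      have h3 : g = 1 := by
        rw [h2] at hIg
        exact inv_eq_one.1 hIg.symm
      exact ⟨0, (Pr K N).zero_mem, by rw [map_zero, h3]; rfl⟩
    · have hs0 : Ideal.span {(N : 𝓞 K)} ≠ ⊥ := by
        rw [Ne, Ideal.span_singleton_eq_bot]
        exact Nat.cast_ne_zero.2 hN0
      obtain ⟨x, B, hx0, hxB, hB, hx1, hx2⟩ := hAPX K σ (𝔟 * Ideal.span {(N : 𝓞 K)}) 𝔟 I
        (mul_ne_zero hb hs0) Ideal.mul_le_left hI0 hI
      have hB0 : B ≠ ⊥ := by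
        rintro rfl
        rw [Ideal.mul_bot, Ideal.span_singleton_eq_bot] at hxB
        exact hx0 hxB
      have hBb : B ⊔ 𝔟 = ⊤ := top_le_iff.1 (hB ▸ sup_le_sup_left Ideal.mul_le_left B)
      obtain ⟨D, hD⟩ := exists_dv B
      refine ⟨D, fun v hv => ?_, ?_⟩
      · rw [hD]
        refine count_of_not_le v B hB0 (not_le_of_sup hB v ?_)
        exact Ideal.mul_le_right.trans ((Ideal.span_singleton_le_iff_mem _).2 hv)
      · rw [AD_ideal hA B hB0 hBb D hD]
        congr 1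
        have h1 := hA.mul I B hI hBb
        rw [← hxB, hA.ray x hx1 hx2, hIg] at h1
        exact (eq_of_inv_mul_eq_one h1.symm).symm

end Pool.Agent.H399.MO
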