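import Pool.Agent.H509.ST.Pages
import Pool.Graph.R_seed8.W206.MS.Final

/-!
# Project MO: the monoid Stark conjecture, ray class groups of exponent two. Definitions

`K` is a real quadratic field inside the real numbers (`Algebra K ℝ`, the place `∞₁`), `σ` the other
embedding (the place `∞₂`).  `Pool.Agent.W206.MS` (library): orders `O`, moduli `m`, `InMonoid`, `Rel`, `IsZ`,
`InJ`, `InP`, `IsRayClassField`, `CondI`, ..., `CondIV`, `Pair O O' m b`, `nn O O' m σ I a` (the number of the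
integral invertible ideals of `O` in the class of `a` whose extension to `O'` is `I`).
-/

set_option autoImplicit false
set_option linter.unusedSectionVars false

open NumberField IsDedekindDomain

noncomputable section

namespace Pool.Agent.MO

open Pool.Agent.W206.MS (OL IsOrder IsInv InMonoid InJ InP Loc nn Pair sm Good REq Rel cnt IsZ idx contr
  IsRealPrime IsFrobenius IsRayClassField InducesIso CondI CondII CondIII CondIV)
open Pool.Agent.N598.ST (Place Unram IsArtin IsZeta AbRoot TotallySplit PrimeTo)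
open Pool.Agent.N820.RS (IsModulus)

section ideals

variable {K : Type} [Field K] [NumberField K]

/-- the ideal `I` of the ring of integers as a lattice in `K` -/
def sub (I : Ideal (𝓞 K)) : Submodule ℤ K :=
  Submodule.map ((Algebra.linearMap (𝓞 K) K).restrictScalars ℤ) (I.restrictScalars ℤ)

/-- the maximal order -/
abbrev OK (K : Type) [Field K] [NumberField K] : Subalgebra ℤ K := integralClosure ℤ K

end ideals

section core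

variable {K H : Type} [Field K] [NumberField K] [Field H] [NumberField H] [Algebra K H]

/-- The ray class data at the level of the maximal order: `s₁`, `σ` are the real embeddings of `K`, `s₁`
extends to a real embedding of `H`; `a` is multiplicative on the ideals prime to `𝔟`, `a v` is a
Frobenius element at all primes above `v`, for `v` prime to `𝔟`; `a` kills the `(x)` with `x ≡ 1 mod 𝔟`,
`σ x > 0`, and it is onto. -/
structure RC (s₁ σ : K →+* ℝ) (𝔟 : Ideal (𝓞 K)) (a : Ideal (𝓞 K) → Gal(H/K)) : Prop where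
  ne : s₁ ≠ σ
  real : ∀ φ : K →+* ℝ, φ = s₁ ∨ φ = σ
  emb : ∃ σ' : H →+* ℝ, σ'.comp (algebraMap K H) = s₁
  ne_bot : 𝔟 ≠ ⊥
  ne_top : 𝔟 ≠ ⊤
  one : a ⊤ = 1
  mul : ∀ I J : Ideal (𝓞 K), I ⊔ 𝔟 = ⊤ → J ⊔ 𝔟 = ⊤ → a (I * J) = a I * a J
  frob : ∀ v : HeightOneSpectrum (𝓞 K), ¬ 𝔟 ≤ v.asIdeal → ∀ w : HeightOneSpectrum (𝓞 H),
    w.asIdeal.LiesOver v.asIdeal → ∀ x y : 𝓞 H,
    (y : H) = a v.asIdeal (x : H) - (x : H) ^ Ideal.absNorm v.asIdeal → y ∈ w.asIdeal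
  ray : ∀ x : 𝓞 K, x - 1 ∈ 𝔟 → 0 < σ (x : K) → a (Ideal.span {x}) = 1
  surj : ∀ g : Gal(H/K), ∃ I : Ideal (𝓞 K), I ⊔ 𝔟 = ⊤ ∧ a I = g

/-- the subgroup generated by the `a (x)`, `x` prime to `𝔟`, `x ≡ 1 mod 𝔫`, `σ x > 0` -/
def D (σ : K →+* ℝ) (𝔟 : Ideal (𝓞 K)) (a : Ideal (𝓞 K) → Gal(H/K)) (𝔫 : Ideal (𝓞 K)) :
    Subgroup Gal(H/K) :=
  Subgroup.closure {g | ∃ x : 𝓞 K, x ≠ 0 ∧ Ideal.span {x} ⊔ 𝔟 = ⊤ ∧ x - 1 ∈ 𝔫 ∧ 0 < σ (x : K) ∧
    g = a (Ideal.span {x})}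

/-- its fixed field, the largest subfield of `H` of modulus `𝔫 ∞₂` -/
abbrev FF (σ : K →+* ℝ) (𝔟 : Ideal (𝓞 K)) (a : Ideal (𝓞 K) → Gal(H/K)) (𝔫 : Ideal (𝓞 K)) :
    IntermediateField K H := IntermediateField.fixedField (D σ 𝔟 a 𝔫)

end core

section level

variable {K : Type} [Field K] [NumberField K] [Algebra K ℝ]

open Classical in
/-- Everything which is needed for the modulus `𝔫 ∣ 𝔟`: a quotient `G'` of `Gal(H/K)` by `D σ 𝔟 a 𝔫`, the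
Artin map `a'` of the fixed field, the differences `Zd ρ` of the partial zeta functions of `ρ` and of
`ρ res(r)`, `r` the complex conjugation at `∞₂`, and the Stark units `u ρ`. -/
structure Level (σ : K →+* ℝ) (H : IntermediateField K ℝ) [NumberField H] (𝔟 : Ideal (𝓞 K))
    (a : Ideal (𝓞 K) → Gal(H/K)) (r : Gal(H/K)) (𝔫 : Ideal (𝓞 K)) where
  G' : Type
  grp : CommGroup G'
  fin : Fintype G'
  res : Gal(H/K) →* G'
  surj : Function.Surjective res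
  ker : ∀ g, res g = 1 ↔ g ∈ D σ 𝔟 a 𝔫
  a' : Ideal (𝓞 K) → G'
  a'_eq : ∀ I, I ⊔ 𝔟 = ⊤ → a' I = res (a I)
  a'_mul : ∀ I J, I ≠ ⊥ → J ≠ ⊥ → I ⊔ 𝔫 = ⊤ → J ⊔ 𝔫 = ⊤ → a' (I * J) = a' I * a' J
  a'_ray : ∀ x : 𝓞 K, x ≠ 0 → x - 1 ∈ 𝔫 → 0 < σ (x : K) → a' (Ideal.span {x}) = 1
  Zd : G' → ℂ → ℂ
  hol : ∀ ρ, DifferentiableOn ℂ (Zd ρ) {1}ᶜ
  zero : ∀ ρ, Zd ρ 0 = 0
  sum : ∀ (ρ : G') (s : ℂ), 1 < s.re → HasSum (fun I : Ideal (𝓞 K) =>
    if I ≠ ⊥ ∧ I ⊔ 𝔫 = ⊤ then ((if a' I = ρ then (1 : ℂ) else 0) -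
      (if a' I = ρ * res r then 1 else 0)) * (Ideal.absNorm I : ℂ) ^ (-s) else 0) (Zd ρ s)
  u : G' → H
  int : ∀ ρ, IsIntegral ℤ ((u ρ : H) : ℝ)
  intinv : ∀ ρ, IsIntegral ℤ ((u ρ : H) : ℝ)⁻¹
  pos : ∀ ρ, 0 < ((u ρ : H) : ℝ)
  exp : ∀ ρ, (((u ρ : H) : ℝ) : ℂ) = Complex.exp (-deriv (Zd ρ) 0)
  gal : ∀ (g : Gal(H/K)) (ρ : G'), g (u ρ) = u (res g * ρ)
  nrm : ∀ ρ, CondIII σ H (u ρ)
  ab : ∀ ρ, CondIV H ((u ρ : H) : ℝ)

attribute [instance] Level.grp Level.fin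

/-- the Artin map of an order on the ideals of the maximal order -/
def aO {G : Type} (O : Subalgebra ℤ K) (Art : Submodule ℤ K → G) (I : Ideal (𝓞 K)) : G :=
  Art (sub I ⊓ OL O)

open Classical in
/-- the cofactor: `𝔟 = 𝔫 * cof 𝔟 𝔫` if `𝔫 ∣ 𝔟` -/
def cof (𝔟 𝔫 : Ideal (𝓞 K)) : Ideal (𝓞 K) := if h : 𝔫 ∣ 𝔟 then h.choose else ⊤

open Classical in
/-- an ideal prime to `𝔟` with a given Artin symbol -/
def Jr {σ : K →+* ℝ} {H : IntermediateField K ℝ} [NumberField H] {𝔟 : Ideal (𝓞 K)}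
    {a : Ideal (𝓞 K) → Gal(H/K)} {r : Gal(H/K)} {𝔫 : Ideal (𝓞 K)} (L : Level σ H 𝔟 a r 𝔫)
    (ρ : L.G') : Ideal (𝓞 K) :=
  if h : ∃ J : Ideal (𝓞 K), J ⊔ 𝔟 = ⊤ ∧ L.a' J = ρ then h.choose else ⊤

/-- the number of ideals of `O` in the class of `x` above an ideal `I` with `I ⊔ 𝔟 = cof 𝔟 𝔫` and
`a' (I / cof 𝔟 𝔫) = ρ` -/
def Cn (O : Subalgebra ℤ K) (m : Submodule ℤ K) {σ : K →+* ℝ} {H : IntermediateField K ℝ}
    [NumberField H] {𝔟 : Ideal (𝓞 K)} {a : Ideal (𝓞 K) → Gal(H/K)} {r : Gal(H/K)}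
    {𝔫 : Ideal (𝓞 K)} (L : Level σ H 𝔟 a r 𝔫) (x : Submodule ℤ K) (ρ : L.G') : ℕ :=
  nn O (OK K) m σ (sub (cof 𝔟 𝔫 * Jr L ρ)) x

end level

end Pool.Agent.MO
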