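import Pool.Agent.H509.MO.GStm

/-!
# Project MO of helper509, part EQN (helper32): orbits under the kernel of the Artin map
-/

set_option autoImplicit false

namespace Pool.Agent.H32.MO

open Pool.Agent.MO
open Pool.Agent.W206.MS (OL IsInv InMonoid InJ InP Loc nn XS Pair sm Good REq Rel idx Md Cop one_mem_OL
  OL_mul_OL ext_mul stable_iff stable_mul mul_mem_sm sm_le_iff mul_sm le_ext sm_inv_sm sm_sm_inv
  mem_sm good_OL mem_of_sup_eq cop_of_one_sub loc_mul loc_neg rel_iff finite_sublattices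
  ne_zero_of_pos)

section

variable {K : Type} [Field K] {O O' : Subalgebra ℤ K} {m b : Submodule ℤ K} {σ : K →+* ℝ}

theorem eqn_mul_comm (j g x : Submodule ℤ K) : j * (g * x) = g * (j * x) := mul_left_comm _ _ _

theorem eqn_inJ_sub (hm : Md O m) {j : Submodule ℤ K} (hj : InJ O m j) :
    (j : Set K) ⊆ Loc O m (OL O) := by
  obtain ⟨_, a₁, a₂, h1, h2, h3, h4, h5, h6⟩ := hj
  obtain ⟨e, he, he'⟩ := mem_of_sup_eq h5
  intro x hx
  refine ⟨e, cop_of_one_sub hm he', h1 ?_⟩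
  rw [← h6, mul_comm j]
  exact Submodule.mul_mem_mul he hx

theorem eqn_inv {j : Submodule ℤ K} (hj : InJ O m j) :
    ∃ j' : Submodule ℤ K, InJ O m j' ∧ j' * j = OL O := by
  obtain ⟨hinv, a₁, a₂, h1, h2, h3, h4, h5, h6⟩ := hj
  obtain ⟨hst, j', hj', hjj⟩ := id hinv
  have hjj' : j' * j = OL O := by rw [mul_comm]; exact hjj
  have h7 : IsInv O a₁ := by rw [← h6]; exact hinv.mul h3
  refine ⟨j', ⟨⟨hj', j, hst, hjj'⟩, a₂, a₁, h2, h1, h7, h5, h4, ?_⟩, hjj'⟩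
  rw [← h6, ← mul_assoc, hjj', h3.stable]

theorem eqn_inM_mul (hm : Md O m) {j y : Submodule ℤ K} (hj : InJ O m j) (hy : InMonoid O m y) :
    InMonoid O m (j * y) := by
  refine ⟨hj.1.mul hy.1, ?_⟩
  intro z hz
  have hz' : z ∈ j * y := hz
  induction hz' using Submodule.mul_induction_on' with
  | mem_mul_mem u hu w hw =>
    exact loc_mul hm Pool.Agent.W206.MS.OL_stable (eqn_inJ_sub hm hj hu) (hy.2 hw)
  | add p hp q hq ihp ihq =>
    exact Pool.Agent.W206.MS.loc_add hm Pool.Agent.W206.MS.OL_stable (ihp hp) (ihq hq)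

variable {G : Type} [Group G] {Art : Submodule ℤ K → G}

theorem eqn_inJ_OL (hm : Md O m) : InJ O m (OL O) := (good_OL O m).inJ hm

theorem eqn_art_OL (hm : Md O m) (hA : ArtHom σ O m Art) : Art (OL O) = 1 := by
  have h := hA.mul _ _ (eqn_inJ_OL hm) (eqn_inJ_OL hm)
  rw [OL_mul_OL] at h
  exact (mul_eq_left.1 h.symm)

theorem eqn_art_inv (hm : Md O m) (hA : ArtHom σ O m Art) {j j' : Submodule ℤ K}
    (hj : InJ O m j) (hj' : InJ O m j') (h : j' * j = OL O) : Art j' = (Art j)⁻¹ := by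
  have h1 := hA.mul _ _ hj' hj
  rw [h, eqn_art_OL hm hA] at h1
  exact eq_inv_of_mul_eq_one_left h1.symm

theorem eqn_of_req (hm : Md O m) (hA : ArtHom σ O m Art) {x y : Submodule ℤ K}
    (h : REq O m σ x y) (hy : OL O * y = y) : REqN O m σ Art x y :=
  ⟨OL O, eqn_inJ_OL hm, eqn_art_OL hm hA, by rw [hy]; exact h⟩

theorem eqn_symm (hm : Md O m) (hA : ArtHom σ O m Art) {x y : Submodule ℤ K}
    (hy : OL O * y = y) (h : REqN O m σ Art x y) : REqN O m σ Art y x := by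
  obtain ⟨j, hj, hj1, h⟩ := h
  obtain ⟨j', hj', hjj⟩ := eqn_inv hj
  refine ⟨j', hj', ?_, ?_⟩
  · rw [eqn_art_inv hm hA hj hj' hjj, hj1, inv_one]
  · have h1 := h.symm.mul_left hm j' (eqn_inJ_sub hm hj')
    rwa [← mul_assoc, hjj, hy] at h1

theorem eqn_trans (hm : Md O m) (hA : ArtHom σ O m Art) {x y z : Submodule ℤ K}
    (h : REqN O m σ Art x y) (h' : REqN O m σ Art y z) : REqN O m σ Art x z := by
  obtain ⟨j, hj, hj1, h⟩ := h
  obtain ⟨k, hk, hk1, h'⟩ := h'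
  refine ⟨j * k, hj.mul hm hk, ?_, ?_⟩
  · rw [hA.mul _ _ hj hk, hj1, hk1, one_mul]
  · have h1 := h.trans hm (h'.mul_left hm j (eqn_inJ_sub hm hj))
    rwa [← mul_assoc] at h1

theorem eqn_mul_left (hm : Md O m) {x y g : Submodule ℤ K}
    (hg : (g : Set K) ⊆ Loc O m (OL O)) (h : REqN O m σ Art x y) :
    REqN O m σ Art (g * x) (g * y) := by
  obtain ⟨j, hj, hj1, h⟩ := h
  refine ⟨j, hj, hj1, ?_⟩
  rw [eqn_mul_comm]
  exact h.mul_left hm g hg

/-- every element of `XSN I x` is in some `XS I (j * x)` -/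
theorem eqn_mem_XSN {I x z : Submodule ℤ K} : z ∈ XSN O O' m σ Art I x ↔
    ∃ j, InJ O m j ∧ Art j = 1 ∧ z ∈ XS O O' m σ I (j * x) := by
  constructor
  · rintro ⟨h1, h2, ⟨j, hj, hj1, h⟩, h4⟩
    exact ⟨j, hj, hj1, h1, h2, h, h4⟩
  · rintro ⟨j, hj, hj1, h1, h2, h, h4⟩
    exact ⟨h1, h2, ⟨j, hj, hj1, h⟩, h4⟩

theorem eqn_nn_left (P : Pair O O' m b) {I J : Submodule ℤ K} (a : Submodule ℤ K)
    (h : REq O' b σ J I) (hI : I ≤ OL O') (hJ : J ≤ OL O') :
    nnN O O' m σ Art I a = nnN O O' m σ Art J a := by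
  obtain ⟨κ, hκ, h1, hJI⟩ := id h
  have h0 := ne_zero_of_pos hκ
  refine Set.ncard_congr (fun x _ => sm κ x) ?_ ?_ ?_
  · intro x hx
    obtain ⟨j, hj, hj1, hx⟩ := eqn_mem_XSN.1 hx
    exact eqn_mem_XSN.2 ⟨j, hj, hj1, P.XS_map hκ h1 hJI hJ hx⟩
  · intro x y _ _ hxy
    have := congrArg (sm κ⁻¹) hxy
    rwa [sm_inv_sm h0, sm_inv_sm h0] at this
  · intro y hy
    have hl2 : ∀ z ∈ J, (κ⁻¹ - 1) * z ∈ Loc O' b b := by
      intro z hz
      rw [hJI] at hz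
      obtain ⟨w, hw, rfl⟩ := mem_sm.1 hz
      have : (κ⁻¹ - 1) * (κ * w) = -((κ - 1) * w) := by field_simp; ring
      rw [this]
      exact loc_neg (h1 w hw)
    obtain ⟨j, hj, hj1, hy⟩ := eqn_mem_XSN.1 hy
    refine ⟨sm κ⁻¹ y, eqn_mem_XSN.2 ⟨j, hj, hj1,
      P.XS_map (κ := κ⁻¹) (by rw [map_inv₀]; positivity) hl2 ?_ hI hy⟩, sm_sm_inv h0 y⟩
    rw [hJI, sm_inv_sm h0]

theorem eqn_nn_right (hm : Md O m) (hA : ArtHom σ O m Art) (I : Submodule ℤ K)
    {x y : Submodule ℤ K} (hy : OL O * y = y) (h : REqN O m σ Art x y) :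
    nnN O O' m σ Art I x = nnN O O' m σ Art I y := by
  unfold nnN
  congr 1
  ext z
  constructor
  · rintro ⟨h1, h2, h3, h4⟩
    exact ⟨h1, h2, eqn_trans hm hA h3 h, h4⟩
  · rintro ⟨h1, h2, h3, h4⟩
    exact ⟨h1, h2, eqn_trans hm hA h3 (eqn_symm hm hA hy h), h4⟩

theorem eqn_nn_mul (P : Pair O O' m b) {I a g : Submodule ℤ K} (hg : Good O b g)
    (hI : IsInv O' I) (hIO : I ≤ OL O') :
    nnN O O' m σ Art I a = nnN O O' m σ Art (OL O' * g * I) (g * a) := by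
  obtain ⟨e, he, he'⟩ := hg.cop
  obtain ⟨hst, g', hg', hgg⟩ := id hg.inv
  refine Set.ncard_congr (fun x _ => g * x) ?_ ?_ ?_
  · rintro x ⟨h1, h2, h3, h4⟩
    refine ⟨hg.inv.mul h1, ?_, eqn_mul_left P.mM (hg.subset_loc P.mM) h3, ?_⟩
    · rw [Submodule.mul_le]
      exact fun y hy z hz => O.mul_mem (hg.le hy) (h2 hz)
    · rw [ext_mul, h4]
  · rintro x y hx hy hxy
    exact hg.inv.cancel hx.1.stable hy.1.stable hxy
  · rintro y ⟨h1, h2, ⟨j, hj, hj1, h3⟩, h4⟩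
    have hxy : g * (g' * y) = y := by rw [← mul_assoc, hgg, h1.stable]
    have hinv' : IsInv O g' := ⟨hg', g, hst, by rw [mul_comm]; exact hgg⟩
    have h5 : OL O' * (g' * y) = I := by
      apply (hg.inv.ext P.le).cancel _ hI.stable
      · rw [← ext_mul, hxy, h4]
      · rw [← mul_assoc, OL_mul_OL]
    refine ⟨g' * y, ⟨hinv'.mul h1, ?_, ⟨j, hj, hj1, ?_⟩, h5⟩, hxy⟩
    · intro z hz
      have hzI : z ∈ OL O' := hIO (h5 ▸ le_ext O' _ hz)
      have : z = e * z + z * (1 - e) := by ring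
      rw [this]
      refine Submodule.add_mem _ (h2 ?_) (P.b_le (P.mB.mul _ hzI _ he'))
      rw [← hxy]; exact Submodule.mul_mem_mul he hz
    · rw [eqn_mul_comm] at h3
      obtain ⟨κ, hκ, h6, h7⟩ := h3
      have h8 : g' * y = sm κ (g' * (g * (j * a))) := by rw [h7, mul_sm]
      have h9 : REq O m σ (sm κ (j * a)) (j * a) :=
        REq.cancel P.mM hκ he (cop_of_one_sub P.mM (P.bm he')) h6
      have h10 : g' * (g * (j * a)) = j * a := by
        rw [← mul_assoc, mul_comm g' g, hgg, stable_mul hj.1.stable]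
      rw [h8, h10]
      exact h9

theorem eqn_finite [CharZero K] (P : Pair O O' m b) {I a : Submodule ℤ K}
    (hI : IsInv O' I) : (XSN O O' m σ Art I a).Finite := by
  refine (finite_sublattices (OL O) P.fg (idx O' I) (P.idx_ne_zero hI)).subset ?_
  rintro x ⟨h1, h2, h3, h4⟩
  refine ⟨h2, ?_⟩
  rw [← h4, ← P.idx_ext h1 h2]
  rfl

end

/-- **EQN** -/
theorem eqn : S_EQN := by
  intro K _ _ σ O O' m b P G _ Art hA
  have hm := P.mM
  refine ⟨?_, ?_, ?_, ?_, ?_, ?_, ?_, ?_, ?_, ?_⟩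
  · intro x hx
    exact eqn_of_req hm hA (REq.refl hm x) hx.stable
  · intro x y _ hy h
    exact eqn_symm hm hA hy.1.stable h
  · intro x y z _ h h'
    exact eqn_trans hm hA h h'
  · intro x y hy
    have hfin : ∀ x ∈ O, ∃ k, 0 < k ∧ x ^ (2 * k) - x ^ k ∈ m := by
      intro x hx
      obtain ⟨k, hk, h⟩ := P.fin x hx
      exact ⟨k, hk, P.bm h⟩
    constructor
    · rintro ⟨j, hj, hj1, h⟩
      exact ⟨j, hj, hj1, (rel_iff hm hfin (eqn_inM_mul hm hj hy)).1 h⟩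
    · rintro ⟨j, hj, hj1, h⟩
      exact ⟨j, hj, hj1, (rel_iff hm hfin (eqn_inM_mul hm hj hy)).2 h⟩
  · intro x y h hy
    exact eqn_of_req hm hA h hy.stable
  · intro I J x h hI hJ _
    exact eqn_nn_left P x h hI hJ
  · intro I x y _ hy h
    exact eqn_nn_right hm hA I hy.1.stable h
  · intro I x g hg hI hIO _
    exact eqn_nn_mul P hg hI hIO
  · intro I x hI
    exact eqn_finite P hI
  · intro g g' x hg hg' h hx
    obtain ⟨k, hk, hkg⟩ := eqn_inv hg'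
    refine ⟨g * k, hg.mul hm hk, ?_, ?_⟩
    · rw [hA.mul _ _ hg hk, eqn_art_inv hm hA hg' hk hkg, h, mul_inv_cancel]
    · have e : g * k * (g' * x) = g * x := by
        rw [mul_assoc, ← mul_assoc k, hkg, hx.1.stable]
      rw [e]
      exact REq.refl hm _

end Pool.Agent.H32.MO
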