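import Pool.Agent.H509.MO.Stm

/-!
# Project MO, second part: all orders and all moduli, the subfields of exponent two

`H` is now a subfield of the ray class field, given by an Artin map `Art` on `InJ O m` which kills `InP O m σ`
(its kernel may be larger).  The classes of the ray class monoid are replaced by their orbits under the
kernel of `Art`.
-/

set_option autoImplicit false
set_option linter.unusedSectionVars false

open NumberField IsDedekindDomain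

noncomputable section

namespace Pool.Agent.MO

open Pool.Agent.W206.MS (OL IsOrder IsInv InMonoid InJ InP Loc nn Pair sm Good REq Rel cnt IsZ idx contr
  IsRealPrime IsFrobenius IsRayClassField InducesIso CondI CondII CondIII CondIV IsFiniteAbelian)
open Pool.Agent.N598.ST (Place Unram IsArtin IsZeta AbRoot TotallySplit PrimeTo)
open Pool.Agent.N820.RS (IsModulus)

section

variable {K : Type} [Field K]

/-- `Art` is a homomorphism from `J_m` onto `G` which kills `P_m`. -/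
structure ArtHom {G : Type} [Group G] (σ : K →+* ℝ) (O : Subalgebra ℤ K) (m : Submodule ℤ K)
    (Art : Submodule ℤ K → G) : Prop where
  mul : ∀ a b, InJ O m a → InJ O m b → Art (a * b) = Art a * Art b
  surj : ∀ g, ∃ a, InJ O m a ∧ Art a = g
  ray : ∀ a, InJ O m a → InP O m σ a → Art a = 1

/-- `a` is in the orbit of the class of `b` under the kernel of `Art`. -/
def RelN {G : Type} [One G] (O : Subalgebra ℤ K) (m : Submodule ℤ K) (σ : K →+* ℝ)
    (Art : Submodule ℤ K → G) (a b : Submodule ℤ K) : Prop :=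
  ∃ j : Submodule ℤ K, InJ O m j ∧ Art j = 1 ∧ Rel O m σ a (j * b)

/-- the number of `b ⊆ O` of index `n` in the orbit of the class of `a` -/
def cntN {G : Type} [One G] (O : Subalgebra ℤ K) (m : Submodule ℤ K) (σ : K →+* ℝ)
    (Art : Submodule ℤ K → G) (a : Submodule ℤ K) (n : ℕ) : ℕ :=
  Nat.card {b : Submodule ℤ K // IsInv O b ∧ b ≤ OL O ∧ RelN O m σ Art b a ∧ idx O b = n}

/-- `F` is the continuation of the sum of the `ζ(s, A) - ζ(s, R A)` over the classes `A` in the orbit of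
the class of `a` under the kernel of `Art`, where `R` is the class of `ρ O` for `ρ ∈ O` with `ρ ≡ -1`
modulo `m` and `σ ρ > 0`. -/
def IsZN {G : Type} [One G] (O : Subalgebra ℤ K) (m : Submodule ℤ K) (σ : K →+* ℝ)
    (Art : Submodule ℤ K → G) (a : Submodule ℤ K) (F : ℂ → ℂ) : Prop :=
  (∃ ρ ∈ O, ρ + 1 ∈ m ∧ 0 < σ ρ ∧ ∀ s : ℂ, 1 < s.re →
    LSeriesHasSum (fun n => (cntN O m σ Art a n : ℂ) -
      (cntN O m σ Art (Submodule.span ℤ {ρ} * a) n : ℂ)) s (F s)) ∧ DifferentiableOn ℂ F {1}ᶜ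

/-- the working form of `RelN` -/
def REqN {G : Type} [One G] (O : Subalgebra ℤ K) (m : Submodule ℤ K) (σ : K →+* ℝ)
    (Art : Submodule ℤ K → G) (x y : Submodule ℤ K) : Prop :=
  ∃ j : Submodule ℤ K, InJ O m j ∧ Art j = 1 ∧ REq O m σ x (j * y)

/-- the integral invertible ideals of `O` in the orbit of `a` whose extension is `I` -/
def XSN {G : Type} [One G] (O O' : Subalgebra ℤ K) (m : Submodule ℤ K) (σ : K →+* ℝ)
    (Art : Submodule ℤ K → G) (I a : Submodule ℤ K) : Set (Submodule ℤ K) :=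
  {x | IsInv O x ∧ x ≤ OL O ∧ REqN O m σ Art x a ∧ OL O' * x = I}

/-- their number -/
def nnN {G : Type} [One G] (O O' : Subalgebra ℤ K) (m : Submodule ℤ K) (σ : K →+* ℝ)
    (Art : Submodule ℤ K → G) (I a : Submodule ℤ K) : ℕ := (XSN O O' m σ Art I a).ncard

end

section real

variable {K : Type} [Field K] [Algebra K ℝ]

/-- `(H, Art)` is a subfield of the ray class field of `O` modulo `m ∞₂` with its Artin map: `H` is a
finite abelian extension of `K` inside the real numbers, `Art` is a homomorphism from `J_m` onto its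
Galois group, trivial on `P_m`, and for every prime `P` of the ring of real algebraic integers whose
contraction to the maximal order is coprime to `(m : O_K)`, the element `Art (P ∩ O)` is a Frobenius
element at `P`. -/
def IsClassField (σ : K →+* ℝ) (O : Subalgebra ℤ K)
    (m : Submodule ℤ K) (H : IntermediateField K ℝ) (Art : Submodule ℤ K → (H ≃ₐ[K] H)) : Prop :=
  IsFiniteAbelian H ∧ ArtHom σ O m Art ∧
  (∀ P : Set ℝ, IsRealPrime P →
    contr P (integralClosure ℤ K) ⊔ m / OL (integralClosure ℤ K) = OL (integralClosure ℤ K) →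
    IsFrobenius H P (Art (contr P O)) (idx (integralClosure ℤ K) (contr P (integralClosure ℤ K))))

/-- Condition (i) for the orbit of the class of `a`: `e` is the product of the numbers
`exp (-Z'(0, A))` over the classes `A` of the orbit. -/
def CondIN {G : Type} [One G] (σ : K →+* ℝ) (O : Subalgebra ℤ K) (m : Submodule ℤ K)
    (Art : Submodule ℤ K → G) (a : Submodule ℤ K) (e : ℝ) : Prop :=
  ∃ F : ℂ → ℂ, IsZN O m σ Art a F ∧ (e : ℂ) = Complex.exp (- deriv F 0)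

end real

section level

variable {K : Type} [Field K] [NumberField K] [Algebra K ℝ]

/-- as `Cn`, for orbits -/
def CnN (O : Subalgebra ℤ K) (m : Submodule ℤ K) {σ : K →+* ℝ} {H : IntermediateField K ℝ}
    [NumberField H] (Art : Submodule ℤ K → Gal(H/K)) {𝔟 : Ideal (𝓞 K)}
    {a : Ideal (𝓞 K) → Gal(H/K)} {r : Gal(H/K)}
    {𝔫 : Ideal (𝓞 K)} (L : Level σ H 𝔟 a r 𝔫) (x : Submodule ℤ K) (ρ : L.G') : ℕ :=
  nnN O (OK K) m σ Art (sub (cof 𝔟 𝔫 * Jr L ρ)) x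

end level

/-! ## Statements -/

/-- EQN. Properties of `REqN` and `nnN`.
Proof: adapt `W206/MS/Pair.lean` (`REq.refl`, `REq.symm`, `REq.trans`, `REq.mul_left`, `rel_iff`) and
`Count.lean` (`Pair.nn_congr_left`, `nn_congr_right`, `Pair.nn_mul`, `Pair.XS_finite`); `InJ` is closed under
products (`InJ.mul`) and contains `x` with `Art x = g⁻¹`; the inverse of `j ∈ InJ O m` is in `InJ O m` (if
`j * a₂ = a₁` then `j⁻¹ = a₂ a₁⁻¹`, note that `a₁` is invertible because `j` and `a₂` are). -/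
def S_EQN : Prop := ∀ (K : Type) [Field K] [CharZero K] (σ : K →+* ℝ) (O O' : Subalgebra ℤ K)
  (m b : Submodule ℤ K), Pair O O' m b → ∀ (G : Type) [Group G] (Art : Submodule ℤ K → G),
  ArtHom σ O m Art →
  (∀ x, IsInv O x → REqN O m σ Art x x) ∧
  (∀ x y, InMonoid O m x → InMonoid O m y → REqN O m σ Art x y → REqN O m σ Art y x) ∧
  (∀ x y z, IsInv O z → REqN O m σ Art x y → REqN O m σ Art y z → REqN O m σ Art x z) ∧
  (∀ x y, InMonoid O m y → (RelN O m σ Art x y ↔ REqN O m σ Art x y)) ∧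
  (∀ x y, REq O m σ x y → IsInv O y → REqN O m σ Art x y) ∧
  -- change of the extended ideal
  (∀ I J x : Submodule ℤ K, REq O' b σ J I → I ≤ OL O' → J ≤ OL O' → InMonoid O m x →
    nnN O O' m σ Art I x = nnN O O' m σ Art J x) ∧
  -- change of the class
  (∀ I x y : Submodule ℤ K, InMonoid O m x → InMonoid O m y → REqN O m σ Art x y →
    nnN O O' m σ Art I x = nnN O O' m σ Art I y) ∧
  -- multiplication by a good ideal
  (∀ I x g : Submodule ℤ K, Good O b g → IsInv O' I → I ≤ OL O' → InMonoid O m x →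
    nnN O O' m σ Art I x = nnN O O' m σ Art (OL O' * g * I) (g * x)) ∧
  (∀ I x : Submodule ℤ K, IsInv O' I → (XSN O O' m σ Art I x).Finite) ∧
  -- ideals with the same Artin symbol
  (∀ g g' x : Submodule ℤ K, InJ O m g → InJ O m g' → Art g = Art g' → InMonoid O m x →
    REqN O m σ Art (g * x) (g' * x))

/-- CNTN. As `S_CNT`, for orbits. -/
def S_CNTN : Prop := S_DIC → S_EQN → ∀ (K : Type) [Field K] [NumberField K] (σ : K →+* ℝ)
  (O : Subalgebra ℤ K) (m b : Submodule ℤ K), Pair O (OK K) m b → ∀ (G : Type) [Group G]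
  (Art : Submodule ℤ K → G), ArtHom σ O m Art → ∀ x y : Submodule ℤ K,
  InMonoid O m x → InMonoid O m y → ∀ s F : ℂ, HasSum (fun I : Ideal (𝓞 K) =>
    if I = ⊥ then 0 else ((nnN O (OK K) m σ Art (sub I) x : ℂ) -
      (nnN O (OK K) m σ Art (sub I) y : ℂ)) * (Ideal.absNorm I : ℂ) ^ (-s)) F →
  LSeriesHasSum (fun n => (cntN O m σ Art x n : ℂ) - (cntN O m σ Art y n : ℂ)) s F

/-- NNN. As `S_NN`, for orbits (the change of the class is now `S_EQN`, last clause). -/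
def S_NNN : Prop := S_DIC → S_GD → S_EQN → ∀ (K : Type) [Field K] [NumberField K] (σ : K →+* ℝ)
  (O : Subalgebra ℤ K) (m b : Submodule ℤ K), Pair O (OK K) m b → ∀ 𝔟 : Ideal (𝓞 K), sub 𝔟 = b →
  ∀ (G : Type) [Group G] (Art : Submodule ℤ K → G), ArtHom σ O m Art →
  ∀ 𝔡 𝔫 : Ideal (𝓞 K), 𝔡 * 𝔫 = 𝔟 → ∀ (I J B₁ B₂ : Ideal (𝓞 K)) (x y α : 𝓞 K), I ≠ ⊥ → J ≠ ⊥ →
  Ideal.span {x} = I * B₁ → Ideal.span {y} = J * B₂ → x - 1 ∈ 𝔫 → y - 1 ∈ 𝔫 → 0 < σ (x : K) →
  0 < σ (y : K) → B₁ ⊔ 𝔟 = ⊤ → B₂ ⊔ 𝔟 = ⊤ → α - 1 ∈ 𝔫 → 0 < σ (α : K) → Ideal.span {α} ⊔ 𝔟 = ⊤ →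
  aO O Art B₁ = aO O Art (Ideal.span {α} * B₂) → ∀ z : Submodule ℤ K, InMonoid O m z →
  nnN O (OK K) m σ Art (sub (𝔡 * I)) z = nnN O (OK K) m σ Art (sub (𝔡 * J)) z

/-- RCXN. As `S_RCX`, for subfields (the proof of `S_RCX` only uses that the kernel of `Art` contains
`InP`). -/
def S_RCXN : Prop := S_DIC → S_GD → ∀ (K : Type) [Field K] [NumberField K] [Algebra K ℝ]
  (σ : K →+* ℝ), Module.finrank ℚ K = 2 → σ ≠ algebraMap K ℝ → ∀ (O : Subalgebra ℤ K)
  (m : Submodule ℤ K), IsOrder O → Pool.Agent.W206.MS.IsModulus O m →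
  ∀ (H : IntermediateField K ℝ) [NumberField H] (Art : Submodule ℤ K → Gal(H/K)),
  IsClassField σ O m H Art → ∀ 𝔟 : Ideal (𝓞 K), sub 𝔟 = m / OL (OK K) →
  RC (algebraMap K ℝ) σ 𝔟 (aO O Art)

/-- as `ClsP`, for orbits -/
structure ClsN {K : Type} [Field K] [NumberField K] [Algebra K ℝ] {σ : K →+* ℝ}
    {H : IntermediateField K ℝ} [NumberField H] (O : Subalgebra ℤ K) (m : Submodule ℤ K)
    (Art : Submodule ℤ K → Gal(H/K)) {𝔟 : Ideal (𝓞 K)} {r : Gal(H/K)} {𝔫 : Ideal (𝓞 K)}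
    (L : Level σ H 𝔟 (aO O Art) r 𝔫) : Prop where
  cls : ∀ I : Ideal (𝓞 K), I ≠ ⊥ → I ⊔ 𝔫 = ⊤ → ∀ x : Submodule ℤ K, InMonoid O m x →
    nnN O (OK K) m σ Art (sub (cof 𝔟 𝔫 * I)) x = CnN O m Art L x (L.a' I)
  eqv : ∀ b : Submodule ℤ K, InJ O m b → ∀ x : Submodule ℤ K, InMonoid O m x → ∀ ρ : L.G',
    CnN O m Art L (b * x) (L.res (Art b) * ρ) = CnN O m Art L x ρ
  cong : ∀ x y : Submodule ℤ K, InMonoid O m x → InMonoid O m y → REqN O m σ Art x y →
    ∀ ρ : L.G', CnN O m Art L x ρ = CnN O m Art L y ρ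

/-- CLSN. As `S_CLS`, for orbits. -/
def S_CLSN : Prop := S_DIC → S_GD → S_EQN → S_NNN → S_APX → ∀ (K : Type) [Field K] [NumberField K]
  [Algebra K ℝ] (σ : K →+* ℝ) (O : Subalgebra ℤ K) (m b : Submodule ℤ K), Pair O (OK K) m b →
  ∀ 𝔟 : Ideal (𝓞 K), sub 𝔟 = b → ∀ (H : IntermediateField K ℝ) [NumberField H]
  [IsAbelianGalois K H], (∀ g : Gal(H/K), g * g = 1) → ∀ Art : Submodule ℤ K → Gal(H/K),
  ArtHom σ O m Art → RC (algebraMap K ℝ) σ 𝔟 (aO O Art) → ∀ (r : Gal(H/K))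
  (𝔫 : Ideal (𝓞 K)), 𝔟 ≤ 𝔫 → ∀ L : Level σ H 𝔟 (aO O Art) r 𝔫, ClsN O m Art L

/-- FINAN. As `S_FINA`, for orbits. -/
def S_FINAN : Prop := S_DIC → S_GD → S_EQN → S_CNTN → ∀ (K : Type) [Field K] [NumberField K]
  [Algebra K ℝ] (σ : K →+* ℝ) (O : Subalgebra ℤ K) (m b : Submodule ℤ K), Pair O (OK K) m b →
  ∀ 𝔟 : Ideal (𝓞 K), sub 𝔟 = b → ∀ (H : IntermediateField K ℝ) [NumberField H]
  [IsAbelianGalois K H], (∀ g : Gal(H/K), g * g = 1) → ∀ Art : Submodule ℤ K → Gal(H/K),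
  ArtHom σ O m Art → RC (algebraMap K ℝ) σ 𝔟 (aO O Art) → ∀ ρ₀ : 𝓞 K, ρ₀ + 1 ∈ 𝔟 →
  0 < σ (ρ₀ : K) → ∀ [Fintype {𝔫 : Ideal (𝓞 K) // 𝔟 ≤ 𝔫}]
  (L : ∀ 𝔫 : {𝔫 : Ideal (𝓞 K) // 𝔟 ≤ 𝔫}, Level σ H 𝔟 (aO O Art) (aO O Art (Ideal.span {ρ₀})) 𝔫.1),
  (∀ 𝔫, ClsN O m Art (L 𝔫)) → ∀ x : Submodule ℤ K, InMonoid O m x →
  IsZN O m σ Art x (fun s => ∑ 𝔫, ∑ ρ, (CnN O m Art (L 𝔫) x ρ : ℂ) *
    ((Ideal.absNorm (cof 𝔟 𝔫.1) : ℂ) ^ (-s) * (L 𝔫).Zd ρ s))

end Pool.Agent.MO
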