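import Pool.Agent.H509.MO.Asm
import Pool.Agent.H509.MO.GStm

/-!
# Project MO, genus version: the units from the levels
-/

set_option autoImplicit false
set_option linter.unusedSectionVars false

open NumberField IsDedekindDomain

noncomputable section

namespace Pool.Agent.MO

open Pool.Agent.W206.MS (OL IsOrder IsInv InMonoid InJ InP Loc nn Pair sm Good REq Rel cnt IsZ idx contr
  IsRealPrime IsFrobenius IsRayClassField InducesIso CondI CondII CondIII CondIV mkPair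
  isOrder_maxOrder mem_maxOrder_of_fg rel_iff isAbelianGalois_iSup isAbelianGalois_le stable_iff)

variable {K : Type} [Field K] [NumberField K] [Algebra K ℝ]

section

variable {σ : K →+* ℝ} {O : Subalgebra ℤ K} {m : Submodule ℤ K} {H : IntermediateField K ℝ}
  [NumberField H] {𝔟 : Ideal (𝓞 K)} {Art : Submodule ℤ K → Gal(H/K)} {r : Gal(H/K)}

variable [Fintype {𝔫 : Ideal (𝓞 K) // 𝔟 ≤ 𝔫}]
  (L : ∀ 𝔫 : {𝔫 : Ideal (𝓞 K) // 𝔟 ≤ 𝔫}, Level σ H 𝔟 (aO O Art) r 𝔫.1)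

/-- the exponents -/
def ccN (m : Submodule ℤ K) (x : Submodule ℤ K) (i : Ix L) : ℕ := CnN O m Art (L i.1) x i.2

/-- the unit -/
def epsN (m : Submodule ℤ K) (x : Submodule ℤ K) : H := ∏ i : Ix L, uu L i ^ ccN L m x i

theorem epsN_val (x : Submodule ℤ K) :
    ((epsN L m x : H) : ℝ) = ∏ i : Ix L, ((uu L i : H) : ℝ) ^ ccN L m x i := by
  unfold epsN
  push_cast
  rfl

theorem core_unitsN (hcls : ∀ 𝔫, ClsN O m Art (L 𝔫)) (hfd : Pool.Agent.W206.MS.IsFiniteAbelian H)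
    (hrel : ∀ x y, InMonoid O m y → (RelN O m σ Art x y ↔ REqN O m σ Art x y))
    (hZ : ∀ x, InMonoid O m x → IsZN O m σ Art x (fun s => ∑ 𝔫, ∑ ρ, (CnN O m Art (L 𝔫) x ρ : ℂ) *
      ((Ideal.absNorm (cof 𝔟 𝔫.1) : ℂ) ^ (-s) * (L 𝔫).Zd ρ s)))
    (hcof : ∀ 𝔫 : {𝔫 : Ideal (𝓞 K) // 𝔟 ≤ 𝔫}, Ideal.absNorm (cof 𝔟 𝔫.1) ≠ 0) :
    ∃ ε : Submodule ℤ K → H, ∀ a, InMonoid O m a →
      (∀ b, InMonoid O m b → RelN O m σ Art b a → ε b = ε a) ∧
      (IsIntegral ℤ (ε a : ℝ) ∧ IsIntegral ℤ (ε a : ℝ)⁻¹) ∧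
      CondIN σ O m Art a (ε a) ∧ CondII O m H Art ε a ∧ CondIII σ H (ε a) ∧ CondIV H (ε a) := by
  classical
  obtain ⟨hfd1, hab⟩ := hfd
  refine ⟨epsN L m, fun a ha => ⟨fun b hb hba => ?_, ⟨?_, ?_⟩, ?_, ?_, ?_, ?_⟩⟩
  · have h1 := (hrel b a ha).1 hba
    unfold epsN
    refine Finset.prod_congr rfl fun i _ => ?_
    congr 1
    exact (hcls i.1).cong b a hb ha h1 i.2
  · rw [epsN_val]
    exact IsIntegral.prod _ fun i _ => ((L i.1).int i.2).pow _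
  · rw [epsN_val, ← Finset.prod_inv_distrib]
    refine IsIntegral.prod _ fun i _ => ?_
    rw [← inv_pow]
    exact ((L i.1).intinv i.2).pow _
  · refine ⟨_, hZ a ha, ?_⟩
    have hd : ∀ (𝔫 : {𝔫 : Ideal (𝓞 K) // 𝔟 ≤ 𝔫}) (ρ : (L 𝔫).G'),
        HasDerivAt (fun s : ℂ => (CnN O m Art (L 𝔫) a ρ : ℂ) *
          ((Ideal.absNorm (cof 𝔟 𝔫.1) : ℂ) ^ (-s) * (L 𝔫).Zd ρ s))
          ((CnN O m Art (L 𝔫) a ρ : ℂ) * deriv ((L 𝔫).Zd ρ) 0) 0 := by
      intro 𝔫 ρ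
      have h1 : DifferentiableAt ℂ ((L 𝔫).Zd ρ) 0 :=
        ((L 𝔫).hol ρ).differentiableAt (isOpen_compl_singleton.mem_nhds (by norm_num))
      have hN : (Ideal.absNorm (cof 𝔟 𝔫.1) : ℂ) ≠ 0 := by exact_mod_cast hcof 𝔫
      have h2 : DifferentiableAt ℂ (fun s : ℂ => (Ideal.absNorm (cof 𝔟 𝔫.1) : ℂ) ^ (-s)) 0 :=
        (differentiableAt_id.neg).const_cpow (Or.inl hN)
      have h3 := (h2.hasDerivAt.mul h1.hasDerivAt).const_mul (CnN O m Art (L 𝔫) a ρ : ℂ)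
      have h4 := (L 𝔫).zero ρ
      simp only [h4, mul_zero, neg_zero, Complex.cpow_zero, one_mul, zero_add] at h3
      exact h3
    have h1 : HasDerivAt (fun s : ℂ => ∑ 𝔫, ∑ ρ, (CnN O m Art (L 𝔫) a ρ : ℂ) *
        ((Ideal.absNorm (cof 𝔟 𝔫.1) : ℂ) ^ (-s) * (L 𝔫).Zd ρ s))
        (∑ 𝔫, ∑ ρ, (CnN O m Art (L 𝔫) a ρ : ℂ) * deriv ((L 𝔫).Zd ρ) 0) 0 :=
      HasDerivAt.fun_sum fun 𝔫 _ => HasDerivAt.fun_sum fun ρ _ => hd 𝔫 ρ
    rw [h1.deriv, ← Fintype.sum_sigma' (f := fun 𝔫 ρ => (CnN O m Art (L 𝔫) a ρ : ℂ) *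
      deriv ((L 𝔫).Zd ρ) 0), ← Finset.sum_neg_distrib, Complex.exp_sum, epsN_val]
    push_cast
    refine Finset.prod_congr rfl fun i _ => ?_
    have h5 := (L i.1).exp i.2
    change (((uu L i : H) : ℝ) : ℂ) ^ ccN L m a i = _
    have h6 : (((uu L i : H) : ℝ) : ℂ) = Complex.exp (-deriv ((L i.1).Zd i.2) 0) := h5
    rw [h6, ← Complex.exp_nat_mul]
    congr 1
    change (CnN O m Art (L i.1) a i.2 : ℂ) * _ = _
    ring
  · intro b hb
    unfold epsN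
    rw [map_prod]
    have he : Function.Bijective (fun i : Ix L => (⟨i.1, (L i.1).res (Art b) * i.2⟩ : Ix L)) := by
      constructor
      · rintro ⟨𝔫, ρ⟩ ⟨𝔫', ρ'⟩ h
        simp only [Sigma.mk.injEq] at h
        obtain ⟨rfl, h⟩ := h
        have h := eq_of_heq h
        rw [mul_right_inj] at h
        rw [h]
      · rintro ⟨𝔫, ρ⟩
        exact ⟨⟨𝔫, ((L 𝔫).res (Art b))⁻¹ * ρ⟩, by simp⟩
    rw [← Function.Bijective.prod_comp he (fun i : Ix L => uu L i ^ ccN L m (b * a) i)]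
    refine Finset.prod_congr rfl fun i _ => ?_
    rw [map_pow]
    have h1 : Art b (uu L i) = uu L ⟨i.1, (L i.1).res (Art b) * i.2⟩ := (L i.1).gal _ _
    have h2 : ccN L m (b * a) ⟨i.1, (L i.1).res (Art b) * i.2⟩ = ccN L m a i :=
      (hcls i.1).eqv b hb a ha i.2
    rw [h1, h2]
  · intro τ hτ
    unfold epsN
    rw [map_prod, norm_prod]
    refine Finset.prod_eq_one fun i _ => ?_
    rw [map_pow, norm_pow]
    have h1 : ‖τ (uu L i)‖ = 1 := (L i.1).nrm i.2 τ hτ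
    rw [h1, one_pow]
  · have hq : ∀ i : Option (Ix L), IsAbelianGalois K (H ⊔ IntermediateField.adjoin K
        {Real.sqrt (i.elim 1 fun j => ((uu L j : H) : ℝ))} : IntermediateField K ℝ) := by
      rintro (_ | i)
      · have h1 : (H ⊔ IntermediateField.adjoin K {Real.sqrt 1} : IntermediateField K ℝ) = H := by
          rw [sup_eq_left, IntermediateField.adjoin_le_iff, Set.singleton_subset_iff, Real.sqrt_one]
          exact one_mem H
        change IsAbelianGalois K (H ⊔ IntermediateField.adjoin K {Real.sqrt 1} :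
          IntermediateField K ℝ)
        rw [h1]
        exact hab
      · exact (L i.1).ab i.2
    let M : IntermediateField K ℝ := ⨆ i : Option (Ix L), (H ⊔ IntermediateField.adjoin K
        {Real.sqrt (i.elim 1 fun j => ((uu L j : H) : ℝ))} : IntermediateField K ℝ)
    have hM : IsAbelianGalois K M := isAbelianGalois_iSup _ hq
    have hqM : ∀ i : Option (Ix L), (H ⊔ IntermediateField.adjoin K
        {Real.sqrt (i.elim 1 fun j => ((uu L j : H) : ℝ))} : IntermediateField K ℝ) ≤ M := fun i =>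
      le_iSup (fun i : Option (Ix L) => (H ⊔ IntermediateField.adjoin K
        {Real.sqrt (i.elim 1 fun j => ((uu L j : H) : ℝ))} : IntermediateField K ℝ)) i
    have hle2 : (H ⊔ IntermediateField.adjoin K {Real.sqrt (epsN L m a : ℝ)} :
        IntermediateField K ℝ) ≤ M := by
      refine sup_le (le_sup_left.trans (hqM none)) ?_
      rw [IntermediateField.adjoin_le_iff, Set.singleton_subset_iff, epsN_val]
      refine sqrt_prod _ M _ _ (fun i => (L i.1).pos i.2) fun i => hqM (some i) ?_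
      exact (le_sup_right : _ ≤ (H ⊔ IntermediateField.adjoin K
        {Real.sqrt ((uu L i : H) : ℝ)} : IntermediateField K ℝ))
        (IntermediateField.mem_adjoin_simple_self K _)
    exact isAbelianGalois_le hle2

end

/-- All the parts of the project, genus version. -/
structure AllN : Prop where
  dic : S_DIC
  gd : S_GD
  apx : S_APX
  unt : S_UNT
  cond : S_COND
  conj : S_CONJ
  exa : S_EXA
  prin : S_PRIN
  zex : S_ZEX
  zval : S_ZVAL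
  lev : S_LEV
  abr : S_ABR
  lvl : S_LVL
  eqn : S_EQN
  cntn : S_CNTN
  nnn : S_NNN
  rcxn : S_RCXN
  clsn : S_CLSN
  finan : S_FINAN

/-- **The monoid Stark conjecture for the subfields of exponent two of the ray class fields.** -/
theorem mainN_of (A : AllN) (K : Type) [Field K] [NumberField K] [Algebra K ℝ]
    (hK : Module.finrank ℚ K = 2) (σ : K →+* ℝ) (hσ : σ ≠ algebraMap K ℝ) (O : Subalgebra ℤ K)
    (m : Submodule ℤ K) (hO : IsOrder O) (hm : Pool.Agent.W206.MS.IsModulus O m)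
    (H : IntermediateField K ℝ) (Art : Submodule ℤ K → Gal(H/K))
    (hH : IsClassField σ O m H Art) (h2 : ∀ g : Gal(H/K), g * g = 1) :
    ∃ ε : Submodule ℤ K → H, ∀ a, InMonoid O m a →
      (∀ b, InMonoid O m b → RelN O m σ Art b a → ε b = ε a) ∧
      (IsIntegral ℤ (ε a : ℝ) ∧ IsIntegral ℤ (ε a : ℝ)⁻¹) ∧
      CondIN σ O m Art a (ε a) ∧ CondII O m H Art ε a ∧ CondIII σ H (ε a) ∧ CondIV H (ε a) := by
  classical
  have hfd : FiniteDimensional K H := hH.1.1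
  have hab : IsAbelianGalois K H := hH.1.2
  have hNF : NumberField H := NumberField.of_module_finite K H
  have P : Pair O (OK K) m (m / OL (OK K)) :=
    mkPair hO (isOrder_maxOrder K) (mem_maxOrder_of_fg hO.1) hm
  obtain ⟨d1, d2, d3, d4, d5, d6, d7, d8, d9⟩ := A.dic K
  obtain ⟨𝔟, h𝔟⟩ := d8 (m / OL (OK K)) (stable_iff.2 P.mB.mul) (fun x hx => P.mB.le x hx)
  have hRC : RC (algebraMap K ℝ) σ 𝔟 (aO O Art) :=
    A.rcxn A.dic A.gd K σ hK hσ O m hO hm H Art hH 𝔟 h𝔟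
  obtain ⟨ρ, hρ1, hρ2, hρ3⟩ := P.exists_rho σ
  have hρO : ρ ∈ OK K := P.le hρ3
  have hρb : (⟨ρ, hρO⟩ : 𝓞 K) + 1 ∈ 𝔟 := by
    have h1 : ρ + 1 ∈ sub 𝔟 := by
      rw [h𝔟]
      exact hρ1
    obtain ⟨y, hy, hy2⟩ := (d1 𝔟 _).1 h1
    have h2 : (⟨ρ, hρO⟩ : 𝓞 K) + 1 = y := by
      apply RingOfIntegers.ext
      rw [hy2]
      rfl
    rw [h2]
    exact hy
  have hfin : Finite {𝔫 : Ideal (𝓞 K) // 𝔟 ≤ 𝔫} := finite_div hRC.ne_bot
  have hfin2 : Fintype {𝔫 : Ideal (𝓞 K) // 𝔟 ≤ 𝔫} := Fintype.ofFinite _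
  let L : ∀ 𝔫 : {𝔫 : Ideal (𝓞 K) // 𝔟 ≤ 𝔫},
      Level σ H 𝔟 (aO O Art) (aO O Art (Ideal.span {(⟨ρ, hρO⟩ : 𝓞 K)})) 𝔫.1 := fun 𝔫 =>
    (A.lvl A.unt A.cond A.conj A.exa A.prin A.zex A.zval A.lev A.abr K σ hK H h2 𝔟 (aO O Art) hRC
      ⟨ρ, hρO⟩ hρb hρ2 𝔫.1 𝔫.2).some
  have hcls : ∀ 𝔫, ClsN O m Art (L 𝔫) := fun 𝔫 =>
    A.clsn A.dic A.gd A.eqn A.nnn A.apx K σ O m _ P 𝔟 h𝔟 H h2 Art hH.2.1 hRC _ 𝔫.1 𝔫.2 (L 𝔫)
  obtain ⟨e1, e2, e3, e4, -⟩ := A.eqn K σ O (OK K) m _ P Gal(H/K) Art hH.2.1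
  refine core_unitsN L hcls hH.1 e4 (fun x hx => ?_) fun 𝔫 => ?_
  · exact A.finan A.dic A.gd A.eqn A.cntn K σ O m _ P 𝔟 h𝔟 H h2 Art hH.2.1 hRC ⟨ρ, hρO⟩ hρb hρ2 L hcls x hx
  · have h1 : 𝔟 = 𝔫.1 * cof 𝔟 𝔫.1 := by
      have h2 : 𝔫.1 ∣ 𝔟 := Ideal.dvd_iff_le.2 𝔫.2
      unfold cof
      rw [dif_pos h2]
      exact h2.choose_spec
    intro h3
    rw [Ideal.absNorm_eq_zero_iff] at h3
    rw [h3, Ideal.mul_bot] at h1
    exact hRC.ne_bot h1

end Pool.Agent.MO
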