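import Pool.Agent.H509.MO.EStm
import Pool.Agent.H509.MO.GCore
import Pool.Agent.H509.MO.EQN

/-!
# Project MO: existence of the class fields, assembly
-/

set_option autoImplicit false
set_option linter.unusedSectionVars false

open NumberField IsDedekindDomain

noncomputable section

namespace Pool.Agent.MO

open Pool.Agent.W206.MS (OL IsOrder IsInv InMonoid InJ InP Loc nn Pair sm Good REq Rel cnt IsZ idx contr
  IsRealPrime IsRayClassField InducesIso CondI CondII CondIII CondIV mkPair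
  isOrder_maxOrder mem_maxOrder_of_fg rel_iff isAbelianGalois_iSup isAbelianGalois_le stable_iff
  IsFiniteAbelian)
open Pool.Agent.H32.MO (eqn_inv eqn_inJ_OL)

/-- All the parts, existence. -/
structure AllE : Prop where
  dic : S_DIC
  gd : S_GD
  apx : S_APX
  unt : S_UNT
  cond : S_COND
  exa : S_EXA
  prin : S_PRIN
  grp : S_GRP
  rgx : S_RGX
  dvh : S_DVH
  art : S_ART
  quo : S_QUO
  emr : S_EMR
  upg : S_UPG
  tra : S_TRA
  frb : S_FRB

theorem RG.map {K : Type} [Field K] [NumberField K] {G G' : Type} [Group G] [Group G']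
    {σ : K →+* ℝ} {𝔟 : Ideal (𝓞 K)} {A : Ideal (𝓞 K) → G} (h : RG σ 𝔟 A) (f : G →* G')
    (hf : Function.Surjective f) : RG σ 𝔟 (fun I => f (A I)) where
  one := by rw [h.one, map_one]
  mul I J hI hJ := by rw [h.mul I J hI hJ, map_mul]
  ray x hx hs := by rw [h.ray x hx hs, map_one]
  surj g := by
    obtain ⟨g, rfl⟩ := hf g
    obtain ⟨I, hI, rfl⟩ := h.surj g
    exact ⟨I, hI, rfl⟩

/-- Existence of the class field of a subgroup `N` of `J_m` which contains `P_m` and all squares. -/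
theorem exist_of (E : AllE) (K : Type) [Field K] [NumberField K] [Algebra K ℝ]
    (hK : Module.finrank ℚ K = 2) (σ : K →+* ℝ) (hσ : σ ≠ algebraMap K ℝ) (O : Subalgebra ℤ K)
    (m : Submodule ℤ K) (hO : IsOrder O) (hm : Pool.Agent.W206.MS.IsModulus O m)
    (N : Submodule ℤ K → Prop) (hP : ∀ a, InJ O m a → InP O m σ a → N a)
    (hmul : ∀ a b, InJ O m a → InJ O m b → N a → N b → N (a * b))
    (hsq : ∀ a, InJ O m a → N (a * a)) :
    ∃ (H : IntermediateField K ℝ) (Art : Submodule ℤ K → Gal(H/K)), IsClassField σ O m H Art ∧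
      (∀ a, InJ O m a → (Art a = 1 ↔ N a)) ∧ ∀ g : Gal(H/K), g * g = 1 := by
  classical
  have P : Pair O (OK K) m (m / OL (OK K)) :=
    mkPair hO (isOrder_maxOrder K) (mem_maxOrder_of_fg hO.1) hm
  obtain ⟨d1, d2, d3, d4, d5, d6, d7, d8, d9⟩ := E.dic K
  obtain ⟨𝔟, h𝔟⟩ := d8 (m / OL (OK K)) (stable_iff.2 P.mB.mul) (fun x hx => P.mB.le x hx)
  have hb0 : 𝔟 ≠ ⊥ := by
    rintro rfl
    obtain ⟨n, hn, h⟩ := P.pos
    rw [← h𝔟] at h
    obtain ⟨y, hy, hy2⟩ := (d1 _ _).1 h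
    rw [Ideal.mem_bot] at hy
    rw [hy] at hy2
    have h3 : (n : K) = 0 := by rw [← hy2]; simp
    exact hn.ne' (by exact_mod_cast h3)
  have hb1 : 𝔟 ≠ ⊤ := by
    rintro rfl
    rw [d3] at h𝔟
    apply P.mB.one
    rw [← h𝔟]
    exact (OK K).one_mem
  obtain ⟨G₀, iG₀, A₀, hA₀⟩ := E.grp K σ O m hO hm
  let N₀ : Subgroup G₀ :=
    { carrier := {g | ∃ a, InJ O m a ∧ N a ∧ A₀ a = g}
      mul_mem' := by
        rintro _ _ ⟨a, ha, hNa, rfl⟩ ⟨b, hb, hNb, rfl⟩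
        exact ⟨a * b, ha.mul P.mM hb, hmul a b ha hb hNa hNb, hA₀.1 a b ha hb⟩
      one_mem' := ⟨OL O, eqn_inJ_OL P.mM, by
          have h := hsq (OL O) (eqn_inJ_OL P.mM)
          rwa [Pool.Agent.W206.MS.OL_mul_OL] at h, by
          have h := hA₀.1 _ _ (eqn_inJ_OL P.mM) (eqn_inJ_OL P.mM)
          rw [Pool.Agent.W206.MS.OL_mul_OL] at h
          exact (mul_eq_left.1 h.symm)⟩
      inv_mem' := by
        rintro _ ⟨a, ha, hNa, rfl⟩
        obtain ⟨b, hb, hab⟩ := eqn_inv ha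
        refine ⟨b, hb, ?_, ?_⟩
        · have h1 : b = a * (b * b) := by
            rw [← mul_assoc, mul_comm a b, hab, hb.1.stable]
          rw [h1]
          exact hmul _ _ ha (hb.mul P.mM hb) hNa (hsq b hb)
        · have h := hA₀.1 _ _ hb ha
          rw [hab] at h
          have h' := hA₀.1 _ _ (eqn_inJ_OL P.mM) (eqn_inJ_OL P.mM)
          rw [Pool.Agent.W206.MS.OL_mul_OL] at h'
          have h2 : A₀ (OL O) = 1 := mul_eq_left.1 h'.symm
          rw [h2] at h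
          exact eq_inv_of_mul_eq_one_left h.symm }
  have hA1 : A₀ (OL O) = 1 := by
    have h := hA₀.1 _ _ (eqn_inJ_OL P.mM) (eqn_inJ_OL P.mM)
    rw [Pool.Agent.W206.MS.OL_mul_OL] at h
    exact (mul_eq_left.1 h.symm)
  have hker : ∀ a, InJ O m a → (A₀ a ∈ N₀ ↔ N a) := by
    intro a ha
    constructor
    · rintro ⟨b, hb, hNb, hba⟩
      obtain ⟨c, hc, hcb⟩ := eqn_inv hb
      have h1 : A₀ (a * c) = 1 := by
        rw [hA₀.1 a c ha hc, ← hba, ← hA₀.1 b c hb hc, mul_comm, hcb]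
        exact hA1
      have h2 : N (a * c) := hP _ (ha.mul P.mM hc) ((hA₀.2.2 _ (ha.mul P.mM hc)).1 h1)
      have h3 : a = a * c * b := by rw [mul_assoc, hcb, mul_comm, ha.1.stable]
      rw [h3]
      exact hmul _ _ (ha.mul P.mM hc) hb h2 hNb
    · exact fun h => ⟨a, ha, h, rfl⟩
  let A : Submodule ℤ K → G₀ ⧸ N₀ := fun a => QuotientGroup.mk' N₀ (A₀ a)
  have hAA : ∀ a, A a = 1 ↔ A₀ a ∈ N₀ := fun a => QuotientGroup.eq_one_iff _
  have hRG₀ : RG σ 𝔟 (aO O A₀) := E.rgx E.dic E.gd K σ O m _ P 𝔟 h𝔟 G₀ A₀ hA₀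
  have hRG : RG σ 𝔟 (aO O A) := hRG₀.map (QuotientGroup.mk' N₀) (QuotientGroup.mk'_surjective N₀)
  obtain ⟨M, _, _, _, _, Φ, N', hN0, hNb, hRam, hΦ, hΦF⟩ :=
    E.art E.apx E.dvh K σ 𝔟 hb0 (G₀ ⧸ N₀) (aO O A) hRG
  obtain ⟨L, _, _, _, hab, θ, hθ⟩ := E.quo K M (G₀ ⧸ N₀) Φ hΦ
  have hsqG : ∀ g : G₀ ⧸ N₀, g * g = 1 := by
    intro g
    obtain ⟨g, rfl⟩ := QuotientGroup.mk'_surjective N₀ g
    obtain ⟨a, ha, rfl⟩ := hA₀.2.1 g
    rw [← map_mul, ← hA₀.1 a a ha ha]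
    exact (hAA _).2 ((hker _ (ha.mul P.mM ha)).2 (hsq a ha))
  have hsqL : ∀ g : Gal(L/K), g * g = 1 := by
    intro g
    obtain ⟨g, rfl⟩ := θ.surjective g
    rw [← map_mul, hsqG, map_one]
  have hRGL : RG σ 𝔟 (fun I => θ (aO O A I)) := hRG.map θ.toMonoidHom θ.surjective
  have hFr : ∀ v : HeightOneSpectrum (𝓞 K), (N' : 𝓞 K) ∉ v.asIdeal →
      FrobAt v (θ (aO O A v.asIdeal)) := by
    intro v hv
    have h1 := Pool.Agent.Q92.AR.frob_spec (M := M) v
    rw [← hΦF v hv _ h1]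
    exact hθ v _ h1
  have hreal : ∀ φ : K →+* ℝ, φ = algebraMap K ℝ ∨ φ = σ := by
    intro φ
    by_contra hcon
    push Not at hcon
    have h3 : ({φ, algebraMap K ℝ, σ} : Finset (K →+* ℝ)).card = 3 := by
      rw [Finset.card_insert_of_notMem, Finset.card_insert_of_notMem, Finset.card_singleton]
      · simpa using hσ.symm
      · simp only [Finset.mem_insert, Finset.mem_singleton, not_or]
        exact ⟨hcon.1, hcon.2⟩
    have h4 : Fintype.card (K →+* ℂ) = 2 := by rw [NumberField.Embeddings.card K ℂ, hK]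
    have h5 : Function.Injective (fun f : K →+* ℝ => (Complex.ofRealHom.comp f : K →+* ℂ)) := by
      intro f g hfg
      ext x
      have := DFunLike.congr_fun hfg x
      simpa using this
    have h6 : (({φ, algebraMap K ℝ, σ} : Finset (K →+* ℝ)).image
        (fun f : K →+* ℝ => (Complex.ofRealHom.comp f : K →+* ℂ))).card = 3 := by
      rw [Finset.card_image_of_injective _ h5, h3]
    have h7 := Finset.card_le_univ (({φ, algebraMap K ℝ, σ} : Finset (K →+* ℝ)).image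
        (fun f : K →+* ℝ => (Complex.ofRealHom.comp f : K →+* ℂ)))
    rw [h6, h4] at h7
    omega
  obtain ⟨σ', hσ'⟩ := E.emr K L hsqL (algebraMap K ℝ) σ hσ.symm hreal 𝔟 hb0 _ hRGL N' hN0 hNb hFr
  have hRC : RC (algebraMap K ℝ) σ 𝔟 (fun I => θ (aO O A I)) :=
    E.upg E.unt E.cond E.exa E.prin E.apx K L hsqL (algebraMap K ℝ) σ hσ.symm hreal ⟨σ', hσ'⟩ 𝔟
      hb0 hb1 _ hRGL N' hN0 hNb hFr
  obtain ⟨H, hNH, hAH, e, he⟩ := E.tra K L σ' hσ' σ 𝔟 _ hRC
  have hfd : FiniteDimensional K H := Module.Finite.of_restrictScalars_finite ℚ K H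
  refine ⟨H, fun a => e (θ (A a)), ⟨⟨hfd, hAH⟩, ⟨?_, ?_, ?_⟩, ?_⟩, ?_, ?_⟩
  · intro a b ha hb
    have h1 : A (a * b) = A a * A b := by
      change QuotientGroup.mk' N₀ _ = _
      rw [hA₀.1 a b ha hb, map_mul]
    change e (θ (A (a * b))) = _
    rw [h1, map_mul, map_mul]
  · intro g
    obtain ⟨g, rfl⟩ := e.surjective g
    obtain ⟨g, rfl⟩ := θ.surjective g
    obtain ⟨g, rfl⟩ := QuotientGroup.mk'_surjective N₀ g
    obtain ⟨a, ha, rfl⟩ := hA₀.2.1 g
    exact ⟨a, ha, rfl⟩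
  · intro a ha hPa
    have h1 : A a = 1 := (hAA a).2 ((hker a ha).2 (hP a ha hPa))
    change e (θ (A a)) = 1
    rw [h1, map_one, map_one]
  · exact E.frb E.dic K σ O m P 𝔟 h𝔟 H (fun a => e (θ (A a))) he
  · intro a ha
    change e (θ (A a)) = 1 ↔ _
    rw [map_eq_one_iff e e.injective, map_eq_one_iff θ θ.injective, hAA, hker a ha]
  · intro g
    obtain ⟨g, rfl⟩ := e.surjective g
    rw [← map_mul, hsqL, map_one]

end Pool.Agent.MO
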