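import Pool.Agent.H509.MO.EStm
import Pool.Agent.H509.MO.COND

/-!
# Project MO, EMR: the field is real above the other real place
-/

set_option autoImplicit false
set_option linter.unusedSectionVars false
set_option linter.deprecated false

open NumberField IsDedekindDomain

noncomputable section

namespace Pool.Agent.H548.MO

open Pool.Agent.Q92.AR (Dv prin Pr Ray art Pos Cong frob IsFrobenius Unramified Ram frob_spec
  prin_mul prin_div)
open Pool.Agent.BT9 (RamAt RamR)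
open Pool.Agent.MO
open Pool.Agent.Q125.AR (art_eq_sum chi_frob Ram_mono Ray_mono)

section
variable {K H : Type} [Field K] [NumberField K] [Field H] [NumberField H] [Algebra K H]
  [IsGalois K H]

/-- Frobenius elements -/
theorem isFrob {v : HeightOneSpectrum (𝓞 K)} {g : Gal(H/K)} (h : FrobAt v g) : IsFrobenius v g := by
  obtain ⟨w, hwm, hwv, -⟩ := frob_spec (M := H) v
  have hw0 : w ≠ ⊥ := by
    rintro rfl
    apply v.ne_bot
    rw [← hwv, ← RingHom.ker_eq_comap_bot]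
    exact (RingHom.injective_iff_ker_eq_bot _).1 (FaithfulSMul.algebraMap_injective (𝓞 K) (𝓞 H))
  refine ⟨w, hwm, hwv, fun x => ?_⟩
  have hgx : IsIntegral ℤ (g (x : H)) := x.2.map g
  refine ⟨⟨g (x : H), hgx⟩ - x ^ Ideal.absNorm v.asIdeal, ?_, rfl⟩
  exact h ⟨w, hwm.isPrime, hw0⟩ ⟨hwv.symm⟩ x _ rfl

/-- the Artin symbol of a principal ideal -/
theorem art_eq {σ : K →+* ℝ} {𝔟 : Ideal (𝓞 K)} {a : Ideal (𝓞 K) → Gal(H/K)}
    (hRC : RG σ 𝔟 a) (ψ : Gal(H/K) →* ℂˣ) {N : ℕ} (hR : Ram K H N) (hNb : (N : 𝓞 K) ∈ 𝔟)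
    (hfrob : ∀ v : HeightOneSpectrum (𝓞 K), (N : 𝓞 K) ∉ v.asIdeal → FrobAt v (a v.asIdeal))
    (α : 𝓞 K) (hα : α ≠ 0) (u : Kˣ) (hu : (u : K) = α)
    (hcop : ∀ v : HeightOneSpectrum (𝓞 K), (N : 𝓞 K) ∈ v.asIdeal → α ∉ v.asIdeal) :
    art ψ (prin u) = Additive.ofMul (ψ (a (Ideal.span {α}))) := by
  classical
  have hmem : ∀ v ∈ (prin u).support, (N : 𝓞 K) ∉ v.asIdeal := by
    intro v hv hN
    rw [Finsupp.mem_support_iff, Pool.Agent.Q257.AR.prin_eq α hα u hu v] at hv
    have hv' : (Associates.mk v.asIdeal).count (Associates.mk (Ideal.span {α})).factors ≠ 0 := by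
      exact_mod_cast hv
    have h1 : v.asIdeal ∣ Ideal.span {α} :=
      (Associates.count_ne_zero_iff_dvd (Pool.Agent.Q257.AR.span_ne α hα) v.irreducible).1 hv'
    have h2 : α ∈ v.asIdeal := by
      rw [Ideal.dvd_span_singleton] at h1
      exact h1
    exact hcop v hN h2
  have hfac : Ideal.span {α} = ∏ v ∈ (prin u).support, v.asIdeal ^ (prin u v).toNat := by
    have h1 := Ideal.finprod_heightOneSpectrum_factorization (Pool.Agent.Q257.AR.span_ne α hα)
    have h2 : ∀ v : HeightOneSpectrum (𝓞 K), v.maxPowDividing (Ideal.span {α}) =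
        v.asIdeal ^ (prin u v).toNat := by
      intro v
      rw [Pool.Agent.Q257.AR.prin_eq α hα u hu v, Int.toNat_natCast]
      rfl
    conv_lhs => rw [← h1]
    rw [finprod_congr h2, finprod_eq_prod_of_mulSupport_subset (s := (prin u).support)]
    intro v hv
    rw [Function.mem_mulSupport] at hv
    rw [Finset.mem_coe, Finsupp.mem_support_iff]
    intro h
    apply hv
    rw [h, Int.toNat_zero, pow_zero]
  have hcop' : ∀ v : HeightOneSpectrum (𝓞 K), (N : 𝓞 K) ∉ v.asIdeal →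
      ¬ 𝔟 ≤ v.asIdeal ∧ v.asIdeal ⊔ 𝔟 = ⊤ := by
    intro v hv
    have h0 : ¬ 𝔟 ≤ v.asIdeal := fun h => hv (h hNb)
    refine ⟨h0, ?_⟩
    have h1 := v.isMaximal
    by_contra h2
    have h3 := h1.eq_of_le h2 (le_sup_left)
    exact h0 (h3 ▸ le_sup_right)
  -- powers of primes
  have hpow : ∀ v : HeightOneSpectrum (𝓞 K), (N : 𝓞 K) ∉ v.asIdeal → ∀ k : ℕ,
      v.asIdeal ^ k ⊔ 𝔟 = ⊤ ∧ ψ (a (v.asIdeal ^ k)) = ψ (a v.asIdeal) ^ k := by
    intro v hv k
    induction k with
    | zero =>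
      refine ⟨by rw [pow_zero, Ideal.one_eq_top, top_sup_eq], ?_⟩
      rw [pow_zero, pow_zero, Ideal.one_eq_top, hRC.one, map_one]
    | succ k ih =>
      have h1 := (hcop' v hv).2
      refine ⟨?_, ?_⟩
      · rw [← Ideal.isCoprime_iff_sup_eq] at h1 ⊢
        exact h1.pow_left
      · rw [pow_succ, hRC.mul _ _ ih.1 h1, map_mul, ih.2, pow_succ]
  have hprod : ∀ s : Finset (HeightOneSpectrum (𝓞 K)), (∀ v ∈ s, (N : 𝓞 K) ∉ v.asIdeal) →
      (∏ v ∈ s, v.asIdeal ^ (prin u v).toNat) ⊔ 𝔟 = ⊤ ∧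
      ψ (a (∏ v ∈ s, v.asIdeal ^ (prin u v).toNat)) =
        ∏ v ∈ s, ψ (a v.asIdeal) ^ (prin u v).toNat := by
    intro s
    induction s using Finset.induction_on with
    | empty =>
      intro _
      rw [Finset.prod_empty, Finset.prod_empty]
      refine ⟨by rw [Ideal.one_eq_top, top_sup_eq], ?_⟩
      rw [Ideal.one_eq_top, hRC.one, map_one]
    | insert v s hvs ih =>
      intro hs
      obtain ⟨h1, h2⟩ := ih fun w hw => hs w (Finset.mem_insert_of_mem hw)
      obtain ⟨h3, h4⟩ := hpow v (hs v (Finset.mem_insert_self _ _)) (prin u v).toNat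
      rw [Finset.prod_insert hvs, Finset.prod_insert hvs]
      refine ⟨?_, ?_⟩
      · rw [← Ideal.isCoprime_iff_sup_eq] at h1 h3 ⊢
        exact h3.mul_left h1
      · rw [hRC.mul _ _ h3 h1, map_mul, h4, h2]
  rw [hfac, (hprod _ hmem).2, art_eq_sum, ofMul_prod]
  refine Finset.sum_congr rfl fun v hv => ?_
  have hun : Unramified H v := by
    by_contra h
    exact hmem v hv (hR v h)
  have h1 := chi_frob hun (frob_spec (M := H) v) (isFrob (hfrob v (hmem v hv))) ψ
  rw [h1, ofMul_pow]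
  have h2 : (prin u v) = (((prin u v).toNat : ℕ) : ℤ) := by
    rw [Pool.Agent.Q257.AR.prin_eq α hα u hu v, Int.toNat_natCast]
  conv_lhs => rw [h2]
  rw [natCast_zsmul]

end

/-- divisibility by `N` and valuations -/
theorem dvd_of_val {F : Type} [Field F] [NumberField F] {N : ℕ} (hN : N ≠ 0) {β : 𝓞 F}
    (h : ∀ u : HeightOneSpectrum (𝓞 F), (N : 𝓞 F) ∈ u.asIdeal →
      u.valuation F (β : F) ≤ u.valuation F (N : F)) : (N : 𝓞 F) ∣ β := by
  have hNF : (N : F) ≠ 0 := by exact_mod_cast hN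
  have hint : ∀ u : HeightOneSpectrum (𝓞 F), u.valuation F ((β : F) / (N : F)) ≤ 1 := by
    intro u
    rw [map_div₀]
    have hN1 : 0 < u.valuation F (N : F) := zero_lt_iff.2 ((Valuation.ne_zero_iff _).2 hNF)
    rw [div_le_one₀ hN1]
    by_cases hNu : (N : 𝓞 F) ∈ u.asIdeal
    · exact h u hNu
    · rw [Pool.Agent.H236.MO.val_nat_one hNu]
      exact u.valuation_le_one (K := F) β
  obtain ⟨c, hc⟩ := HeightOneSpectrum.mem_integers_of_valuation_le_one F _ hint
  refine ⟨c, ?_⟩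
  apply RingOfIntegers.ext
  change algebraMap (𝓞 F) F β = algebraMap (𝓞 F) F (N * c)
  have h1 : algebraMap (𝓞 F) F c = algebraMap (𝓞 F) F β / (N : F) := hc
  rw [map_mul, h1, map_natCast]
  field_simp

/-- **EMR.** -/
theorem emr : S_EMR := by
  intro K L _ _ _ _ _ _ hexp s₁ σ hne hreal 𝔟 hb a h N hN hNb hfrob
  obtain ⟨ι, c, hι, hc⟩ := Pool.Agent.H509.Rec.exists_conj (M := L) s₁
  by_cases hc1 : c = 1
  · subst hc1
    have hre : ∀ x, ((ι x).re : ℂ) = ι x := by
      intro x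
      have h1 := hc x
      rw [AlgEquiv.one_apply] at h1
      exact Complex.conj_eq_iff_re.1 h1.symm
    refine ⟨{ toFun := fun x => (ι x).re
              map_one' := by rw [map_one, Complex.one_re]
              map_zero' := by rw [map_zero, Complex.zero_re]
              map_add' := fun x y => by rw [map_add, Complex.add_re]
              map_mul' := fun x y => by
                rw [map_mul, ← hre x, ← hre y, ← Complex.ofReal_mul, Complex.ofReal_re,
                  Complex.ofReal_re, Complex.ofReal_re] }, ?_⟩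
    ext x
    show (ι (algebraMap K L x)).re = s₁ x
    rw [hι, Complex.ofReal_re]
  · exfalso
    obtain ⟨ψ, -, hψc⟩ := Pool.Agent.H236.MO.exists_psi hexp ⊥ c (by rwa [Subgroup.mem_bot])
    have hψ2 : ∀ g, ψ g * ψ g = 1 := fun g => by rw [← map_mul, hexp, map_one]
    have hr : RamR ψ s₁ := ⟨ι, c, hι, hc, hψc⟩
    obtain ⟨N0, hN0, hR0⟩ := Pool.Agent.Q280.AR.rF K L
    have hN' : N * N0 ≠ 0 := mul_ne_zero hN hN0
    have hNb' : ((N * N0 : ℕ) : 𝓞 K) ∈ 𝔟 := by
      rw [Nat.cast_mul]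
      exact 𝔟.mul_mem_right _ hNb
    have hR : Ram K L (N * N0) := Ram_mono (dvd_mul_left N0 _) hR0
    have hfrob' : ∀ v : HeightOneSpectrum (𝓞 K), ((N * N0 : ℕ) : 𝓞 K) ∉ v.asIdeal →
        FrobAt v (a v.asIdeal) := by
      intro v hv
      refine hfrob v fun h1 => hv ?_
      rw [Nat.cast_mul]
      exact v.asIdeal.mul_mem_right _ h1
    generalize N * N0 = M at hN' hNb' hR hfrob'
    obtain ⟨x, hx1, hx2, hx3, hx4⟩ := Pool.Agent.H996.BT.lsr Pool.Agent.H389.BT.recd K L ψ hψ2 s₁ hr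
      M hN'
    have hxu : ∀ u : HeightOneSpectrum (𝓞 K), (M : 𝓞 K) ∈ u.asIdeal → u.valuation K (x : K) = 1 :=
      fun u hu => Pool.Agent.Q92.AR.val_eq_one hu (hx1 u hu)
    obtain ⟨t, α, ht0, ht1, hα⟩ := Pool.Agent.H236.MO.exists_den M (x : K) hxu hN'
    have htK : (t : K) ≠ 0 := by exact_mod_cast ht0
    have hα0 : α ≠ 0 := by
      rintro rfl
      have h1 : (t : K) * x = 0 := by
        rw [← hα]
        simp
      exact mul_ne_zero htK x.ne_zero h1
    have htd : (M : 𝓞 K) ∣ (t : 𝓞 K) - 1 := by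
      have h1 : (M : ℤ) ∣ (t : ℤ) - 1 := by
        have h2 := (Nat.modEq_iff_dvd.1 ht1.symm)
        simpa using h2
      obtain ⟨k, hk⟩ := h1
      refine ⟨(k : 𝓞 K), ?_⟩
      have h3 := congrArg (fun z : ℤ => (z : 𝓞 K)) hk
      push_cast at h3
      exact h3
    have hαd : (M : 𝓞 K) ∣ α - 1 := by
      apply dvd_of_val hN'
      intro u hu
      have e : ((α - 1 : 𝓞 K) : K) = (t : K) * ((x : K) - 1) + (((t : 𝓞 K) - 1 : 𝓞 K) : K) := by
        have e1 : algebraMap (𝓞 K) K α = (t : K) * (x : K) := hα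
        show algebraMap (𝓞 K) K (α - 1) = (t : K) * ((x : K) - 1) + algebraMap (𝓞 K) K ((t : 𝓞 K) - 1)
        rw [map_sub, map_sub, map_one, map_natCast, e1]
        ring
      rw [e]
      refine (Valuation.map_add _ _ _).trans (max_le ?_ ?_)
      · rw [map_mul]
        exact (mul_le_of_le_one_left' Pool.Agent.H236.MO.val_nat_le).trans (hx1 u hu)
      · obtain ⟨k, hk⟩ := htd
        rw [hk]
        push_cast
        rw [map_mul]
        exact mul_le_of_le_one_right' (u.valuation_le_one (K := K) k)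
    have hαb : α - 1 ∈ 𝔟 := 𝔟.mem_of_dvd hαd hNb'
    have htb : (t : 𝓞 K) - 1 ∈ 𝔟 := 𝔟.mem_of_dvd htd hNb'
    have ht0' : (t : 𝓞 K) ≠ 0 := by exact_mod_cast ht0
    have hcop : ∀ β : 𝓞 K, (M : 𝓞 K) ∣ β - 1 → ∀ v : HeightOneSpectrum (𝓞 K),
        (M : 𝓞 K) ∈ v.asIdeal → β ∉ v.asIdeal := by
      intro β hβ v hv hβv
      apply v.isPrime.ne_top
      rw [Ideal.eq_top_iff_one]
      have h2 : (1 : 𝓞 K) = β - (β - 1) := by ring
      rw [h2]
      exact v.asIdeal.sub_mem hβv (v.asIdeal.mem_of_dvd hβ hv)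
    have htpos : (0 : ℝ) < t := by exact_mod_cast Nat.pos_of_ne_zero ht0
    have hσx : 0 < σ (x : K) := hx3 σ hne.symm
    have ha1 : a (Ideal.span {α}) = 1 := h.ray α hαb (by
      rw [hα, map_mul, map_natCast]
      exact mul_pos htpos hσx)
    have ha2 : a (Ideal.span {(t : 𝓞 K)}) = 1 := h.ray _ htb (by
      push_cast
      rw [map_natCast]
      exact htpos)
    have hαK : (α : K) ≠ 0 := by
      rw [hα]
      exact mul_ne_zero htK x.ne_zero
    have e1 := art_eq h ψ hR hNb' hfrob' α hα0 (Units.mk0 (α : K) hαK) rfl (hcop α hαd)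
    have e2 := art_eq h ψ hR hNb' hfrob' (t : 𝓞 K) ht0' (Units.mk0 (t : K) htK) (by simp)
      (hcop _ htd)
    have e3 : x = Units.mk0 (α : K) hαK / Units.mk0 (t : K) htK := by
      apply Units.ext
      rw [Units.val_div_eq_div_val, Units.val_mk0, Units.val_mk0, hα]
      field_simp
    apply hx4
    rw [e3, prin_div, map_sub, e1, e2, ha1, ha2, map_one, sub_self]

end Pool.Agent.H548.MO
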