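import Pool.Agent.H509.MO.Stm
import Pool.Graph.R_pool_sql_team_seeded_3997aac3.Q176.SG.XF

/-!
# Project MO, third part: existence of the ray class field of an order if its ray class group has exponent
two, and so the monoid Stark conjecture for it

The existence theorem of class field theory is in the library: `Pool.Agent.Q20.EX.all_EXI` and
`Pool.Agent.Q176.SG.xf : Pool.Agent.Q5.SG.S_XF`.
-/

set_option autoImplicit false
set_option linter.unusedSectionVars false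

open NumberField IsDedekindDomain

noncomputable section

namespace Pool.Agent.MO

open Pool.Agent.W206.MS (OL IsOrder IsInv InMonoid InJ InP Loc nn Pair sm Good REq Rel cnt IsZ idx contr
  IsRealPrime IsRayClassField InducesIso CondI CondII CondIII CondIV)
open Pool.Agent.N598.ST (Place Unram IsArtin IsZeta AbRoot TotallySplit PrimeTo)
open Pool.Agent.N820.RS (IsModulus)
open Pool.Agent.Q92.AR (Dv prin Pr Ray art Pos Cong frob Unramified Ram)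

/-- Ray class data with values in a group: `A` is multiplicative on the ideals prime to `𝔟`, kills the `(x)` with
`x ≡ 1 mod 𝔟`, `σ x > 0`, and is onto. -/
structure RG {K : Type} [Field K] [NumberField K] {G : Type} [Group G] (σ : K →+* ℝ)
    (𝔟 : Ideal (𝓞 K)) (A : Ideal (𝓞 K) → G) : Prop where
  one : A ⊤ = 1
  mul : ∀ I J : Ideal (𝓞 K), I ⊔ 𝔟 = ⊤ → J ⊔ 𝔟 = ⊤ → A (I * J) = A I * A J
  ray : ∀ x : 𝓞 K, x - 1 ∈ 𝔟 → 0 < σ (x : K) → A (Ideal.span {x}) = 1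
  surj : ∀ g, ∃ I : Ideal (𝓞 K), I ⊔ 𝔟 = ⊤ ∧ A I = g

/-- `g` is a Frobenius element at all primes of `L` above `v`. -/
def FrobAt {K L : Type} [Field K] [NumberField K] [Field L] [NumberField L] [Algebra K L]
    (v : HeightOneSpectrum (𝓞 K)) (g : Gal(L/K)) : Prop :=
  ∀ w : HeightOneSpectrum (𝓞 L), w.asIdeal.LiesOver v.asIdeal → ∀ x y : 𝓞 L,
    (y : L) = g (x : L) - (x : L) ^ Ideal.absNorm v.asIdeal → y ∈ w.asIdeal

/-- GRP. The ray class group of an order as a group.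
Proof.  The `a` with `InJ O m a` form a commutative group (unit `OL O`; the inverse of `a` with `a * a₂ = a₁` is
`a₂ * a₁⁻¹`, where `a₁ = a * a₂` is invertible), those with `InP O m σ a` a subgroup (`one_mod_mul`, `one_mod_inv` in
`W206/MS`); `G` is the quotient, `A a` the class of `a` if `InJ O m a`, else `1`. -/
def S_GRP : Prop := ∀ (K : Type) [Field K] [NumberField K] (σ : K →+* ℝ) (O : Subalgebra ℤ K)
  (m : Submodule ℤ K), IsOrder O → Pool.Agent.W206.MS.IsModulus O m →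
  ∃ (G : Type) (_ : CommGroup G) (A : Submodule ℤ K → G), InducesIso σ O m A

/-- RGX. Proof: as `S_RCX` (`one`, `mul`, `ray`, `surj`), see the proof of `S_RCX` by helper870
(`helper509_MO_RCX_done.lean`). -/
def S_RGX : Prop := S_DIC → S_GD → ∀ (K : Type) [Field K] [NumberField K] (σ : K →+* ℝ)
  (O : Subalgebra ℤ K) (m b : Submodule ℤ K), Pair O (OK K) m b → ∀ 𝔟 : Ideal (𝓞 K), sub 𝔟 = b →
  ∀ (G : Type) [CommGroup G] (A : Submodule ℤ K → G), InducesIso σ O m A → RG σ 𝔟 (aO O A)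

/-- DVH. The homomorphism on divisors.
Proof.  `A'` is `Finsupp.liftAddHom` (`zmultiplesHom`, compare `art` in `Q92/AR/Def.lean`) with the value `A v` at `v`
(`0` if `𝔟 ≤ v`).  For `y ∈ 𝓞 K`, `y ≠ 0`, prime to `𝔟`: `A' (prin y) = A (span {y})` by the prime factorization.
Second clause: `x ≡ 1 mod N`, `N = absNorm 𝔟`, totally positive; the ideal of the `z ∈ 𝓞 K` with `z x ∈ 𝓞 K` is prime
to `N`; let `z ≡ 1 mod N` be in it, `z ≠ 0`; `y = x z²` is integral and `≡ 1 mod N` (so mod `𝔟`), `σ y > 0`, `σ z² > 0`.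
Third clause: `g⁻¹ = A I`, `I ⊔ 𝔟 = ⊤`; `S_APX` for `I`, `𝔫 = 𝔟` and the modulus `N 𝔟` gives `(x) = I B`, `A B = g`, `B` prime to
`N 𝔟`; `D` is the divisor of `B`. -/
def S_DVH : Prop := S_APX → ∀ (K : Type) [Field K] [NumberField K] (σ : K →+* ℝ) (𝔟 : Ideal (𝓞 K)),
  𝔟 ≠ ⊥ → ∀ (G : Type) [CommGroup G] (A : Ideal (𝓞 K) → G), RG σ 𝔟 A → ∃ A' : Dv K →+ Additive G,
  (∀ v : HeightOneSpectrum (𝓞 K), ¬ 𝔟 ≤ v.asIdeal →
    A' (Finsupp.single v 1) = Additive.ofMul (A v.asIdeal)) ∧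
  (∀ x ∈ Ray K (Ideal.absNorm 𝔟), A' (prin x) = 0) ∧
  ∀ N : ℕ, N ≠ 0 → ∀ g : G, ∃ D ∈ Pr K N, A' D = Additive.ofMul g

/-- ART. A Galois extension whose group maps onto `G` by the Artin map.
Proof.  `G` is finite: `A'` maps `Pr K N` onto `G` and kills `RayD K N`, which has finite index
(`Pool.Agent.Q92.AR.all_Fin`; `N = absNorm 𝔟`).  `Pool.Agent.Q176.SG.xf` (`S_XF`, for `K' = K` and `N`) gives `M`, `N'` and
for each `χ : G →* ℂˣ` a `ψ_χ` with `art ψ_χ D = χ (A' D)` for `D ∈ Pr K N'`.  For `v ∤ N'` and a Frobenius element `g` of `v`,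
`ψ_χ g = χ (A v)` for all `χ`; every `g` is a Frobenius element of such a `v` (`Pool.Agent.Q14.AR.cheb`); let `Φ g` be the
element `h` of `G` with `χ h = ψ_χ g` for all `χ` (unique, since the characters separate the elements of a
finite abelian group).  `Φ` is multiplicative, and onto since the `A' D`, `D ∈ Pr K N'`, are products of
`(A v)^(±1)`. -/
def S_ART : Prop := S_APX → S_DVH → ∀ (K : Type) [Field K] [NumberField K] (σ : K →+* ℝ)
  (𝔟 : Ideal (𝓞 K)), 𝔟 ≠ ⊥ → ∀ (G : Type) [CommGroup G] (A : Ideal (𝓞 K) → G), RG σ 𝔟 A →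
  ∃ (M : Type) (_ : Field M) (_ : NumberField M) (_ : Algebra K M) (_ : IsGalois K M)
  (Φ : (M ≃ₐ[K] M) →* G) (N : ℕ), N ≠ 0 ∧ (N : 𝓞 K) ∈ 𝔟 ∧ Ram K M N ∧ Function.Surjective Φ ∧
  ∀ v : HeightOneSpectrum (𝓞 K), (N : 𝓞 K) ∉ v.asIdeal → ∀ g : M ≃ₐ[K] M,
    Pool.Agent.Q92.AR.IsFrobenius v g → Φ g = A v.asIdeal

/-- QUO. The fixed field of the kernel of `Φ`. -/
def S_QUO : Prop := ∀ (K M : Type) [Field K] [NumberField K] [Field M] [NumberField M] [Algebra K M]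
  [IsGalois K M] (G : Type) [CommGroup G] (Φ : (M ≃ₐ[K] M) →* G), Function.Surjective Φ →
  ∃ (L : Type) (_ : Field L) (_ : NumberField L) (_ : Algebra K L) (_ : IsAbelianGalois K L)
  (θ : G ≃* Gal(L/K)), ∀ (v : HeightOneSpectrum (𝓞 K)) (g : M ≃ₐ[K] M),
    Pool.Agent.Q92.AR.IsFrobenius v g → FrobAt v (θ (Φ g))

/-- EMR. The field is real above the other real place of `K`.
Proof.  Compare the proof of `S_CONJ` by helper788 (`helper509_MO_CONJ_done.lean`).  If `s₁` does not extend to a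
real embedding of `L`, let `τ : L →+* ℂ` extend it and `c ∈ Gal(L/K)`, `τ (c x) = conj (τ x)` (`exists_conj`); `c ≠ 1`, so
`ψ c ≠ 1` for a character `ψ`, `RamR ψ s₁`; `Pool/Agent/H509/BT/LSR.lean` (`S_LSR`) gives `x = α / t`, `x ≡ 1` modulo (a
multiple of `N`, of the primes ramified in `L`, of `absNorm 𝔟`), `s₁ x < 0`, `σ x > 0`, `art ψ (prin x) ≠ 0`, `t` a positive
integer `≡ 1`.  But `art ψ (prin α) = ψ (a (α)) = 1` and the same for `t` (`RG.ray`). -/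
def S_EMR : Prop := ∀ (K L : Type) [Field K] [NumberField K] [Field L] [NumberField L] [Algebra K L]
  [IsAbelianGalois K L], (∀ g : Gal(L/K), g * g = 1) → ∀ s₁ σ : K →+* ℝ, s₁ ≠ σ →
  (∀ φ : K →+* ℝ, φ = s₁ ∨ φ = σ) → ∀ 𝔟 : Ideal (𝓞 K), 𝔟 ≠ ⊥ → ∀ a : Ideal (𝓞 K) → Gal(L/K),
  RG σ 𝔟 a → ∀ N : ℕ, N ≠ 0 → (N : 𝓞 K) ∈ 𝔟 →
  (∀ v : HeightOneSpectrum (𝓞 K), (N : 𝓞 K) ∉ v.asIdeal → FrobAt v (a v.asIdeal)) →
  ∃ σ' : L →+* ℝ, σ'.comp (algebraMap K L) = s₁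

/-- UPG. The Frobenius property at all primes not dividing `𝔟`.
Proof.  Let `𝔟' = 𝔟 * span {N}`.  `RC s₁ σ 𝔟' a` (`surj`: if `g⁻¹ = a I` then `S_APX` gives `(x) = I B`, `B` prime to `𝔟'`,
`a B = g`).  The group `D σ 𝔟' a 𝔟` is trivial (`RG.ray`), so its fixed field `FF σ 𝔟' a 𝔟` is everything; it is
unramified outside `𝔟` by `S_COND` (`𝔫 = 𝔟`).  Let `a'` be its Artin map (`S_EXA`, `S` the infinite places and the
primes dividing `𝔟`); by `S_PRIN` it is `a I` on the ideals prime to `𝔟'` and kills the `(x)`, `x ≡ 1 mod 𝔟`, `σ x > 0`.  For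
`v ∤ 𝔟`, `S_APX` gives `(x) = v B`, `B` prime to `𝔟'`: `a' v = (a' B)⁻¹` corresponds to `(a B)⁻¹ = a v`, and `a' v` is a Frobenius
element (`IsArtin`). -/
def S_UPG : Prop := S_UNT → S_COND → S_EXA → S_PRIN → S_APX → ∀ (K L : Type) [Field K] [NumberField K]
  [Field L] [NumberField L] [Algebra K L] [IsAbelianGalois K L], (∀ g : Gal(L/K), g * g = 1) →
  ∀ s₁ σ : K →+* ℝ, s₁ ≠ σ → (∀ φ : K →+* ℝ, φ = s₁ ∨ φ = σ) →
  (∃ σ' : L →+* ℝ, σ'.comp (algebraMap K L) = s₁) → ∀ 𝔟 : Ideal (𝓞 K), 𝔟 ≠ ⊥ → 𝔟 ≠ ⊤ →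
  ∀ a : Ideal (𝓞 K) → Gal(L/K), RG σ 𝔟 a → ∀ N : ℕ, N ≠ 0 → (N : 𝓞 K) ∈ 𝔟 →
  (∀ v : HeightOneSpectrum (𝓞 K), (N : 𝓞 K) ∉ v.asIdeal → FrobAt v (a v.asIdeal)) →
  RC s₁ σ 𝔟 a

/-- TRA. Transport to a subfield of the real numbers. -/
def S_TRA : Prop := ∀ (K : Type) [Field K] [NumberField K] [Algebra K ℝ] (L : Type) [Field L]
  [NumberField L] [Algebra K L] [IsAbelianGalois K L] (σ' : L →+* ℝ),
  σ'.comp (algebraMap K L) = algebraMap K ℝ → ∀ (σ : K →+* ℝ) (𝔟 : Ideal (𝓞 K))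
  (a : Ideal (𝓞 K) → Gal(L/K)), RC (algebraMap K ℝ) σ 𝔟 a →
  ∃ (H : IntermediateField K ℝ) (_ : NumberField H) (_ : IsAbelianGalois K H)
  (e : Gal(L/K) ≃* Gal(H/K)), RC (algebraMap K ℝ) σ 𝔟 (fun I => e (a I))

/-- FRB. The Frobenius property in the form of the problem.
Proof.  Let `P` be a real prime, `contr P OK = sub 𝔭` prime to `sub 𝔟`, so `𝔭 ≠ ⊥` (as `𝔟 ≠ ⊤`), `𝔭 = v`, `v ∤ 𝔟`, and `P`
contracts to a prime `w` of `𝓞 H` above `v`.  `contr P O = sub v ⊓ OL O`, `idx = absNorm` (`S_DIC`). -/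
def S_FRB : Prop := S_DIC → ∀ (K : Type) [Field K] [NumberField K] [Algebra K ℝ]
  (σ : K →+* ℝ) (O : Subalgebra ℤ K) (m : Submodule ℤ K), Pair O (OK K) m (m / OL (OK K)) →
  ∀ 𝔟 : Ideal (𝓞 K), sub 𝔟 = m / OL (OK K) →
  ∀ (H : IntermediateField K ℝ) [NumberField H] (Art : Submodule ℤ K → Gal(H/K)),
  RC (algebraMap K ℝ) σ 𝔟 (aO O Art) → ∀ P : Set ℝ, IsRealPrime P →
  contr P (OK K) ⊔ m / OL (OK K) = OL (OK K) →
  Pool.Agent.W206.MS.IsFrobenius H P (Art (contr P O)) (idx (OK K) (contr P (OK K)))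

end Pool.Agent.MO
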