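import Pool.Agent.H509.MO.Stm

/-!
# Project MO, EXA: existence of the Artin map on ideals
-/

set_option autoImplicit false
set_option linter.unusedSectionVars false

open NumberField IsDedekindDomain

noncomputable section

namespace Pool.Agent.H686.MO

open Pool.Agent.MO (S_EXA)
open Pool.Agent.N598.ST (Place Unram IsArtin PrimeTo)

section

variable (K F : Type) [Field K] [NumberField K] [Field F] [NumberField F] [Algebra K F]
  [IsAbelianGalois K F]

theorem gal_comm (a b : Gal(F/K)) : a * b = b * a := IsMulCommutative.is_comm.comm a b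

/-- a common Frobenius element for all primes above `q` -/
theorem frobs (q : HeightOneSpectrum (𝓞 K)) : ∃ φ : Gal(F/K),
    ∀ P : HeightOneSpectrum (𝓞 F), P.asIdeal.LiesOver q.asIdeal → ∀ x y : 𝓞 F,
      (y : F) = φ (x : F) - (x : F) ^ Ideal.absNorm q.asIdeal → y ∈ P.asIdeal := by
  have hG : IsGaloisGroup Gal(F/K) (𝓞 K) (𝓞 F) := inferInstance
  have hs : SMulCommClass Gal(F/K) (𝓞 K) (𝓞 F) := hG.commutes
  have hinv : Algebra.IsInvariant (𝓞 K) (𝓞 F) Gal(F/K) := hG.isInvariant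
  have hmax : q.asIdeal.IsMaximal := q.isMaximal
  obtain ⟨⟨Q, hQ1, hQ2⟩⟩ := Ideal.nonempty_primesOver (S := 𝓞 F) q.asIdeal
  have hQ0 : Q ≠ ⊥ := by
    intro h
    apply q.ne_bot
    have e := hQ2.over
    rw [h] at e
    rw [e]
    exact Ideal.under_bot _ _
  have hfin : Finite (𝓞 F ⧸ Q) := Ideal.finiteQuotientOfFreeOfNeBot Q hQ0
  obtain ⟨σ, hσ1, hσ2⟩ := IsArithFrobAt.exists_primesOver_isConj (𝓞 F) Gal(F/K) q.asIdeal
    ⟨⟨Q, hQ1, hQ2⟩, hfin⟩
  refine ⟨σ ⟨Q, hQ1, hQ2⟩, fun P hP x y hxy => ?_⟩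
  have hPP : P.asIdeal ∈ q.asIdeal.primesOver (𝓞 F) := ⟨P.isPrime, hP⟩
  obtain ⟨c, hc⟩ := isConj_iff.1 (hσ2 ⟨Q, hQ1, hQ2⟩ ⟨P.asIdeal, hPP⟩)
  have hc' : σ ⟨Q, hQ1, hQ2⟩ = σ ⟨P.asIdeal, hPP⟩ := by
    rw [← hc, gal_comm K F c, mul_assoc, mul_inv_cancel, mul_one]
  have h := hσ1 ⟨P.asIdeal, hPP⟩ x
  rw [← hc'] at h
  have h2 : P.asIdeal.under (𝓞 K) = q.asIdeal := hP.over.symm
  have h3 : σ ⟨Q, hQ1, hQ2⟩ • x - x ^ Nat.card (𝓞 K ⧸ P.asIdeal.under (𝓞 K)) ∈ P.asIdeal := h
  rw [h2, ← Submodule.cardQuot_apply, ← Ideal.absNorm_apply] at h3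
  have h4 : y = σ ⟨Q, hQ1, hQ2⟩ • x - x ^ Ideal.absNorm q.asIdeal := by
    apply RingOfIntegers.ext
    rw [hxy]
    push_cast
    rfl
  rw [h4]
  exact h3

end

theorem exa : S_EXA := by
  classical
  intro K F _ _ _ _ _ _ S _
  let _ : CommGroup Gal(F/K) :=
    { (inferInstance : Group Gal(F/K)) with mul_comm := gal_comm K F }
  let φ : Ideal (𝓞 K) → Gal(F/K) := fun Q =>
    if h : ∃ q : HeightOneSpectrum (𝓞 K), q.asIdeal = Q then (frobs K F h.choose).choose else 1
  have hφ : ∀ q : HeightOneSpectrum (𝓞 K), φ q.asIdeal = (frobs K F q).choose := by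
    intro q
    have h : ∃ q' : HeightOneSpectrum (𝓞 K), q'.asIdeal = q.asIdeal := ⟨q, rfl⟩
    have e : h.choose = q := HeightOneSpectrum.ext h.choose_spec
    simp only [φ, dif_pos h, e]
  refine ⟨fun I => ((UniqueFactorizationMonoid.normalizedFactors I).map φ).prod, ?_, ?_, ?_⟩
  · rw [← Ideal.one_eq_top, UniqueFactorizationMonoid.normalizedFactors_one, Multiset.map_zero,
      Multiset.prod_zero]
  · intro I J hI hJ
    rw [UniqueFactorizationMonoid.normalizedFactors_mul hI.1 hJ.1, Multiset.map_add,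
      Multiset.prod_add]
  · intro q _ P hP x y hxy
    have hirr : Irreducible q.asIdeal := q.irreducible
    have e : ((UniqueFactorizationMonoid.normalizedFactors q.asIdeal).map φ).prod =
        (frobs K F q).choose := by
      rw [UniqueFactorizationMonoid.normalizedFactors_irreducible hirr, normalize_eq,
        Multiset.map_singleton, Multiset.prod_singleton, hφ]
    refine (frobs K F q).choose_spec P hP x y ?_
    rw [hxy]
    simp only [e]

end Pool.Agent.H686.MO
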