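import Pool.Agent.H509.MO.Stm

/-!
# FINA: the zeta function of a class of the order
-/

set_option autoImplicit false
set_option linter.unusedSectionVars false

open NumberField IsDedekindDomain

noncomputable section

namespace Pool.Agent.H97.MO

open Pool.Agent.MO
open Pool.Agent.W206.MS (OL IsOrder IsInv InMonoid InJ InP Loc nn Pair sm Good REq Rel cnt IsZ idx contr
  IsRealPrime IsFrobenius IsRayClassField InducesIso CondI CondII CondIII CondIV)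

section cofactors

variable {K : Type} [Field K] [NumberField K]

theorem cof_mul {𝔟 𝔫 : Ideal (𝓞 K)} (h : 𝔟 ≤ 𝔫) : 𝔫 * cof 𝔟 𝔫 = 𝔟 := by
  have h1 : 𝔫 ∣ 𝔟 := Ideal.dvd_iff_le.2 h
  unfold cof
  rw [dif_pos h1]
  exact h1.choose_spec.symm

theorem cof_ne {𝔟 𝔫 : Ideal (𝓞 K)} (hb : 𝔟 ≠ ⊥) (h : 𝔟 ≤ 𝔫) : cof 𝔟 𝔫 ≠ ⊥ := by
  intro h0
  apply hb
  rw [← cof_mul h, h0, Ideal.mul_bot]

theorem cof_sup {𝔟 𝔫 I : Ideal (𝓞 K)} (h : 𝔟 ≤ 𝔫) (hI : I ⊔ 𝔫 = ⊤) :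
    cof 𝔟 𝔫 * I ⊔ 𝔟 = cof 𝔟 𝔫 := by
  conv_lhs => rw [← cof_mul h, mul_comm 𝔫 (cof 𝔟 𝔫)]
  have h1 : cof 𝔟 (𝔫) * I ⊔ cof 𝔟 𝔫 * 𝔫 = cof 𝔟 𝔫 * (I ⊔ 𝔫) := (Ideal.mul_sup _ _ _).symm
  rw [mul_comm (cof 𝔟 𝔫) 𝔫, cof_mul h] at h1 ⊢
  rw [h1, hI, Ideal.mul_top]

theorem cof_inj {𝔟 𝔫 𝔫' : Ideal (𝓞 K)} (hb : 𝔟 ≠ ⊥) (h : 𝔟 ≤ 𝔫) (h' : 𝔟 ≤ 𝔫')
    (e : cof 𝔟 𝔫 = cof 𝔟 𝔫') : 𝔫 = 𝔫' := by
  have h1 : 𝔫 * cof 𝔟 𝔫 = 𝔫' * cof 𝔟 𝔫 := by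
    rw [cof_mul h, e, cof_mul h']
  exact mul_right_cancel₀ (cof_ne hb h) h1

theorem exists_level {𝔟 I : Ideal (𝓞 K)} (hb : 𝔟 ≠ ⊥) (hI : I ≠ ⊥) :
    ∃ 𝔫, 𝔟 ≤ 𝔫 ∧ ∃ I', I' ≠ ⊥ ∧ I' ⊔ 𝔫 = ⊤ ∧ I = cof 𝔟 𝔫 * I' := by
  have h1 : (I ⊔ 𝔟) ∣ 𝔟 := Ideal.dvd_iff_le.2 le_sup_right
  obtain ⟨𝔫, h𝔫⟩ := h1
  have h2 : 𝔟 ≤ 𝔫 := by
    apply Ideal.dvd_iff_le.1
    exact ⟨I ⊔ 𝔟, by rw [mul_comm]; exact h𝔫⟩
  have hn0 : 𝔫 ≠ ⊥ := by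
    intro h0
    apply hb
    rw [h𝔫, h0, Ideal.mul_bot]
  have h3 : cof 𝔟 𝔫 = I ⊔ 𝔟 := by
    apply mul_left_cancel₀ hn0
    rw [cof_mul h2, mul_comm]
    exact h𝔫
  obtain ⟨I', hI'⟩ : (I ⊔ 𝔟) ∣ I := Ideal.dvd_iff_le.2 le_sup_left
  refine ⟨𝔫, h2, I', ?_, ?_, ?_⟩
  · intro h0
    apply hI
    rw [hI', h0, Ideal.mul_bot]
  · have hd : (I ⊔ 𝔟) ≠ ⊥ := by
      intro h0
      apply hb
      rw [eq_bot_iff, ← h0]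
      exact le_sup_right
    apply mul_left_cancel₀ hd
    rw [Ideal.mul_top, Ideal.mul_sup, ← hI', ← h𝔫]
  · rw [h3]
    exact hI'

end cofactors

open Classical in
/-- The sum over the ideals is the sum over the levels. -/
theorem hasSum_levels {K : Type} [Field K] [NumberField K] {𝔟 : Ideal (𝓞 K)} (hb : 𝔟 ≠ ⊥)
    [Fintype {𝔫 : Ideal (𝓞 K) // 𝔟 ≤ 𝔫}] (f : Ideal (𝓞 K) → ℂ) (f0 : f ⊥ = 0)
    (A : {𝔫 : Ideal (𝓞 K) // 𝔟 ≤ 𝔫} → ℂ)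
    (h : ∀ 𝔫 : {𝔫 : Ideal (𝓞 K) // 𝔟 ≤ 𝔫}, HasSum (fun I : Ideal (𝓞 K) =>
      if I ≠ ⊥ ∧ I ⊔ 𝔫.1 = ⊤ then f (cof 𝔟 𝔫.1 * I) else 0) (A 𝔫)) :
    HasSum f (∑ 𝔫, A 𝔫) := by
  let g : {𝔫 : Ideal (𝓞 K) // 𝔟 ≤ 𝔫} → Ideal (𝓞 K) → ℂ := fun 𝔫 I =>
    if ∃ I', I' ≠ ⊥ ∧ I' ⊔ 𝔫.1 = ⊤ ∧ I = cof 𝔟 𝔫.1 * I' then f I else 0
  have hg : ∀ 𝔫, HasSum (g 𝔫) (A 𝔫) := by
    intro 𝔫
    have hinj : Function.Injective fun I : Ideal (𝓞 K) => cof 𝔟 𝔫.1 * I := fun I J hIJ =>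
      mul_left_cancel₀ (cof_ne hb 𝔫.2) hIJ
    rw [← hinj.hasSum_iff]
    · have h1 : (g 𝔫 ∘ fun I : Ideal (𝓞 K) => cof 𝔟 𝔫.1 * I) = fun I : Ideal (𝓞 K) =>
          if I ≠ ⊥ ∧ I ⊔ 𝔫.1 = ⊤ then f (cof 𝔟 𝔫.1 * I) else 0 := by
        funext I
        by_cases h2 : I ≠ ⊥ ∧ I ⊔ 𝔫.1 = ⊤
        · rw [if_pos h2]
          exact if_pos ⟨I, h2.1, h2.2, rfl⟩
        · rw [if_neg h2]
          refine if_neg ?_
          rintro ⟨I', h3, h4, h5⟩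
          have h6 : I = I' := mul_left_cancel₀ (cof_ne hb 𝔫.2) h5
          rw [h6] at h2
          exact h2 ⟨h3, h4⟩
      rw [h1]
      exact h 𝔫
    · intro I hI
      have h1 : ¬ ∃ I', I' ≠ ⊥ ∧ I' ⊔ 𝔫.1 = ⊤ ∧ I = cof 𝔟 𝔫.1 * I' := by
        rintro ⟨I', -, -, h2⟩
        exact hI ⟨I', h2.symm⟩
      exact if_neg h1
  have hsum := hasSum_sum (s := Finset.univ) fun 𝔫 _ => hg 𝔫
  have e : f = fun I => ∑ 𝔫, g 𝔫 I := by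
    funext I
    by_cases hI : I = ⊥
    · rw [hI, f0]
      symm
      refine Finset.sum_eq_zero fun 𝔫 _ => ?_
      change (if _ then f ⊥ else 0) = 0
      rw [f0]
      exact ite_self 0
    · obtain ⟨𝔫, h1, I', h2, h3, h4⟩ := exists_level hb hI
      symm
      rw [Finset.sum_eq_single (⟨𝔫, h1⟩ : {𝔫 : Ideal (𝓞 K) // 𝔟 ≤ 𝔫})]
      · exact if_pos ⟨I', h2, h3, h4⟩
      · intro 𝔫' _ hne
        have h5 : ¬ ∃ J, J ≠ ⊥ ∧ J ⊔ 𝔫'.1 = ⊤ ∧ I = cof 𝔟 𝔫'.1 * J := by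
          rintro ⟨J, -, h6, h7⟩
          apply hne
          apply Subtype.ext
          refine cof_inj hb 𝔫'.2 h1 ?_
          rw [← cof_sup 𝔫'.2 h6, ← h7, h4, cof_sup h1 h3]
        exact if_neg h5
      · intro hno
        exact absurd (Finset.mem_univ _) hno
  rw [e]
  exact hsum

theorem pow_absNorm_mul {K : Type} [Field K] [NumberField K] (I J : Ideal (𝓞 K)) (s : ℂ) :
    (Ideal.absNorm (I * J) : ℂ) ^ (-s) = (Ideal.absNorm I : ℂ) ^ (-s) *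
      (Ideal.absNorm J : ℂ) ^ (-s) := by
  rw [map_mul, Nat.cast_mul, Complex.natCast_mul_natCast_cpow]

open Classical in
theorem fina : S_FINA := by
  intro hDIC hGD hCNT K _ _ _ σ O m b P 𝔟 h𝔟 H _ _ h2 Art hIso hRC ρ₀ hρ hρσ _ L hCls x hx
  have hb0 : 𝔟 ≠ ⊥ := hRC.ne_bot
  obtain ⟨D1, D2, D3, D4, D5, D6, D7, D8, D9⟩ := hDIC K
  obtain ⟨G1, G2, G3, G4⟩ := hGD hDIC K O m b P 𝔟 h𝔟
  -- the element `ρ₀`
  have hρb : (ρ₀ : K) + 1 ∈ b := by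
    rw [← h𝔟, D1]
    exact ⟨ρ₀ + 1, hρ, by push_cast; rfl⟩
  have hρm : (ρ₀ : K) + 1 ∈ m := P.bm hρb
  have hρO : (ρ₀ : K) ∈ O := by
    have h1 := O.sub_mem (P.mM.le _ hρm) O.one_mem
    rwa [add_sub_cancel_right] at h1
  have hρ0 : (ρ₀ : K) ≠ 0 := by
    intro h0
    rw [h0, map_zero] at hρσ
    exact lt_irrefl _ hρσ
  -- the ideal of `ρ₀`
  have hcop : Ideal.span {ρ₀} ⊔ 𝔟 = ⊤ := by
    rw [Ideal.eq_top_iff_one]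
    have h1 : (1 : 𝓞 K) = (-1) * ρ₀ + (ρ₀ + 1) := by ring
    rw [h1]
    exact Submodule.add_mem_sup (Ideal.mul_mem_left _ _ (Ideal.mem_span_singleton_self _)) hρ
  have hb₀ : sub (Ideal.span {ρ₀}) ⊓ OL O = sm (ρ₀ : K) (OL O) := by
    have h1 := (G3 (-ρ₀) (by
      have h2 : -ρ₀ - 1 = -(ρ₀ + 1) := by ring
      rw [h2]
      exact 𝔟.neg_mem hρ)).2
    have h3 : Ideal.span {-ρ₀} = Ideal.span {ρ₀} := by
      rw [Ideal.span_singleton_neg]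
    rw [h3] at h1
    rw [h1]
    ext z
    rw [Pool.Agent.W206.MS.mem_sm, Pool.Agent.W206.MS.mem_sm]
    constructor
    · rintro ⟨w, hw, rfl⟩
      exact ⟨-w, (OL O).neg_mem hw, by push_cast; ring⟩
    · rintro ⟨w, hw, rfl⟩
      exact ⟨-w, (OL O).neg_mem hw, by push_cast; ring⟩
  have hJ : InJ O m (sub (Ideal.span {ρ₀}) ⊓ OL O) :=
    ((G1 _ hcop).2.1.mono P.bm).inJ P.mM
  -- the lattice `y`
  obtain ⟨y, hy⟩ : ∃ y, y = sm (ρ₀ : K) x := ⟨_, rfl⟩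
  have hyx : (sub (Ideal.span {ρ₀}) ⊓ OL O) * x = y := by
    rw [hb₀, Pool.Agent.W206.MS.sm_mul, hx.1.stable, hy]
  have hyM : InMonoid O m y := by
    rw [hy]
    refine ⟨hx.1.sm hρ0, ?_⟩
    intro z hz
    obtain ⟨w, hw, rfl⟩ := Pool.Agent.W206.MS.mem_sm.1 hz
    exact Pool.Agent.W206.MS.loc_mul P.mM Pool.Agent.W206.MS.OL_stable
      (Pool.Agent.W206.MS.loc_of_mem P.mM hρO) (hx.2 hw)
  -- the numbers `Cn` of `y`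
  have hCy : ∀ (𝔫 : {𝔫 : Ideal (𝓞 K) // 𝔟 ≤ 𝔫}) (ρ : (L 𝔫).G'),
      Cn O m (L 𝔫) y ρ = Cn O m (L 𝔫) x ((L 𝔫).res (aO O Art (Ideal.span {ρ₀})) * ρ) := by
    intro 𝔫 ρ
    have h1 := (hCls 𝔫).eqv _ hJ x hx ((L 𝔫).res (aO O Art (Ideal.span {ρ₀})) * ρ)
    rw [hyx] at h1
    have h3 : (L 𝔫).res (Art (sub (Ideal.span {ρ₀}) ⊓ OL O)) *
        ((L 𝔫).res (aO O Art (Ideal.span {ρ₀})) * ρ) = ρ := by
      have h4 : (L 𝔫).res (aO O Art (Ideal.span {ρ₀})) *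
          (L 𝔫).res (aO O Art (Ideal.span {ρ₀})) = 1 := by
        rw [← map_mul, h2, map_one]
      have h5 : (L 𝔫).res (Art (sub (Ideal.span {ρ₀}) ⊓ OL O)) =
        (L 𝔫).res (aO O Art (Ideal.span {ρ₀})) := rfl
      rw [h5, ← mul_assoc, h4, one_mul]
    rw [h3] at h1
    exact h1
  refine ⟨⟨(ρ₀ : K), hρO, hρm, hρσ, fun s hs => ?_⟩, ?_⟩
  · have hsum : HasSum (fun I : Ideal (𝓞 K) =>
        if I = ⊥ then 0 else ((nn O (OK K) m σ (sub I) x : ℂ) - (nn O (OK K) m σ (sub I) y : ℂ)) *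
          (Ideal.absNorm I : ℂ) ^ (-s))
        (∑ 𝔫, ∑ ρ, (Cn O m (L 𝔫) x ρ : ℂ) *
          ((Ideal.absNorm (cof 𝔟 𝔫.1) : ℂ) ^ (-s) * (L 𝔫).Zd ρ s)) := by
      refine hasSum_levels hb0 _ (if_pos rfl) _ fun 𝔫 => ?_
      have h1 := hasSum_sum (s := Finset.univ) fun ρ _ =>
        (((L 𝔫).sum ρ s hs).mul_left ((Ideal.absNorm (cof 𝔟 𝔫.1) : ℂ) ^ (-s))).mul_left
          (Cn O m (L 𝔫) x ρ : ℂ)
      have h3 : (fun I : Ideal (𝓞 K) => if I ≠ ⊥ ∧ I ⊔ 𝔫.1 = ⊤ then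
          (if cof 𝔟 𝔫.1 * I = ⊥ then 0 else
            ((nn O (OK K) m σ (sub (cof 𝔟 𝔫.1 * I)) x : ℂ) -
              (nn O (OK K) m σ (sub (cof 𝔟 𝔫.1 * I)) y : ℂ)) *
            (Ideal.absNorm (cof 𝔟 𝔫.1 * I) : ℂ) ^ (-s)) else 0) = fun I : Ideal (𝓞 K) =>
          ∑ ρ, (Cn O m (L 𝔫) x ρ : ℂ) * ((Ideal.absNorm (cof 𝔟 𝔫.1) : ℂ) ^ (-s) *
            (if I ≠ ⊥ ∧ I ⊔ 𝔫.1 = ⊤ then ((if (L 𝔫).a' I = ρ then (1 : ℂ) else 0) -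
              (if (L 𝔫).a' I = ρ * (L 𝔫).res (aO O Art (Ideal.span {ρ₀})) then 1 else 0)) *
              (Ideal.absNorm I : ℂ) ^ (-s) else 0)) := by
        funext I
        by_cases hI : I ≠ ⊥ ∧ I ⊔ 𝔫.1 = ⊤
        · simp only [if_pos hI]
          have h4 : cof 𝔟 𝔫.1 * I ≠ ⊥ := mul_ne_zero (cof_ne hb0 𝔫.2) hI.1
          rw [if_neg h4, (hCls 𝔫).cls I hI.1 hI.2 x hx, (hCls 𝔫).cls I hI.1 hI.2 y hyM, hCy,
            pow_absNorm_mul]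
          -- the sum over `ρ`
          have h5 : ∑ ρ, (Cn O m (L 𝔫) x ρ : ℂ) *
              ((if (L 𝔫).a' I = ρ then (1 : ℂ) else 0) -
              (if (L 𝔫).a' I = ρ * (L 𝔫).res (aO O Art (Ideal.span {ρ₀})) then 1 else 0)) =
              (Cn O m (L 𝔫) x ((L 𝔫).a' I) : ℂ) - (Cn O m (L 𝔫) x
                ((L 𝔫).res (aO O Art (Ideal.span {ρ₀})) * (L 𝔫).a' I) : ℂ) := by
            have h6 : ∀ ρ, ((L 𝔫).a' I = ρ * (L 𝔫).res (aO O Art (Ideal.span {ρ₀}))) ↔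
                ((L 𝔫).res (aO O Art (Ideal.span {ρ₀})) * (L 𝔫).a' I = ρ) := by
              intro ρ
              have h4 : (L 𝔫).res (aO O Art (Ideal.span {ρ₀})) *
                  (L 𝔫).res (aO O Art (Ideal.span {ρ₀})) = 1 := by
                rw [← map_mul, h2, map_one]
              constructor
              · intro h7
                rw [h7, mul_comm ρ, ← mul_assoc, h4, one_mul]
              · intro h7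
                rw [← h7, mul_comm, ← mul_assoc, h4, one_mul]
            simp only [h6, mul_sub, mul_ite, mul_one, mul_zero, Finset.sum_sub_distrib,
              Finset.sum_ite_eq, Finset.mem_univ, if_true]
          rw [← h5, Finset.sum_mul]
          refine Finset.sum_congr rfl fun ρ _ => ?_
          ring
        · simp only [if_neg hI, mul_zero, Finset.sum_const_zero]
      rw [h3]
      exact h1
    have h1 := hCNT hDIC K σ O m b P x y hx hyM s _ hsum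
    rw [hy] at h1
    exact h1
  · refine DifferentiableOn.fun_sum fun 𝔫 _ => DifferentiableOn.fun_sum fun ρ _ => ?_
    refine DifferentiableOn.const_mul ?_ _
    refine DifferentiableOn.mul ?_ ((L 𝔫).hol ρ)
    have h1 : (Ideal.absNorm (cof 𝔟 𝔫.1) : ℂ) ≠ 0 := by
      rw [Nat.cast_ne_zero, Ne, Ideal.absNorm_eq_zero_iff]
      exact cof_ne hb0 𝔫.2
    intro s _
    exact ((differentiableAt_id.neg).const_cpow (Or.inl h1)).differentiableWithinAt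

end Pool.Agent.H97.MO
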