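import Pool.Agent.H509.MO.EStm

/-!
# Project MO, task FRB: the Frobenius property in the form of the problem (helper390)
-/

set_option autoImplicit false

open NumberField IsDedekindDomain

noncomputable section

namespace Pool.Agent.H390.MO

open Pool.Agent.MO
open Pool.Agent.W206.MS (OL IsOrder IsInv InMonoid InJ InP Loc nn Pair sm Good REq Rel cnt IsZ idx contr
  IsRealPrime IsFrobenius IsRayClassField InducesIso mem_contr one_mem_OL)

/-- the contraction of a prime ideal of the ring of real algebraic integers -/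
def ctr {L : Type} [Field L] [NumberField L] (f : L →+* ℝ) {P : Set ℝ} (hP : IsRealPrime P) :
    Ideal (𝓞 L) where
  carrier := {z | (f.comp (algebraMap (𝓞 L) L)) z ∈ P}
  zero_mem' := by
    show (f.comp (algebraMap (𝓞 L) L)) 0 ∈ P
    rw [map_zero]
    exact hP.2.1
  add_mem' := by
    intro a b ha hb
    show (f.comp (algebraMap (𝓞 L) L)) (a + b) ∈ P
    rw [map_add]
    exact hP.2.2.1 _ ha _ hb
  smul_mem' := by
    intro c a ha
    show (f.comp (algebraMap (𝓞 L) L)) (c * a) ∈ P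
    rw [map_mul]
    exact hP.2.2.2.1 _ _ ((RingOfIntegers.isIntegral_coe c).map f.toIntAlgHom) ha

theorem mem_ctr {L : Type} [Field L] [NumberField L] (f : L →+* ℝ) {P : Set ℝ}
    (hP : IsRealPrime P) (z : 𝓞 L) : z ∈ ctr f hP ↔ (f.comp (algebraMap (𝓞 L) L)) z ∈ P := Iff.rfl

theorem ctr_prime {L : Type} [Field L] [NumberField L] (f : L →+* ℝ) {P : Set ℝ}
    (hP : IsRealPrime P) : (ctr f hP).IsPrime := by
  constructor
  · intro h
    have h1 : (1 : 𝓞 L) ∈ ctr f hP := by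
      rw [h]
      exact Submodule.mem_top
    rw [mem_ctr, map_one] at h1
    exact hP.2.2.2.2.1 h1
  · intro x y hxy
    rw [mem_ctr, map_mul] at hxy
    exact hP.2.2.2.2.2 _ _ ((RingOfIntegers.isIntegral_coe x).map f.toIntAlgHom)
      ((RingOfIntegers.isIntegral_coe y).map f.toIntAlgHom) hxy

theorem frb : S_FRB := by
  intro hD K _ _ _ σ O m hPair 𝔟 hb H _ Art hRC P hP hcop x hx
  obtain ⟨hmem, -, htop, hinj, hsup, -, -, -, hidx⟩ := id (hD K)
  have hle : O ≤ OK K := hPair.le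
  -- the primes of `K` and of `H`
  have hpp : (ctr (algebraMap K ℝ) hP).IsPrime := ctr_prime _ hP
  have hwp : (ctr (algebraMap H ℝ) hP).IsPrime := ctr_prime _ hP
  have hc1 : contr P (OK K) = sub (ctr (algebraMap K ℝ) hP) := by
    ext z
    rw [mem_contr hP, hmem]
    constructor
    · rintro ⟨h3, h4⟩
      exact ⟨⟨z, h3⟩, h4, rfl⟩
    · rintro ⟨z', h3, rfl⟩
      exact ⟨z'.2, h3⟩
  have hc2 : contr P O = sub (ctr (algebraMap K ℝ) hP) ⊓ OL O := by
    ext z
    rw [mem_contr hP, Submodule.mem_inf, hmem]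
    constructor
    · rintro ⟨h3, h4⟩
      exact ⟨⟨⟨z, hle h3⟩, h4, rfl⟩, h3⟩
    · rintro ⟨⟨z', h3, rfl⟩, h4⟩
      exact ⟨h4, h3⟩
  have hcp : ctr (algebraMap K ℝ) hP ⊔ 𝔟 = ⊤ := by
    rw [eq_top_iff, ← hinj, hsup, hb, ← hc1, hcop, htop]
  have hpb : ctr (algebraMap K ℝ) hP ≠ ⊥ := by
    intro h
    rw [h, bot_sup_eq] at hcp
    exact hRC.ne_top hcp
  have hlie : (ctr (algebraMap H ℝ) hP).LiesOver (ctr (algebraMap K ℝ) hP) := ⟨rfl⟩
  have hwb : ctr (algebraMap H ℝ) hP ≠ ⊥ := by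
    obtain ⟨z, hz, hz0⟩ := Submodule.exists_mem_ne_zero_of_ne_bot hpb
    intro h
    have h1 : algebraMap (𝓞 K) (𝓞 H) z ∈ ctr (algebraMap H ℝ) hP := hz
    rw [h, Ideal.mem_bot] at h1
    exact hz0 ((FaithfulSMul.algebraMap_injective (𝓞 K) (𝓞 H)) (h1.trans (map_zero _).symm))
  have hv : ¬ 𝔟 ≤ ctr (algebraMap K ℝ) hP := by
    intro h
    rw [sup_eq_left.2 h] at hcp
    exact hpp.ne_top hcp
  have hxi : IsIntegral ℤ x := by
    have h1 : IsIntegral ℤ (algebraMap H ℝ x) := hx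
    exact (isIntegral_algebraMap_iff (algebraMap H ℝ).injective).1 h1
  have hgi : IsIntegral ℤ ((aO O Art (ctr (algebraMap K ℝ) hP) : Gal(H/K)) x -
      x ^ Ideal.absNorm (ctr (algebraMap K ℝ) hP)) :=
    (hxi.map ((aO O Art (ctr (algebraMap K ℝ) hP) : Gal(H/K)) : H →+* H).toIntAlgHom).sub
      (hxi.pow _)
  have key := hRC.frob ⟨ctr (algebraMap K ℝ) hP, hpp, hpb⟩ hv ⟨ctr (algebraMap H ℝ) hP, hwp, hwb⟩
    hlie ⟨x, hxi⟩ ⟨_, hgi⟩ rfl
  have h5 : idx (OK K) (contr P (OK K)) = Ideal.absNorm (ctr (algebraMap K ℝ) hP) := by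
    rw [hc1]
    exact hidx _
  rw [hc2]
  have h6 : idx (integralClosure ℤ K) (contr P (integralClosure ℤ K)) =
    Ideal.absNorm (ctr (algebraMap K ℝ) hP) := h5
  rw [h6]
  exact key

end Pool.Agent.H390.MO
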