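import Pool.Agent.H509.MO.Stm

/-!
# Project MO of helper509, part GD (helper618): ideals prime to `𝔟`
-/

set_option autoImplicit false

open NumberField IsDedekindDomain

namespace Pool.Agent.H618.MO

open Pool.Agent.MO
open Pool.Agent.W206.MS (OL IsOrder IsInv Pair sm Good one_mem_OL OL_mul_OL ext_mul stable_iff
  mul_mem_sm sm_le_iff mul_sm le_ext Pair.inv_inf Pair.ext_inf Pair.ext_inj Pair.good_ext)

theorem gd : S_GD := by
  intro hDIC K _ _ O m b P 𝔟 h𝔟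
  obtain ⟨d1, d2, d3, d4, d5, d6, d7, d8, -⟩ := hDIC K
  have hone : ∀ J : Ideal (𝓞 K), (1 : K) ∈ sub J → J = ⊤ := by
    intro J hJ
    obtain ⟨y, hy, hy1⟩ := (d1 J 1).1 hJ
    have h1 : y = 1 := by
      apply RingOfIntegers.ext
      rw [hy1]
      rfl
    rw [h1] at hy
    exact (Ideal.eq_top_iff_one J).2 hy
  have hle : ∀ J : Ideal (𝓞 K), sub J ≤ OL (OK K) := by
    intro J
    rw [← d3]
    exact (d4 J ⊤).2 le_top
  have hcop : ∀ J : Ideal (𝓞 K), J ⊔ 𝔟 = ⊤ → ∃ e ∈ sub J, 1 - e ∈ b := by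
    intro J hJ
    have h1 : (1 : K) ∈ sub J ⊔ sub 𝔟 := by
      rw [← d5, hJ, d3]
      exact one_mem_OL _
    obtain ⟨e, he, z, hz, hez⟩ := Submodule.mem_sup.1 h1
    refine ⟨e, he, ?_⟩
    rw [← h𝔟, ← hez]
    simpa using hz
  have hbot : ∀ J : Ideal (𝓞 K), J ⊔ 𝔟 = ⊤ → J ≠ ⊥ := by
    rintro J hJ rfl
    rw [bot_sup_eq] at hJ
    apply P.mB.one
    rw [← h𝔟, hJ, d3]
    exact one_mem_OL _
  have c1 : ∀ J : Ideal (𝓞 K), J ⊔ 𝔟 = ⊤ → Good (OK K) b (sub J) ∧ Good O b (sub J ⊓ OL O) ∧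
      OL (OK K) * (sub J ⊓ OL O) = sub J := by
    intro J hJ
    obtain ⟨e, he, he1⟩ := hcop J hJ
    have h1 := d7 J (hbot J hJ)
    obtain ⟨h2, h3, h4⟩ := P.inv_inf h1 (hle J) he he1
    exact ⟨⟨h1, hle J, e, he, he1⟩, ⟨h2, inf_le_right, e, h4, he1⟩, h3⟩
  refine ⟨c1, ?_, ?_, ?_⟩
  · intro I J hI hJ
    have hIJ : I * J ⊔ 𝔟 = ⊤ := by
      rw [← Ideal.isCoprime_iff_sup_eq] at hI hJ ⊢
      exact hI.mul_left hJ
    obtain ⟨-, g1, e1⟩ := c1 I hI
    obtain ⟨-, g2, e2⟩ := c1 J hJ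
    obtain ⟨-, g3, e3⟩ := c1 _ hIJ
    have g4 := g1.mul P.bO g2
    obtain ⟨e, he, he'⟩ := g3.cop
    obtain ⟨f, hf, hf'⟩ := g4.cop
    refine P.ext_inj g3.inv.stable g3.le he he' g4.inv.stable g4.le hf hf' ?_
    rw [e3, ext_mul, e1, e2, d2]
  · intro x hx
    have h1 : (1 : K) - (x : K) ∈ b := by
      rw [← h𝔟, d1]
      refine ⟨1 - x, ?_, by push_cast; rfl⟩
      rw [← neg_sub]
      exact 𝔟.neg_mem hx
    have hxO : (x : K) ∈ O := P.one_sub h1
    refine ⟨hxO, ?_⟩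
    have h2 : OL (OK K) * OL O = OL (OK K) := by
      apply le_antisymm
      · rw [Submodule.mul_le]
        intro x hx y hy
        exact (OK K).mul_mem hx (P.le hy)
      · intro x hx
        have := Submodule.mul_mem_mul (show x ∈ OL (OK K) from hx) (one_mem_OL O)
        simpa using this
    have h3 : OL O * sm (x : K) (OL O) = sm (x : K) (OL O) := by
      rw [mul_sm, OL_mul_OL]
    have h4 : sm (x : K) (OL O) ≤ OL O := sm_le_iff.2 fun y hy => O.mul_mem hxO hy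
    have h5 : (x : K) ∈ sm (x : K) (OL O) := by
      have := mul_mem_sm (κ := (x : K)) (one_mem_OL O)
      rwa [mul_one] at this
    have h6 := P.ext_inf h3 h4 h5 h1
    rw [mul_sm, h2, ← d6] at h6
    exact h6
  · intro g hg
    obtain ⟨e, he, he'⟩ := hg.cop
    have h1 := P.good_ext hg
    obtain ⟨J, hJ⟩ := d8 (OL (OK K) * g) h1.inv.stable h1.le
    refine ⟨J, ?_, hJ, ?_⟩
    · apply hone
      rw [d5, hJ, h𝔟]
      have h2 : (1 : K) = e + (1 - e) := by ring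
      rw [h2]
      exact Submodule.add_mem_sup (le_ext _ _ he) he'
    · rw [hJ]
      exact P.ext_inf hg.inv.stable hg.le he he'

end Pool.Agent.H618.MO
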