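import Pool.Agent.H509.MO.Stm

/-!
# Project MO: `S_LEV`, the Stark unit of one level
-/

set_option autoImplicit false
set_option linter.unusedSectionVars false

open NumberField IsDedekindDomain

noncomputable section

namespace Pool.Agent.H79.MO

open Pool.Agent.MO
open Pool.Agent.N598.ST (Place Unram IsArtin IsZeta AbRoot TotallySplit PrimeTo)

/-- transport of `adjoin {z} = ⊤` along an isomorphism of the base fields -/
theorem adjoin_top {F₁ F₂ M : Type} [Field F₁] [Field F₂] [Field M] [Algebra F₁ M] [Algebra F₂ M]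
    (e : F₁ → F₂) (he : ∀ x, algebraMap F₁ M x = algebraMap F₂ M (e x)) (z : M)
    (h : IntermediateField.adjoin F₁ {z} = ⊤) : IntermediateField.adjoin F₂ {z} = ⊤ := by
  rw [eq_top_iff]
  intro m _
  let L : IntermediateField F₁ M :=
    (IntermediateField.adjoin F₂ {z}).toSubfield.toIntermediateField (fun c => by
      rw [he]
      exact (IntermediateField.adjoin F₂ {z}).algebraMap_mem _)
  have h1 : IntermediateField.adjoin F₁ {z} ≤ L := by
    rw [IntermediateField.adjoin_simple_le_iff]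
    exact IntermediateField.mem_adjoin_simple_self F₂ z
  have h2 : m ∈ L := h1 (by rw [h]; trivial)
  exact h2

/-- `AbRoot` is invariant under the Galois group -/
theorem abRoot_conj {K F : Type} [Field K] [NumberField K] [Field F] [NumberField F]
    [Algebra K F] {w : ℕ} {x : F} (h : AbRoot K w x) (ρ : Gal(F/K)) : AbRoot K w (ρ x) := by
  obtain ⟨M, i1, i2, i3, i4, hab, z, hz, hadj⟩ := h
  let f : F →+* M := (algebraMap F M).comp (ρ.symm : F ≃ₐ[K] F).toRingEquiv.toRingHom
  have hf : ∀ y, f y = algebraMap F M (ρ.symm y) := fun y => rfl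
  let alg : Algebra F M := f.toAlgebra
  have halg : ∀ y, @algebraMap F M _ _ alg y = @algebraMap F M _ _ i3 (ρ.symm y) := fun y => rfl
  refine ⟨M, i1, i2, alg, ?_, hab, z, ?_, ?_⟩
  · refine @IsScalarTower.of_algebraMap_eq K F M _ _ _ _ alg _ (fun c => ?_)
    rw [halg, AlgEquiv.commutes]
    exact @IsScalarTower.algebraMap_apply K F M _ _ _ _ i3 _ i4 c
  · rw [halg, AlgEquiv.symm_apply_apply]
    exact hz
  · refine @adjoin_top F F M _ _ _ i3 alg (fun y => ρ y) (fun y => ?_) z hadj
    rw [halg, AlgEquiv.symm_apply_apply]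

open Complex in
/-- the derivatives of the partial zeta functions are real -/
theorem deriv_real {K H : Type} [Field K] [NumberField K] [Field H] [NumberField H] [Algebra K H]
    {S : Finset (Place K)} {a : Ideal (𝓞 K) → Gal(H/K)} {g : Gal(H/K)} {F : ℂ → ℂ}
    (h : IsZeta S a g F) : (deriv F 0).im = 0 := by
  have hd := h.hol
  have hs := h.sum
  have h1 : ∀ z : ℂ, 1 < z.re → (starRingEnd ℂ) (F ((starRingEnd ℂ) z)) = F z := by
    intro z hz
    have h2 := hs ((starRingEnd ℂ) z) (by simpa using hz)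
    have h3 := h2.map (starRingEnd ℂ) continuous_conj
    refine HasSum.unique h3 ?_
    have h4 := hs z hz
    convert h4 using 1
    ext I
    simp only [Function.comp_apply]
    split_ifs
    · have e1 : -(starRingEnd ℂ) z = (starRingEnd ℂ) (-z) := by rw [map_neg]
      rw [e1, ← conj_cpow _ _ (by rw [natCast_arg]; positivity), conj_natCast]
    · simp
  have han : AnalyticOnNhd ℂ F {1}ᶜ := hd.analyticOnNhd isOpen_compl_singleton
  have hcan : AnalyticOnNhd ℂ ((starRingEnd ℂ) ∘ F ∘ (starRingEnd ℂ)) {1}ᶜ := by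
    refine DifferentiableOn.analyticOnNhd (fun z hz => ?_) isOpen_compl_singleton
    refine (differentiableAt_conj_conj_iff.mpr ?_).differentiableWithinAt
    refine hd.differentiableAt (isOpen_compl_singleton.mem_nhds ?_)
    exact (map_ne_one_iff _ (starRingEnd ℂ).injective).mpr hz
  have heq : Set.EqOn ((starRingEnd ℂ) ∘ F ∘ (starRingEnd ℂ)) F {1}ᶜ :=
    hcan.eqOn_of_preconnected_of_eventuallyEq han
      (isConnected_compl_singleton_of_one_lt_rank (by simp) 1).isPreconnected
      (by norm_num : (2 : ℂ) ∈ _)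
      (Filter.eventuallyEq_of_mem
        ((isOpen_lt continuous_const continuous_re).mem_nhds (by norm_num)) h1)
  have h0 : ((starRingEnd ℂ) ∘ F ∘ (starRingEnd ℂ)) =ᶠ[nhds 0] F :=
    Filter.eventuallyEq_of_mem (isOpen_compl_singleton.mem_nhds (by norm_num)) heq
  have h5 := h0.deriv_eq
  rw [deriv_conj_conj] at h5
  simp only [Function.comp_apply, map_zero] at h5
  exact conj_eq_iff_im.1 h5

/-- a quadratic field with a real embedding has no complex place -/
theorem nrComplex_ne {K : Type} [Field K] [NumberField K] (h2 : Module.finrank ℚ K = 2)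
    (s₁ : K →+* ℝ) : InfinitePlace.nrComplexPlaces K ≠ 1 := by
  classical
  intro h
  have h1 := InfinitePlace.card_add_two_mul_card_eq_rank K
  rw [h, h2] at h1
  have h3 : InfinitePlace.nrRealPlaces K = 0 := by omega
  have h4 : (InfinitePlace.mk (Complex.ofRealHom.comp s₁)).IsReal := ⟨_, (by
    ext x
    exact Complex.conj_ofReal _), rfl⟩
  unfold InfinitePlace.nrRealPlaces at h3
  exact (Fintype.card_eq_zero_iff.1 h3).false ⟨_, h4⟩

theorem lev : S_LEV := by
  intro K F _ _ _ _ _ _ hK h2 S hS3 harch hram s₁ σ hne σ' hσ' a ha ζ hζ r hr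
  obtain ⟨ε, he1, he2, he3⟩ := Pool.Agent.STk.real_page h2 S hS3 harch hram
    (nrComplex_ne hK s₁) s₁ σ' hσ' a ha ζ hζ
  set e : F := ((ε : 𝓞 F) : F) with he
  -- embeddings over `σ`
  have hover : ∀ τ : F →+* ℂ, (∀ x : K, τ (algebraMap K F x) = ((σ x : ℝ) : ℂ)) →
      τ.comp (algebraMap K F) ≠ Complex.ofRealHom.comp s₁ := by
    intro τ hτ h
    apply hne
    ext x
    have h3 := RingHom.congr_fun h x
    have h4 : ((σ x : ℝ) : ℂ) = ((s₁ x : ℝ) : ℂ) := by
      rw [← hτ x]; exact h3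
    exact (Complex.ofReal_injective h4).symm
  have hnorm : ∀ τ : F →+* ℂ, (∀ x : K, τ (algebraMap K F x) = ((σ x : ℝ) : ℂ)) →
      ∀ ρ : Gal(F/K), ‖τ (ρ e)‖ = 1 := by
    intro τ hτ ρ
    have h3 := he2 (τ.comp (ρ : F ≃ₐ[K] F).toRingEquiv.toRingHom) (hover _ (fun x => by
      show τ (ρ (algebraMap K F x)) = _
      rw [AlgEquiv.commutes, hτ]))
    exact h3
  -- there is one
  obtain ⟨τ, hτ⟩ : ∃ τ : F →+* ℂ, ∀ x : K, τ (algebraMap K F x) = ((σ x : ℝ) : ℂ) := by
    let _ : Algebra K ℂ := (Complex.ofRealHom.comp σ).toAlgebra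
    let τ : F →ₐ[K] ℂ := IsAlgClosed.lift
    exact ⟨τ.toRingHom, fun x => τ.commutes x⟩
  -- `e * r e = 1`
  have hprod : e * r e = 1 := by
    apply τ.injective
    rw [map_mul, hr τ hτ e, map_one, Complex.mul_conj, Complex.normSq_eq_norm_sq]
    have h3 := hnorm τ hτ 1
    rw [AlgEquiv.one_apply] at h3
    rw [h3]
    norm_num
  have hreal : ∀ ρ, (((deriv (ζ ρ) 0).re : ℝ) : ℂ) = deriv (ζ ρ) 0 := by
    intro ρ
    apply Complex.ext
    · rw [Complex.ofReal_re]
    · rw [Complex.ofReal_im, deriv_real (hζ ρ)]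
  have hval : ∀ ρ : Gal(F/K), σ' (ρ e) = Real.exp (-(2 * (deriv (ζ ρ) 0).re)) := by
    intro ρ
    apply Complex.ofReal_injective
    rw [he1 ρ, ← hreal ρ]
    push_cast
    rfl
  have hopp : ∀ ρ : Gal(F/K), (deriv (ζ (ρ * r)) 0).re = -(deriv (ζ ρ) 0).re := by
    intro ρ
    have h3 : σ' (ρ e) * σ' ((ρ * r) e) = 1 := by
      rw [← map_mul, AlgEquiv.mul_apply, ← map_mul, hprod, map_one, map_one]
    rw [hval, hval, ← Real.exp_add, Real.exp_eq_one_iff] at h3
    linarith
  refine ⟨e, ?_, ?_, ?_, ?_, hnorm, fun ρ => abRoot_conj he3 ρ⟩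
  · exact NumberField.RingOfIntegers.isIntegral_coe _
  · have h3 : e⁻¹ = (((ε⁻¹ : (𝓞 F)ˣ) : 𝓞 F) : F) := by
      apply inv_eq_of_mul_eq_one_right
      rw [he, ← map_mul, ← Units.val_mul, mul_inv_cancel, Units.val_one, map_one]
    rw [h3]
    exact NumberField.RingOfIntegers.isIntegral_coe _
  · intro ρ
    rw [hval]
    exact Real.exp_pos _
  · intro ρ
    rw [he1 ρ, ← hreal ρ, ← hreal (ρ * r), hopp]
    congr 1
    push_cast
    ring

end Pool.Agent.H79.MO
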