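import Pool.Agent.H509.MO.Stm

/-!
# Project MO (helper509, MP_6bf7a3_nt), brick NN (helper878)

The numbers `nn` only depend on the class.
-/

set_option autoImplicit false
set_option linter.unusedSectionVars false

open NumberField IsDedekindDomain

noncomputable section

namespace Pool.Agent.H878.MO

open Pool.Agent.W206.MS (OL IsOrder IsInv InMonoid InJ InP Loc nn Pair sm Good REq Rel InducesIso Md
  loc_of_mem loc_mul loc_add one_mod_mul one_mod_inv mul_sm sm_mul sm_sm nn_congr_right)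
open Pool.Agent.MO (S_DIC S_GD S_NN sub OK aO)

section

variable {K : Type} [Field K]

theorem good_mono {O : Subalgebra ℤ K} {m b g : Submodule ℤ K} (h : b ≤ m) (hg : Good O b g) :
    Good O m g := by
  obtain ⟨e, he, h1⟩ := hg.cop
  exact ⟨hg.inv, hg.le, e, he, h h1⟩

/-- two good ideals with the same Artin symbol differ by a number `≡ 1` -/
theorem req_of_art {G : Type} [Group G] {O : Subalgebra ℤ K} {m : Submodule ℤ K} (hm : Md O m)
    (σ : K →+* ℝ) (Art : Submodule ℤ K → G) (hA : InducesIso σ O m Art) (h2 : ∀ g : G, g * g = 1)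
    {g₁ g : Submodule ℤ K} (hg₁ : Good O m g₁) (hg : Good O m g) (h : Art g₁ = Art g)
    {z : Submodule ℤ K} (hz : InMonoid O m z) : REq O m σ (g₁ * z) (g * z) := by
  have hm' : ∀ x ∈ O, ∀ y ∈ m, x * y ∈ m := hm.mul
  have j₁ : InJ O m g₁ := hg₁.inJ hm
  have j : InJ O m g := hg.inJ hm
  have e1 : Art (g₁ * g) = 1 := by
    rw [hA.1 g₁ g j₁ j, h, h2]
  have e2 : Art (g * g) = 1 := by
    rw [hA.1 g g j j, h2]
  obtain ⟨l, hl1, hl2, hl3⟩ := (hA.2.2 _ ((hg₁.mul hm' hg).inJ hm)).1 e1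
  obtain ⟨μ, hμ1, hμ2, hμ3⟩ := (hA.2.2 _ ((hg.mul hm' hg).inJ hm)).1 e2
  have hμ0 : μ ≠ 0 := Pool.Agent.W206.MS.ne_zero_of_pos hμ2
  have e3 : g₁ = sm (l * μ⁻¹) g := by
    apply hg.inv.cancel hg₁.inv.stable (Pool.Agent.W206.MS.stable_sm hg.inv.stable _)
    rw [mul_sm, hμ3, mul_comm g g₁, hl3]
    change sm l (OL O) = sm (l * μ⁻¹) (sm μ (OL O))
    rw [sm_sm, mul_assoc, inv_mul_cancel₀ hμ0, mul_one]
  rw [e3, sm_mul]
  apply REq.sm_left hm
  · exact one_mod_mul hm hl1 (one_mod_inv hm hμ1).2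
  · rw [map_mul, map_inv₀]
    positivity
  · intro p hp
    have hp' : p ∈ g * z := hp
    clear hp
    induction hp' using Submodule.mul_induction_on' with
    | mem_mul_mem u hu w hw =>
      exact loc_mul hm Pool.Agent.W206.MS.OL_stable (loc_of_mem hm (hg.le hu)) (hz.2 hw)
    | add p hp q hq ihp ihq =>
      exact loc_add hm Pool.Agent.W206.MS.OL_stable ihp ihq

end

/-- **Brick NN.** -/
theorem nn' : S_NN := by
  intro hD hGD K _ _ σ O m b P 𝔟 h𝔟 G _ Art hA h2 𝔡 𝔫 hdn I J B₁ B₂ x y α hI hJ hx hy hx1 hy1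
    hσx hσy hB₁ hB₂ hα1 hσα hα hart z hz
  obtain ⟨dmem, dmul, dtop, dle, -, dspan, dinv, -, -⟩ := hD K
  obtain ⟨g1, -, -, -⟩ := hGD hD K O m b P 𝔟 h𝔟
  have hle : ∀ X : Ideal (𝓞 K), sub X ≤ OL (OK K) := by
    intro X
    rw [← dtop, dle]
    exact le_top
  have hst : ∀ X : Ideal (𝓞 K), OL (OK K) * sub X = sub X := by
    intro X
    rw [← dtop, ← dmul, Ideal.top_mul]
  have h𝔟0 : 𝔟 ≠ ⊥ := by
    rintro rfl
    obtain ⟨N, hN, hNb⟩ := P.pos
    rw [← h𝔟, dmem] at hNb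
    obtain ⟨w, hw, hwN⟩ := hNb
    rw [Ideal.mem_bot] at hw
    rw [hw] at hwN
    have : ((N : ℕ) : K) = 0 := by rw [← hwN]; simp
    exact hN.ne' (by exact_mod_cast this)
  have h𝔡0 : 𝔡 ≠ ⊥ := by
    rintro rfl
    rw [Ideal.bot_mul] at hdn
    exact h𝔟0 hdn.symm
  -- A: multiplication by a number `≡ 1`
  have hAA : ∀ (β : 𝓞 K), β - 1 ∈ 𝔫 → 0 < σ (β : K) → ∀ (X : Ideal (𝓞 K)) (a : Submodule ℤ K),
      nn O (OK K) m σ (sub (𝔡 * X)) a = nn O (OK K) m σ (sub (Ideal.span {β} * (𝔡 * X))) a := by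
    intro β hβ hσβ X a
    refine P.nn_congr_left a ⟨(β : K), hσβ, ?_, ?_⟩ (hle _) (hle _)
    · intro w hw
      rw [dmem] at hw
      obtain ⟨v, hv, rfl⟩ := hw
      apply loc_of_mem P.mB
      rw [← h𝔟, dmem]
      refine ⟨(β - 1) * v, ?_, by push_cast; ring⟩
      have hv' : v ∈ 𝔡 := (Ideal.mul_le_left : 𝔡 * X ≤ 𝔡) hv
      rw [← hdn, mul_comm 𝔡 𝔫]
      exact Ideal.mul_mem_mul hβ hv'
    · rw [dmul, dspan, sm_mul, hst]
  -- B: multiplication by a good ideal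
  have hBB : ∀ (B X : Ideal (𝓞 K)), B ⊔ 𝔟 = ⊤ → X ≠ ⊥ → ∀ a : Submodule ℤ K, OL O * a = a →
      nn O (OK K) m σ (sub X) a = nn O (OK K) m σ (sub (B * X)) ((sub B ⊓ OL O) * a) := by
    intro B X hB hX a ha
    obtain ⟨-, hg, he⟩ := g1 B hB
    have e : OL (OK K) * (sub B ⊓ OL O) * sub X = sub (B * X) :=
      (congrArg (fun Y => Y * sub X) he).trans (dmul B X).symm
    exact (P.nn_mul hg (dinv X hX) (hle X) ha).trans
      (congrArg (fun Y => nn O (OK K) m σ Y ((sub B ⊓ OL O) * a)) e)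
  have hy0 : Ideal.span {y} ≠ (⊥ : Ideal (𝓞 K)) := by
    rw [Ne, Ideal.span_singleton_eq_bot]
    rintro rfl
    simp at hσy
  have hx0 : Ideal.span {x} ≠ (⊥ : Ideal (𝓞 K)) := by
    rw [Ne, Ideal.span_singleton_eq_bot]
    rintro rfl
    simp at hσx
  have hzst : OL O * z = z := hz.1.stable
  have hαB : Ideal.span {α} * B₂ ⊔ 𝔟 = ⊤ := by
    rw [Ideal.mul_sup_eq_of_coprime_right hB₂]
    exact hα
  have hid : B₁ * (Ideal.span {y} * (𝔡 * I)) = 𝔡 * (B₂ * (Ideal.span {x} * J)) := by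
    rw [hx, hy]
    ring
  have hid2 : Ideal.span {α} * (𝔡 * (B₂ * (Ideal.span {x} * J))) =
      (Ideal.span {α} * B₂) * (Ideal.span {x} * (𝔡 * J)) := by
    ring
  obtain ⟨-, hg1, -⟩ := g1 B₁ hB₁
  obtain ⟨-, hg2, -⟩ := g1 (Ideal.span {α} * B₂) hαB
  have hreq := req_of_art P.mM σ Art hA h2 (good_mono P.bm hg1) (good_mono P.bm hg2) hart hz
  calc nn O (OK K) m σ (sub (𝔡 * I)) z
      = nn O (OK K) m σ (sub (Ideal.span {y} * (𝔡 * I))) z := hAA y hy1 hσy I z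
    _ = nn O (OK K) m σ (sub (B₁ * (Ideal.span {y} * (𝔡 * I)))) ((sub B₁ ⊓ OL O) * z) :=
        hBB B₁ _ hB₁ (mul_ne_zero hy0 (mul_ne_zero h𝔡0 hI)) z hzst
    _ = nn O (OK K) m σ (sub (Ideal.span {α} * (𝔡 * (B₂ * (Ideal.span {x} * J)))))
          ((sub B₁ ⊓ OL O) * z) := by
        rw [hid]
        exact hAA α hα1 hσα _ _
    _ = nn O (OK K) m σ (sub (Ideal.span {α} * (𝔡 * (B₂ * (Ideal.span {x} * J)))))
          ((sub (Ideal.span {α} * B₂) ⊓ OL O) * z) := nn_congr_right P.mM _ hreq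
    _ = nn O (OK K) m σ (sub (Ideal.span {x} * (𝔡 * J))) z := by
        rw [hid2]
        exact (hBB (Ideal.span {α} * B₂) _ hαB (mul_ne_zero hx0 (mul_ne_zero h𝔡0 hJ)) z hzst).symm
    _ = nn O (OK K) m σ (sub (𝔡 * J)) z := (hAA x hx1 hσx J z).symm

end Pool.Agent.H878.MO
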