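import Pool.Agent.H509.MO.Stm

/-!
# Project MO, task RCX: the ray class data of the maximal order (helper870)
-/

set_option autoImplicit false

open NumberField IsDedekindDomain

noncomputable section

namespace Pool.Agent.H870.MO

open Pool.Agent.MO
open Pool.Agent.W206.MS (OL IsOrder IsInv InMonoid InJ InP Loc nn Pair sm Good REq Rel cnt IsZ idx contr
  IsRealPrime IsFrobenius IsRayClassField InducesIso CondI CondII CondIII CondIV mkPair
  isOrder_maxOrder mem_maxOrder_of_fg mem_contr one_mem_OL mem_of_sup_eq sup_eq_of_mem loc_of_mem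
  good_OL stable_mul one_sm mul_sm sm_mul Md)

/-- a field of degree two has at most two real embeddings -/
theorem two_real {K : Type} [Field K] [NumberField K] (h2 : Module.finrank ℚ K = 2)
    {s₁ σ : K →+* ℝ} (hne : s₁ ≠ σ) (φ : K →+* ℝ) : φ = s₁ ∨ φ = σ := by
  classical
  by_contra hcon
  push Not at hcon
  obtain ⟨h1, h3⟩ := hcon
  have hinj : Function.Injective fun ψ : K →+* ℝ => (Complex.ofRealHom.comp ψ : K →+* ℂ) := by
    intro ψ ψ' hψ
    apply RingHom.ext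
    intro x
    have := RingHom.congr_fun hψ x
    simpa using this
  have hc : Fintype.card (K →+* ℂ) = 2 := by
    rw [NumberField.Embeddings.card, h2]
  have h4 : ({Complex.ofRealHom.comp φ, Complex.ofRealHom.comp s₁,
      Complex.ofRealHom.comp σ} : Finset (K →+* ℂ)).card = 3 := by
    rw [Finset.card_eq_three]
    exact ⟨_, _, _, fun h => h1 (hinj h), fun h => h3 (hinj h), fun h => hne (hinj h), rfl⟩
  have h5 := Finset.card_le_univ ({Complex.ofRealHom.comp φ, Complex.ofRealHom.comp s₁,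
      Complex.ofRealHom.comp σ} : Finset (K →+* ℂ))
  rw [h4, hc] at h5
  omega

/-- the principal ideal which connects two ideals of `J_m` -/
theorem inJ_sm {K : Type} [Field K] {O : Subalgebra ℤ K} {m a : Submodule ℤ K} (hm : Md O m)
    {α : K} (hα : α ≠ 0) (ha : InJ O m a) (hg : Good O m (sm α a)) : InJ O m (sm α (OL O)) := by
  obtain ⟨hinv, a₁, a₂, h1, h2, hinv2, h3, h4, h5⟩ := ha
  refine ⟨(Pool.Agent.W206.MS.isInv_OL O).sm hα, sm α a * a₂, a₁, ?_, h1, ?_, ?_, h3, ?_⟩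
  · rw [Submodule.mul_le]
    exact fun x hx y hy => O.mul_mem (hg.le hx) (h2 hy)
  · rw [← h5]
    exact hinv.mul hinv2
  · obtain ⟨e, he, he'⟩ := hg.cop
    obtain ⟨f, hf, hf'⟩ := mem_of_sup_eq h4
    refine sup_eq_of_mem hm (stable_mul hg.inv.stable _) ?_ (Submodule.mul_mem_mul he hf) ?_
    · rw [Submodule.mul_le]
      exact fun x hx y hy => O.mul_mem (hg.le hx) (h2 hy)
    · have : 1 - e * f = (1 - e) + e * (1 - f) := by ring
      rw [this]
      exact m.add_mem he' (hm.mul _ (hg.le he) _ hf')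
  · rw [← h5, sm_mul, sm_mul, ← mul_assoc, hinv.stable]

section prime

variable {K : Type} [Field K] [NumberField K] [Algebra K ℝ] {H : IntermediateField K ℝ}
  [NumberField H]

/-- the prime ideal of the ring of all real algebraic integers -/
def PP (Q : Ideal (𝓞 ℝ)) : Set ℝ := {x | ∃ z : 𝓞 ℝ, z ∈ Q ∧ (z : ℝ) = x}

theorem PP_prime {Q : Ideal (𝓞 ℝ)} (hQ : Q.IsPrime) : IsRealPrime (PP Q) := by
  refine ⟨?_, ⟨0, Q.zero_mem, rfl⟩, ?_, ?_, ?_, ?_⟩
  · rintro _ ⟨z, -, rfl⟩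
    exact RingOfIntegers.isIntegral_coe z
  · rintro _ ⟨z, hz, rfl⟩ _ ⟨z', hz', rfl⟩
    exact ⟨z + z', Q.add_mem hz hz', rfl⟩
  · rintro x _ hx ⟨z, hz, rfl⟩
    exact ⟨⟨x, hx⟩ * z, Q.mul_mem_left _ hz, rfl⟩
  · rintro ⟨z, hz, h⟩
    have h1 : z = 1 := RingOfIntegers.ext h
    rw [h1] at hz
    exact hQ.ne_top ((Ideal.eq_top_iff_one Q).2 hz)
  · rintro x y hx hy ⟨z, hz, h⟩
    have h1 : z = (⟨x, hx⟩ : 𝓞 ℝ) * (⟨y, hy⟩ : 𝓞 ℝ) := RingOfIntegers.ext h
    rw [h1] at hz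
    rcases hQ.mem_or_mem hz with h2 | h2
    · exact Or.inl ⟨_, h2, rfl⟩
    · exact Or.inr ⟨_, h2, rfl⟩

theorem mem_PP {L : Type} [Field L] [Algebra L ℝ] {Q : Ideal (𝓞 ℝ)} (z : 𝓞 L) :
    algebraMap L ℝ (z : L) ∈ PP Q ↔ z ∈ Q.comap (algebraMap (𝓞 L) (𝓞 ℝ)) := by
  rw [Ideal.mem_comap]
  constructor
  · rintro ⟨q, hq, h⟩
    have h1 : q = algebraMap (𝓞 L) (𝓞 ℝ) z := RingOfIntegers.ext h
    rwa [← h1]
  · intro h
    exact ⟨_, h, rfl⟩

end prime

theorem rcx : S_RCX := by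
  intro hD hG K _ _ _ σ h2 hσ O m hO hm H _ Art hH 𝔟 hb
  obtain ⟨hmem, -, htop, -, hsup, -, -, -, hidx⟩ := id (hD K)
  obtain ⟨hab, ⟨hArtmul, hArtsurj, hArtker⟩, hfrob⟩ := hH
  have hle : O ≤ OK K := mem_maxOrder_of_fg hO.1
  have P : Pair O (OK K) m (m / OL (OK K)) := mkPair hO (isOrder_maxOrder K) hle hm
  obtain ⟨g1, g2, g3, g4⟩ := hG hD K O m _ P 𝔟 hb
  have hJ : ∀ J : Ideal (𝓞 K), J ⊔ 𝔟 = ⊤ → InJ O m (sub J ⊓ OL O) := fun J hJ =>
    ((g1 J hJ).2.1.mono P.bm).inJ P.mM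
  have hray1 : ∀ α : K, α - 1 ∈ Loc O m m → 0 < σ α → InJ O m (sm α (OL O)) →
      Art (sm α (OL O)) = 1 := by
    intro α h3 h4 h5
    exact (hArtker _ h5).2 ⟨α, h3, h4, rfl⟩
  refine ⟨hσ.symm, two_real h2 hσ.symm, ⟨algebraMap H ℝ, (IsScalarTower.algebraMap_eq K H ℝ).symm⟩,
    ?_, ?_, ?_, ?_, ?_, ?_, ?_⟩
  · intro h0
    obtain ⟨N, hN, hNb⟩ := P.pos
    rw [← hb, h0, hmem] at hNb
    obtain ⟨y, hy, hy'⟩ := hNb
    rw [Ideal.mem_bot] at hy
    rw [hy] at hy'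
    have : (N : K) = 0 := hy'.symm.trans (map_zero (algebraMap (𝓞 K) K))
    exact hN.ne' (by exact_mod_cast this)
  · intro h0
    apply P.mB.one
    rw [← hb, h0, htop]
    exact one_mem_OL _
  · have h3 : aO O Art ⊤ = Art (OL O) := by
      unfold aO
      rw [htop, inf_eq_right.2 (show OL O ≤ OL (OK K) from hle)]
    rw [h3, hArtker _ ((good_OL O m).inJ P.mM)]
    exact ⟨1, by simpa using loc_of_mem P.mM m.zero_mem, by simp, (one_sm _).symm⟩
  · intro I J hI hJ'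
    unfold aO
    rw [g2 I J hI hJ', hArtmul _ _ (hJ I hI) (hJ J hJ')]
  · intro v hv w hw x y hy
    have hwm : w.asIdeal.IsMaximal := w.isMaximal
    obtain ⟨Q, hQm, hQ⟩ := Ideal.exists_ideal_over_maximal_of_isIntegral (S := 𝓞 ℝ) w.asIdeal
      (by
        intro z hz
        rw [RingHom.mem_ker] at hz
        have h3 : algebraMap H ℝ (z : H) = 0 := by
          have h4 := congrArg (fun q : 𝓞 ℝ => (q : ℝ)) hz
          exact h4
        have h4 : (z : H) = 0 := (map_eq_zero (algebraMap H ℝ)).1 h3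
        have h5 : z = 0 := RingOfIntegers.ext h4
        rw [h5]
        exact w.asIdeal.zero_mem)
    have hPr := PP_prime hQm.isPrime
    have hPH : ∀ z : 𝓞 H, algebraMap H ℝ (z : H) ∈ PP Q ↔ z ∈ w.asIdeal := by
      intro z
      rw [mem_PP, hQ]
    have hPK : ∀ z : 𝓞 K, algebraMap K ℝ (z : K) ∈ PP Q ↔ z ∈ v.asIdeal := by
      intro z
      have h3 : algebraMap K ℝ (z : K) = algebraMap H ℝ ((algebraMap (𝓞 K) (𝓞 H) z : 𝓞 H) : H) :=
        rfl
      rw [h3, hPH, hw.over]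
      rfl
    have hc1 : contr (PP Q) (OK K) = sub v.asIdeal := by
      ext z
      rw [mem_contr hPr, hmem]
      constructor
      · rintro ⟨h3, h4⟩
        exact ⟨⟨z, h3⟩, (hPK _).1 h4, rfl⟩
      · rintro ⟨z', h3, rfl⟩
        exact ⟨z'.2, (hPK _).2 h3⟩
    have hc2 : contr (PP Q) O = sub v.asIdeal ⊓ OL O := by
      ext z
      rw [mem_contr hPr, Submodule.mem_inf, hmem]
      constructor
      · rintro ⟨h3, h4⟩
        exact ⟨⟨⟨z, hle h3⟩, (hPK ⟨z, hle h3⟩).1 h4, rfl⟩, h3⟩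
      · rintro ⟨⟨z', h3, rfl⟩, h4⟩
        exact ⟨h4, (hPK _).2 h3⟩
    have hcop : contr (PP Q) (integralClosure ℤ K) ⊔ m / OL (integralClosure ℤ K) =
        OL (integralClosure ℤ K) := by
      have h3 : v.asIdeal ⊔ 𝔟 = ⊤ := by
        have hvm : v.asIdeal.IsMaximal := v.isMaximal
        exact hvm.out.2 _ (left_lt_sup.2 hv)
      rw [hc1, ← hb, ← hsup, h3, htop]
    have h4 := hfrob (PP Q) hPr hcop (x : H) ((RingOfIntegers.isIntegral_coe x).map
      (algebraMap H ℝ).toIntAlgHom)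
    rw [hc2] at h4
    have h5 : idx (integralClosure ℤ K) (contr (PP Q) (integralClosure ℤ K)) =
        Ideal.absNorm v.asIdeal := by
      rw [hc1]
      exact hidx _
    rw [h5] at h4
    rw [← hPH, hy, map_sub, map_pow]
    exact h4
  · intro x hx hσx
    have h3 : Ideal.span {x} ⊔ 𝔟 = ⊤ := by
      rw [Ideal.eq_top_iff_one]
      have : (1 : 𝓞 K) = x - (x - 1) := by ring
      rw [this]
      exact Ideal.sub_mem _ (Ideal.mem_sup_left (Ideal.mem_span_singleton_self x))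
        (Ideal.mem_sup_right hx)
    have h4 := hJ _ h3
    obtain ⟨-, h5⟩ := g3 x hx
    unfold aO
    rw [h5] at h4 ⊢
    refine hray1 _ ?_ hσx h4
    apply loc_of_mem P.mM
    apply P.bm
    rw [← hb, hmem]
    exact ⟨x - 1, hx, rfl⟩
  · intro g
    obtain ⟨a, ha, rfl⟩ := hArtsurj g
    obtain ⟨α, h3, h4, h5, h6⟩ := P.exists_rep σ ha
    have hα : α ≠ 0 := Pool.Agent.W206.MS.ne_zero_of_pos h4
    have hgood : Good O (m / OL (OK K)) (sm α a) := ⟨ha.1.sm hα, h5, h6⟩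
    obtain ⟨J, hJ1, -, hJ3⟩ := g4 _ hgood
    refine ⟨J, hJ1, ?_⟩
    have h7 := inJ_sm P.mM hα ha (hgood.mono P.bm)
    have h8 : sm α a = sm α (OL O) * a := by rw [sm_mul, ha.1.stable]
    unfold aO
    rw [hJ3, h8, hArtmul _ _ h7 ha, hray1 α h3 h4 h7, one_mul]

end Pool.Agent.H870.MO
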