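import Pool.Agent.H509.MO.Stm

/-!
# Project MO, UNT: ramified quadratic characters are not trivial on the local units (helper294)
-/

set_option autoImplicit false
set_option linter.unusedSectionVars false
set_option linter.deprecated false

namespace Pool.Agent.H294.MO

open NumberField IsDedekindDomain Module
open Pool.Agent.Q92.AR (Dv prin Pr Ray RayD art nmD nu up puD Cong Pos frob IsFrobenius Unramified Ram
  SupF prin_mul prin_div prin_one prin_inv mem_Pr val_eq_one nmD_single art_single frob_spec)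
open Pool.Agent.Q20.EX (CongAt Inert Split)
open Pool.Agent.Q5.MZ (LocN NonSplit PosRam)
open Pool.Agent.Q38.EX (near_one near_mul near_inv near_div near_prod val_nat_lt_one exists_above)
open Pool.Agent.Q125.AR (mem_under prin_eq_zero_of_valuation Ray_mono Ram_mono valuation_eq_exp)
open Pool.Agent.Q5.BR (rdeg under_eq)
open Pool.Agent.Q182.MZ (apxAt prin_eq_of_near artLoc pa pa_pos pa_neg nmD_pa nm_prin)
open Pool.Agent.BT9 (RamAt)
open Pool.Agent.H181.BT (exists_unif CongAt_mono rdeg_one lc_ram units_sq)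

section one
variable {F M : Type} [Field F] [NumberField F] [Field M] [NumberField M] [Algebra F M]

/-- restriction of inertia elements -/
theorem ramAt_quot [IsGalois F M] {L : IntermediateField F M} [IsGalois F L]
    (ψ : (M ≃ₐ[F] M) →* ℂˣ) (θ' : (L ≃ₐ[F] L) →* ℂˣ)
    (hθ' : ∀ g : M ≃ₐ[F] M, θ' (AlgEquiv.restrictNormal g L) = ψ g)
    {v : HeightOneSpectrum (𝓞 F)} (h : RamAt ψ v) : RamAt θ' v := by
  obtain ⟨w, g, hw, hg, h1⟩ := h
  refine ⟨w.under (𝓞 L), AlgEquiv.restrictNormal g L, ?_, ?_, by rw [hθ']; exact h1⟩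
  · apply HeightOneSpectrum.ext
    change ((w.asIdeal.comap (algebraMap (𝓞 L) (𝓞 M))).comap (algebraMap (𝓞 F) (𝓞 L))) = v.asIdeal
    rw [Ideal.comap_comap, ← under_eq hw, ← IsScalarTower.algebraMap_eq (𝓞 F) (𝓞 L) (𝓞 M)]
  · intro x
    have hgx : IsIntegral ℤ (AlgEquiv.restrictNormal g L (x : L)) := x.2.map _
    obtain ⟨y, hy⟩ : ∃ y : 𝓞 L, (y : L) = AlgEquiv.restrictNormal g L (x : L) := ⟨⟨_, hgx⟩, rfl⟩
    have h2 : w.valuation M (algebraMap (𝓞 M) M (algebraMap (𝓞 L) (𝓞 M) (y - x))) < 1 := by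
      have h3 : algebraMap (𝓞 M) M (algebraMap (𝓞 L) (𝓞 M) (y - x)) =
          g ((algebraMap (𝓞 L) (𝓞 M) x : 𝓞 M) : M) - ((algebraMap (𝓞 L) (𝓞 M) x : 𝓞 M) : M) := by
        change algebraMap L M ((y : L) - (x : L)) = g (algebraMap L M (x : L)) - algebraMap L M (x : L)
        rw [hy, map_sub, AlgEquiv.restrictNormal_commutes]
      rw [h3]
      exact hg _
    have h4 : algebraMap (𝓞 L) (𝓞 M) (y - x) ∈ w.asIdeal :=
      (w.valuation_lt_one_iff_mem (K := M) _).1 h2
    have h5 : y - x ∈ (w.under (𝓞 L)).asIdeal := h4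
    have h6 := ((w.under (𝓞 L)).valuation_lt_one_iff_mem (K := L) (y - x)).2 h5
    have h7 : (w.under (𝓞 L)).valuation L ((y : L) - (x : L)) < 1 := h6
    rw [hy] at h7
    exact h7

end one

section two
variable {F L : Type} [Field F] [NumberField F] [Field L] [NumberField L] [Algebra F L]
  [IsGalois F L]

/-- in a ramified quadratic extension there is one prime above `v`, of degree one -/
theorem ram_deg (θ : (L ≃ₐ[F] L) →* ℂˣ) (hfin : finrank F L = 2)
    {v : HeightOneSpectrum (𝓞 F)} (h : RamAt θ v) :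
    ∃ W : HeightOneSpectrum (𝓞 L), W.under (𝓞 F) = v ∧ rdeg F W = 1 ∧
      ∀ w : HeightOneSpectrum (𝓞 L), w.under (𝓞 F) = v → w = W := by
  obtain ⟨w, g, hw, hg, h1⟩ := h
  have hcard : Nat.card (L ≃ₐ[F] L) = 2 := by
    rw [IsGalois.card_aut_eq_finrank, hfin]
  have hg1 : g ≠ 1 := by
    rintro rfl
    exact h1 (map_one θ)
  -- the group consists of `1` and `g`
  have hgrp : ∀ τ : L ≃ₐ[F] L, τ = 1 ∨ τ = g := by
    intro τ
    obtain ⟨y, hy, hy2⟩ := (Nat.card_eq_two_iff' (1 : L ≃ₐ[F] L)).1 hcard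
    by_cases hτ : τ = 1
    · exact Or.inl hτ
    · right
      rw [hy2 τ hτ, hy2 g hg1]
  have hact : ∀ τ : L ≃ₐ[F] L, Pool.Agent.TeamU.act τ w = w := by
    intro τ
    rcases hgrp τ with rfl | rfl
    · apply Pool.Agent.H509.Rec.act_of_inert
      intro x
      rw [AlgEquiv.one_apply, sub_self, map_zero]
      exact zero_lt_one
    · exact Pool.Agent.H509.Rec.act_of_inert hg
  have hone : ∀ w' : HeightOneSpectrum (𝓞 L), w'.under (𝓞 F) = v → w' = w := by
    intro w' hw'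
    obtain ⟨τ, hτ⟩ := Pool.Agent.TeamU.exists_act (k := F) (P := w) (Q := w') (v := v)
      (under_eq hw) (under_eq hw')
    rw [← hτ, hact]
  refine ⟨w, hw, rdeg_one _ fun x => ?_, hone⟩
  rw [hw]
  obtain ⟨w0, hw0m, hw0v, hw0⟩ := frob_spec (M := L) v
  have h0 : w0 ≠ ⊥ := by
    rintro rfl
    apply v.ne_bot
    rw [← hw0v, ← RingHom.ker_eq_comap_bot]
    exact (RingHom.injective_iff_ker_eq_bot _).1 (FaithfulSMul.algebraMap_injective (𝓞 F) (𝓞 L))
  have hw0w : (⟨w0, hw0m.isPrime, h0⟩ : HeightOneSpectrum (𝓞 L)) = w :=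
    hone _ (HeightOneSpectrum.ext hw0v)
  have hw0a : w0 = w.asIdeal := congrArg HeightOneSpectrum.asIdeal hw0w
  obtain ⟨y, hy, hy2⟩ := hw0 x
  rw [hw0a] at hy
  -- `frob x - x` is in `w`
  have hfx : IsIntegral ℤ (frob L v (x : L)) := x.2.map _
  obtain ⟨z, hz⟩ : ∃ z : 𝓞 L, (z : L) = frob L v (x : L) := ⟨⟨_, hfx⟩, rfl⟩
  have hz1 : z - x ∈ w.asIdeal := by
    rcases hgrp (frob L v) with h3 | h3
    · have : z = x := by
        apply RingOfIntegers.ext
        rw [hz, h3]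
        rfl
      rw [this, sub_self]
      exact w.asIdeal.zero_mem
    · rw [← w.valuation_lt_one_iff_mem (K := L)]
      change w.valuation L ((z : L) - (x : L)) < 1
      rw [hz, h3]
      exact hg x
  have h5 : x ^ Ideal.absNorm v.asIdeal - x = (z - x) - y := by
    apply RingOfIntegers.ext
    change (x : L) ^ Ideal.absNorm v.asIdeal - (x : L) = ((z : L) - (x : L)) - (y : L)
    rw [hy2, hz]
    ring
  rw [h5]
  exact w.asIdeal.sub_mem hz1 hy

end two

section three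
variable {F : Type} [Field F] [NumberField F]

/-- the totally positive elements near one outside of `v` -/
theorem zpow_near {v : HeightOneSpectrum (𝓞 F)} {N : ℕ} {z : Fˣ} (h1 : Pos (z : F))
    (h2 : CongAt {v}ᶜ N (z : F)) (m : ℤ) :
    Pos ((z ^ m : Fˣ) : F) ∧ CongAt {v}ᶜ N ((z ^ m : Fˣ) : F) := by
  have hnat : ∀ k : ℕ, Pos ((z ^ k : Fˣ) : F) ∧ CongAt {v}ᶜ N ((z ^ k : Fˣ) : F) := by
    intro k
    refine ⟨fun φ => ?_, fun u hu hN => ?_⟩
    · rw [Units.val_pow_eq_pow_val, map_pow]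
      exact pow_pos (h1 φ) k
    · have h3 := near_prod (u.valuation F) (Finset.range k) (fun _ => (z : F)) (val_nat_lt_one hN)
        (fun _ _ => h2 u hu hN)
      rwa [Finset.prod_const, Finset.card_range, ← Units.val_pow_eq_pow_val] at h3
  obtain ⟨k, rfl | rfl⟩ := m.eq_nat_or_neg
  · rw [zpow_natCast]
    exact hnat k
  · rw [zpow_neg, zpow_natCast]
    refine ⟨fun φ => ?_, fun u hu hN => ?_⟩
    · rw [Units.val_inv_eq_inv_val, map_inv₀]
      exact inv_pos.2 ((hnat k).1 φ)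
    · rw [Units.val_inv_eq_inv_val]
      exact near_inv _ (val_nat_lt_one hN) ((hnat k).2 u hu hN)

theorem prin_zpow' (x : Fˣ) (m : ℤ) : prin (x ^ m) = m • prin x := by
  have hnat : ∀ k : ℕ, prin (x ^ k) = (k : ℤ) • prin x := by
    intro k
    induction k with
    | zero => rw [pow_zero, prin_one, Nat.cast_zero, zero_smul]
    | succ k ih => rw [pow_succ, prin_mul, ih, Nat.cast_succ, add_smul, one_smul]
  obtain ⟨k, rfl | rfl⟩ := m.eq_nat_or_neg
  · rw [zpow_natCast, hnat]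
  · rw [zpow_neg, zpow_natCast, prin_inv, hnat, neg_smul]

theorem mul_near {v : HeightOneSpectrum (𝓞 F)} {N : ℕ} {z z' : Fˣ} (h1 : Pos (z : F))
    (h2 : CongAt {v}ᶜ N (z : F)) (h1' : Pos (z' : F)) (h2' : CongAt {v}ᶜ N (z' : F)) :
    Pos ((z * z' : Fˣ) : F) ∧ CongAt {v}ᶜ N ((z * z' : Fˣ) : F) := by
  refine ⟨fun φ => ?_, fun u hu hN => ?_⟩
  · rw [Units.val_mul, map_mul]
    exact mul_pos (h1 φ) (h1' φ)
  · rw [Units.val_mul]
    exact near_mul _ (val_nat_lt_one hN) (h2 u hu hN) (h2' u hu hN)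

end three

/-- **UNT** -/
theorem unt : Pool.Agent.MO.S_UNT := by
  classical
  intro F M _ _ _ _ _ _ ψ hsq v hram N hN
  obtain ⟨L, hLgal, θ', hinj, hθ'⟩ := Pool.Agent.Q111.EX.exists_quot ψ
  have hram' : RamAt θ' v := ramAt_quot ψ θ' hθ' hram
  -- the degree
  have hsq' : ∀ g : L ≃ₐ[F] L, g * g = 1 := by
    intro g
    obtain ⟨g, rfl⟩ := AlgEquiv.restrictNormalHom_surjective (F := F) (K₁ := L) M g
    apply hinj
    have h1 : θ' (AlgEquiv.restrictNormalHom L g) = ψ g := hθ' g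
    rw [map_mul, map_one, h1, hsq]
  have hval : ∀ g : L ≃ₐ[F] L, g ≠ 1 → θ' g = -1 := by
    intro g hg
    refine units_sq ?_ fun h => hg (hinj (by rw [h, map_one]))
    rw [← map_pow, sq, hsq', map_one]
  have hfin : finrank F L = 2 := by
    rw [← IsGalois.card_aut_eq_finrank]
    obtain ⟨w, g, hw, hg, h1⟩ := hram'
    have hg1 : g ≠ 1 := by
      rintro rfl
      exact h1 (map_one θ')
    rw [Nat.card_eq_two_iff' (1 : L ≃ₐ[F] L)]
    refine ⟨g, hg1, fun y hy => hinj ?_⟩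
    rw [hval y hy, hval g hg1]
  have hun : ¬ Unramified L v := Pool.Agent.H389.BT.ramAt_ram hram'
  obtain ⟨W, hWv, hW1, hWo⟩ := ram_deg θ' hfin hram'
  -- the modulus
  obtain ⟨N1, hN1, hR1, h1⟩ := Pool.Agent.Q92.AR.recip F L θ'
  have hN0 : N * N1 ≠ 0 := mul_ne_zero hN hN1
  have hd0 : N ∣ N * N1 := dvd_mul_right _ _
  have hd1 : N1 ∣ N * N1 := dvd_mul_left _ _
  generalize N * N1 = K at hN0 hd0 hd1
  have hRL : Ram F L K := Ram_mono hd1 hR1
  have hvK : (K : 𝓞 F) ∈ v.asIdeal := hRL v hun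
  obtain ⟨z, hz1, hz2, hz3⟩ := lc_ram θ' v K hfin hinj hN0 hvK hun
  -- the norm of valuation one
  obtain ⟨π, hπ⟩ := exists_unif W
  have hpa : pa v (prin π) = Finsupp.single W (1 : ℤ) := by
    ext w
    by_cases hw : w.under (𝓞 F) = v
    · rw [pa_pos _ hw, hWo w hw, hπ, Finsupp.single_eq_same]
    · rw [pa_neg _ hw, Finsupp.single_eq_of_ne]
      rintro rfl
      exact hw hWv
  have hxv : prin (nu F L π) v = 1 := by
    have h3 := nmD_pa (k := F) v (prin π)
    rw [hpa, nmD_single, hWv, hW1, nm_prin] at h3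
    have h4 := DFunLike.congr_fun h3 v
    rw [Finsupp.single_eq_same, Finsupp.single_eq_same] at h4
    rw [← h4]
    norm_num
  have hloc : LocN L v (nu F L π) := by
    intro j
    refine ⟨π, ?_⟩
    rw [div_self (nu F L π).ne_zero, sub_self, map_zero]
    exact zero_le
  obtain ⟨y, hy1, hy2, hy3⟩ := apxAt hN0 v (nu F L π)
  have hy3 := hy3 hvK
  have hyv : prin y v = 1 := by
    rw [← prin_eq_of_near hvK hy3, hxv]
  have e0 := artLoc θ' hN0 hRL (fun x hx => h1 x (Ray_mono hd1 hx)) hvK hloc hy1 hy2 hy3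
  -- the unit
  obtain ⟨p1, p2⟩ := zpow_near hy1 hy2 (-(prin z v))
  obtain ⟨q1, q2⟩ := mul_near hz1 hz2 p1 p2
  have hprin : prin (z * y ^ (-(prin z v))) = prin z + (-(prin z v)) • prin y := by
    rw [prin_mul, prin_zpow']
  have hxv0 : prin (z * y ^ (-(prin z v))) v = 0 := by
    rw [hprin, Finsupp.add_apply, Finsupp.smul_apply, hyv, smul_eq_mul, mul_one, add_neg_cancel]
  refine ⟨z * y ^ (-(prin z v)), q1, CongAt_mono hd0 q2, ?_, ?_⟩
  · rw [valuation_eq_exp, hxv0, neg_zero, WithZero.exp_zero]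
  · have e1 : art ψ (prin (z * y ^ (-(prin z v)))) = art θ' (prin (z * y ^ (-(prin z v)))) := by
      refine (Pool.Agent.H389.BT.art_quotR ψ θ' hθ' _ fun u hu => ?_).symm
      by_contra hu2
      apply hu
      by_cases huv : u = v
      · rw [huv, hxv0]
      · exact prin_eq_zero_of_valuation (val_eq_one (hRL u hu2) (q2 u huv (hRL u hu2)))
    rw [e1, hprin, map_add, map_zsmul]
    rw [hyv] at e0
    have e2 : art θ' (prin y) = art θ' (Finsupp.single v (1 : ℤ)) := by
      rw [map_sub] at e0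
      exact sub_eq_zero.1 e0
    have e3 : (prin z v) • art θ' (Finsupp.single v (1 : ℤ)) = art θ' (Finsupp.single v (prin z v)) := by
      rw [art_single, art_single, one_smul]
    rw [e2, neg_smul, e3, ← sub_eq_add_neg, ← map_sub]
    exact hz3

end Pool.Agent.H294.MO
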