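import Pool.Agent.H509.MO.Stm
import Pool.Agent.H509.Zeta0
import Pool.Agent.H509.ST.EUL
import Pool.Agent.H509.ST.UNR
import Pool.Agent.H509.BT.RECD
import Pool.Graph.R_seed8.Y773.HG.Ent
import Pool.Graph.R_seed8.Y772.HG.Sgn
import Pool.Graph.R_pool_sql_team_seeded_5cf16337.K3h73.RS.Cheb

/-!
# Project MO (helper509), brick ZEX (helper650): the partial zeta functions have continuations
-/

set_option autoImplicit false
set_option linter.unusedSectionVars false

open NumberField IsDedekindDomain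

noncomputable section

namespace Pool.Agent.H650.MO

open Pool.Agent.N598.ST (Place Unram IsArtin IsZeta PrimeTo)
open Pool.Agent.Q92.AR (Dv prin art frob Unramified IsFrobenius)
open Pool.Agent.BT9 (RamAt RamR S_RECD)
open Pool.Agent.H596.ST (primeTo_mul primeTo_top primeTo_prime)
open Pool.Agent.R426.QC (CMI hasProdI)
open Pool.Agent.MO (S_ZEX)

open Classical in
/-- orthogonality of the characters -/
theorem orthx {G : Type} [Group G] [Finite G] (hc : ∀ a b : G, a * b = b * a) :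
    ∃ (_ : Fintype (G →* ℂˣ)), ∀ x : G, ∑ χ : G →* ℂˣ, ((χ x : ℂˣ) : ℂ) =
      if x = 1 then (Fintype.card (G →* ℂˣ) : ℂ) else 0 := by
  classical
  let _ : CommGroup G := { ‹Group G› with mul_comm := hc }
  have hfin : Finite (G →* ℂˣ) :=
    Finite.of_equiv _ (CommGroup.monoidHom_mulEquiv_of_hasEnoughRootsOfUnity G ℂ).some.symm.toEquiv
  refine ⟨Fintype.ofFinite _, fun x => ?_⟩
  let _ : Fintype (G →* ℂˣ) := Fintype.ofFinite _
  by_cases hx : x = 1
  · rw [if_pos hx, hx]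
    simp
  · rw [if_neg hx]
    obtain ⟨φ, hφ⟩ := CommGroup.exists_apply_ne_one_of_hasEnoughRootsOfUnity G ℂ hx
    have h1 : ∑ χ : G →* ℂˣ, ((χ x : ℂˣ) : ℂ) =
        ((φ x : ℂˣ) : ℂ) * ∑ χ : G →* ℂˣ, ((χ x : ℂˣ) : ℂ) := by
      rw [Finset.mul_sum]
      refine (Fintype.sum_equiv (Equiv.mulLeft φ) _ _ fun χ => ?_).symm
      rw [Equiv.coe_mulLeft, MonoidHom.mul_apply, Units.val_mul]
    have h2 : (1 - ((φ x : ℂˣ) : ℂ)) * ∑ χ : G →* ℂˣ, ((χ x : ℂˣ) : ℂ) = 0 := by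
      linear_combination h1
    rcases mul_eq_zero.1 h2 with h3 | h3
    · exfalso
      apply hφ
      apply Units.ext
      rw [Units.val_one]
      linear_combination -h3
    · exact h3

section

variable {K F : Type} [Field K] [NumberField K] [Field F] [NumberField F] [Algebra K F]

/-- the divisor of an ideal -/
def dvI (I : Ideal (𝓞 K)) : Dv K :=
  Finsupp.ofSupportFinite
    (fun v => FractionalIdeal.count K v (I : FractionalIdeal (nonZeroDivisors (𝓞 K)) K))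
    (by
      have h := FractionalIdeal.finite_factors (K := K)
        (I : FractionalIdeal (nonZeroDivisors (𝓞 K)) K)
      rw [Filter.eventually_cofinite] at h
      exact h)

theorem dvI_apply (I : Ideal (𝓞 K)) (v : HeightOneSpectrum (𝓞 K)) : dvI I v =
    FractionalIdeal.count K v (I : FractionalIdeal (nonZeroDivisors (𝓞 K)) K) := rfl

theorem dvI_mul {I J : Ideal (𝓞 K)} (hI : I ≠ ⊥) (hJ : J ≠ ⊥) : dvI (I * J) = dvI I + dvI J := by
  ext v
  rw [Finsupp.add_apply, dvI_apply, dvI_apply, dvI_apply, FractionalIdeal.coeIdeal_mul,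
    FractionalIdeal.count_mul]
  · exact FractionalIdeal.coeIdeal_ne_zero.2 hI
  · exact FractionalIdeal.coeIdeal_ne_zero.2 hJ

theorem dvI_top : dvI (⊤ : Ideal (𝓞 K)) = 0 := by
  ext v
  rw [dvI_apply, FractionalIdeal.coeIdeal_top, FractionalIdeal.count_one]
  rfl

theorem dvI_prime (v : HeightOneSpectrum (𝓞 K)) : dvI v.asIdeal = Finsupp.single v 1 := by
  classical
  ext w
  rw [dvI_apply, FractionalIdeal.count_maximal, Finsupp.single_apply]

theorem prin_eq (x : 𝓞 K) (u : Kˣ) (hu : (u : K) = (x : K)) :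
    prin u = dvI (Ideal.span {x}) := by
  ext v
  rw [dvI_apply, Pool.Agent.Q92.AR.prin_apply, FractionalIdeal.coeIdeal_span_singleton, hu]

/-- unramified prime ideals -/
theorem unram_of {v : HeightOneSpectrum (𝓞 K)} (h : Unram K F v) : Unramified F v := by
  intro w hw hle
  have hover : w.asIdeal.LiesOver v.asIdeal := by
    refine ⟨?_⟩
    rw [← hw]
    rfl
  refine (Pool.Agent.H588.ST.ram_iff K F v w hover).1 (h w hover) ?_
  exact Ideal.dvd_iff_le.2 hle

/-- the Artin symbol is a Frobenius automorphism -/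
theorem isFrobenius_a [IsGalois K F] {S : Finset (Place K)} {a : Ideal (𝓞 K) → Gal(F/K)}
    (ha : IsArtin S a) (v : HeightOneSpectrum (𝓞 K)) (hv : Sum.inr v ∉ S) :
    IsFrobenius v (a v.asIdeal) := by
  obtain ⟨w, hw, hwv, -⟩ := Pool.Agent.Q92.AR.frob_spec (M := F) v
  have h0 : w ≠ ⊥ := by
    intro h
    apply v.ne_bot
    rw [← hwv, h, ← RingHom.ker_eq_comap_bot]
    exact (RingHom.injective_iff_ker_eq_bot _).1 (FaithfulSMul.algebraMap_injective (𝓞 K) (𝓞 F))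
  refine ⟨w, hw, hwv, fun x => ?_⟩
  have hgx : IsIntegral ℤ (a v.asIdeal (x : F)) := x.2.map (a v.asIdeal)
  have hover : (⟨w, hw.isPrime, h0⟩ : HeightOneSpectrum (𝓞 F)).asIdeal.LiesOver v.asIdeal :=
    ⟨hwv.symm⟩
  refine ⟨⟨a v.asIdeal (x : F), hgx⟩ - x ^ Ideal.absNorm v.asIdeal, ?_, rfl⟩
  exact ha.frob v hv ⟨w, hw.isPrime, h0⟩ hover x _ rfl

theorem art_dvI [IsGalois K F] {S : Finset (Place K)}
    (hun : ∀ q : HeightOneSpectrum (𝓞 K), Sum.inr q ∉ S → Unram K F q)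
    {a : Ideal (𝓞 K) → Gal(F/K)} (ha : IsArtin S a) (ψ : Gal(F/K) →* ℂˣ) (I : Ideal (𝓞 K)) :
    PrimeTo S I → art ψ (dvI I) = Additive.ofMul (ψ (a I)) := by
  refine UniqueFactorizationMonoid.induction_on_prime I ?_ ?_ ?_
  · intro h
    exact absurd rfl h.1
  · intro I hI _
    rw [Ideal.isUnit_iff] at hI
    rw [hI, dvI_top, map_zero, ha.one, map_one]
    rfl
  · intro J p hJ hp ih hpJ
    obtain ⟨h1, h2⟩ := (primeTo_mul S p J).1 hpJ
    have hpp : p.IsPrime := Ideal.isPrime_of_prime hp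
    have hv : Sum.inr (⟨p, hpp, hp.ne_zero⟩ : HeightOneSpectrum (𝓞 K)) ∉ S := by
      have := (primeTo_prime S (⟨p, hpp, hp.ne_zero⟩ : HeightOneSpectrum (𝓞 K))).1 h1
      rwa [Finset.mem_toRight] at this
    have h3 : dvI p = Finsupp.single (⟨p, hpp, hp.ne_zero⟩ : HeightOneSpectrum (𝓞 K)) 1 :=
      dvI_prime (⟨p, hpp, hp.ne_zero⟩ : HeightOneSpectrum (𝓞 K))
    rw [dvI_mul hp.ne_zero hJ, map_add, ih h2, h3, Pool.Agent.Q92.AR.art_single, one_smul,
      ha.mul p J h1 h2, map_mul, ofMul_mul]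
    congr 2
    exact Pool.Agent.Q125.AR.chi_frob (unram_of (hun _ hv)) (Pool.Agent.Q92.AR.frob_spec _)
      (isFrobenius_a ha _ hv) ψ

open Classical in
/-- the character on the ideals -/
def eta (S : Finset (Place K)) (a : Ideal (𝓞 K) → Gal(F/K)) (ha : IsArtin S a)
    (ψ : Gal(F/K) →* ℂˣ) : Ideal (𝓞 K) →*₀ ℂ where
  toFun I := if PrimeTo S I then ((ψ (a I) : ℂˣ) : ℂ) else 0
  map_zero' := if_neg fun h => h.1 rfl
  map_one' := by
    rw [Ideal.one_eq_top, if_pos (primeTo_top S), ha.one, map_one, Units.val_one]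
  map_mul' I J := by
    by_cases hI : PrimeTo S I
    · by_cases hJ : PrimeTo S J
      · rw [if_pos hI, if_pos hJ, if_pos ((primeTo_mul S I J).2 ⟨hI, hJ⟩), ha.mul I J hI hJ,
          map_mul, Units.val_mul]
      · rw [if_neg hJ, mul_zero, if_neg fun h => hJ ((primeTo_mul S I J).1 h).2]
    · rw [if_neg hI, zero_mul, if_neg fun h => hI ((primeTo_mul S I J).1 h).1]

open Classical in
theorem eta_apply (S : Finset (Place K)) (a : Ideal (𝓞 K) → Gal(F/K)) (ha : IsArtin S a)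
    (ψ : Gal(F/K) →* ℂˣ) (I : Ideal (𝓞 K)) :
    eta S a ha ψ I = if PrimeTo S I then ((ψ (a I) : ℂˣ) : ℂ) else 0 := rfl

theorem eta_ne_zero {S : Finset (Place K)} {a : Ideal (𝓞 K) → Gal(F/K)} (ha : IsArtin S a)
    (ψ : Gal(F/K) →* ℂˣ) (I : Ideal (𝓞 K)) : eta S a ha ψ I ≠ 0 ↔ PrimeTo S I := by
  classical
  rw [eta_apply]
  by_cases hI : PrimeTo S I
  · rw [if_pos hI]
    exact ⟨fun _ => hI, fun _ => Units.ne_zero _⟩
  · rw [if_neg hI]
    exact ⟨fun h => absurd rfl h, fun h => absurd h hI⟩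

theorem eta_norm {S : Finset (Place K)} {a : Ideal (𝓞 K) → Gal(F/K)} (ha : IsArtin S a)
    (ψ : Gal(F/K) →* ℂˣ) (I : Ideal (𝓞 K)) : ‖eta S a ha ψ I‖ ≤ 1 := by
  classical
  rw [eta_apply]
  by_cases hI : PrimeTo S I
  · rw [if_pos hI]
    have : Finite Gal(F/K) := inferInstance
    have h1 : (ψ (a I)) ^ (Nat.card Gal(F/K)) = 1 := by
      rw [← map_pow, pow_card_eq_one', map_one]
    have h2 : ((ψ (a I) : ℂˣ) : ℂ) ^ (Nat.card Gal(F/K)) = 1 := by
      rw [← Units.val_pow_eq_pow_val, h1, Units.val_one]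
    exact (Complex.norm_eq_one_of_pow_eq_one h2 Nat.card_pos.ne').le
  · rw [if_neg hI, norm_zero]
    exact zero_le_one

theorem summ {S : Finset (Place K)} {a : Ideal (𝓞 K) → Gal(F/K)} (ha : IsArtin S a)
    (ψ : Gal(F/K) →* ℂˣ) {s : ℂ} (hs : 1 < s.re) :
    Summable (fun I : Ideal (𝓞 K) => eta S a ha ψ I * ((Ideal.absNorm I : ℕ) : ℂ) ^ (-s)) := by
  have h1 := (Pool.Agent.H509.Z0.hasSum_zeta K hs).summable.norm
  refine Summable.of_norm_bounded h1 fun I => ?_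
  rw [norm_mul, norm_mul]
  refine mul_le_mul_of_nonneg_right ?_ (norm_nonneg _)
  by_cases hI : I = ⊥
  · rw [hI]
    have h2 : eta S a ha ψ ⊥ = 0 := map_zero _
    rw [h2, norm_zero]
    exact norm_nonneg _
  · rw [Pool.Agent.H509.Z0.triv_of_ne K hI, norm_one]
    exact eta_norm ha ψ I

theorem norm_lt (v : HeightOneSpectrum (𝓞 K)) {s : ℂ} (hs : 1 < s.re) :
    ‖((Ideal.absNorm v.asIdeal : ℕ) : ℂ) ^ (-s)‖ < 1 := by
  have h1 : 1 < Ideal.absNorm v.asIdeal := by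
    have h2 : Ideal.absNorm v.asIdeal ≠ 0 := Ideal.absNorm_ne_zero_iff_mem_nonZeroDivisors.2
      (mem_nonZeroDivisors_of_ne_zero v.ne_bot)
    have h3 : Ideal.absNorm v.asIdeal ≠ 1 := by
      intro h
      exact v.isPrime.ne_top (Ideal.absNorm_eq_one_iff.1 h)
    omega
  rw [Complex.norm_natCast_cpow_of_pos (by omega)]
  apply Real.rpow_lt_one_of_one_lt_of_neg
  · exact_mod_cast h1
  · rw [Complex.neg_re]
    linarith

/-- the trivial character -/
theorem L_one {S : Finset (Place K)} {a : Ideal (𝓞 K) → Gal(F/K)} (ha : IsArtin S a) :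
    ∃ L : ℂ → ℂ, DifferentiableOn ℂ L {1}ᶜ ∧ ∀ s : ℂ, 1 < s.re →
      HasSum (fun I : Ideal (𝓞 K) => eta S a ha 1 I * ((Ideal.absNorm I : ℕ) : ℂ) ^ (-s)) (L s) := by
  classical
  obtain ⟨Z, ⟨hZd, hZe⟩, -⟩ := Pool.Agent.H509.Z0.zeta_cont K
  have hNv : ∀ v : HeightOneSpectrum (𝓞 K), ((Ideal.absNorm v.asIdeal : ℕ) : ℂ) ≠ 0 := by
    intro v
    have h2 : Ideal.absNorm v.asIdeal ≠ 0 := Ideal.absNorm_ne_zero_iff_mem_nonZeroDivisors.2
      (mem_nonZeroDivisors_of_ne_zero v.ne_bot)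
    exact_mod_cast h2
  refine ⟨fun s => Z s * ∏ v ∈ S.toRight, (1 - ((Ideal.absNorm v.asIdeal : ℕ) : ℂ) ^ (-s)), ?_, ?_⟩
  · intro s hs
    refine ((hZd s hs).mul ?_).differentiableWithinAt
    refine DifferentiableAt.fun_finsetProd fun v _ => ?_
    refine (differentiableAt_const _).sub ?_
    exact differentiableAt_id.neg.const_cpow (Or.inl (hNv v))
  · intro s hs
    set f : Ideal (𝓞 K) → ℂ := fun I => eta S a ha 1 I * ((Ideal.absNorm I : ℕ) : ℂ) ^ (-s) with hf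
    set f0 : Ideal (𝓞 K) → ℂ := fun I => Pool.Agent.H509.Z0.triv K I *
      ((Ideal.absNorm I : ℕ) : ℂ) ^ (-s) with hf0
    have cmi : ∀ φ : Ideal (𝓞 K) →*₀ ℂ, Summable (fun I : Ideal (𝓞 K) =>
        φ I * ((Ideal.absNorm I : ℕ) : ℂ) ^ (-s)) →
        CMI (fun I : Ideal (𝓞 K) => φ I * ((Ideal.absNorm I : ℕ) : ℂ) ^ (-s)) := by
      intro φ hφ
      refine ⟨?_, ?_, ?_, hφ⟩
      · have h2 : φ ⊥ = 0 := map_zero _
        rw [h2, zero_mul]
      · have h2 : φ ⊤ = 1 := by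
          rw [← Ideal.one_eq_top]
          exact map_one φ
        rw [h2, Ideal.absNorm_top, Nat.cast_one, Complex.one_cpow, mul_one]
      · intro I J
        rw [map_mul, map_mul, Nat.cast_mul, Complex.natCast_mul_natCast_cpow]
        ring
    have hsum : Summable f := summ ha 1 hs
    have hz := Pool.Agent.H509.Z0.hasSum_zeta K hs
    have h1 := hasProdI (cmi (eta S a ha 1) hsum)
    have h2 := hasProdI (cmi (Pool.Agent.H509.Z0.triv K) hz.summable)
    rw [hz.tsum_eq] at h2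
    have hg : HasProd (fun v : HeightOneSpectrum (𝓞 K) => if v ∈ S.toRight then
        (1 - ((Ideal.absNorm v.asIdeal : ℕ) : ℂ) ^ (-s)) else 1)
        (∏ v ∈ S.toRight, if v ∈ S.toRight then
          (1 - ((Ideal.absNorm v.asIdeal : ℕ) : ℂ) ^ (-s)) else 1) :=
      hasProd_prod_of_ne_finset_one fun v hv => if_neg hv
    have h3 := h2.mul hg
    have h4 : (fun v : HeightOneSpectrum (𝓞 K) =>
        (1 - Pool.Agent.H509.Z0.triv K v.asIdeal * ((Ideal.absNorm v.asIdeal : ℕ) : ℂ) ^ (-s))⁻¹ *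
        (if v ∈ S.toRight then (1 - ((Ideal.absNorm v.asIdeal : ℕ) : ℂ) ^ (-s)) else 1)) =
        fun v : HeightOneSpectrum (𝓞 K) =>
          (1 - eta S a ha 1 v.asIdeal * ((Ideal.absNorm v.asIdeal : ℕ) : ℂ) ^ (-s))⁻¹ := by
      funext v
      rw [Pool.Agent.H509.Z0.triv_of_ne K v.ne_bot, one_mul, eta_apply]
      by_cases hv : v ∈ S.toRight
      · rw [if_pos hv, if_neg fun h => ((primeTo_prime S v).1 h) hv, zero_mul, sub_zero, inv_one]
        apply inv_mul_cancel₀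
        intro h
        have h5 := norm_lt v hs
        rw [sub_eq_zero] at h
        rw [← h, norm_one] at h5
        exact lt_irrefl _ h5
      · rw [if_neg hv, if_pos ((primeTo_prime S v).2 hv), MonoidHom.one_apply, Units.val_one,
          one_mul, mul_one]
    rw [h4] at h3
    have h5 := h1.unique h3
    have h6 : ∏ v ∈ S.toRight, (if v ∈ S.toRight then
          (1 - ((Ideal.absNorm v.asIdeal : ℕ) : ℂ) ^ (-s)) else 1) =
        ∏ v ∈ S.toRight, (1 - ((Ideal.absNorm v.asIdeal : ℕ) : ℂ) ^ (-s)) :=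
      Finset.prod_congr rfl fun v hv => if_pos hv
    rw [h6] at h5
    simp only [hZe s hs]
    rw [← h5]
    exact hsum.hasSum

theorem exists_pow {N : ℕ} (hN : N ≠ 0) (v : HeightOneSpectrum (𝓞 K)) :
    ∃ k : ℕ, ∀ n : ℕ, k ≤ n → ∀ x : 𝓞 K, x ∈ v.asIdeal ^ n →
      v.valuation K (x : K) ≤ v.valuation K (N : K) := by
  have h0 : (N : 𝓞 K) ≠ 0 := by exact_mod_cast hN
  have h1 : v.intValuation (N : 𝓞 K) ≠ 0 := v.intValuation_ne_zero _ h0
  refine ⟨(-WithZero.log (v.intValuation (N : 𝓞 K))).toNat, fun n hn x hx => ?_⟩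
  have h2 := (v.intValuation_le_pow_iff_mem x n).2 hx
  have h3 : v.valuation K (N : K) = v.intValuation (N : 𝓞 K) := by
    rw [← v.valuation_of_algebraMap (K := K)]
    simp
  rw [v.valuation_of_algebraMap, h3]
  refine h2.trans ?_
  rw [← WithZero.exp_log h1, WithZero.exp_le_exp]
  have h4 := Int.self_le_toNat (-WithZero.log (v.intValuation (N : 𝓞 K)))
  have h5 : (((-WithZero.log (v.intValuation (N : 𝓞 K))).toNat : ℕ) : ℤ) ≤ (n : ℤ) := by
    exact_mod_cast hn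
  linarith

/-- the nontrivial characters -/
theorem L_ne [IsGalois K F] {S : Finset (Place K)}
    (hun : ∀ q : HeightOneSpectrum (𝓞 K), Sum.inr q ∉ S → Unram K F q)
    (hfin : ∃ q : HeightOneSpectrum (𝓞 K), Sum.inr q ∈ S)
    {a : Ideal (𝓞 K) → Gal(F/K)} (ha : IsArtin S a) (ψ : Gal(F/K) →* ℂˣ) (hψ : ψ ≠ 1) :
    ∃ L : ℂ → ℂ, DifferentiableOn ℂ L {1}ᶜ ∧ ∀ s : ℂ, 1 < s.re →
      HasSum (fun I : Ideal (𝓞 K) => eta S a ha ψ I * ((Ideal.absNorm I : ℕ) : ℂ) ^ (-s)) (L s) := by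
  classical
  obtain ⟨N, hN0, -, hN⟩ := Pool.Agent.H389.BT.recd K F ψ
  choose k hk using fun v : HeightOneSpectrum (𝓞 K) => exists_pow hN0 v
  obtain ⟨q0, hq0⟩ := hfin
  have hq0' : q0 ∈ S.toRight := Finset.mem_toRight.2 hq0
  obtain ⟨n, hn1, hnk⟩ : ∃ n : ℕ, 0 < n ∧ ∀ v ∈ S.toRight, k v ≤ n :=
    ⟨1 + ∑ v ∈ S.toRight, k v, by omega, fun v hv => by
      have := Finset.single_le_sum (f := k) (fun i _ => Nat.zero_le _) hv
      omega⟩
  obtain ⟨m, hm⟩ : ∃ m : Ideal (𝓞 K), m = ∏ v ∈ S.toRight, v.asIdeal ^ n := ⟨_, rfl⟩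
  have hmle : ∀ v ∈ S.toRight, m ≤ v.asIdeal ^ n := by
    intro v hv
    rw [hm]
    exact Ideal.le_of_dvd (Finset.dvd_prod_of_mem (fun v : HeightOneSpectrum (𝓞 K) => v.asIdeal ^ n) hv)
  have hmle' : ∀ v ∈ S.toRight, m ≤ v.asIdeal := fun v hv =>
    (hmle v hv).trans (Ideal.pow_le_self hn1.ne')
  have hcop : ∀ I : Ideal (𝓞 K), IsCoprime I m ↔ PrimeTo S I := by
    intro I
    rw [hm, IsCoprime.prod_right_iff]
    constructor
    · intro h
      have h1 : ∀ q : HeightOneSpectrum (𝓞 K), Sum.inr q ∈ S → ¬ I ≤ q.asIdeal := by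
        intro q hq hle
        have h2 := (IsCoprime.pow_right_iff hn1).1 (h q (Finset.mem_toRight.2 hq))
        rw [Ideal.isCoprime_iff_sup_eq, sup_eq_right.2 hle] at h2
        exact q.isPrime.ne_top h2
      refine ⟨?_, h1⟩
      rintro rfl
      exact h1 q0 hq0 bot_le
    · intro h v hv
      rw [IsCoprime.pow_right_iff hn1, Ideal.isCoprime_iff_sup_eq]
      have h2 := h.2 v (Finset.mem_toRight.1 hv)
      by_contra h3
      have h4 : v.asIdeal = I ⊔ v.asIdeal := v.isMaximal.eq_of_le h3 le_sup_right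
      exact h2 (le_sup_left.trans h4.ge)
  have hm0 : m ≠ ⊥ := by
    rw [hm]
    exact Finset.prod_ne_zero_iff.2 fun v _ => pow_ne_zero _ v.ne_bot
  have hmt : m ≠ ⊤ := by
    intro h
    have := hmle' q0 hq0'
    rw [h] at this
    exact q0.isPrime.ne_top (top_le_iff.1 this)
  -- the values at the elements of the ray
  have hray : ∀ x : 𝓞 K, x ≠ 0 → x - 1 ∈ m → Pool.Agent.Y773.TPos K x →
      eta S a ha ψ (Ideal.span {x}) = 1 := by
    intro x hx hxm hpos
    have hpr : PrimeTo S (Ideal.span {x}) := by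
      rw [← hcop, Ideal.isCoprime_iff_sup_eq, Ideal.eq_top_iff_one]
      have h1 : (1 : 𝓞 K) = x - (x - 1) := by ring
      rw [h1]
      exact Ideal.sub_mem _ (Ideal.mem_sup_left (Ideal.mem_span_singleton_self x))
        (Ideal.mem_sup_right hxm)
    have hxK : (x : K) ≠ 0 := by simpa using hx
    have h1 := hN (Units.mk0 (x : K) hxK) (fun v hv => by
      have hvS : v ∈ S.toRight := by
        by_contra h
        rw [Finset.mem_toRight] at h
        exact Pool.Agent.H389.BT.ramAt_ram hv (unram_of (hun v h))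
      have h2 := hk v n (hnk v hvS) (x - 1) (hmle v hvS hxm)
      simpa using h2) (fun φ _ => hpos φ)
    rw [prin_eq x _ rfl, art_dvI hun ha ψ _ hpr] at h1
    have h2 : ψ (a (Ideal.span {x})) = 1 := h1
    rw [eta_apply, if_pos hpr, h2, Units.val_one]
  obtain ⟨e, he1, he2, he3⟩ := Pool.Agent.Y772.G.t_sig K m (eta S a ha ψ) hm0 hray
  have hmod : Pool.Agent.Y773.G.IsModChar m e (eta S a ha ψ) :=
    { ne_bot := hm0
      ne_top := hmt
      sig_le := he1
      cpx := he2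
      supp := fun I => by rw [eta_ne_zero, hcop]
      sig := he3 }
  -- a nontrivial value
  have hval : ∃ I : Ideal (𝓞 K), IsCoprime I m ∧ eta S a ha ψ I ≠ 1 := by
    obtain ⟨g, hg⟩ : ∃ g, ψ g ≠ 1 := by
      by_contra h
      push Not at h
      exact hψ (MonoidHom.ext h)
    obtain ⟨v, hvS, P, hP, hfr⟩ := Pool.Agent.H509.exists_of_pos
      (Pool.Agent.K3h73.RS.t_CHEB K F g S.toRight)
    have hv : Sum.inr v ∉ S := fun h => hvS (Finset.mem_toRight.2 h)
    have hfg : IsFrobenius v g := by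
      refine ⟨P.asIdeal, P.isMaximal, Pool.Agent.K3h30.RS.above_singleton.1 hP, fun x => ?_⟩
      have hgx : IsIntegral ℤ (g (x : F)) := x.2.map g
      refine ⟨⟨g (x : F), hgx⟩ - x ^ Ideal.absNorm v.asIdeal, ?_, rfl⟩
      rw [← HeightOneSpectrum.valuation_lt_one_iff_mem (K := F)]
      exact hfr x
    have h1 : ψ g = ψ (a v.asIdeal) :=
      Pool.Agent.Q125.AR.chi_frob (unram_of (hun _ hv)) hfg (isFrobenius_a ha _ hv) ψ
    refine ⟨v.asIdeal, (hcop _).2 ((primeTo_prime S v).2 hvS), ?_⟩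
    rw [eta_apply, if_pos ((primeTo_prime S v).2 hvS), ← h1]
    intro h2
    exact hg (Units.ext h2)
  obtain ⟨L, hL1, hL2⟩ := Pool.Agent.Y773.G.t_ent K m (eta S a ha ψ) e hmod hval
  refine ⟨L, hL1.differentiableOn, fun s hs => ?_⟩
  rw [hL2 s hs]
  exact (summ ha ψ hs).hasSum

end

/-- **ZEX** -/
theorem zex : S_ZEX := by
  classical
  intro K F _ _ _ _ _ _ S _ hun hfin a ha g
  obtain ⟨_, horth⟩ := orthx (G := Gal(F/K)) fun x y => mul_comm' x y
  have hL : ∀ χ : Gal(F/K) →* ℂˣ, ∃ L : ℂ → ℂ, DifferentiableOn ℂ L {1}ᶜ ∧ ∀ s : ℂ, 1 < s.re →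
      HasSum (fun I : Ideal (𝓞 K) => eta S a ha χ I * ((Ideal.absNorm I : ℕ) : ℂ) ^ (-s)) (L s) := by
    intro χ
    by_cases h : χ = 1
    · rw [h]
      exact L_one ha
    · exact L_ne hun hfin ha χ h
  choose L hL1 hL2 using hL
  refine ⟨fun s => (Fintype.card (Gal(F/K) →* ℂˣ) : ℂ)⁻¹ *
    ∑ χ : Gal(F/K) →* ℂˣ, ((χ g⁻¹ : ℂˣ) : ℂ) * L χ s, ?_, ?_⟩
  · exact (DifferentiableOn.fun_sum fun χ _ => (hL1 χ).const_mul _).const_mul _
  · intro s hs
    have h1 := (hasSum_sum (s := (Finset.univ : Finset (Gal(F/K) →* ℂˣ))) fun χ _ =>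
      (hL2 χ s hs).mul_left ((χ g⁻¹ : ℂˣ) : ℂ)).mul_left (Fintype.card (Gal(F/K) →* ℂˣ) : ℂ)⁻¹
    have hc : (Fintype.card (Gal(F/K) →* ℂˣ) : ℂ) ≠ 0 := by
      have : Fintype.card (Gal(F/K) →* ℂˣ) ≠ 0 := Fintype.card_ne_zero
      exact_mod_cast this
    refine h1.congr_fun fun I => ?_
    by_cases hI : PrimeTo S I
    · have h2 : ∀ χ : Gal(F/K) →* ℂˣ, ((χ g⁻¹ : ℂˣ) : ℂ) *
          (eta S a ha χ I * ((Ideal.absNorm I : ℕ) : ℂ) ^ (-s)) =
          ((χ (g⁻¹ * a I) : ℂˣ) : ℂ) * ((Ideal.absNorm I : ℕ) : ℂ) ^ (-s) := by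
        intro χ
        rw [eta_apply, if_pos hI, map_mul, Units.val_mul]
        ring
      simp only [h2]
      rw [← Finset.sum_mul, horth]
      by_cases hg : a I = g
      · rw [if_pos ⟨hI, hg⟩, if_pos (by rw [hg, inv_mul_cancel]), ← mul_assoc, inv_mul_cancel₀ hc,
          one_mul]
      · rw [if_neg fun h => hg h.2, if_neg fun h => hg (inv_mul_eq_one.1 h).symm, zero_mul, mul_zero]
    · rw [if_neg fun h => hI h.1]
      symm
      apply mul_eq_zero_of_right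
      apply Finset.sum_eq_zero
      intro χ _
      rw [eta_apply, if_neg hI, zero_mul, mul_zero]

end Pool.Agent.H650.MO
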