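import Pool.Agent.H509.MO.Stm
import Pool.Agent.H509.ST.Fin

/-!
# Project MO (helper509, MP_6bf7a3_nt), brick ZVAL (helper878)

If a place of `S` is totally split and `S` has at least three elements, the partial zeta functions
vanish at `s = 0`.
-/

set_option autoImplicit false
set_option linter.unusedSectionVars false

open NumberField IsDedekindDomain Filter Topology

noncomputable section

namespace Pool.Agent.H878.MO

open Pool.Agent.K3h30.RS (Fixes Above IsFrob)
open Pool.Agent.K3h56.E2 (Quad Dict loc SplAt splAt_inl splAt_inr exists_over squarefree_mid)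
open Pool.Agent.N598.ST (IsArtin IsZeta TotallySplit Unram Place)
open Pool.Agent.STk (S_EUL S_SPL S_UNR CG toCG toCG_smul)
open Pool.Agent.MO (S_ZVAL)
open Pool.Agent.H115.ST (orth over_iff isFrob)

/-- A function with a zero of order at least one at `0`. -/
theorem val_zero {L : ℂ → ℂ} (hL : DifferentiableOn ℂ L {1}ᶜ) {n : ℕ} (hn : 1 ≤ n) {q : ℂ}
    (h : Tendsto (fun s : ℂ => (s ^ n)⁻¹ * L s) (𝓝[≠] 0) (𝓝 q)) : L 0 = 0 := by
  have hd : DifferentiableAt ℂ L 0 :=
    hL.differentiableAt (isOpen_compl_singleton.mem_nhds (by simp))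
  have hp : Tendsto (fun s : ℂ => s ^ n) (𝓝[≠] 0) (𝓝 0) := by
    have h2 : Tendsto (fun s : ℂ => s ^ n) (𝓝 0) (𝓝 (0 ^ n)) := (continuous_pow _).tendsto _
    rw [zero_pow (by omega)] at h2
    exact h2.mono_left nhdsWithin_le_nhds
  have h0 : Tendsto L (𝓝[≠] 0) (𝓝 0) := by
    have h2 := hp.mul h
    rw [zero_mul] at h2
    refine h2.congr' ?_
    filter_upwards [self_mem_nhdsWithin] with s hs
    have hs0 : s ≠ 0 := hs
    field_simp
  exact tendsto_nhds_unique (hd.continuousAt.tendsto.mono_left nhdsWithin_le_nhds) h0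

theorem zval_aux (hEul : S_EUL) (hSpl : S_SPL) (hUnr : S_UNR) (K H G : Type) [Field K]
    [NumberField K] [Field H]
    [NumberField H] [Algebra K H] [CommGroup G] [Finite G] [MulSemiringAction G H]
    [IsGaloisGroup G K H] (e : Gal(H/K) ≃* G) (he : ∀ (g : Gal(H/K)) (x : H), e g • x = g x)
    (hG : ∀ g : G, g * g = 1) (S : Finset (Place K))
    (hinf : ∀ v : InfinitePlace K, Sum.inl v ∈ S)
    (hram : ∀ v : HeightOneSpectrum (𝓞 K), Sum.inr v ∉ S → Unram K H v) (hcard : 3 ≤ S.card)
    (p : Place K) (hp : p ∈ S) (hps : TotallySplit K H p)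
    (a : Ideal (𝓞 K) → Gal(H/K)) (ha : IsArtin S a) (Z : Gal(H/K) → ℂ → ℂ)
    (hZ : ∀ g, IsZeta S a g (Z g)) (g0 : Gal(H/K)) : Z g0 0 = 0 := by
  classical
  have hgal : IsGalois K H := IsGaloisGroup.isGalois G K H
  let _ : Fintype G := Fintype.ofFinite G
  have hZ0 := Pool.Agent.H509.Z0.t_ZETA0X
  have hZP := Pool.Agent.H509.E2.zprod
  have hLim := Pool.Agent.K3h11.E2.t_LIMX
  have hLim1 := Pool.Agent.K3h66.E2.t_LIM1X
  have hLoc := Pool.Agent.K3h25.E2.t_LOC
  have hDict := Pool.Agent.K3h41.E2.t_DICT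
  have hFrob := Pool.Agent.K3h72.E2.t_FROB hLoc
  have hFw := Pool.Agent.K3h72.E2.t_FINW hLoc
  have hIw := Pool.Agent.K3h50.E2.t_INFW
  have hCount := Pool.Agent.K3h50.E2.t_COUNT
  -- the number of the places
  have hScard : S.card = Fintype.card (InfinitePlace K) + S.toRight.card := by
    have h1 : S = (Finset.univ : Finset (InfinitePlace K)).disjSum S.toRight := by
      ext x
      rcases x with v | v
      · rw [Finset.inl_mem_disjSum]
        exact ⟨fun _ => Finset.mem_univ v, fun _ => hinf v⟩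
      · rw [Finset.inr_mem_disjSum, Finset.mem_toRight]
    conv_lhs => rw [h1]
    rw [Finset.card_disjSum, Finset.card_univ]
  -- the L-functions
  have hLd : ∀ χ : G →* ℂˣ, DifferentiableOn ℂ
      (fun s : ℂ => ∑ g : Gal(H/K), ((χ (e g) : ℂˣ) : ℂ) * Z g s) {1}ᶜ := by
    intro χ
    exact DifferentiableOn.fun_sum fun g _ => (hZ g).hol.const_mul _
  have hLz : ∀ χ : G →* ℂˣ,
      (fun s : ℂ => ∑ g : Gal(H/K), ((χ (e g) : ℂˣ) : ℂ) * Z g s) 0 = 0 := by
    intro χ
    have hE := hEul K H G e S a ha Z hZ χ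
    by_cases hχ : χ = 1
    · -- the trivial character
      subst hχ
      obtain ⟨q1, hq1, -⟩ := hLim1 hZ0 K S.toRight
        (fun s : ℂ => ∑ g : Gal(H/K), (((1 : G →* ℂˣ) (e g) : ℂˣ) : ℂ) * Z g s) (hLd 1)
        (fun s hs => by
          have h1 := hE s hs
          simpa using h1)
      exact val_zero (hLd 1) (by omega) hq1
    · -- the nontrivial characters
      have hsq : ∀ g : G, χ g * χ g = 1 := fun g => by rw [← map_mul, hG, map_one]
      have hex : ∃ g : G, χ g ≠ 1 := by
        by_contra hcon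
        push Not at hcon
        exact hχ (MonoidHom.ext hcon)
      obtain ⟨E, _, _, _, _, τ, hd⟩ := hDict K H G χ hsq hex
      have htw : IsScalarTower K E H := hd.tower
      obtain ⟨A0, hA0, hA0c⟩ := exists_over hLoc hd.quad S.toRight
      -- the infinite places
      have hA : Fintype.card {v : InfinitePlace K // SplAt H χ (Sum.inl v)} +
          Fintype.card (InfinitePlace K) = Fintype.card (InfinitePlace E) := by
        rw [← hCount K E τ hd.quad, Nat.card_eq_fintype_card]
        congr 1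
        exact Fintype.card_congr (Equiv.subtypeEquivRight fun v => splAt_inl hIw hd v)
      set B : Finset (HeightOneSpectrum (𝓞 K)) := S.toRight.filter fun v => loc E v = 1 with hBdef
      set A : Finset (InfinitePlace K) := Finset.univ.filter fun v => SplAt H χ (Sum.inl v)
        with hAdef
      have hAcard : A.card + Fintype.card (InfinitePlace K) = Fintype.card (InfinitePlace E) := by
        rw [← hA, hAdef, Fintype.card_subtype]
      set P : Finset (InfinitePlace K ⊕ HeightOneSpectrum (𝓞 K)) := A.disjSum B with hPdef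
      have hPcard : P.card = A.card + B.card := Finset.card_disjSum _ _
      -- the totally split places belong to `P`
      have hPmem : ∀ x : Place K, x ∈ S → TotallySplit K H x → x ∈ P := by
        intro x hx hxs
        have h1 := (hSpl K H G x).1 hxs
        rcases x with v | v
        · rw [hPdef, Finset.inl_mem_disjSum, hAdef, Finset.mem_filter]
          refine ⟨Finset.mem_univ v, fun w hw γ hγ => ?_⟩
          rw [h1 (Sum.inl w) hw γ hγ, map_one]
        · rw [hPdef, Finset.inr_mem_disjSum, hBdef, Finset.mem_filter]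
          refine ⟨Finset.mem_toRight.2 hx, (splAt_inr hFw hd v).1 fun w hw γ hγ => ?_⟩
          rw [h1 (Sum.inr w) (over_iff.1 hw) γ hγ, map_one]
      have hP2 : 1 ≤ P.card := Finset.card_pos.2 ⟨p, hPmem _ hp hps⟩
      -- the Euler product
      have heuler : ∀ s : ℂ, 1 < s.re →
          HasProd (fun v : {v : HeightOneSpectrum (𝓞 K) // v ∉ S.toRight} =>
            (1 - ((loc E (v : HeightOneSpectrum (𝓞 K)) : ℤ) : ℂ) *
              (Ideal.absNorm (v : HeightOneSpectrum (𝓞 K)).asIdeal : ℂ) ^ (-s))⁻¹)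
            (∑ g : Gal(H/K), ((χ (e g) : ℂˣ) : ℂ) * Z g s) := by
        intro s hs
        have h1 := hE s hs
        have h2 : ∀ v : {v : HeightOneSpectrum (𝓞 K) // v ∉ S.toRight},
            ((χ (e (a (v : HeightOneSpectrum (𝓞 K)).asIdeal)) : ℂˣ) : ℂ) =
              ((loc E (v : HeightOneSpectrum (𝓞 K)) : ℤ) : ℂ) := fun v => by
          have hv : Sum.inr (v : HeightOneSpectrum (𝓞 K)) ∉ S := fun h =>
            v.2 (Finset.mem_toRight.2 h)
          exact (hFrob K H G E τ χ hd v _ ((hUnr K H v).1 (hram v hv))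
            (isFrob e he ha v hv)).symm
        simp only [h2] at h1
        exact h1
      obtain ⟨-, q1, hq1, -⟩ := hLim hZ0 hZP hLoc K E τ hd.quad S.toRight A0 hA0
        (fun s : ℂ => ∑ g : Gal(H/K), ((χ (e g) : ℂˣ) : ℂ) * Z g s) (hLd χ) heuler (by omega)
      exact val_zero (hLd χ) (by omega) hq1
  -- orthogonality
  have h1 := orth (fun g : G => Z (e.symm g) 0) (fun χ => by
    refine Eq.trans ?_ (hLz χ)
    refine Fintype.sum_equiv e.symm.toEquiv _ _ fun g => ?_
    simp) (e g0)
  simpa using h1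

/-- **Brick ZVAL.** -/
theorem zval : S_ZVAL := by
  intro K F _ _ _ _ _ _ h2 S hinf hram hcard p hp hps a ha Z hZ g
  exact zval_aux Pool.Agent.H596.ST.eul Pool.Agent.H181.ST.spl Pool.Agent.H588.ST.unr K F
    (CG K F) (toCG K F) (toCG_smul K F) h2 S hinf hram hcard p hp hps a ha Z hZ g

end Pool.Agent.H878.MO
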