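import Pool.Agent.H509.MO.Asm
import Pool.Agent.H509.MO.DIC
import Pool.Agent.H509.MO.GD
import Pool.Agent.H509.MO.CNT
import Pool.Agent.H509.MO.NN
import Pool.Agent.H509.MO.APX
import Pool.Agent.H509.MO.RCX
import Pool.Agent.H509.MO.UNT
import Pool.Agent.H509.MO.COND
import Pool.Agent.H509.MO.CONJ
import Pool.Agent.H509.MO.EXA
import Pool.Agent.H509.MO.PRIN
import Pool.Agent.H509.MO.ZEX
import Pool.Agent.H509.MO.ZVAL
import Pool.Agent.H509.MO.LEV
import Pool.Agent.H509.MO.ABR
import Pool.Agent.H509.MO.LVL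
import Pool.Agent.H509.MO.CLS
import Pool.Agent.H509.MO.FINA

/-!
# Project MO: all parts

DIC (helper685), GD (helper618), CNT (helper345), NN, ZVAL (helper878), APX (helper161), RCX (helper870),
UNT (helper294), COND (helper236), CONJ (helper788), EXA (helper686), PRIN (helper588), ZEX (helper650),
LEV (helper79), ABR (helper720), LVL (helper328), CLS (helper376), FINA (helper97); design, Core, Asm:
helper509.
-/

set_option autoImplicit false

namespace Pool.Agent.MO

theorem all : All where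
  dic := Pool.Agent.H685.MO.dic
  gd := Pool.Agent.H618.MO.gd
  cnt := Pool.Agent.H345.MO.cnt'
  nn := Pool.Agent.H878.MO.nn'
  apx := Pool.Agent.H161.MO.apx
  rcx := Pool.Agent.H870.MO.rcx
  unt := Pool.Agent.H294.MO.unt
  cond := Pool.Agent.H236.MO.cond
  conj := Pool.Agent.H788.MO.conj
  exa := Pool.Agent.H686.MO.exa
  prin := Pool.Agent.H588.MO.prin'
  zex := Pool.Agent.H650.MO.zex
  zval := Pool.Agent.H878.MO.zval
  lev := Pool.Agent.H79.MO.lev
  abr := Pool.Agent.H720.MO.abr
  lvl := Pool.Agent.H328.MO.lvl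
  cls := Pool.Agent.H376.MO.cls
  fina := Pool.Agent.H97.MO.fina

end Pool.Agent.MO
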