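import Pool.Agent.H509.MO.EStm

/-!
# Project MO of helper509, part GRP: the ray class group of an order as a group
-/

set_option autoImplicit false

namespace Pool.Agent.H183.MO

open Pool.Agent.MO
open Pool.Agent.W206.MS (OL IsOrder IsInv InJ InP Loc Md InducesIso OL_mul_OL good_OL one_mod_mul
  one_mod_inv loc_of_mem)

section

variable {K : Type} [Field K] {O : Subalgebra ℤ K} {m : Submodule ℤ K}

theorem grp_inv {j : Submodule ℤ K} (hj : InJ O m j) :
    ∃ j' : Submodule ℤ K, InJ O m j' ∧ j' * j = OL O := by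
  obtain ⟨hinv, a₁, a₂, h1, h2, h3, h4, h5, h6⟩ := hj
  obtain ⟨hst, j', hj', hjj⟩ := id hinv
  have hjj' : j' * j = OL O := by rw [mul_comm]; exact hjj
  have h7 : IsInv O a₁ := by rw [← h6]; exact hinv.mul h3
  refine ⟨j', ⟨⟨hj', j, hst, hjj'⟩, a₂, a₁, h2, h1, h7, h5, h4, ?_⟩, hjj'⟩
  rw [← h6, ← mul_assoc, hjj', h3.stable]

/-- the group `J_m` -/
@[reducible] noncomputable def JG (hm : Md O m) : CommGroup {a : Submodule ℤ K // InJ O m a} where
  mul a b := ⟨a.1 * b.1, a.2.mul hm b.2⟩
  mul_assoc a b c := Subtype.ext (mul_assoc a.1 b.1 c.1)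
  one := ⟨OL O, (good_OL O m).inJ hm⟩
  one_mul a := Subtype.ext a.2.1.stable
  mul_one a := Subtype.ext (by
    show a.1 * OL O = a.1
    rw [mul_comm]
    exact a.2.1.stable)
  inv a := ⟨(grp_inv a.2).choose, (grp_inv a.2).choose_spec.1⟩
  inv_mul_cancel a := Subtype.ext (grp_inv a.2).choose_spec.2
  mul_comm a b := Subtype.ext (mul_comm a.1 b.1)

theorem span_mul_span (α β : K) :
    (Submodule.span ℤ {α} * OL O) * (Submodule.span ℤ {β} * OL O) =
      Submodule.span ℤ {α * β} * OL O := by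
  have h1 : (Submodule.span ℤ {α} * OL O) * (Submodule.span ℤ {β} * OL O) =
      (Submodule.span ℤ {α} * Submodule.span ℤ {β}) * (OL O * OL O) := mul_mul_mul_comm _ _ _ _
  rw [h1, OL_mul_OL, Submodule.span_mul_span, Set.singleton_mul_singleton]

end

theorem grp : S_GRP := by
  classical
  intro K _ _ σ O m _ hmod
  have hm : Md O m := hmod.md
  let _ : CommGroup {a : Submodule ℤ K // InJ O m a} := JG hm
  have hone : ((1 : {a : Submodule ℤ K // InJ O m a}) : Submodule ℤ K) = OL O := rfl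
  have hmul : ∀ a b : {a : Submodule ℤ K // InJ O m a},
      ((a * b : {a : Submodule ℤ K // InJ O m a}) : Submodule ℤ K) = a.1 * b.1 := fun _ _ => rfl
  let P : Subgroup {a : Submodule ℤ K // InJ O m a} :=
    { carrier := {a | InP O m σ a.1}
      mul_mem' := by
        rintro a b ⟨α, h1, h2, h3⟩ ⟨β, k1, k2, k3⟩
        refine ⟨α * β, one_mod_mul hm h1 k1, by rw [map_mul]; exact mul_pos h2 k2, ?_⟩
        rw [hmul, h3, k3, span_mul_span]
      one_mem' := by
        refine ⟨1, ?_, by rw [map_one]; exact one_pos, ?_⟩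
        · rw [sub_self]
          exact loc_of_mem hm m.zero_mem
        · rw [hone, ← Submodule.one_eq_span, one_mul]
      inv_mem' := by
        rintro a ⟨α, h1, h2, h3⟩
        obtain ⟨h4, h5⟩ := one_mod_inv hm h1
        refine ⟨α⁻¹, h5, by rw [map_inv₀]; exact inv_pos.2 h2, ?_⟩
        have h6 : ((a⁻¹ * a : {a : Submodule ℤ K // InJ O m a}) : Submodule ℤ K) = OL O := by
          rw [inv_mul_cancel]
          rfl
        rw [hmul, h3] at h6
        have h7 : OL O * (a⁻¹ : {a : Submodule ℤ K // InJ O m a}).1 =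
            (a⁻¹ : {a : Submodule ℤ K // InJ O m a}).1 :=
          (a⁻¹ : {a : Submodule ℤ K // InJ O m a}).2.1.stable
        have h8 : (Submodule.span ℤ {α} * OL O) * (Submodule.span ℤ {α⁻¹} * OL O) = OL O := by
          rw [span_mul_span, mul_inv_cancel₀ h4, ← Submodule.one_eq_span, one_mul]
        calc (a⁻¹ : {a : Submodule ℤ K // InJ O m a}).1
            = (a⁻¹ : {a : Submodule ℤ K // InJ O m a}).1 *
              ((Submodule.span ℤ {α} * OL O) * (Submodule.span ℤ {α⁻¹} * OL O)) := by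
              rw [h8, mul_comm, h7]
          _ = OL O * (Submodule.span ℤ {α⁻¹} * OL O) := by rw [← mul_assoc, h6]
          _ = Submodule.span ℤ {α⁻¹} * OL O := by rw [mul_left_comm, OL_mul_OL] }
  refine ⟨{a : Submodule ℤ K // InJ O m a} ⧸ P, inferInstance,
    fun a => if h : InJ O m a then QuotientGroup.mk ⟨a, h⟩ else 1, ?_, ?_, ?_⟩
  · intro a b ha hb
    beta_reduce
    rw [dif_pos ha, dif_pos hb, dif_pos (ha.mul hm hb)]
    rfl
  · intro g
    obtain ⟨a, rfl⟩ := QuotientGroup.mk_surjective g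
    exact ⟨a.1, a.2, by beta_reduce; rw [dif_pos a.2]⟩
  · intro a ha
    beta_reduce
    rw [dif_pos ha, QuotientGroup.eq_one_iff]
    exact Iff.rfl

end Pool.Agent.H183.MO
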