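import Pool.Agent.H509.MO.EStm

/-!
# Project MO, task RGX: the ray class data of the maximal order from the ray class group of an order
(after the proof of `S_RCX` by helper870)
-/

set_option autoImplicit false

open NumberField IsDedekindDomain

noncomputable section

namespace Pool.Agent.H17.MO

open Pool.Agent.MO
open Pool.Agent.W206.MS (OL IsOrder IsInv InMonoid InJ InP Loc nn Pair sm Good REq Rel cnt IsZ idx
  InducesIso one_mem_OL mem_of_sup_eq sup_eq_of_mem loc_of_mem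
  good_OL stable_mul one_sm mul_sm sm_mul Md)

/-- the principal ideal which connects two ideals of `J_m` -/
theorem inJ_sm {K : Type} [Field K] {O : Subalgebra ℤ K} {m a : Submodule ℤ K} (hm : Md O m)
    {α : K} (hα : α ≠ 0) (ha : InJ O m a) (hg : Good O m (sm α a)) : InJ O m (sm α (OL O)) := by
  obtain ⟨hinv, a₁, a₂, h1, h2, hinv2, h3, h4, h5⟩ := ha
  refine ⟨(Pool.Agent.W206.MS.isInv_OL O).sm hα, sm α a * a₂, a₁, ?_, h1, ?_, ?_, h3, ?_⟩
  · rw [Submodule.mul_le]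
    exact fun x hx y hy => O.mul_mem (hg.le hx) (h2 hy)
  · rw [← h5]
    exact hinv.mul hinv2
  · obtain ⟨e, he, he'⟩ := hg.cop
    obtain ⟨f, hf, hf'⟩ := mem_of_sup_eq h4
    refine sup_eq_of_mem hm (stable_mul hg.inv.stable _) ?_ (Submodule.mul_mem_mul he hf) ?_
    · rw [Submodule.mul_le]
      exact fun x hx y hy => O.mul_mem (hg.le hx) (h2 hy)
    · have : 1 - e * f = (1 - e) + e * (1 - f) := by ring
      rw [this]
      exact m.add_mem he' (hm.mul _ (hg.le he) _ hf')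
  · rw [← h5, sm_mul, sm_mul, ← mul_assoc, hinv.stable]

theorem rgx : S_RGX := by
  intro hD hG K _ _ σ O m b P 𝔟 hb G _ Art hArt
  obtain ⟨hmem, -, htop, -, hsup, -, -, -, hidx⟩ := id (hD K)
  obtain ⟨hArtmul, hArtsurj, hArtker⟩ := hArt
  obtain ⟨g1, g2, g3, g4⟩ := hG hD K O m b P 𝔟 hb
  have hle : OL O ≤ OL (OK K) := P.le
  have hJ : ∀ J : Ideal (𝓞 K), J ⊔ 𝔟 = ⊤ → InJ O m (sub J ⊓ OL O) := fun J hJ =>
    ((g1 J hJ).2.1.mono P.bm).inJ P.mM
  have hray1 : ∀ α : K, α - 1 ∈ Loc O m m → 0 < σ α → InJ O m (sm α (OL O)) →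
      Art (sm α (OL O)) = 1 := by
    intro α h3 h4 h5
    exact (hArtker _ h5).2 ⟨α, h3, h4, rfl⟩
  refine ⟨?_, ?_, ?_, ?_⟩
  · have h3 : aO O Art ⊤ = Art (OL O) := by
      unfold aO
      rw [htop, inf_eq_right.2 hle]
    rw [h3, hArtker _ ((good_OL O m).inJ P.mM)]
    exact ⟨1, by simpa using loc_of_mem P.mM m.zero_mem, by simp, (one_sm _).symm⟩
  · intro I J hI hJ'
    unfold aO
    rw [g2 I J hI hJ', hArtmul _ _ (hJ I hI) (hJ J hJ')]
  · intro x hx hσx
    have h3 : Ideal.span {x} ⊔ 𝔟 = ⊤ := by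
      rw [Ideal.eq_top_iff_one]
      have : (1 : 𝓞 K) = x - (x - 1) := by ring
      rw [this]
      exact Ideal.sub_mem _ (Ideal.mem_sup_left (Ideal.mem_span_singleton_self x))
        (Ideal.mem_sup_right hx)
    have h4 := hJ _ h3
    obtain ⟨-, h5⟩ := g3 x hx
    unfold aO
    rw [h5] at h4 ⊢
    refine hray1 _ ?_ hσx h4
    apply loc_of_mem P.mM
    apply P.bm
    rw [← hb, hmem]
    exact ⟨x - 1, hx, rfl⟩
  · intro g
    obtain ⟨a, ha, rfl⟩ := hArtsurj g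
    obtain ⟨α, h3, h4, h5, h6⟩ := P.exists_rep σ ha
    have hα : α ≠ 0 := Pool.Agent.W206.MS.ne_zero_of_pos h4
    have hgood : Good O b (sm α a) := ⟨ha.1.sm hα, h5, h6⟩
    obtain ⟨J, hJ1, -, hJ3⟩ := g4 _ hgood
    refine ⟨J, hJ1, ?_⟩
    have h7 := inJ_sm P.mM hα ha (hgood.mono P.bm)
    have h8 : sm α a = sm α (OL O) * a := by rw [sm_mul, ha.1.stable]
    unfold aO
    rw [hJ3, h8, hArtmul _ _ h7 ha, hray1 α h3 h4 h7, one_mul]

end Pool.Agent.H17.MO
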