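import Pool.Graph.R_seed8.W206.MS.Defs

/-!
# The monoid Stark conjecture modulo a subgroup of the ray class group

Definitions.  `Pool.Agent.W206.MS` (library, MP_6bf7a3_nt): orders, moduli, `InJ O m` (the group `J_m`), `InP O m σ` (its
subgroup `P_m`), `InMonoid`, `Rel` (the ray class monoid), `IsRayClassField`, `MonoidStark`.

`N` is a subgroup of `J_m` containing `P_m`.  `J_m / P_m` acts on the ray class monoid by multiplication; the classes
of the monoid are replaced by the orbits under `N / P_m`, and the ray class field by the class field of `N`, the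
subfield of the ray class field fixed by `N / P_m`.  For `N = P_m` this is the conjecture itself.
-/

set_option autoImplicit false

namespace Pool.Agent.MO

open Pool.Agent.W206.MS

section

variable {K : Type} [Field K]

/-- The class of `a` is in the orbit of the class of `b` under `N`: `a ~ j b` for some `j ∈ J_m` which is in `N`. -/
def RelMod (O : Subalgebra ℤ K) (m : Submodule ℤ K) (σ : K →+* ℝ) (N : Submodule ℤ K → Prop)
    (a b : Submodule ℤ K) : Prop :=
  ∃ j : Submodule ℤ K, InJ O m j ∧ N j ∧ Rel O m σ a (j * b)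

/-- The number of invertible ideals `b ⊆ O` of index `n` in the orbit of the class of `a`. -/
noncomputable def cntMod (O : Subalgebra ℤ K) (m : Submodule ℤ K) (σ : K →+* ℝ)
    (N : Submodule ℤ K → Prop) (a : Submodule ℤ K) (n : ℕ) : ℕ :=
  Nat.card {b : Submodule ℤ K // IsInv O b ∧ b ≤ OL O ∧ RelMod O m σ N b a ∧ idx O b = n}

/-- `F` is the analytic continuation to the complex numbers without `1` of the sum of the
`ζ(s, A) - ζ(s, R A)` over the classes `A` in the orbit of the class of `a`, where `R` is the class of `ρ O` for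
`ρ ∈ O` with `ρ ≡ -1` modulo `m` and `σ ρ > 0`. -/
def IsZMod (O : Subalgebra ℤ K) (m : Submodule ℤ K) (σ : K →+* ℝ) (N : Submodule ℤ K → Prop)
    (a : Submodule ℤ K) (F : ℂ → ℂ) : Prop :=
  (∃ ρ ∈ O, ρ + 1 ∈ m ∧ 0 < σ ρ ∧ ∀ s : ℂ, 1 < s.re →
    LSeriesHasSum (fun n => (cntMod O m σ N a n : ℂ) -
      (cntMod O m σ N (Submodule.span ℤ {ρ} * a) n : ℂ)) s (F s)) ∧ DifferentiableOn ℂ F {1}ᶜ

/-- `A` induces an isomorphism from `J_m / N` onto the group `G`. -/
def InducesIsoMod {G : Type*} [Group G] (O : Subalgebra ℤ K) (m : Submodule ℤ K)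
    (N : Submodule ℤ K → Prop) (A : Submodule ℤ K → G) : Prop :=
  (∀ a b, InJ O m a → InJ O m b → A (a * b) = A a * A b) ∧ (∀ g, ∃ a, InJ O m a ∧ A a = g) ∧
  (∀ a, InJ O m a → (A a = 1 ↔ N a))

/-- `N` is a subgroup of `J_m` which contains `P_m` and all squares: `J_m / N` has exponent (dividing) two. -/
def IsSquareSubgroup (σ : K →+* ℝ) (O : Subalgebra ℤ K) (m : Submodule ℤ K)
    (N : Submodule ℤ K → Prop) : Prop :=
  (∀ a, InJ O m a → InP O m σ a → N a) ∧
  (∀ a b, InJ O m a → InJ O m b → N a → N b → N (a * b)) ∧ (∀ a, InJ O m a → N (a * a))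

end

section real

variable {K : Type} [Field K] [Algebra K ℝ]

/-- `(H, Art)` is the class field of `N` with its Artin map: `H` is a finite abelian extension of `K` inside the
real numbers, `Art` induces an isomorphism from `J_m / N` onto its Galois group, and for every prime `P` of the
ring of real algebraic integers whose contraction to the maximal order is coprime to `(m : O_K)`, the
element `Art (P ∩ O)` is a Frobenius element at `P`. -/
def IsClassFieldMod (σ : K →+* ℝ) (O : Subalgebra ℤ K) (m : Submodule ℤ K)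
    (N : Submodule ℤ K → Prop) (H : IntermediateField K ℝ) (Art : Submodule ℤ K → (H ≃ₐ[K] H)) :
    Prop :=
  IsFiniteAbelian H ∧ InducesIsoMod O m N Art ∧
  (∀ P : Set ℝ, IsRealPrime P →
    contr P (integralClosure ℤ K) ⊔ m / OL (integralClosure ℤ K) = OL (integralClosure ℤ K) →
    IsFrobenius H P (Art (contr P O)) (idx (integralClosure ℤ K) (contr P (integralClosure ℤ K))))

/-- Condition (i) for the orbit of the class of `a`: `e = exp (-F'(0))`, that is, `e` is the product of the
numbers `exp (-Z'(0, A))` over the classes `A` of the orbit. -/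
def CondIMod (σ : K →+* ℝ) (O : Subalgebra ℤ K) (m : Submodule ℤ K) (N : Submodule ℤ K → Prop)
    (a : Submodule ℤ K) (e : ℝ) : Prop :=
  ∃ F : ℂ → ℂ, IsZMod O m σ N a F ∧ (e : ℂ) = Complex.exp (- deriv F 0)

/-- The monoid Stark conjecture modulo `N`: the class field `H` of `N` exists, with a family `ε` of units of `H`,
depending only on orbits, with (i)-(iv). -/
def MonoidStarkMod (σ : K →+* ℝ) (O : Subalgebra ℤ K) (m : Submodule ℤ K)
    (N : Submodule ℤ K → Prop) : Prop :=
  ∃ (H : IntermediateField K ℝ) (Art : Submodule ℤ K → (H ≃ₐ[K] H)),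
    IsClassFieldMod σ O m N H Art ∧
    ∃ ε : Submodule ℤ K → H, ∀ a, InMonoid O m a →
      (∀ b, InMonoid O m b → RelMod O m σ N b a → ε b = ε a) ∧
      (IsIntegral ℤ (ε a : ℝ) ∧ IsIntegral ℤ (ε a : ℝ)⁻¹) ∧
      CondIMod σ O m N a (ε a) ∧ CondII O m H Art ε a ∧ CondIII σ H (ε a) ∧ CondIV H (ε a)

end real

end Pool.Agent.MO
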