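import Pool.Agent.H509.MO.EAsm
import Pool.Agent.H509.MO.Asm
import Pool.Agent.H509.MO.ModDef

/-!
# Project MO: the monoid Stark conjecture modulo a subgroup containing the squares
-/

set_option autoImplicit false
set_option linter.unusedSectionVars false

open NumberField IsDedekindDomain

namespace Pool.Agent.MO

open Pool.Agent.W206.MS (OL IsOrder IsInv InMonoid InJ InP Loc nn Pair sm Good REq Rel cnt IsZ idx contr
  IsRealPrime IsRayClassField InducesIso CondI CondII CondIII CondIV mkPair MonoidStark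
  isOrder_maxOrder mem_maxOrder_of_fg rel_iff isAbelianGalois_iSup isAbelianGalois_le stable_iff
  IsFiniteAbelian)

/-- the two forms of the orbit relation agree -/
theorem relMod_eq {K : Type} [Field K] {G : Type} [Group G] {O : Subalgebra ℤ K}
    {m : Submodule ℤ K} {σ : K →+* ℝ} {N : Submodule ℤ K → Prop} {Art : Submodule ℤ K → G}
    (h : ∀ a, InJ O m a → (Art a = 1 ↔ N a)) : RelMod O m σ N = RelN O m σ Art := by
  funext a b
  apply propext
  constructor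
  · rintro ⟨j, hj, hN, hr⟩
    exact ⟨j, hj, (h j hj).2 hN, hr⟩
  · rintro ⟨j, hj, hN, hr⟩
    exact ⟨j, hj, (h j hj).1 hN, hr⟩

theorem mod_of (E : AllE) (A : AllN) (K : Type) [Field K] [NumberField K] [Algebra K ℝ]
    (hK : Module.finrank ℚ K = 2) (σ : K →+* ℝ) (hσ : σ ≠ algebraMap K ℝ) (O : Subalgebra ℤ K)
    (m : Submodule ℤ K) (hO : IsOrder O) (hm : Pool.Agent.W206.MS.IsModulus O m)
    (N : Submodule ℤ K → Prop) (hN : IsSquareSubgroup σ O m N) : MonoidStarkMod σ O m N := by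
  obtain ⟨H, Art, hH, hker, h2⟩ := exist_of E K hK σ hσ O m hO hm N hN.1 hN.2.1 hN.2.2
  obtain ⟨ε, hε⟩ := mainN_of A K hK σ hσ O m hO hm H Art hH h2
  have hrel := relMod_eq (σ := σ) hker
  refine ⟨H, Art, ⟨hH.1, ⟨hH.2.1.mul, hH.2.1.surj, hker⟩, hH.2.2⟩, ε, fun a ha => ?_⟩
  obtain ⟨h1, h3, h4, h5, h6, h7⟩ := hε a ha
  refine ⟨fun b hb hba => h1 b hb (by rwa [hrel] at hba), h3, ?_, h5, h6, h7⟩
  obtain ⟨F, ⟨⟨ρ, hρ, hρm, hρs, hF⟩, hd⟩, he⟩ := h4
  refine ⟨F, ⟨⟨ρ, hρ, hρm, hρs, fun s hs => ?_⟩, hd⟩, he⟩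
  have hc : cntMod O m σ N = cntN O m σ Art := by
    funext a n
    unfold cntMod cntN
    rw [hrel]
  rw [hc]
  exact hF s hs

theorem exact_of (E : AllE) (A : All) (K : Type) [Field K] [NumberField K] [Algebra K ℝ]
    (hK : Module.finrank ℚ K = 2) (σ : K →+* ℝ) (hσ : σ ≠ algebraMap K ℝ) (O : Subalgebra ℤ K)
    (m : Submodule ℤ K) (hO : IsOrder O) (hm : Pool.Agent.W206.MS.IsModulus O m)
    (h2 : ∀ a, InJ O m a → InP O m σ (a * a)) : MonoidStark σ O m := by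
  have P : Pair O (OK K) m (m / OL (OK K)) :=
    mkPair hO (isOrder_maxOrder K) (mem_maxOrder_of_fg hO.1) hm
  obtain ⟨H, Art, hH, hker, h3⟩ := exist_of E K hK σ hσ O m hO hm (InP O m σ)
    (fun a _ h => h) (fun a b _ _ ha hb => by
      obtain ⟨α, h1, h2, rfl⟩ := ha
      obtain ⟨β, h3, h4, rfl⟩ := hb
      refine ⟨α * β, Pool.Agent.W206.MS.one_mod_mul P.mM h1 h3, by rw [map_mul]; positivity, ?_⟩
      rw [mul_mul_mul_comm, Pool.Agent.W206.MS.OL_mul_OL, Submodule.span_mul_span,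
        Set.singleton_mul_singleton]) h2
  have hR : IsRayClassField σ O m H Art := ⟨hH.1, ⟨hH.2.1.mul, hH.2.1.surj, hker⟩, hH.2.2⟩
  obtain ⟨ε, hε⟩ := main_of A K hK σ hσ O m hO hm H Art hR h3
  exact ⟨H, Art, hR, ε, hε⟩

end Pool.Agent.MO
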