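import Pool.Agent.H509.MO.EStm

/-!
# Transport to a subfield of the real numbers
-/

set_option autoImplicit false
set_option linter.unusedSectionVars false

open NumberField IsDedekindDomain

noncomputable section

namespace Pool.Agent.H962.MO

open Pool.Agent.MO

section

variable {K L H : Type} [Field K] [NumberField K] [Field L] [NumberField L] [Field H]
  [NumberField H] [Algebra K L] [Algebra K H]

/-- the rings of integers -/
def rr (e : L ≃ₐ[K] H) : (𝓞 L) ≃+* (𝓞 H) := RingOfIntegers.mapRingEquiv e.toRingEquiv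

theorem rr_coe (e : L ≃ₐ[K] H) (x : 𝓞 L) : ((rr e x : 𝓞 H) : H) = e (x : L) := rfl

theorem rr_symm_coe (e : L ≃ₐ[K] H) (x : 𝓞 H) : (((rr e).symm x : 𝓞 L) : L) = e.symm (x : H) := rfl

theorem rr_alg (e : L ≃ₐ[K] H) (x : 𝓞 K) :
    rr e (algebraMap (𝓞 K) (𝓞 L) x) = algebraMap (𝓞 K) (𝓞 H) x := by
  apply RingOfIntegers.ext
  rw [rr_coe]
  have h1 : ((algebraMap (𝓞 K) (𝓞 L) x : 𝓞 L) : L) = algebraMap K L (x : K) := rfl
  have h2 : ((algebraMap (𝓞 K) (𝓞 H) x : 𝓞 H) : H) = algebraMap K H (x : K) := rfl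
  rw [h1, h2, e.commutes]

/-- the prime below -/
def dn (e : L ≃ₐ[K] H) (w : HeightOneSpectrum (𝓞 H)) : HeightOneSpectrum (𝓞 L) where
  asIdeal := w.asIdeal.comap (rr e : 𝓞 L →+* 𝓞 H)
  isPrime := Ideal.comap_isPrime _ _
  ne_bot := by
    intro h
    apply w.ne_bot
    rw [eq_bot_iff]
    intro x hx
    have h1 : (rr e).symm x ∈ w.asIdeal.comap (rr e : 𝓞 L →+* 𝓞 H) := by
      rw [Ideal.mem_comap]
      show rr e ((rr e).symm x) ∈ w.asIdeal
      rw [RingEquiv.apply_symm_apply]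
      exact hx
    rw [h, Ideal.mem_bot] at h1
    rw [Ideal.mem_bot]
    exact (map_eq_zero_iff (rr e).symm (rr e).symm.injective).1 h1

theorem dn_lies (e : L ≃ₐ[K] H) (w : HeightOneSpectrum (𝓞 H)) (v : HeightOneSpectrum (𝓞 K))
    (h : w.asIdeal.LiesOver v.asIdeal) : (dn e w).asIdeal.LiesOver v.asIdeal := by
  constructor
  rw [h.over]
  ext x
  show algebraMap (𝓞 K) (𝓞 H) x ∈ w.asIdeal ↔ rr e (algebraMap (𝓞 K) (𝓞 L) x) ∈ w.asIdeal
  rw [rr_alg]

theorem rc_trans (e : L ≃ₐ[K] H) (s₁ σ : K →+* ℝ) (𝔟 : Ideal (𝓞 K)) (a : Ideal (𝓞 K) → Gal(L/K))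
    (h : RC s₁ σ 𝔟 a) : RC s₁ σ 𝔟 (fun I => (AlgEquiv.autCongr e) (a I)) where
  ne := h.ne
  real := h.real
  emb := by
    obtain ⟨σ', hσ⟩ := h.emb
    refine ⟨σ'.comp (e.symm : H →+* L), ?_⟩
    rw [← hσ]
    ext x
    show σ' (e.symm (algebraMap K H x)) = σ' (algebraMap K L x)
    rw [e.symm.commutes]
  ne_bot := h.ne_bot
  ne_top := h.ne_top
  one := by
    show AlgEquiv.autCongr e (a ⊤) = 1
    rw [h.one, map_one]
  mul := fun I J hI hJ => by
    show AlgEquiv.autCongr e (a (I * J)) = AlgEquiv.autCongr e (a I) * AlgEquiv.autCongr e (a J)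
    rw [h.mul I J hI hJ, map_mul]
  frob := by
    intro v hv w hw x y hxy
    have h1 := h.frob v hv (dn e w) (dn_lies e w v hw) ((rr e).symm x) ((rr e).symm y) (by
      rw [rr_symm_coe, rr_symm_coe, hxy, map_sub, map_pow]
      refine congrArg (fun z => z - _) ?_
      show e.symm (e (a v.asIdeal (e.symm (x : H)))) = a v.asIdeal (e.symm (x : H))
      rw [AlgEquiv.symm_apply_apply])
    have h2 : rr e ((rr e).symm y) ∈ w.asIdeal := h1
    rw [RingEquiv.apply_symm_apply] at h2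
    exact h2
  ray := fun x hx hs => by
    show AlgEquiv.autCongr e (a (Ideal.span {x})) = 1
    rw [h.ray x hx hs, map_one]
  surj := by
    intro g
    obtain ⟨I, hI, hg⟩ := h.surj ((AlgEquiv.autCongr e).symm g)
    refine ⟨I, hI, ?_⟩
    show AlgEquiv.autCongr e (a I) = g
    rw [hg, MulEquiv.apply_symm_apply]

end

theorem tra : S_TRA := by
  intro K _ _ _ L _ _ _ _ σ' hσ σ 𝔟 a hRC
  let f : L →ₐ[K] ℝ := { σ' with commutes' := fun x => congrArg (fun s : K →+* ℝ => s x) hσ }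
  let e : L ≃ₐ[K] f.fieldRange := AlgEquiv.ofInjectiveField f
  have hN : NumberField f.fieldRange := NumberField.of_ringEquiv (K := L) (L := f.fieldRange) e.toRingEquiv
  have hA : IsAbelianGalois K f.fieldRange := IsAbelianGalois.of_algHom e.symm.toAlgHom
  exact ⟨f.fieldRange, hN, hA, AlgEquiv.autCongr e, rc_trans e _ σ 𝔟 a hRC⟩

end Pool.Agent.H962.MO
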