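import Pool.Agent.H509.MO.EStm

/-!
# Project MO, UPG: the Frobenius property at all primes not dividing `𝔟` (helper643, for helper509)
-/

set_option autoImplicit false
set_option linter.unusedSectionVars false

open NumberField IsDedekindDomain

noncomputable section

namespace Pool.Agent.H643.MO

open Pool.Agent.MO
open Pool.Agent.N598.ST (Place Unram IsArtin PrimeTo)
open Pool.Agent.N820.RS (IsModulus)

section aux

variable {K F : Type} [Field K] [NumberField K] [Field F] [NumberField F] [Algebra K F]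

/-- the places of a modulus (after helper328) -/
lemma exists_modulus' {𝔫 : Ideal (𝓞 K)} (h : 𝔫 ≠ ⊥) : ∃ S : Finset (Place K), IsModulus 𝔫 S := by
  classical
  have hf := Ideal.finite_factors (R := 𝓞 K) (I := 𝔫) h
  refine ⟨(Finset.univ.map ⟨Sum.inl, Sum.inl_injective⟩) ∪
    (hf.toFinset.map ⟨Sum.inr, Sum.inr_injective⟩), ?_, ?_⟩
  · intro v
    rw [Finset.mem_union]
    left
    exact Finset.mem_map.2 ⟨v, Finset.mem_univ _, rfl⟩
  · intro q
    rw [Finset.mem_union]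
    constructor
    · rintro (h1 | h1)
      · obtain ⟨v, -, hv⟩ := Finset.mem_map.1 h1
        cases hv
      · obtain ⟨v, hv, hvq⟩ := Finset.mem_map.1 h1
        have hvq' : v = q := Sum.inr_injective hvq
        rw [← hvq']
        exact Ideal.le_of_dvd ((Set.Finite.mem_toFinset hf).1 hv)
    · intro h1
      right
      exact Finset.mem_map.2 ⟨q, (Set.Finite.mem_toFinset hf).2 (Ideal.dvd_iff_le.2 h1), rfl⟩

lemma primeTo_of {𝔫 : Ideal (𝓞 K)} {S : Finset (Place K)} (hS : IsModulus 𝔫 S)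
    {I : Ideal (𝓞 K)} (h1 : I ≠ ⊥) (h2 : I ⊔ 𝔫 = ⊤) : PrimeTo S I := by
  refine ⟨h1, fun q hq hI => ?_⟩
  have h3 := (hS.fin q).1 hq
  have h4 : (⊤ : Ideal (𝓞 K)) ≤ q.asIdeal := h2 ▸ sup_le hI h3
  exact q.isPrime.ne_top (top_le_iff.1 h4)

end aux

section down

variable {K L : Type} [Field K] [NumberField K] [Field L] [NumberField L] [Algebra K L]

/-- the Frobenius property for the subfield `F = L` -/
lemma frob_down (F : IntermediateField K L) [NumberField F] (hF : F = ⊤)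
    (v : HeightOneSpectrum (𝓞 K)) (g : Gal(L/K)) (g' : Gal(F/K))
    (hgg : ∀ x : F, ((g' x : F) : L) = g (x : L))
    (h : ∀ P : HeightOneSpectrum (𝓞 F), P.asIdeal.LiesOver v.asIdeal → ∀ x y : 𝓞 F,
      (y : F) = g' (x : F) - (x : F) ^ Ideal.absNorm v.asIdeal → y ∈ P.asIdeal) :
    FrobAt v g := by
  intro w hw x y hxy
  have hup : ∀ z : 𝓞 L, ∃ z' : 𝓞 F, algebraMap (𝓞 F) (𝓞 L) z' = z := by
    intro z
    have h1 : (z : L) ∈ F := by
      rw [hF]
      exact IntermediateField.mem_top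
    have h2 : IsIntegral ℤ (⟨(z : L), h1⟩ : F) := by
      have h3 : IsIntegral ℤ (algebraMap F L ⟨(z : L), h1⟩) := z.2
      exact (isIntegral_algebraMap_iff (algebraMap F L).injective).1 h3
    exact ⟨⟨⟨(z : L), h1⟩, h2⟩, rfl⟩
  obtain ⟨x', hx'⟩ := hup x
  obtain ⟨y', hy'⟩ := hup y
  have hv : (w.asIdeal.under (𝓞 F)).under (𝓞 K) = v.asIdeal := by
    rw [Ideal.under_under]
    exact hw.over.symm
  have hpr : (w.asIdeal.under (𝓞 F)).IsPrime := by
    have := w.isPrime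
    infer_instance
  have hne : w.asIdeal.under (𝓞 F) ≠ ⊥ := by
    intro h0
    apply v.ne_bot
    rw [← hv, h0]
    exact Ideal.under_bot _ _
  have h1 := h ⟨w.asIdeal.under (𝓞 F), hpr, hne⟩ ⟨hv.symm⟩ x' y' (by
    apply Subtype.ext
    have e1 : ((y' : F) : L) = (y : L) := congrArg (fun z : 𝓞 L => (z : L)) hy'
    have e2 : ((x' : F) : L) = (x : L) := congrArg (fun z : 𝓞 L => (z : L)) hx'
    show ((y' : F) : L) = ((g' (x' : F) - (x' : F) ^ Ideal.absNorm v.asIdeal : F) : L)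
    push_cast
    rw [e1, hgg, e2]
    exact hxy)
  rw [← hy']
  exact h1

end down

/-- **UPG** -/
theorem upg : S_UPG := by
  intro hUNT hCOND hEXA hPRIN hAPX K L _ _ _ _ _ _ hexp s₁ σ hne hreal hemb 𝔟 hb0 hbt a hRG N hN
    hNb hFr
  obtain ⟨𝔠, h𝔠⟩ : ∃ 𝔠 : Ideal (𝓞 K), 𝔠 = Ideal.span {(N : 𝓞 K)} := ⟨_, rfl⟩
  have hcb : 𝔠 ≤ 𝔟 := by
    rw [h𝔠, Ideal.span_singleton_le_iff_mem]
    exact hNb
  have hc0 : 𝔠 ≠ ⊥ := by
    rw [h𝔠, Ne, Ideal.span_singleton_eq_bot]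
    exact_mod_cast hN
  have hct : 𝔠 ≠ ⊤ := fun h => hbt (top_le_iff.1 (h ▸ hcb))
  have hup : ∀ I : Ideal (𝓞 K), I ⊔ 𝔠 = ⊤ → I ⊔ 𝔟 = ⊤ := fun I h =>
    top_le_iff.1 (h ▸ sup_le_sup_left hcb I)
  have hneb : ∀ I : Ideal (𝓞 K), I ⊔ 𝔟 = ⊤ → I ≠ ⊥ := by
    intro I h h0
    rw [h0, bot_sup_eq] at h
    exact hbt h
  -- the ray class data for `𝔠`
  have hRC : RC s₁ σ 𝔠 a := by
    refine ⟨hne, hreal, hemb, hc0, hct, hRG.one, ?_, ?_, ?_, ?_⟩
    · intro I J hI hJ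
      exact hRG.mul I J (hup I hI) (hup J hJ)
    · intro v hv
      have h1 : (N : 𝓞 K) ∉ v.asIdeal := by
        intro h
        apply hv
        rw [h𝔠, Ideal.span_singleton_le_iff_mem]
        exact h
      exact hFr v h1
    · intro x hx hσ
      exact hRG.ray x (hcb hx) hσ
    · intro g
      obtain ⟨I, hI, hIg⟩ := hRG.surj g⁻¹
      obtain ⟨x, B, hx0, hxI, hB, hx1, hxσ⟩ := hAPX K σ 𝔠 𝔟 I hc0 hcb (hneb I hI) hI
      refine ⟨B, hB, ?_⟩
      have h1 := hRG.ray x hx1 hxσ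
      rw [hxI, hRG.mul I B hI (hup B hB), hIg] at h1
      rw [← inv_mul_eq_one.1 h1]
  -- the field is everything
  have hD : D σ 𝔠 a 𝔟 = ⊥ := by
    unfold D
    rw [Subgroup.closure_eq_bot_iff]
    rintro g ⟨x, hx0, hxc, hx1, hxσ, rfl⟩
    exact hRG.ray x hx1 hxσ
  have hF : FF σ 𝔠 a 𝔟 = ⊤ := by
    show IntermediateField.fixedField (D σ 𝔠 a 𝔟) = ⊤
    rw [hD]
    exact IntermediateField.fixedField_bot
  have hun : ∀ v : HeightOneSpectrum (𝓞 K), ¬ 𝔟 ≤ v.asIdeal → Unram K (FF σ 𝔠 a 𝔟) v :=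
    hCOND hUNT K L hexp s₁ σ 𝔠 a hRC 𝔟 hcb
  obtain ⟨S, hS⟩ := exists_modulus' hb0
  have hun' : ∀ q : HeightOneSpectrum (𝓞 K), Sum.inr q ∉ S → Unram K (FF σ 𝔠 a 𝔟) q :=
    fun q hq => hun q fun h => hq ((hS.fin q).2 h)
  obtain ⟨a', ha'⟩ := hEXA K (FF σ 𝔠 a 𝔟) S hun'
  obtain ⟨hp1, hp2⟩ := hPRIN K L hexp s₁ σ 𝔠 a hRC 𝔟 hcb hun S hS a' ha'
  refine ⟨hne, hreal, hemb, hb0, hbt, hRG.one, hRG.mul, ?_, hRG.ray, hRG.surj⟩
  intro v hv
  have hvb : v.asIdeal ⊔ 𝔟 = ⊤ := by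
    have hm := v.isMaximal
    by_contra hc
    exact hv (le_sup_right.trans (hm.eq_of_le hc le_sup_left).ge)
  obtain ⟨x, B, hx0, hxI, hB, hx1, hxσ⟩ := hAPX K σ 𝔠 𝔟 v.asIdeal hc0 hcb v.ne_bot hvb
  have h1 := hRG.ray x hx1 hxσ
  rw [hxI, hRG.mul _ B hvb (hup B hB)] at h1
  have h2 := hp2 x hx0 hx1 hxσ
  rw [hxI, ha'.mul _ B (primeTo_of hS v.ne_bot hvb)
    (primeTo_of hS (hneb B (hup B hB)) (hup B hB))] at h2
  refine frob_down (FF σ 𝔠 a 𝔟) hF v (a v.asIdeal) (a' v.asIdeal) ?_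
    (ha'.frob v fun h => hv ((hS.fin v).1 h))
  intro z
  -- `z = a' B z'`
  have h3 : a' v.asIdeal ((a' B) z) = z := by
    have := DFunLike.congr_fun h2 z
    exact this
  have h4 : a v.asIdeal ((a B) (z : L)) = (z : L) := by
    have := DFunLike.congr_fun h1 (z : L)
    exact this
  have h5 : a v.asIdeal * a v.asIdeal = 1 := hexp _
  have h6 : (a' v.asIdeal) z = (a' B) z := by
    have e1 : a' v.asIdeal = (a' B)⁻¹ := eq_inv_of_mul_eq_one_left h2
    have e2 : a v.asIdeal = (a B)⁻¹ := eq_inv_of_mul_eq_one_left h1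
    have e3 : ∀ t : FF σ 𝔠 a 𝔟, (a' B) ((a' B) t) = t := by
      intro t
      apply Subtype.ext
      rw [hp1 B hB, hp1 B hB]
      exact DFunLike.congr_fun (hexp (a B)) (t : L)
    have e4 : (a' v.asIdeal) ((a' B) ((a' B) z)) = (a' B) z := by
      have := DFunLike.congr_fun h2 ((a' B) z)
      exact this
    rwa [e3] at e4
  have h7 : (a v.asIdeal) (z : L) = (a B) (z : L) := by
    have e4 : (a v.asIdeal) ((a B) ((a B) (z : L))) = (a B) (z : L) := by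
      have := DFunLike.congr_fun h1 ((a B) (z : L))
      exact this
    have e5 : (a B) ((a B) (z : L)) = (z : L) := DFunLike.congr_fun (hexp (a B)) (z : L)
    rwa [e5] at e4
  rw [h6, h7, hp1 B hB]

end Pool.Agent.H643.MO
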