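import Pool.Agent.H509.MO.FinN
import Pool.Agent.H509.MO.Res
import Pool.Agent.H509.MO.GRP
import Pool.Agent.H509.MO.RGX
import Pool.Agent.H509.MO.DVH
import Pool.Agent.H509.MO.ART
import Pool.Agent.H509.MO.QUO
import Pool.Agent.H509.MO.EMR
import Pool.Agent.H509.MO.UPG
import Pool.Agent.H509.MO.TRA
import Pool.Agent.H509.MO.FRB

/-!
# Project MO: all parts of the existence part

GRP (helper183), RGX (helper17), DVH (helper399), ART (helper79), QUO (helper215), EMR (helper548),
UPG (helper643), TRA (helper962), FRB (helper390); EAsm, Res: helper509.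
-/

set_option autoImplicit false

namespace Pool.Agent.MO

theorem allE : AllE where
  dic := all.dic
  gd := all.gd
  apx := all.apx
  unt := all.unt
  cond := all.cond
  exa := all.exa
  prin := all.prin
  grp := Pool.Agent.H183.MO.grp
  rgx := Pool.Agent.H17.MO.rgx
  dvh := Pool.Agent.H399.MO.dvh
  art := Pool.Agent.H79.MO.art'
  quo := Pool.Agent.H215.MO.quo
  emr := Pool.Agent.H548.MO.emr
  upg := Pool.Agent.H643.MO.upg
  tra := Pool.Agent.H962.MO.tra
  frb := Pool.Agent.H390.MO.frb

end Pool.Agent.MO
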