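import Pool.Agent.H509.MO.GStm

/-!
# Project MO, NNN: the numbers `nnN` only depend on the Artin symbol
-/

set_option autoImplicit false
set_option linter.unusedSectionVars false

open NumberField IsDedekindDomain

noncomputable section

namespace Pool.Agent.H236.MO

open Pool.Agent.MO
open Pool.Agent.W206.MS (OL IsInv InMonoid InJ Loc Pair sm Good REq mem_sm mul_mem_sm mul_sm sm_mul
  sm_sm loc_of_mem Good.mono Good.inJ InJ.inMonoid InMonoid.mul)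

theorem nnn : S_NNN := by
  intro hDIC hGD hEQN K _ _ σ O m b P 𝔟 h𝔟 G _ Art hArt 𝔡 𝔫 h𝔡𝔫 I J B₁ B₂ x y α hI hJ hx hy hx1 hy1
    hσx hσy hB1 hB2 hα1 hσα hα hA z hz
  obtain ⟨d1, d2, d3, d4, d5, d6, d7, d8, -⟩ := hDIC K
  obtain ⟨g1, g2, g3, g4⟩ := hGD hDIC K O m b P 𝔟 h𝔟
  obtain ⟨-, -, -, -, -, eI, eC, eM, -, eA⟩ := hEQN K σ O (OK K) m b P G Art hArt
  have hle : ∀ J : Ideal (𝓞 K), sub J ≤ OL (OK K) := by
    intro J
    rw [← d3]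
    exact (d4 J ⊤).2 le_top
  -- `𝔟` is not zero
  have h𝔟0 : 𝔟 ≠ ⊥ := by
    rintro rfl
    obtain ⟨N, hN, hNb⟩ := P.pos
    rw [← h𝔟, d1] at hNb
    obtain ⟨w, hw, hwN⟩ := hNb
    rw [Ideal.mem_bot] at hw
    rw [hw] at hwN
    have h1 : (N : K) = 0 := hwN.symm
    have h2 : N = 0 := by exact_mod_cast h1
    omega
  have h𝔡0 : 𝔡 ≠ ⊥ := by
    rintro rfl
    apply h𝔟0
    rw [← h𝔡𝔫, Ideal.bot_mul]
  have hαB : Ideal.span {α} * B₂ ⊔ 𝔟 = ⊤ := by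
    rw [← Ideal.isCoprime_iff_sup_eq] at hα hB2 ⊢
    exact hα.mul_left hB2
  obtain ⟨-, c1, c1'⟩ := g1 B₁ hB1
  obtain ⟨-, c2, c2'⟩ := g1 _ hαB
  have hdI : 𝔡 * I ≠ ⊥ := mul_ne_zero h𝔡0 hI
  have hdJ : 𝔡 * J ≠ ⊥ := mul_ne_zero h𝔡0 hJ
  have j1 : InJ O m (sub B₁ ⊓ OL O) := (c1.mono P.bm).inJ P.mM
  have j2 : InJ O m (sub (Ideal.span {α} * B₂) ⊓ OL O) := (c2.mono P.bm).inJ P.mM
  have m1 : InMonoid O m ((sub B₁ ⊓ OL O) * z) := (j1.inMonoid P.mM).mul P.mM hz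
  have m2 : InMonoid O m ((sub (Ideal.span {α} * B₂) ⊓ OL O) * z) := (j2.inMonoid P.mM).mul P.mM hz
  -- multiplication by the good ideals
  have s1 := eM (sub (𝔡 * I)) z _ c1 (d7 _ hdI) (hle _) hz
  have s2 := eM (sub (𝔡 * J)) z _ c2 (d7 _ hdJ) (hle _) hz
  rw [c1', ← d2] at s1
  rw [c2', ← d2] at s2
  rw [s1, s2]
  -- the class
  have s3 := eC (sub (Ideal.span {α} * B₂ * (𝔡 * J))) _ _ m1 m2 (eA _ _ z j1 j2 hA hz)
  rw [← s3]
  -- the ideal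
  refine (eI _ _ _ ?_ (hle _) (hle _) m1)
  have hx0 : (x : K) ≠ 0 := by
    intro h
    rw [h, map_zero] at hσx
    exact lt_irrefl _ hσx
  have e1 : B₁ * (𝔡 * I) = Ideal.span {x} * 𝔡 := by rw [hx]; ring
  have e2 : Ideal.span {α} * B₂ * (𝔡 * J) = Ideal.span {y * α} * 𝔡 := by
    rw [← Ideal.span_singleton_mul_span_singleton, hy]; ring
  have e3 : ∀ w : 𝓞 K, sub (Ideal.span {w} * 𝔡) = sm (w : K) (sub 𝔡) := by
    intro w
    rw [d2, d6, sm_mul]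
    congr 1
    have h1 : sub (⊤ * 𝔡) = sub (⊤ : Ideal (𝓞 K)) * sub 𝔡 := d2 _ _
    rw [d3, Ideal.top_mul] at h1
    exact h1.symm
  rw [e1, e2, e3, e3]
  refine ⟨(y : K) * α / x, ?_, ?_, ?_⟩
  · rw [map_div₀, map_mul]
    exact div_pos (mul_pos hσy hσα) hσx
  · intro w hw
    obtain ⟨d, hd, rfl⟩ := mem_sm.1 hw
    apply loc_of_mem P.mB
    obtain ⟨d', hd', rfl⟩ := (d1 _ _).1 hd
    rw [← h𝔟, d1]
    refine ⟨(y * α - x) * d', ?_, ?_⟩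
    · rw [← h𝔡𝔫, mul_comm 𝔡 𝔫]
      refine Ideal.mul_mem_mul ?_ hd'
      have : y * α - x = y * (α - 1) + (y - 1) - (x - 1) := by ring
      rw [this]
      exact 𝔫.sub_mem (𝔫.add_mem (𝔫.mul_mem_left _ hα1) hy1) hx1
    · change algebraMap (𝓞 K) K ((y * α - x) * d') = _
      rw [map_mul, map_sub, map_mul]
      field_simp
  · rw [sm_sm]
    congr 1
    change algebraMap (𝓞 K) K (y * α) = _
    rw [map_mul, div_mul_cancel₀ _ hx0]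

end Pool.Agent.H236.MO
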