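import Pool.Agent.H509.MO.GStm

/-!
# Project MO: RCXN, the ray class data of the maximal order from a subfield of the ray class field
-/

set_option autoImplicit false
set_option linter.unusedSectionVars false

open NumberField IsDedekindDomain

noncomputable section

namespace Pool.Agent.H120.MO

open Pool.Agent.MO
open Pool.Agent.W206.MS

/-- a field of degree two has at most two real embeddings -/
theorem two_emb {K : Type} [Field K] [NumberField K] (h2 : Module.finrank ℚ K = 2)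
    {s σ : K →+* ℝ} (hne : σ ≠ s) (φ : K →+* ℝ) : φ = s ∨ φ = σ := by
  classical
  by_contra hcon
  push Not at hcon
  obtain ⟨h1, h3⟩ := hcon
  have hinj : Function.Injective (fun f : K →+* ℝ => Complex.ofRealHom.comp f) := by
    intro f g hfg
    ext x
    have := RingHom.congr_fun hfg x
    simpa using this
  have hcard : Fintype.card (K →+* ℂ) = 2 := by
    rw [NumberField.Embeddings.card K ℂ, h2]
  have h4 : ({Complex.ofRealHom.comp s, Complex.ofRealHom.comp σ, Complex.ofRealHom.comp φ} :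
      Finset (K →+* ℂ)).card = 3 := by
    rw [Finset.card_eq_three]
    refine ⟨_, _, _, ?_, ?_, ?_, rfl⟩
    · exact fun h => hne (hinj h).symm
    · exact fun h => h1 (hinj h).symm
    · exact fun h => h3 (hinj h).symm
  have h5 := Finset.card_le_univ ({Complex.ofRealHom.comp s, Complex.ofRealHom.comp σ,
    Complex.ofRealHom.comp φ} : Finset (K →+* ℂ))
  omega

/-- every maximal ideal of `𝓞 H` is the contraction of a prime ideal of the ring of real algebraic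
integers -/
theorem exists_realPrime {K : Type} [Field K] [Algebra K ℝ] (H : IntermediateField K ℝ)
    [NumberField H] (w : Ideal (𝓞 H)) [w.IsPrime] :
    ∃ P : Set ℝ, IsRealPrime P ∧ ∀ z : 𝓞 H, ((z : H) : ℝ) ∈ P ↔ z ∈ w := by
  have hH : ∀ z : 𝓞 H, IsIntegral ℤ ((z : H) : ℝ) := fun z =>
    (RingOfIntegers.isIntegral_coe z).map (algebraMap H ℝ).toIntAlgHom
  let j : 𝓞 H →+* integralClosure ℤ ℝ :=
    { toFun := fun z => ⟨((z : H) : ℝ), hH z⟩
      map_one' := by ext; simp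
      map_mul' := fun x y => by ext; simp
      map_zero' := by ext; simp
      map_add' := fun x y => by ext; simp }
  let _ : Algebra (𝓞 H) (integralClosure ℤ ℝ) := j.toAlgebra
  have hint : Algebra.IsIntegral (𝓞 H) (integralClosure ℤ ℝ) :=
    ⟨fun a => (integralClosure.isIntegral a).tower_top⟩
  obtain ⟨Q, -, hQ, hQw⟩ := Ideal.exists_ideal_over_prime_of_isIntegral w
    (⊥ : Ideal (integralClosure ℤ ℝ)) (by
      intro z hz
      rw [Ideal.mem_comap, Ideal.mem_bot] at hz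
      have h1 : ((z : H) : ℝ) = 0 := congrArg Subtype.val hz
      have h2 : (z : H) = 0 := by exact_mod_cast h1
      have h3 : z = 0 := by exact_mod_cast h2
      rw [h3]
      exact w.zero_mem)
  refine ⟨{x | ∃ h : IsIntegral ℤ x, (⟨x, h⟩ : integralClosure ℤ ℝ) ∈ Q}, ⟨?_, ?_, ?_, ?_, ?_, ?_⟩,
    ?_⟩
  · rintro x ⟨h, -⟩
    exact h
  · exact ⟨isIntegral_zero, Q.zero_mem⟩
  · rintro x ⟨hx, hx'⟩ y ⟨hy, hy'⟩
    exact ⟨hx.add hy, Q.add_mem hx' hy'⟩
  · rintro x y hx ⟨hy, hy'⟩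
    exact ⟨hx.mul hy, Q.mul_mem_left ⟨x, hx⟩ hy'⟩
  · rintro ⟨h, h'⟩
    exact hQ.ne_top ((Ideal.eq_top_iff_one Q).2 h')
  · rintro x y hx hy ⟨h, h'⟩
    rcases hQ.mem_or_mem (x := ⟨x, hx⟩) (y := ⟨y, hy⟩) h' with h1 | h1
    · exact Or.inl ⟨hx, h1⟩
    · exact Or.inr ⟨hy, h1⟩
  · intro z
    rw [← hQw, Ideal.mem_comap]
    constructor
    · rintro ⟨h, h'⟩
      exact h'
    · intro h
      exact ⟨hH z, h⟩

theorem rcxn : S_RCXN := by
  intro hDIC hGD K _ _ _ σ h2 hne O m hO hm H _ Art hcl 𝔟 h𝔟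
  classical
  obtain ⟨hfa, hArt, hFr⟩ := hcl
  obtain ⟨hd_mem, hd_mul, hd_top, hd_le, hd_sup, hd_span, hd_inv, hd_ex, hd_idx⟩ := hDIC K
  have hOK := isOrder_maxOrder K
  have hOle : O ≤ OK K := mem_maxOrder_of_fg hO.1
  have P : Pair O (OK K) m (m / OL (OK K)) := mkPair hO hOK hOle hm
  obtain ⟨hG1, hG2, hG3, hG4⟩ := hGD hDIC K O m _ P 𝔟 h𝔟
  have hmod := colon_isModulus hO hOK hOle hm
  have hinJ : ∀ I : Ideal (𝓞 K), I ⊔ 𝔟 = ⊤ → InJ O m (sub I ⊓ OL O) := fun I hI =>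
    ((hG1 I hI).2.1.mono P.bm).inJ P.mM
  have hsup : ∀ x : 𝓞 K, x - 1 ∈ 𝔟 → Ideal.span {x} ⊔ 𝔟 = ⊤ := by
    intro x hx
    rw [Ideal.eq_top_iff_one]
    have e : (1 : 𝓞 K) = x + (-(x - 1)) := by ring
    rw [e]
    exact Submodule.add_mem_sup (Ideal.mem_span_singleton_self x) (𝔟.neg_mem hx)
  have hray : ∀ x : 𝓞 K, x - 1 ∈ 𝔟 → 0 < σ (x : K) → aO O Art (Ideal.span {x}) = 1 := by
    intro x hx hσ
    unfold aO
    refine hArt.ray _ (hinJ _ (hsup x hx)) ⟨(x : K), ?_, hσ, ?_⟩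
    · apply loc_of_mem P.mM
      apply P.bm
      rw [← h𝔟, hd_mem]
      exact ⟨x - 1, hx, by simp⟩
    · rw [(hG3 x hx).2]
  refine ⟨hne.symm, two_emb h2 hne, ⟨algebraMap H ℝ, ?_⟩, ?_, ?_, ?_, ?_, ?_, hray, ?_⟩
  · exact (IsScalarTower.algebraMap_eq K H ℝ).symm
  · rintro rfl
    apply hmod.2.2.1
    rw [← h𝔟, eq_bot_iff]
    intro x hx
    rw [hd_mem] at hx
    obtain ⟨y, hy, rfl⟩ := hx
    rw [Ideal.mem_bot] at hy
    rw [hy, Submodule.mem_bot]
    exact map_zero _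
  · rintro rfl
    apply hmod.2.2.2
    rw [← h𝔟, hd_top]
  · have h1 := hray 1 (by rw [sub_self]; exact 𝔟.zero_mem) (by
      have e : ((1 : 𝓞 K) : K) = 1 := map_one (algebraMap (𝓞 K) K)
      rw [e, map_one]; exact one_pos)
    rwa [Ideal.span_singleton_one] at h1
  · intro I J hI hJ
    unfold aO
    rw [hG2 I J hI hJ]
    exact hArt.mul _ _ (hinJ I hI) (hinJ J hJ)
  · intro v hv w hw x y hxy
    have hwp : w.asIdeal.IsPrime := w.isPrime
    obtain ⟨Pr, hPr, hPw⟩ := exists_realPrime H w.asIdeal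
    have hH : ∀ z : 𝓞 H, IsIntegral ℤ ((z : H) : ℝ) := fun z =>
      (RingOfIntegers.isIntegral_coe z).map (algebraMap H ℝ).toIntAlgHom
    have hPv : ∀ t : 𝓞 K, algebraMap K ℝ (t : K) ∈ Pr ↔ t ∈ v.asIdeal := by
      intro t
      have h1 := hPw (algebraMap (𝓞 K) (𝓞 H) t)
      have h3 : (((algebraMap (𝓞 K) (𝓞 H) t : 𝓞 H) : H) : ℝ) = algebraMap K ℝ (t : K) := rfl
      rw [h3] at h1
      rw [h1]
      have h4 : v.asIdeal = w.asIdeal.under (𝓞 K) := hw.over
      rw [h4, Ideal.mem_comap]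
    have hc1 : contr Pr (OK K) = sub v.asIdeal := by
      ext z
      rw [mem_contr hPr, hd_mem]
      constructor
      · rintro ⟨h3, h4⟩
        exact ⟨⟨z, h3⟩, (hPv ⟨z, h3⟩).1 h4, rfl⟩
      · rintro ⟨t, ht, rfl⟩
        exact ⟨t.2, (hPv t).2 ht⟩
    have hc2 : contr Pr O = sub v.asIdeal ⊓ OL O := by
      ext z
      rw [Submodule.mem_inf, ← hc1, mem_contr hPr, mem_contr hPr]
      constructor
      · rintro ⟨h3, h4⟩
        exact ⟨⟨hOle h3, h4⟩, h3⟩
      · rintro ⟨⟨h3, h4⟩, h5⟩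
        exact ⟨h5, h4⟩
    have hvb : v.asIdeal ⊔ 𝔟 = ⊤ := by
      have hmax : v.asIdeal.IsMaximal := v.isMaximal
      exact hmax.1.2 _ (lt_of_le_of_ne le_sup_left fun h => hv (h ▸ le_sup_right))
    have hF := hFr Pr hPr (by rw [hc1, ← h𝔟, ← hd_sup, hvb, hd_top]) (x : H) (hH x)
    rw [← hPw]
    rw [hc1, hc2, hd_idx] at hF
    have h6 : ((y : H) : ℝ) = ((Art (sub v.asIdeal ⊓ OL O) (x : H) : H) : ℝ) -
        ((x : H) : ℝ) ^ Ideal.absNorm v.asIdeal := by
      rw [hxy]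
      rfl
    rw [h6]
    exact hF
  · intro g
    obtain ⟨c, hc, rfl⟩ := hArt.surj g
    obtain ⟨α, hα, hασ, hle, e, he, he'⟩ := P.exists_rep σ hc
    have hα0 : α ≠ 0 := ne_zero_of_pos hασ
    have hgood : Good O (m / OL (OK K)) (sm α c) := ⟨hc.1.sm hα0, hle, e, he, he'⟩
    have hArtg : Art (sm α c) = Art c := by
      obtain ⟨hinv, c₁, c₂, h1, h2, h3, h4, h5, h6⟩ := id hc
      obtain ⟨hst, c', hc', hcc⟩ := id hinv
      have hc'J : InJ O m c' := by
        refine ⟨⟨hc', c, hst, by rw [mul_comm]; exact hcc⟩, c₂, c₁, h2, h1, ?_, h5, h4, ?_⟩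
        · rw [← h6]; exact hinv.mul h3
        · rw [← h6, ← mul_assoc, mul_comm c' c, hcc, h3.stable]
      have hg1 : InJ O m (sm α c) := (hgood.mono P.bm).inJ P.mM
      have e1 : Art (sm α c * c') = 1 := by
        refine hArt.ray _ (hg1.mul P.mM hc'J) ⟨α, hα, hασ, ?_⟩
        rw [sm_mul, hcc]
      have e2 : Art (c * c') = 1 := by
        refine hArt.ray _ (hc.mul P.mM hc'J) ⟨1, ?_, ?_, ?_⟩
        · rw [sub_self]; exact loc_of_mem P.mM m.zero_mem
        · rw [map_one]; exact one_pos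
        · rw [hcc]; exact (one_sm (OL O)).symm
      rw [hArt.mul _ _ hg1 hc'J] at e1
      rw [hArt.mul _ _ hc hc'J] at e2
      exact mul_right_cancel (e1.trans e2.symm)
    obtain ⟨G, hG, hGs, hGi⟩ := hG4 _ hgood
    refine ⟨G, hG, ?_⟩
    unfold aO
    rw [hGi, hArtg]

end Pool.Agent.H120.MO
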