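import Pool.Agent.H509.MO.Fin
import Pool.Agent.H509.MO.GCore
import Pool.Agent.H509.MO.EQN
import Pool.Agent.H509.MO.CNTN
import Pool.Agent.H509.MO.NNN
import Pool.Agent.H509.MO.RCXN
import Pool.Agent.H509.MO.CLSN
import Pool.Agent.H509.MO.FINAN

/-!
# Project MO: all parts of the genus version

EQN (helper32), CNTN, RCXN, CLSN (helper120), NNN (helper236), FINAN (helper643); GCore: helper509.
-/

set_option autoImplicit false

namespace Pool.Agent.MO

theorem allN : AllN where
  dic := all.dic
  gd := all.gd
  apx := all.apx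
  unt := all.unt
  cond := all.cond
  conj := all.conj
  exa := all.exa
  prin := all.prin
  zex := all.zex
  zval := all.zval
  lev := all.lev
  abr := all.abr
  lvl := all.lvl
  eqn := Pool.Agent.H32.MO.eqn
  cntn := Pool.Agent.H120.MO.cntn
  nnn := Pool.Agent.H236.MO.nnn
  rcxn := Pool.Agent.H120.MO.rcxn
  clsn := Pool.Agent.H120.MO.clsn
  finan := Pool.Agent.H643.MO.finan

end Pool.Agent.MO
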