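import Pool.Agent.H509.MO.Stm

/-!
# Project MO, LVL: assembly of the levels (helper328, for helper509)
-/

set_option autoImplicit false
set_option linter.unusedSectionVars false

open NumberField IsDedekindDomain

noncomputable section

namespace Pool.Agent.H328.MO

open Pool.Agent.MO
open Pool.Agent.W206.MS (CondI CondII CondIII CondIV)
open Pool.Agent.N598.ST (Place Unram IsArtin IsZeta AbRoot TotallySplit PrimeTo Over)
open Pool.Agent.N820.RS (IsModulus split_real)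

lemma hs_congr {ι : Type} {f g : ι → ℂ} {z : ℂ} (h : ∀ i, f i = g i) (hg : HasSum g z) :
    HasSum f z := by
  have e : f = g := funext h
  rw [e]
  exact hg

section aux

variable {K F : Type} [Field K] [NumberField K] [Field F] [NumberField F] [Algebra K F]

/-- the places of a modulus -/
lemma exists_modulus {𝔫 : Ideal (𝓞 K)} (h : 𝔫 ≠ ⊥) : ∃ S : Finset (Place K), IsModulus 𝔫 S := by
  classical
  have hf := Ideal.finite_factors (R := 𝓞 K) (I := 𝔫) h
  refine ⟨(Finset.univ.map ⟨Sum.inl, Sum.inl_injective⟩) ∪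
    (hf.toFinset.map ⟨Sum.inr, Sum.inr_injective⟩), ?_, ?_⟩
  · intro v
    rw [Finset.mem_union]
    left
    exact Finset.mem_map.2 ⟨v, Finset.mem_univ _, rfl⟩
  · intro q
    rw [Finset.mem_union]
    constructor
    · rintro (h1 | h1)
      · obtain ⟨v, -, hv⟩ := Finset.mem_map.1 h1
        cases hv
      · obtain ⟨v, hv, hvq⟩ := Finset.mem_map.1 h1
        have hvq' : v = q := Sum.inr_injective hvq
        rw [← hvq']
        exact Ideal.le_of_dvd ((Set.Finite.mem_toFinset hf).1 hv)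
    · intro h1
      right
      exact Finset.mem_map.2 ⟨q, (Set.Finite.mem_toFinset hf).2 (Ideal.dvd_iff_le.2 h1), rfl⟩

lemma primeTo_iff {𝔫 : Ideal (𝓞 K)} (h : 𝔫 ≠ ⊥) {S : Finset (Place K)} (hS : IsModulus 𝔫 S)
    (I : Ideal (𝓞 K)) : PrimeTo S I ↔ I ≠ ⊥ ∧ I ⊔ 𝔫 = ⊤ := by
  unfold PrimeTo
  constructor
  · rintro ⟨h1, h2⟩
    refine ⟨h1, ?_⟩
    by_contra hcon
    obtain ⟨M, hM, hIM⟩ := Ideal.exists_le_maximal _ hcon
    have hMb : M ≠ ⊥ := by
      rintro rfl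
      exact h (le_bot_iff.1 (le_sup_right.trans hIM))
    exact h2 ⟨M, hM.isPrime, hMb⟩ ((hS.fin _).2 (le_sup_right.trans hIM)) (le_sup_left.trans hIM)
  · rintro ⟨h1, h2⟩
    refine ⟨h1, fun q hq hI => ?_⟩
    have h3 := (hS.fin q).1 hq
    have h4 : (⊤ : Ideal (𝓞 K)) ≤ q.asIdeal := h2 ▸ sup_le hI h3
    exact q.isPrime.ne_top (top_le_iff.1 h4)

/-- the real place is totally split -/
lemma split_one [IsGalois K F] {s₁ : K →+* ℝ} {σ' : F →+* ℝ}
    (h : σ'.comp (algebraMap K F) = s₁) :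
    TotallySplit K F (.inl (InfinitePlace.mk (Complex.ofRealHom.comp s₁))) := by
  have hreal : ComplexEmbedding.IsReal (Complex.ofRealHom.comp σ') := by
    rw [ComplexEmbedding.isReal_iff]
    ext x
    exact Complex.conj_ofReal _
  refine split_real fun w hw => ?_
  have h1 : w.comap (algebraMap K F) =
      (InfinitePlace.mk (Complex.ofRealHom.comp σ')).comap (algebraMap K F) := by
    rw [hw, InfinitePlace.comap_mk, ← h]
    rfl
  obtain ⟨g, hg⟩ := InfinitePlace.exists_smul_eq_of_comap_eq h1.symm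
  rw [← hg, InfinitePlace.isReal_smul_iff]
  exact ⟨_, hreal, rfl⟩

/-- there are two infinite places -/
lemma two_places {s₁ σ : K →+* ℝ} (h : s₁ ≠ σ) : 2 ≤ Fintype.card (InfinitePlace K) := by
  have h1 : InfinitePlace.mk (Complex.ofRealHom.comp s₁) ≠
      InfinitePlace.mk (Complex.ofRealHom.comp σ) := by
    rw [Ne, InfinitePlace.mk_eq_iff]
    have hc : ComplexEmbedding.conjugate (Complex.ofRealHom.comp s₁) =
        Complex.ofRealHom.comp s₁ := by
      ext x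
      exact Complex.conj_ofReal _
    rw [hc, or_self]
    intro h2
    apply h
    ext x
    have h3 := congrArg (fun f : K →+* ℂ => f x) h2
    exact Complex.ofReal_injective h3
  have := Fintype.one_lt_card_iff.2 ⟨_, _, h1⟩
  omega

open Classical in
lemma sum_aux {𝔫 : Ideal (𝓞 K)} (h : 𝔫 ≠ ⊥) {S : Finset (Place K)} (hS : IsModulus 𝔫 S)
    {a' : Ideal (𝓞 K) → Gal(F/K)} {g g' : Gal(F/K)} {Z Z' : ℂ → ℂ} (hZ : IsZeta S a' g Z)
    (hZ' : IsZeta S a' g' Z') (s : ℂ) (hs : 1 < s.re) :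
    HasSum (fun I : Ideal (𝓞 K) => if I ≠ ⊥ ∧ I ⊔ 𝔫 = ⊤ then
      ((if a' I = g then (1 : ℂ) else 0) - (if a' I = g' then 1 else 0)) *
        (Ideal.absNorm I : ℂ) ^ (-s) else 0) (Z s - Z' s) := by
  refine hs_congr (fun I => ?_) ((hZ.sum s hs).sub (hZ'.sum s hs))
  by_cases h1 : I ≠ ⊥ ∧ I ⊔ 𝔫 = ⊤
  · have h2 := (primeTo_iff h hS I).2 h1
    rw [if_pos h1]
    by_cases h3 : a' I = g
    · by_cases h4 : a' I = g'
      · rw [if_pos h3, if_pos h4, if_pos ⟨h2, h3⟩, if_pos ⟨h2, h4⟩]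
        ring
      · rw [if_pos h3, if_neg h4, if_pos ⟨h2, h3⟩, if_neg fun h5 => h4 h5.2]
        ring
    · by_cases h4 : a' I = g'
      · rw [if_neg h3, if_pos h4, if_neg fun h5 => h3 h5.2, if_pos ⟨h2, h4⟩]
        ring
      · rw [if_neg h3, if_neg h4, if_neg fun h5 => h3 h5.2, if_neg fun h5 => h4 h5.2]
        ring
  · have h2 : ¬ PrimeTo S I := fun h3 => h1 ((primeTo_iff h hS I).1 h3)
    rw [if_neg h1, if_neg fun h5 => h2 h5.1, if_neg fun h5 => h2 h5.1]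
    ring

end aux

/-- **LVL** -/
theorem lvl : S_LVL := by
  intro hUNT hCOND hCONJ hEXA hPRIN hZEX hZVAL hLEV hABR K _ _ _ σ hK2 H _ _ hexp 𝔟 a hRC ρ₀ hρ₀
    hρσ 𝔫 h𝔟𝔫
  have hn0 : 𝔫 ≠ ⊥ := by
    rintro rfl
    exact hRC.ne_bot (le_bot_iff.1 h𝔟𝔫)
  obtain ⟨S, hS⟩ := exists_modulus hn0
  have hun : ∀ v : HeightOneSpectrum (𝓞 K), ¬ 𝔫 ≤ v.asIdeal → Unram K (FF σ 𝔟 a 𝔫) v :=
    hCOND hUNT K H hexp (algebraMap K ℝ) σ 𝔟 a hRC 𝔫 h𝔟𝔫
  have hun' : ∀ q : HeightOneSpectrum (𝓞 K), Sum.inr q ∉ S → Unram K (FF σ 𝔟 a 𝔫) q :=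
    fun q hq => hun q fun h => hq ((hS.fin q).2 h)
  obtain ⟨a', ha'⟩ := hEXA K (FF σ 𝔟 a 𝔫) S hun'
  obtain ⟨hp1, hp2⟩ := hPRIN K H hexp (algebraMap K ℝ) σ 𝔟 a hRC 𝔫 h𝔟𝔫 hun S hS a' ha'
  have hres : ∀ (g : Gal(H/K)) (x : FF σ 𝔟 a 𝔫),
      (((AlgEquiv.restrictNormalHom (FF σ 𝔟 a 𝔫) g) x : FF σ 𝔟 a 𝔫) : H) = g (x : H) :=
    fun g x => AlgEquiv.restrictNormalHom_apply _ g x
  have hsurj : Function.Surjective (AlgEquiv.restrictNormalHom (FF σ 𝔟 a 𝔫) :
      Gal(H/K) →* Gal(FF σ 𝔟 a 𝔫/K)) := AlgEquiv.restrictNormalHom_surjective H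
  have hexpF : ∀ g : Gal(FF σ 𝔟 a 𝔫/K), g * g = 1 := by
    intro g
    obtain ⟨g', rfl⟩ := hsurj g
    rw [← map_mul, hexp, map_one]
  have hker : ∀ g : Gal(H/K), AlgEquiv.restrictNormalHom (FF σ 𝔟 a 𝔫) g = 1 ↔ g ∈ D σ 𝔟 a 𝔫 := by
    intro g
    rw [← MonoidHom.mem_ker, IntermediateField.restrictNormalHom_ker,
      IntermediateField.fixingSubgroup_fixedField]
  have ha'eq : ∀ I, I ⊔ 𝔟 = ⊤ → a' I = AlgEquiv.restrictNormalHom (FF σ 𝔟 a 𝔫) (a I) := by
    intro I hI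
    ext x
    rw [hres]
    exact congrArg (fun y : H => (y : ℝ)) (hp1 I hI x)
  have ha'mul : ∀ I J, I ≠ ⊥ → J ≠ ⊥ → I ⊔ 𝔫 = ⊤ → J ⊔ 𝔫 = ⊤ → a' (I * J) = a' I * a' J :=
    fun I J hI hJ hI' hJ' => ha'.mul I J ((primeTo_iff hn0 hS I).2 ⟨hI, hI'⟩)
      ((primeTo_iff hn0 hS J).2 ⟨hJ, hJ'⟩)
  let cg : CommGroup Gal(FF σ 𝔟 a 𝔫/K) :=
    { (inferInstance : Group Gal(FF σ 𝔟 a 𝔫/K)) with
      mul_comm := fun x y => (IsMulCommutative.is_comm (M := Gal(FF σ 𝔟 a 𝔫/K))).comm x y }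
  by_cases htop : 𝔫 = ⊤
  · -- the trivial level
    have hr : AlgEquiv.restrictNormalHom (FF σ 𝔟 a 𝔫) (a (Ideal.span {ρ₀})) = 1 := by
      rw [hker]
      refine Subgroup.subset_closure ⟨ρ₀, ?_, ?_, ?_, hρσ, rfl⟩
      · rintro rfl
        simp at hρσ
      · rw [Ideal.eq_top_iff_one]
        have h1 : (1 : 𝓞 K) = -ρ₀ + (ρ₀ + 1) := by ring
        rw [h1]
        exact Submodule.add_mem_sup ((Ideal.span {ρ₀}).neg_mem
          (Ideal.mem_span_singleton_self ρ₀)) hρ₀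
      · rw [htop]
        exact Submodule.mem_top
    refine ⟨{ G' := Gal(FF σ 𝔟 a 𝔫/K), grp := cg, fin := inferInstance,
              res := AlgEquiv.restrictNormalHom (FF σ 𝔟 a 𝔫), surj := hsurj, ker := hker, a' := a',
              a'_eq := ha'eq, a'_mul := ha'mul, a'_ray := hp2, Zd := fun _ _ => 0,
              hol := fun _ => differentiableOn_const _, zero := fun _ => rfl, sum := ?_,
              u := fun _ => 1, int := ?_, intinv := ?_, pos := ?_, exp := ?_, gal := ?_,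
              nrm := ?_, ab := ?_ }⟩
    · intro g s hs
      have h1 : g * AlgEquiv.restrictNormalHom (FF σ 𝔟 a 𝔫) (a (Ideal.span {ρ₀})) = g := by
        rw [hr, mul_one]
      refine hs_congr (fun I => ?_) hasSum_zero
      have h2 : ∀ I, (a' I = g * AlgEquiv.restrictNormalHom (FF σ 𝔟 a 𝔫) (a (Ideal.span {ρ₀}))) ↔
          a' I = g := fun I => by rw [h1]
      by_cases h3 : I ≠ ⊥ ∧ I ⊔ 𝔫 = ⊤
      · rw [if_pos h3]
        by_cases h4 : a' I = g
        · rw [if_pos h4, if_pos ((h2 I).2 h4), sub_self, zero_mul]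
        · rw [if_neg h4, if_neg fun h5 => h4 ((h2 I).1 h5), sub_self, zero_mul]
      · rw [if_neg h3]
    · intro _
      have : (((1 : H) : H) : ℝ) = 1 := rfl
      rw [this]
      exact isIntegral_one
    · intro _
      have : (((1 : H) : H) : ℝ)⁻¹ = 1 := by
        have : (((1 : H) : H) : ℝ) = 1 := rfl
        rw [this, inv_one]
      rw [this]
      exact isIntegral_one
    · intro _
      have : (((1 : H) : H) : ℝ) = 1 := rfl
      rw [this]
      exact one_pos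
    · intro _
      have : (((1 : H) : H) : ℝ) = 1 := rfl
      rw [this, deriv_const, neg_zero, Complex.exp_zero]
      norm_num
    · intro g _
      exact map_one g
    · intro _ τ _
      rw [map_one, norm_one]
    · intro _
      refine hABR K H ⊥ 1 ?_ ?_
      · refine ⟨(⊥ : IntermediateField K H), inferInstance, inferInstance, inferInstance,
          inferInstance, inferInstance, 1, by simp, ?_⟩
        rw [IntermediateField.adjoin_one]
        exact Subsingleton.elim _ _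
      · have : ((((1 : (⊥ : IntermediateField K H)) : (⊥ : IntermediateField K H)) : H) : ℝ) = 1 :=
          rfl
        rw [this]
        exact one_pos
  · -- the other levels
    have hS3 : 3 ≤ S.card := IsModulus.card hS htop (two_places hRC.ne) hn0
    have hmax : ∃ q : HeightOneSpectrum (𝓞 K), Sum.inr q ∈ S := by
      obtain ⟨M, hM, hIM⟩ := Ideal.exists_le_maximal _ htop
      have hMb : M ≠ ⊥ := by
        rintro rfl
        exact hn0 (le_bot_iff.1 hIM)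
      exact ⟨⟨M, hM.isPrime, hMb⟩, (hS.fin _).2 hIM⟩
    choose ζ hζ using fun g => hZEX K (FF σ 𝔟 a 𝔫) S hS.inf hun' hmax a' ha' g
    set σ' : FF σ 𝔟 a 𝔫 →+* ℝ := (algebraMap H ℝ).comp (algebraMap (FF σ 𝔟 a 𝔫) H) with hσ'
    have hσ'c : σ'.comp (algebraMap K (FF σ 𝔟 a 𝔫)) = algebraMap K ℝ := rfl
    have hz := hZVAL K (FF σ 𝔟 a 𝔫) hexpF S hS.inf hun' hS3 _ (hS.inf _) (split_one hσ'c) a' ha' ζ hζ
    set r := AlgEquiv.restrictNormalHom (FF σ 𝔟 a 𝔫) (a (Ideal.span {ρ₀})) with hrdef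
    have hr : ∀ τ : FF σ 𝔟 a 𝔫 →+* ℂ, (∀ x : K, τ (algebraMap K (FF σ 𝔟 a 𝔫) x) =
        ((σ x : ℝ) : ℂ)) → ∀ x : FF σ 𝔟 a 𝔫, τ (r x) = (starRingEnd ℂ) (τ x) := by
      intro τ hτ x
      have hl : ∀ y : FF σ 𝔟 a 𝔫, ComplexEmbedding.lift H τ (y : H) = τ y := by
        intro y
        have := ComplexEmbedding.lift_comp_algebraMap H τ
        exact congrArg (fun f : FF σ 𝔟 a 𝔫 →+* ℂ => f y) this
      have h1 := hCONJ K H hexp (algebraMap K ℝ) σ 𝔟 a hRC ρ₀ hρ₀ hρσ (ComplexEmbedding.lift H τ)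
        (fun y => (hl (algebraMap K (FF σ 𝔟 a 𝔫) y)).trans (hτ y)) (x : H)
      rw [← hres, hl, hl] at h1
      exact h1
    obtain ⟨ε, he1, he2, he3, he4, he5, he6⟩ := hLEV K (FF σ 𝔟 a 𝔫) hK2 hexpF S hS3 hS.inf hun'
      (algebraMap K ℝ) σ hRC.ne σ' hσ'c a' ha' ζ hζ r hr
    refine ⟨{ G' := Gal(FF σ 𝔟 a 𝔫/K), grp := cg, fin := inferInstance,
              res := AlgEquiv.restrictNormalHom (FF σ 𝔟 a 𝔫), surj := hsurj, ker := hker, a' := a',
              a'_eq := ha'eq, a'_mul := ha'mul, a'_ray := hp2,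
              Zd := fun g s => ζ g s - ζ (g * r) s,
              hol := fun g => (hζ g).hol.sub (hζ (g * r)).hol, zero := ?_, sum := ?_,
              u := fun g => ((g ε : FF σ 𝔟 a 𝔫) : H), int := ?_, intinv := ?_, pos := ?_,
              exp := ?_, gal := ?_, nrm := ?_, ab := ?_ }⟩
    · intro g
      rw [hz, hz, sub_zero]
    · intro g s hs
      exact sum_aux hn0 hS (hζ g) (hζ (g * r)) s hs
    · intro g
      have h1 : IsIntegral ℤ (g ε) := he1.map g.toAlgHom.toRingHom.toIntAlgHom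
      exact h1.map σ'.toIntAlgHom
    · intro g
      have h1 : IsIntegral ℤ (g ε⁻¹) := he2.map g.toAlgHom.toRingHom.toIntAlgHom
      have h2 : IsIntegral ℤ (σ' (g ε⁻¹)) := h1.map σ'.toIntAlgHom
      rw [map_inv₀, map_inv₀] at h2
      exact h2
    · intro g
      exact he3 g
    · intro g
      have hd : ∀ g' : Gal(FF σ 𝔟 a 𝔫/K), DifferentiableAt ℂ (ζ g') 0 := fun g' =>
        (hζ g').hol.differentiableAt (isOpen_compl_singleton.mem_nhds (by simp))
      have h1 : deriv (fun s => ζ g s - ζ (g * r) s) 0 = deriv (ζ g) 0 - deriv (ζ (g * r)) 0 :=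
        deriv_sub (hd g) (hd (g * r))
      refine (he4 g).trans ?_
      exact congrArg Complex.exp (congrArg Neg.neg h1.symm)
    · intro g ρ
      exact (hres g (ρ ε)).symm
    · intro g τ hτ
      exact he5 (τ.comp (algebraMap (FF σ 𝔟 a 𝔫) H)) (fun x => hτ x) g
    · intro g
      exact hABR K H (FF σ 𝔟 a 𝔫) (g ε) (he6 g) (he3 g)

end Pool.Agent.H328.MO
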