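import Pool.Agent.H509.MO.Def
import Pool.Agent.H509.BT.LC
import Pool.Agent.H509.BT.LSR
import Pool.Agent.H509.BT.NORF
import Pool.Agent.H509.BT.RECD

/-!
# Project MO: the monoid Stark conjecture, ray class groups of exponent two. Statements

Notations: see `Def.lean`.
-/

set_option autoImplicit false
set_option linter.unusedSectionVars false

open NumberField IsDedekindDomain

noncomputable section

namespace Pool.Agent.MO

open Pool.Agent.W206.MS (OL IsOrder IsInv InMonoid InJ InP Loc nn Pair sm Good REq Rel cnt IsZ idx contr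
  IsRealPrime IsFrobenius IsRayClassField InducesIso CondI CondII CondIII CondIV)
open Pool.Agent.N598.ST (Place Unram IsArtin IsZeta AbRoot TotallySplit PrimeTo)
open Pool.Agent.N820.RS (IsModulus)
open Pool.Agent.Q92.AR (Dv prin Pr Ray art Pos Cong frob Unramified Ram)
open Pool.Agent.Q20.EX (Inert CongAt)
open Pool.Agent.BT9 (RamAt RamR)

/-! ## The dictionary -/

/-- DIC. The dictionary between the ideals of `𝓞 K` and the lattices in `K`.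
(`IsInv`: `sub I * sub J = sub (span {x}) = x OL`, take `x⁻¹ sub J`; `idx` is a `relIndex`, compare
`Submodule.cardQuot`, `Ideal.absNorm`.) -/
def S_DIC : Prop := ∀ (K : Type) [Field K] [NumberField K],
  (∀ (I : Ideal (𝓞 K)) (x : K), x ∈ sub I ↔ ∃ y ∈ I, (y : K) = x) ∧
  (∀ I J : Ideal (𝓞 K), sub (I * J) = sub I * sub J) ∧
  sub (⊤ : Ideal (𝓞 K)) = OL (OK K) ∧
  (∀ I J : Ideal (𝓞 K), sub I ≤ sub J ↔ I ≤ J) ∧
  (∀ I J : Ideal (𝓞 K), sub (I ⊔ J) = sub I ⊔ sub J) ∧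
  (∀ x : 𝓞 K, sub (Ideal.span {x}) = sm (x : K) (OL (OK K))) ∧
  (∀ I : Ideal (𝓞 K), I ≠ ⊥ → IsInv (OK K) (sub I)) ∧
  (∀ A : Submodule ℤ K, OL (OK K) * A = A → A ≤ OL (OK K) → ∃ I : Ideal (𝓞 K), sub I = A) ∧
  (∀ I : Ideal (𝓞 K), idx (OK K) (sub I) = Ideal.absNorm I)

/-- GD. Ideals prime to `𝔟` (`Pair.inv_inf`, `Pair.ext_inf`, `Pair.ext_inj`, `Pair.good_ext` in
`W206/MS/Pair.lean`, `Count.lean`). -/
def S_GD : Prop := S_DIC → ∀ (K : Type) [Field K] [NumberField K] (O : Subalgebra ℤ K)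
  (m b : Submodule ℤ K), Pair O (OK K) m b → ∀ 𝔟 : Ideal (𝓞 K), sub 𝔟 = b →
  (∀ J : Ideal (𝓞 K), J ⊔ 𝔟 = ⊤ → Good (OK K) b (sub J) ∧ Good O b (sub J ⊓ OL O) ∧
    OL (OK K) * (sub J ⊓ OL O) = sub J) ∧
  (∀ I J : Ideal (𝓞 K), I ⊔ 𝔟 = ⊤ → J ⊔ 𝔟 = ⊤ →
    sub (I * J) ⊓ OL O = (sub I ⊓ OL O) * (sub J ⊓ OL O)) ∧
  (∀ x : 𝓞 K, x - 1 ∈ 𝔟 → (x : K) ∈ O ∧ sub (Ideal.span {x}) ⊓ OL O = sm (x : K) (OL O)) ∧
  (∀ g : Submodule ℤ K, Good O b g → ∃ J : Ideal (𝓞 K), J ⊔ 𝔟 = ⊤ ∧ sub J = OL (OK K) * g ∧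
    sub J ⊓ OL O = g)

/-- CNT. The zeta function of a class of `O` as a sum over the ideals of the maximal order.
Proof: for `n ≠ 0`, `cnt O m σ x n` is the sum of the `nn O OK m σ (sub I) x` over the ideals `I` of norm `n`
(`cnt_eq`, first half of the proof of `Pair.count` in `W206/MS/Count.lean`); then group the absolutely
convergent sum by the norm (`HasSum.sigma`, the fibres are finite: `Ideal.finite_setOf_absNorm_eq`). -/
def S_CNT : Prop := S_DIC → ∀ (K : Type) [Field K] [NumberField K] (σ : K →+* ℝ)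
  (O : Subalgebra ℤ K) (m b : Submodule ℤ K), Pair O (OK K) m b → ∀ x y : Submodule ℤ K,
  InMonoid O m x → InMonoid O m y → ∀ s F : ℂ, HasSum (fun I : Ideal (𝓞 K) =>
    if I = ⊥ then 0 else ((nn O (OK K) m σ (sub I) x : ℂ) - (nn O (OK K) m σ (sub I) y : ℂ)) *
      (Ideal.absNorm I : ℂ) ^ (-s)) F →
  LSeriesHasSum (fun n => (cnt O m σ x n : ℂ) - (cnt O m σ y n : ℂ)) s F

/-- NN. The numbers `nn` only depend on the class.
Proof.  `span {y} * B₁ * I = span {x} * B₂ * J` (both are `span {x * y}` up to ...: `y (I B₁) = y x = x (J B₂)`).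
With `β` one of `x`, `y`, `α`: `(β - 1) z ∈ b` for `z ∈ sub (𝔡 * I')`, since `β - 1 ∈ 𝔫`, so
`REq OK b σ (sub (span {β} * 𝔡 * I')) (sub (𝔡 * I'))` and `Pair.nn_congr_left` applies.
`nn (𝔡 I) z = nn (y 𝔡 I) z = nn (B₁ y 𝔡 I) (b₁ z)` (`Pair.nn_mul`, `b₁ = sub B₁ ⊓ OL O`)
`= nn (x 𝔡 J B₂) (b₁ z) = nn (α x 𝔡 J B₂) (b₁ z) = nn (α x 𝔡 J B₂) (g z)`, `g = sub (span {α} * B₂) ⊓ OL O`,
`= nn (x 𝔡 J) z = nn (𝔡 J) z`.  Here `nn_congr_right` with `REq O m σ (b₁ z) (g z)`: `Art b₁ = Art g`, so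
`Art (b₁ g) = 1` and `Art (g g) = 1` (exponent two), `b₁ g = λ O`, `g g = μ O` with `λ, μ ≡ 1 mod m`,
`σ λ, σ μ > 0`, so `b₁ = (λ / μ) g` (`IsInv.cancel`), and `REq.sm_left` (`one_mod_mul`, `one_mod_inv`). -/
def S_NN : Prop := S_DIC → S_GD → ∀ (K : Type) [Field K] [NumberField K] (σ : K →+* ℝ)
  (O : Subalgebra ℤ K) (m b : Submodule ℤ K), Pair O (OK K) m b → ∀ 𝔟 : Ideal (𝓞 K), sub 𝔟 = b →
  ∀ (G : Type) [Group G] (Art : Submodule ℤ K → G), InducesIso σ O m Art → (∀ g : G, g * g = 1) →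
  ∀ 𝔡 𝔫 : Ideal (𝓞 K), 𝔡 * 𝔫 = 𝔟 → ∀ (I J B₁ B₂ : Ideal (𝓞 K)) (x y α : 𝓞 K), I ≠ ⊥ → J ≠ ⊥ →
  Ideal.span {x} = I * B₁ → Ideal.span {y} = J * B₂ → x - 1 ∈ 𝔫 → y - 1 ∈ 𝔫 → 0 < σ (x : K) →
  0 < σ (y : K) → B₁ ⊔ 𝔟 = ⊤ → B₂ ⊔ 𝔟 = ⊤ → α - 1 ∈ 𝔫 → 0 < σ (α : K) → Ideal.span {α} ⊔ 𝔟 = ⊤ →
  aO O Art B₁ = aO O Art (Ideal.span {α} * B₂) → ∀ z : Submodule ℤ K, InMonoid O m z →
  nn O (OK K) m σ (sub (𝔡 * I)) z = nn O (OK K) m σ (sub (𝔡 * J)) z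

/-- APX. Approximation.
Proof: Chinese remainder theorem: `x ∈ I`, `x ≡ 1 mod 𝔫`, `v(x) = v(I)` at the primes `v ∣ 𝔟`; positivity by
adding a large positive integer in `I * 𝔟 * ∏_{v ∣ 𝔟} v`. -/
def S_APX : Prop := ∀ (K : Type) [Field K] [NumberField K] (σ : K →+* ℝ) (𝔟 𝔫 I : Ideal (𝓞 K)),
  𝔟 ≠ ⊥ → 𝔟 ≤ 𝔫 → I ≠ ⊥ → I ⊔ 𝔫 = ⊤ → ∃ (x : 𝓞 K) (B : Ideal (𝓞 K)), x ≠ 0 ∧
  Ideal.span {x} = I * B ∧ B ⊔ 𝔟 = ⊤ ∧ x - 1 ∈ 𝔫 ∧ 0 < σ (x : K)

/-- RCX. The ray class data from a ray class field of the order `O`.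
Proof.  `P := mkPair ..` (`W206/MS/Final.lean`) is a `Pair O OK m (m / OL OK)`.  `one`, `mul`, `ray`: `S_GD`, `Good.mono`,
`Good.inJ`, `InducesIso` (for `x ≡ 1 mod 𝔟`, `σ x > 0` the ideal `x O` is in `InP`).  `surj`: `InducesIso` and
`Pair.exists_rep`, `S_GD` (4).  `frob`: a prime `w` of `𝓞 H` is the contraction of a prime ideal `P` of the
ring of all real algebraic integers (integral extension: `Ideal.exists_ideal_over_prime_of_isIntegral`),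
`IsRealPrime P`; `contr P OK = sub v`, `contr P O = sub v ⊓ OL O` (`mem_contr`), and `idx = absNorm` (`S_DIC`).
`real`: a field of degree two has at most two real embeddings. -/
def S_RCX : Prop := S_DIC → S_GD → ∀ (K : Type) [Field K] [NumberField K] [Algebra K ℝ]
  (σ : K →+* ℝ), Module.finrank ℚ K = 2 → σ ≠ algebraMap K ℝ → ∀ (O : Subalgebra ℤ K)
  (m : Submodule ℤ K), IsOrder O → Pool.Agent.W206.MS.IsModulus O m →
  ∀ (H : IntermediateField K ℝ) [NumberField H] (Art : Submodule ℤ K → Gal(H/K)),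
  IsRayClassField σ O m H Art → ∀ 𝔟 : Ideal (𝓞 K), sub 𝔟 = m / OL (OK K) →
  RC (algebraMap K ℝ) σ 𝔟 (aO O Art)

/-! ## Reciprocity -/

/-- UNT. If `ψ` is ramified at `v`, its local component at `v` is not trivial on the units.
Proof.  `Pool.Agent.Q111.EX.exists_quot ψ` (see the proof of `recB` in `H509/Rec1.lean`): `ψ` is an injective
character `θ'` of `Gal(L/F)`, `[L : F] = 2`, composed with the restriction; `v` is ramified in `L` (the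
inertia element with `ψ g ≠ 1` restricts to an inertia element), so there is only one prime `w` of `L`
above `v`, and `v = w²`.  Replace `N` by a multiple which is good for everything (`Ram F M N`, `v ∣ N`, the
numbers of `recip`, `S_NORF` for `L`, `θ'`).  `Pool.Agent.H181.BT.lc` (`S_LC`, see also `lc_ram` in
`Pool/Agent/H509/BT/LC.lean`) gives `z` totally positive, near `1` outside `v`, with
`art θ' (prin z - v(z) v) ≠ 0`.  Let `y ∈ Lˣ` with `w(y) = 1`; `nu y` has valuation one at `v`; choose `z'` totally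
positive, near `1` outside `v`, near `nu y` at `v`: `art θ' (prin z' - v(z') v) = 0` by `S_NORF`
(`Pool/Agent/H509/BT/NORF.lean`).  `x = z * z' ^ (- v(z))` is a unit at `v`, `art θ' (prin x) ≠ 0`, and
`art θ' (prin x) = art ψ (prin x)` (`Pool.Agent.Q111.EX.art_quot`; `prin x` is prime to `N`). -/
def S_UNT : Prop := ∀ (F M : Type) [Field F] [NumberField F] [Field M] [NumberField M] [Algebra F M]
  [IsGalois F M] (ψ : (M ≃ₐ[F] M) →* ℂˣ), (∀ g, ψ g * ψ g = 1) → ∀ v : HeightOneSpectrum (𝓞 F),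
  RamAt ψ v → ∀ N : ℕ, N ≠ 0 → ∃ x : Fˣ, Pos (x : F) ∧ CongAt {v}ᶜ N (x : F) ∧
    v.valuation F (x : F) = 1 ∧ art ψ (prin x) ≠ 0

/-- COND. The fixed field of `D 𝔫` is unramified outside `𝔫`.
Proof.  By `Pool.Agent.Q111.EX.unram_of_inert` (see `recB` in `H509/Rec1.lean`) it is enough that every inertia
element `g` at a prime `w` above `v` is in `D 𝔫`.  If not, there is a character `ψ` of `Gal(H/K)`, trivial on
`D 𝔫`, with `ψ g ≠ 1` (the group is finite of exponent two), so `RamAt ψ v`.  `S_UNT` with `N` a multiple of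
`absNorm 𝔟`, of the ramified primes (`Ram K H N`, `Pool.Agent.Q280.AR.rF`), of `v` and of a modulus for `ψ`
(`Pool.Agent.Q92.AR.recip`), to a high power, gives `x`.  Write `x = α / t` with a positive integer `t ≡ 1 mod N`
and `α ∈ 𝓞 K`: `art ψ (prin t) = 0`, `α ≡ 1 mod 𝔫` (`v ∤ 𝔫`), `α` is prime to `𝔟` and to `N`, `σ α > 0`, so
`a (α) ∈ D 𝔫`, and `art ψ (prin α)` is `ψ (a (α))` since all primes dividing `α` are unramified and prime to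
`𝔟` (`a` is multiplicative, `RC.frob`, uniqueness of the Frobenius element): contradiction.
Translation `Unramified` → `Unram`: `Pool.Agent.H588.ST.unr` (`ST/UNR.lean`), `Rec3.lean`. -/
def S_COND : Prop := S_UNT → ∀ (K H : Type) [Field K] [NumberField K] [Field H] [NumberField H]
  [Algebra K H] [IsAbelianGalois K H], (∀ g : Gal(H/K), g * g = 1) → ∀ (s₁ σ : K →+* ℝ)
  (𝔟 : Ideal (𝓞 K)) (a : Ideal (𝓞 K) → Gal(H/K)), RC s₁ σ 𝔟 a → ∀ 𝔫 : Ideal (𝓞 K), 𝔟 ≤ 𝔫 →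
  ∀ v : HeightOneSpectrum (𝓞 K), ¬ 𝔫 ≤ v.asIdeal → Unram K (FF σ 𝔟 a 𝔫) v

/-- CONJ. The Artin symbol of `(ρ)`, `ρ ≡ -1 mod 𝔟`, `σ ρ > 0`, is the complex conjugation at `σ`.
Proof.  `τ` is complex; there is `c ∈ Gal(H/K)` with `τ (c x) = conj (τ x)` (`exists_conj` in `H509/Rec1.lean`; `H / K`
is abelian, so all embeddings over `σ` have the same `c`).  It is enough that `ψ c = ψ (a (ρ))` for all
characters `ψ`.  Let `α ∈ 𝓞 K`, `α ≡ 1` modulo (`N`, a multiple of `absNorm 𝔟`), `σ α < 0`: then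
`a (α) = a (ρ)`, because `(-α) ρ ≡ 1 mod 𝔟`, `σ ((-α) ρ) > 0` and the exponent is two.  (1) `ψ c = 1`: `ψ` is not
ramified at `σ`, and not at `s₁` (real embedding of `H`), so `Pool/Agent/H509/BT/RECD.lean` (`S_RECD`) gives
`art ψ (prin α) = 0` for suitable `N`.  (2) `ψ c ≠ 1`: `RamR ψ σ`, and `Pool/Agent/H509/BT/LSR.lean` (`S_LSR`) gives
`x = α / t`, `t` a positive integer `≡ 1 mod N`, `σ α < 0`, with `art ψ (prin α) ≠ 0`.  Here
`art ψ (prin α) = ψ (a (α))` as in `S_COND`. -/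
def S_CONJ : Prop := ∀ (K H : Type) [Field K] [NumberField K] [Field H] [NumberField H]
  [Algebra K H] [IsAbelianGalois K H], (∀ g : Gal(H/K), g * g = 1) → ∀ (s₁ σ : K →+* ℝ)
  (𝔟 : Ideal (𝓞 K)) (a : Ideal (𝓞 K) → Gal(H/K)), RC s₁ σ 𝔟 a → ∀ ρ : 𝓞 K, ρ + 1 ∈ 𝔟 →
  0 < σ (ρ : K) → ∀ τ : H →+* ℂ, (∀ x : K, τ (algebraMap K H x) = ((σ x : ℝ) : ℂ)) →
  ∀ x : H, τ (a (Ideal.span {ρ}) x) = (starRingEnd ℂ) (τ x)

/-- EXA. The Artin map exists (define it by the factorization into prime ideals). -/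
def S_EXA : Prop := ∀ (K F : Type) [Field K] [NumberField K] [Field F] [NumberField F]
  [Algebra K F] [IsAbelianGalois K F] (S : Finset (Place K)),
  (∀ q : HeightOneSpectrum (𝓞 K), Sum.inr q ∉ S → Unram K F q) →
  ∃ a' : Ideal (𝓞 K) → Gal(F/K), IsArtin S a'

/-- PRIN. The Artin map of the fixed field of `D 𝔫`.
Proof.  (1) both sides are multiplicative and agree at the primes not dividing `𝔟` (Frobenius elements at
unramified primes are unique).  (2) It is enough that `ψ (a' (x)) = 1` for all characters `ψ` of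
`Gal(F/K)`, `F = FF 𝔫`.  `ψ` is ramified only at primes dividing `𝔫` (hypothesis) and not at `s₁`.  `S_RECD`
gives `N` (multiply by `absNorm 𝔟`, and by bad primes).  Choose `α ∈ 𝓞 K` with `α ≡ x` modulo a high power of
`N` at the primes dividing `𝔫`, `α ≡ 1` at the other primes dividing `N`, `σ α > 0`, and
positive at `s₁`.  `α ≡ 1 mod 𝔫`, `α` prime to `𝔟`, so `a (α) ∈ D 𝔫` and `a' (α) = 1` by (1).  `x / α` is near `1` at the
ramified primes and `σ (x / α) > 0`, so `art ψ (prin (x / α)) = 0` by `S_RECD`; and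
`art ψ (prin (x / α)) = ψ (a' (x)) / ψ (a' (α))`, as all primes dividing `x` or `α` are unramified in `F`. -/
def S_PRIN : Prop := ∀ (K H : Type) [Field K] [NumberField K] [Field H] [NumberField H]
  [Algebra K H] [IsAbelianGalois K H], (∀ g : Gal(H/K), g * g = 1) → ∀ (s₁ σ : K →+* ℝ)
  (𝔟 : Ideal (𝓞 K)) (a : Ideal (𝓞 K) → Gal(H/K)), RC s₁ σ 𝔟 a → ∀ 𝔫 : Ideal (𝓞 K), 𝔟 ≤ 𝔫 →
  (∀ v : HeightOneSpectrum (𝓞 K), ¬ 𝔫 ≤ v.asIdeal → Unram K (FF σ 𝔟 a 𝔫) v) →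
  ∀ S : Finset (Place K), IsModulus 𝔫 S → ∀ a' : Ideal (𝓞 K) → Gal(FF σ 𝔟 a 𝔫/K), IsArtin S a' →
  (∀ I : Ideal (𝓞 K), I ⊔ 𝔟 = ⊤ → ∀ x : FF σ 𝔟 a 𝔫,
    ((a' I x : FF σ 𝔟 a 𝔫) : H) = a I (x : H)) ∧
  (∀ x : 𝓞 K, x ≠ 0 → x - 1 ∈ 𝔫 → 0 < σ (x : K) → a' (Ideal.span {x}) = 1)

/-! ## Zeta functions -/

/-- ZEX. The partial zeta functions exist (have a continuation).
Proof.  It is enough that `∑ 𝔞, χ (a 𝔞) N𝔞^(-s)` (over the ideals prime to `S`) has a continuation, holomorphic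
on `{1}ᶜ`, for every character `χ` of `Gal(F/K)`.  `χ = 1`: the Dedekind zeta function times Euler factors
(`Pool.Agent.H509.Z0`, `H509/Zeta0.lean`, or `Pool.Agent.Y149.AR.S_UNR`, proved in
`R_pool_sql_team_seeded_1acbe0a2/Y759/AR/Unr.lean`, `Y824/AR/Ft.lean`).  `χ ≠ 1`: `Pool.Agent.Y773.G.t_ent : StEnt`
(`R_seed8/Y773/HG/Ent.lean`) for `η 𝔞 = χ (a 𝔞)` (`0` if `𝔞` is not prime to `S`) and the modulus
`𝔪 = ∏_{v ∈ S} v^k`, `k` large: `S_RECD` (`Pool/Agent/H509/BT/RECD.lean`) shows that `η (x) = 1` for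
`x ≡ 1 mod 𝔪` totally positive (only the primes where `χ` is ramified matter, they are in `S`), and
`Pool.Agent.Y772.G.t_sig` (`R_seed8/Y772/HG/Sgn.lean`) gives the signature.  `η 𝔞 ≠ 1` for some `𝔞`: the Artin map is
onto (`Pool.Agent.H509.exists_frob`, Chebotarev). -/
def S_ZEX : Prop := ∀ (K F : Type) [Field K] [NumberField K] [Field F] [NumberField F]
  [Algebra K F] [IsAbelianGalois K F] (S : Finset (Place K)), (∀ v : InfinitePlace K, Sum.inl v ∈ S) →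
  (∀ q : HeightOneSpectrum (𝓞 K), Sum.inr q ∉ S → Unram K F q) →
  (∃ q : HeightOneSpectrum (𝓞 K), Sum.inr q ∈ S) → ∀ a : Ideal (𝓞 K) → Gal(F/K), IsArtin S a →
  ∀ g : Gal(F/K), ∃ Z : ℂ → ℂ, IsZeta S a g Z

/-- ZVAL. The partial zeta functions vanish at `s = 0` if a place of `S` is totally split and `3 ≤ #S`.
Proof: as `Pool.Agent.H115.ST.zero : S_ZERO` (`Pool/Agent/H509/ST/ZERO.lean`; there: derivatives, two split places;
here: values, one split place; all characters are quadratic or trivial). -/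
def S_ZVAL : Prop := ∀ (K F : Type) [Field K] [NumberField K] [Field F] [NumberField F]
  [Algebra K F] [IsAbelianGalois K F], (∀ g : Gal(F/K), g * g = 1) → ∀ S : Finset (Place K),
  (∀ v : InfinitePlace K, Sum.inl v ∈ S) →
  (∀ q : HeightOneSpectrum (𝓞 K), Sum.inr q ∉ S → Unram K F q) → 3 ≤ S.card →
  ∀ p ∈ S, TotallySplit K F p → ∀ a : Ideal (𝓞 K) → Gal(F/K), IsArtin S a →
  ∀ Z : Gal(F/K) → ℂ → ℂ, (∀ g, IsZeta S a g (Z g)) → ∀ g, Z g 0 = 0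

/-- LEV. The Stark unit of one level.
Proof.  `ε` from `Pool.Agent.STk.real_page` (`Pool/Agent/H509/ST/Pages.lean`).  The derivatives `deriv (ζ ρ) 0` are real
(compare `IsZ.deriv_real` in `W206/MS/Zeta.lean`).  `τ (r x) = conj (τ x)` and `|τ ε| = 1` for all `τ` over `σ` (there
is one) give `ε * r ε = 1`, so `-2 ζ'(ρ r) = log σ' (ρ r ε) = - log σ' (ρ ε) = 2 ζ'(ρ)`.  `AbRoot K 2 (ρ ε)`: change
the `F`-algebra structure of `M` by `ρ`. -/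
def S_LEV : Prop := ∀ (K F : Type) [Field K] [NumberField K] [Field F] [NumberField F]
  [Algebra K F] [IsAbelianGalois K F], Module.finrank ℚ K = 2 → (∀ g : Gal(F/K), g * g = 1) →
  ∀ S : Finset (Place K), 3 ≤ S.card → (∀ v : InfinitePlace K, Sum.inl v ∈ S) →
  (∀ q : HeightOneSpectrum (𝓞 K), Sum.inr q ∉ S → Unram K F q) → ∀ s₁ σ : K →+* ℝ, s₁ ≠ σ →
  ∀ σ' : F →+* ℝ, σ'.comp (algebraMap K F) = s₁ → ∀ a : Ideal (𝓞 K) → Gal(F/K), IsArtin S a →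
  ∀ ζ : Gal(F/K) → ℂ → ℂ, (∀ ρ, IsZeta S a ρ (ζ ρ)) → ∀ r : Gal(F/K),
  (∀ τ : F →+* ℂ, (∀ x : K, τ (algebraMap K F x) = ((σ x : ℝ) : ℂ)) →
    ∀ x : F, τ (r x) = (starRingEnd ℂ) (τ x)) →
  ∃ ε : F, IsIntegral ℤ ε ∧ IsIntegral ℤ ε⁻¹ ∧ (∀ ρ : Gal(F/K), 0 < σ' (ρ ε)) ∧
    (∀ ρ : Gal(F/K), ((σ' (ρ ε) : ℝ) : ℂ) =
      Complex.exp (-(deriv (ζ ρ) 0 - deriv (ζ (ρ * r)) 0))) ∧
    (∀ τ : F →+* ℂ, (∀ x : K, τ (algebraMap K F x) = ((σ x : ℝ) : ℂ)) →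
      ∀ ρ : Gal(F/K), ‖τ (ρ ε)‖ = 1) ∧
    ∀ ρ : Gal(F/K), AbRoot K 2 (ρ ε)

/-- ABR. The square root inside the real numbers.
Proof.  `M ⊇ F`, `z² = e`.  Extend `F ⊆ ℝ ⊆ ℂ` to an embedding `φ` of `M` in `ℂ`; `φ(z)² = e > 0`, so `φ(z)` is real,
`= ± √e`, and `K(√e)` is contained in the image of `M`, which is in `ℝ` (`M = F(z)`) and abelian over `K`;
the compositum with `H` is abelian (`isAbelianGalois_iSup`, `isAbelianGalois_le` in `W206/MS/Res.lean`). -/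
def S_ABR : Prop := ∀ (K : Type) [Field K] [NumberField K] [Algebra K ℝ]
  (H : IntermediateField K ℝ) [NumberField H] [IsAbelianGalois K H] (F : IntermediateField K H)
  (e : F), AbRoot K 2 e → 0 < (((e : F) : H) : ℝ) → CondIV H (((e : F) : H) : ℝ)

/-! ## Assembly -/

/-- LVL. Assembly of the levels.
`F = FF σ 𝔟 a 𝔫`, `G' = Gal(F/K)` (commutative), `res = AlgEquiv.restrictNormalHom F` (kernel `D 𝔫` by Galois theory),
`S` the infinite places and the primes dividing `𝔫`, `a'` from `S_EXA`, `r = a (ρ)`, `res r` is the complex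
conjugation at `σ` (`S_CONJ`; every `τ` of `F` extends to `H`).
`𝔫 ≠ ⊤`: `ζ` from `S_ZEX`, `Zd g = ζ g - ζ (g res(r))`, `3 ≤ #S` (`IsModulus.card`), the place of `s₁` is totally split
(`Pool.Agent.N820.RS.split_real`), `u g = g ε` with `ε` from `S_LEV` and `σ'` the inclusion `F ⊆ H ⊆ ℝ`.
`𝔫 = ⊤`: `Zd = 0`, `u = 1`; `res r = 1` because `r = a (ρ) ∈ D ⊤`. -/
def S_LVL : Prop := S_UNT → S_COND → S_CONJ → S_EXA → S_PRIN → S_ZEX → S_ZVAL → S_LEV → S_ABR →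
  ∀ (K : Type) [Field K] [NumberField K] [Algebra K ℝ] (σ : K →+* ℝ), Module.finrank ℚ K = 2 →
  ∀ (H : IntermediateField K ℝ) [NumberField H] [IsAbelianGalois K H],
  (∀ g : Gal(H/K), g * g = 1) → ∀ (𝔟 : Ideal (𝓞 K)) (a : Ideal (𝓞 K) → Gal(H/K)),
  RC (algebraMap K ℝ) σ 𝔟 a → ∀ ρ : 𝓞 K, ρ + 1 ∈ 𝔟 → 0 < σ (ρ : K) → ∀ 𝔫 : Ideal (𝓞 K), 𝔟 ≤ 𝔫 →
  Nonempty (Level σ H 𝔟 a (a (Ideal.span {ρ})) 𝔫)

/-- the properties of the numbers `Cn` -/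
structure ClsP {K : Type} [Field K] [NumberField K] [Algebra K ℝ] {σ : K →+* ℝ}
    {H : IntermediateField K ℝ} [NumberField H] (O : Subalgebra ℤ K) (m : Submodule ℤ K)
    (Art : Submodule ℤ K → Gal(H/K)) {𝔟 : Ideal (𝓞 K)} {r : Gal(H/K)} {𝔫 : Ideal (𝓞 K)}
    (L : Level σ H 𝔟 (aO O Art) r 𝔫) : Prop where
  /-- the numbers `nn` are given by the `Cn` -/
  cls : ∀ I : Ideal (𝓞 K), I ≠ ⊥ → I ⊔ 𝔫 = ⊤ → ∀ x : Submodule ℤ K, InMonoid O m x →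
    nn O (OK K) m σ (sub (cof 𝔟 𝔫 * I)) x = Cn O m L x (L.a' I)
  eqv : ∀ b : Submodule ℤ K, InJ O m b → ∀ x : Submodule ℤ K, InMonoid O m x → ∀ ρ : L.G',
    Cn O m L (b * x) (L.res (Art b) * ρ) = Cn O m L x ρ
  cong : ∀ x y : Submodule ℤ K, REq O m σ x y → ∀ ρ : L.G', Cn O m L x ρ = Cn O m L y ρ

/-- CLS.
Proof.  First: every element of `D σ 𝔟 a 𝔫` is `a (span {x})` for one `x` as in the definition of `D`
(closure induction, exponent two).  `cls`: `J = Jr L (a' I)`, `J ⊔ 𝔟 = ⊤`, `a' J = a' I` (`J` exists by `L.surj`, `RC.surj`,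
`a'_eq`).  `S_APX` for `I` and `J` gives `(x) = I B₁`, `(y) = J B₂`; `a' I a' B₁ = a' (x) = 1`, `a' J a' B₂ = 1`, so
`a' B₁ = a' B₂`, `a B₁ (a B₂)⁻¹ ∈ D 𝔫`, `a B₁ = a (span {α}) a B₂ = a (span {α} * B₂)`, and `S_NN` with `𝔡 = cof 𝔟 𝔫` applies.
`eqv`: `Pair.exists_rep` gives `α ≡ 1 mod m`, `g = α b` good (prime to the conductor), `Art g = Art b`; `S_GD` (4) gives
`G` with `sub G = OL OK * g`; `Pair.nn_mul`, `cls` for `G * J`, and `nn_congr_right` (`REq O m σ (g x) (b x)`: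
`REq.sm_left`).  `cong`: `nn_congr_right`. -/
def S_CLS : Prop := S_DIC → S_GD → S_NN → S_APX → ∀ (K : Type) [Field K] [NumberField K]
  [Algebra K ℝ] (σ : K →+* ℝ) (O : Subalgebra ℤ K) (m b : Submodule ℤ K), Pair O (OK K) m b →
  ∀ 𝔟 : Ideal (𝓞 K), sub 𝔟 = b → ∀ (H : IntermediateField K ℝ) [NumberField H]
  [IsAbelianGalois K H], (∀ g : Gal(H/K), g * g = 1) → ∀ Art : Submodule ℤ K → Gal(H/K),
  InducesIso σ O m Art → RC (algebraMap K ℝ) σ 𝔟 (aO O Art) → ∀ (r : Gal(H/K))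
  (𝔫 : Ideal (𝓞 K)), 𝔟 ≤ 𝔫 → ∀ L : Level σ H 𝔟 (aO O Art) r 𝔫, ClsP O m Art L

/-- FINA. The zeta function of a class of `O`.
Proof.  `IsZ` with the given `ρ₀`; `S_CNT` for `x` and `y = ρ₀ x`.  Every ideal `I ≠ ⊥` is uniquely
`cof 𝔟 𝔫 * I'` with `𝔟 ≤ 𝔫` and `I' ⊔ 𝔫 = ⊤` (`cof 𝔟 𝔫 = I ⊔ 𝔟`), and `nn (sub I) x = Cn x (a' I')`,
`nn (sub I) (ρ₀ x) = Cn (ρ₀ x) (a' I') = Cn x (res(r) a' I')` (`eqv` for `b = ρ₀ O`, `r = aO (span {ρ₀}) = Art (ρ₀ O)`, `r r = 1`).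
So the sum over `I` is `∑_𝔫 N(cof 𝔟 𝔫)^(-s) ∑_ρ (Cn x ρ - Cn x (ρ res(r))) ∑_{a' I' = ρ} N(I')^(-s)`; the sums over the
`I'` with `a' I' = ρ` converge absolutely for `Re s > 1` (Dedekind zeta function), and after reindexing
`ρ ↦ ρ res(r)` this is `∑_𝔫 N(cof)^(-s) ∑_ρ Cn x ρ * Zd ρ s`. -/
def S_FINA : Prop := S_DIC → S_GD → S_CNT → ∀ (K : Type) [Field K] [NumberField K]
  [Algebra K ℝ] (σ : K →+* ℝ) (O : Subalgebra ℤ K) (m b : Submodule ℤ K), Pair O (OK K) m b →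
  ∀ 𝔟 : Ideal (𝓞 K), sub 𝔟 = b → ∀ (H : IntermediateField K ℝ) [NumberField H]
  [IsAbelianGalois K H], (∀ g : Gal(H/K), g * g = 1) → ∀ Art : Submodule ℤ K → Gal(H/K),
  InducesIso σ O m Art → RC (algebraMap K ℝ) σ 𝔟 (aO O Art) → ∀ ρ₀ : 𝓞 K, ρ₀ + 1 ∈ 𝔟 →
  0 < σ (ρ₀ : K) → ∀ [Fintype {𝔫 : Ideal (𝓞 K) // 𝔟 ≤ 𝔫}]
  (L : ∀ 𝔫 : {𝔫 : Ideal (𝓞 K) // 𝔟 ≤ 𝔫}, Level σ H 𝔟 (aO O Art) (aO O Art (Ideal.span {ρ₀})) 𝔫.1),
  (∀ 𝔫, ClsP O m Art (L 𝔫)) → ∀ x : Submodule ℤ K, InMonoid O m x →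
  IsZ O m σ x (fun s => ∑ 𝔫, ∑ ρ, (Cn O m (L 𝔫) x ρ : ℂ) *
    ((Ideal.absNorm (cof 𝔟 𝔫.1) : ℂ) ^ (-s) * (L 𝔫).Zd ρ s))

end Pool.Agent.MO
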